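import Mathlib

/-!
The 5-adic counting lemma for the reflections in the vectors `2 e_i + e_j`.
-/

namespace Pool.Agent.P.MP_465281_an

open scoped Classical

variable {n : ℕ}

/-- the integer vector `2 e_i + e_j`, or zero on the diagonal -/
def wz (s : Fin n × Fin n) (k : Fin n) : ℤ :=
  if s.1 = s.2 then 0 else if k = s.1 then 2 else if k = s.2 then 1 else 0

/-- inner product with `wz s` -/
def ipz (s : Fin n × Fin n) (m : Fin n → ℤ) : ℤ := if s.1 = s.2 then 0 else 2 * m s.1 + m s.2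

/-- the 5-adic valuation drops from `m` to `m'` -/
def Up (m m' : Fin n → ℤ) : Prop := ∃ a : ℕ, (∀ k, (5 : ℤ) ^ a ∣ m k) ∧ ¬ ∀ k, (5 : ℤ) ^ a ∣ m' k

lemma exists_val (m : Fin n → ℤ) (hm : m ≠ 0) :
    ∃ (a : ℕ) (u : Fin n → ℤ), (∀ k, m k = 5 ^ a * u k) ∧ ∃ i, ¬ (5 : ℤ) ∣ u i := by
  have hex : ∃ a : ℕ, ¬ ∀ k, (5 : ℤ) ^ (a + 1) ∣ m k := by
    obtain ⟨k, hk⟩ := Function.ne_iff.1 hm
    refine ⟨(m k).natAbs, fun h => ?_⟩
    have h1 := Int.natAbs_le_of_dvd_ne_zero (h k) hk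
    rw [Int.natAbs_pow] at h1
    have h2 : (m k).natAbs + 1 < 5 ^ ((m k).natAbs + 1) := Nat.lt_pow_self (by norm_num)
    simp only [Int.reduceAbs] at h1
    omega
  have h1 : ∀ k, (5 : ℤ) ^ (Nat.find hex) ∣ m k := by
    rcases h : Nat.find hex with _ | a
    · simp
    · have := Nat.find_min hex (m := a) (by omega)
      exact not_not.1 this
  choose u hu using h1
  refine ⟨Nat.find hex, u, hu, ?_⟩
  by_contra hne
  push Not at hne
  apply Nat.find_spec hex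
  intro k
  rw [hu k, pow_succ]
  exact mul_dvd_mul_left _ (hne k)

lemma up_of_not_dvd {m m' u : Fin n → ℤ} {a : ℕ} (hu : ∀ k, m k = 5 ^ a * u k) {i j : Fin n}
    (hij : i ≠ j) (h : ∀ k, 5 * m' k = 5 * m k - 2 * ipz (i, j) m * wz (i, j) k)
    (hd : ¬ (5 : ℤ) ∣ 2 * u i + u j) : Up m m' := by
  refine ⟨a, fun k => ⟨u k, hu k⟩, fun hh => hd ?_⟩
  obtain ⟨t, ht⟩ := hh j
  have h1 := h j
  simp only [ipz, wz, hij, hij.symm, if_false, if_true] at h1
  rw [ht, hu i, hu j] at h1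
  have h5 : (5 : ℤ) ^ a ≠ 0 := by positivity
  have h2 : 5 * t = 5 * u j - 2 * (2 * u i + u j) := by
    apply mul_left_cancel₀ h5
    linarith
  omega

lemma down_cond {m m' u : Fin n → ℤ} {a : ℕ} (hu : ∀ k, m k = 5 ^ a * u k)
    (hi : ∃ i, ¬ (5 : ℤ) ∣ u i) {s : Fin n × Fin n}
    (h : ∀ k, 5 * m' k = 5 * m k - 2 * ipz s m * wz s k) (hd : Up m' m) :
    s.1 ≠ s.2 ∧ ¬ (5 : ℤ) ∣ u s.1 ∧ ¬ (5 : ℤ) ∣ u s.2 ∧ (5 : ℤ) ∣ 2 * u s.1 + u s.2 ∧
      ∀ k, k ≠ s.1 → k ≠ s.2 → (5 : ℤ) ∣ u k := by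
  obtain ⟨b, hb1, hb2⟩ := hd
  have hab : a + 1 ≤ b := by
    by_contra hlt
    apply hb2
    intro k
    rw [hu k]
    exact Dvd.dvd.mul_right (pow_dvd_pow _ (by omega)) _
  have h5 : (5 : ℤ) ^ a ≠ 0 := by positivity
  have hipz : ipz s m = 5 ^ a * ipz s u := by
    unfold ipz
    split_ifs
    · simp
    · rw [hu, hu]; ring
  have hk : ∀ k, (25 : ℤ) ∣ 5 * u k - 2 * ipz s u * wz s k := by
    intro k
    obtain ⟨t, ht⟩ := (pow_dvd_pow (5 : ℤ) hab).trans (hb1 k)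
    refine ⟨t, ?_⟩
    have h1 := h k
    rw [ht, hu k, hipz] at h1
    apply mul_left_cancel₀ h5
    rw [pow_succ] at h1
    linarith
  obtain ⟨i0, hi0⟩ := hi
  have hs : s.1 ≠ s.2 := by
    intro hs
    have := hk i0
    simp only [ipz, wz, hs, if_true] at this
    omega
  have h1 := hk s.1
  have h2 := hk s.2
  simp only [ipz, wz, hs, hs.symm, if_false, if_true] at h1 h2
  have h3 : ∀ k, k ≠ s.1 → k ≠ s.2 → (5 : ℤ) ∣ u k := by
    intro k hk1 hk2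
    have := hk k
    simp only [ipz, wz, hs, hk1, hk2, if_false] at this
    omega
  have h4 : ¬ (5 : ℤ) ∣ u s.1 ∨ ¬ (5 : ℤ) ∣ u s.2 := by
    by_cases e1 : i0 = s.1
    · left; rwa [← e1]
    · by_cases e2 : i0 = s.2
      · right; rwa [← e2]
      · exact absurd (h3 i0 e1 e2) hi0
  refine ⟨hs, ?_, ?_, ?_, h3⟩ <;> omega

theorem count_up_down (hn : 3 ≤ n) (m : Fin n → ℤ) (hm : m ≠ 0)
    (m' : Fin n × Fin n → Fin n → ℤ)
    (h : ∀ s k, 5 * m' s k = 5 * m k - 2 * ipz s m * wz s k) :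
    1 + (Finset.univ.filter fun s => Up (m' s) m).card ≤
      (Finset.univ.filter fun s => Up m (m' s)).card := by
  obtain ⟨a, u, hu, i, hi⟩ := exists_val m hm
  have hD : (Finset.univ.filter fun s => Up (m' s) m).card ≤ 1 := by
    rw [Finset.card_le_one]
    intro s hs t ht
    simp only [Finset.mem_filter, Finset.mem_univ, true_and] at hs ht
    obtain ⟨s1, s2, s3, s4, s5⟩ := down_cond hu ⟨i, hi⟩ (h s) hs
    obtain ⟨t1, t2, t3, t4, -⟩ := down_cond hu ⟨i, hi⟩ (h t) ht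
    have e1 : t.1 = s.1 ∨ t.1 = s.2 := by
      by_contra hh
      push Not at hh
      exact t2 (s5 _ hh.1 hh.2)
    have e2 : t.2 = s.1 ∨ t.2 = s.2 := by
      by_contra hh
      push Not at hh
      exact t3 (s5 _ hh.1 hh.2)
    rcases e1 with e1 | e1 <;> rcases e2 with e2 | e2
    · exact absurd (e1.trans e2.symm) t1
    · exact Prod.ext e1.symm e2.symm
    · rw [e1, e2] at t4; omega
    · exact absurd (e1.trans e2.symm) t1
  have hj : ∀ j, j ≠ i → ∃ s, Up m (m' s) ∧ (s = (i, j) ∨ s = (j, i)) := by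
    intro j hji
    by_cases h1 : (5 : ℤ) ∣ 2 * u i + u j
    · have h2 : ¬ (5 : ℤ) ∣ 2 * u j + u i := by omega
      exact ⟨(j, i), up_of_not_dvd hu hji (h _) h2, Or.inr rfl⟩
    · exact ⟨(i, j), up_of_not_dvd hu hji.symm (h _) h1, Or.inl rfl⟩
  obtain ⟨j1, j2, hj1, hj2, hj12⟩ : ∃ j1 j2 : Fin n, j1 ≠ i ∧ j2 ≠ i ∧ j1 ≠ j2 := by
    have hc : 1 < (Finset.univ.erase i).card := by
      rw [Finset.card_erase_of_mem (Finset.mem_univ _), Finset.card_univ, Fintype.card_fin]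
      omega
    obtain ⟨x, hx, y, hy, hxy⟩ := Finset.one_lt_card.1 hc
    exact ⟨x, y, Finset.ne_of_mem_erase hx, Finset.ne_of_mem_erase hy, hxy⟩
  obtain ⟨s1, hs1, e1⟩ := hj j1 hj1
  obtain ⟨s2, hs2, e2⟩ := hj j2 hj2
  have hne : s1 ≠ s2 := by
    rintro rfl
    rcases e1 with e1 | e1 <;> rcases e2 with e2 | e2 <;> rw [e1] at e2 <;>
      simp only [Prod.mk.injEq] at e2
    · exact hj12 e2.2
    · exact hj1 e2.2
    · exact hj1 e2.1
    · exact hj12 e2.1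
  have hU : 1 < (Finset.univ.filter fun s => Up m (m' s)).card :=
    Finset.one_lt_card.2 ⟨s1, by simpa using hs1, s2, by simpa using hs2, hne⟩
  omega

end Pool.Agent.P.MP_465281_an
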