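import Mathlib

/-!
Characters of the irreducible representations of `SU(2)` as functions of half the trace.
-/

namespace Pool.Agent.P.MP_465281_an

open Finset

/-- Chebyshev polynomials of the second kind -/
def ch : ℕ → ℝ → ℝ
  | 0, _ => 1
  | 1, t => 2 * t
  | n + 2, t => 2 * t * ch (n + 1) t - ch n t

lemma ch_zero (t : ℝ) : ch 0 t = 1 := rfl
lemma ch_one (t : ℝ) : ch 1 t = 2 * t := rfl
lemma ch_add_two (n : ℕ) (t : ℝ) : ch (n + 2) t = 2 * t * ch (n + 1) t - ch n t := rfl

lemma ch_cg (a b : ℕ) (t : ℝ) :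
    ch (a + 1) t * ch (b + 1) t = ch (a + b + 2) t + ch a t * ch b t := by
  induction b using Nat.twoStepInduction with
  | zero => simp only [add_zero, zero_add, ch_add_two, ch_one, ch_zero]; ring
  | one =>
    rw [show a + 1 + 2 = (a + 1) + 2 from rfl, ch_add_two (a + 1), show a + 1 + 1 = a + 2 from rfl,
      ch_add_two a, show 1 + 1 = 0 + 2 from rfl, ch_add_two 0, zero_add, ch_one, ch_zero]
    ring
  | more b ih1 ih2 =>
    have e1 := ch_add_two (b + 1) t
    have e2 := ch_add_two b t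
    have e3 := ch_add_two (a + b + 2) t
    rw [show a + (b + 2) + 2 = a + b + 2 + 2 by ring, show b + 2 + 1 = b + 1 + 2 by ring]
    rw [show a + (b + 1) + 2 = a + b + 2 + 1 by ring, show b + 1 + 1 = b + 2 by ring] at ih2
    rw [show b + 1 + 1 = b + 2 by ring] at e1
    linear_combination ch (a + 1) t * e1 - e3 - ch a t * e2 + 2 * t * ih2 - ih1

lemma ch_mul (b c : ℕ) (t : ℝ) : ch (b + c) t * ch b t = ∑ i ∈ range (b + 1), ch (c + 2 * i) t := by
  induction b with
  | zero => simp [ch_zero]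
  | succ b ih =>
    rw [sum_range_succ, ← ih, show b + 1 + c = b + c + 1 by ring, ch_cg,
      show b + c + b + 2 = c + 2 * (b + 1) by ring, add_comm]

lemma ch_conv_succ (n : ℕ) (t : ℝ) :
    ∑ p ∈ antidiagonal (n + 2), ch p.1 t * ch p.2 t =
      (n + 3) * ch (n + 2) t + ∑ p ∈ antidiagonal n, ch p.1 t * ch p.2 t := by
  rw [Nat.sum_antidiagonal_succ, Nat.sum_antidiagonal_succ']
  have : ∑ p ∈ antidiagonal n, ch (p.1 + 1) t * ch (p.2 + 1) t =
      ∑ p ∈ antidiagonal n, (ch (n + 2) t + ch p.1 t * ch p.2 t) :=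
    sum_congr rfl fun p hp => by rw [ch_cg, mem_antidiagonal.1 hp]
  simp only [this, sum_add_distrib, sum_const, Nat.card_antidiagonal, ch_zero, nsmul_eq_mul]
  push_cast
  ring

lemma ch_conv (n : ℕ) (t : ℝ) : ∑ p ∈ antidiagonal (2 * n), ch p.1 t * ch p.2 t =
    1 + ∑ k ∈ range n, (2 * k + 3) * ch (2 * (k + 1)) t := by
  induction n with
  | zero => simp [ch_zero]
  | succ n ih =>
    rw [show 2 * (n + 1) = 2 * n + 2 by ring, ch_conv_succ, ih, sum_range_succ,
      show 2 * (n + 1) = 2 * n + 2 by ring]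
    push_cast
    ring

/-- complete homogeneous symmetric polynomials in two variables -/
noncomputable def hs (z w : ℂ) (n : ℕ) : ℂ := ∑ p ∈ antidiagonal n, z ^ p.1 * w ^ p.2

lemma hs_succ (z w : ℂ) (n : ℕ) : hs z w (n + 1) = z * hs z w n + w ^ (n + 1) := by
  rw [hs, Nat.sum_antidiagonal_succ, hs, mul_sum, add_comm]
  simp only [pow_succ', mul_assoc, pow_zero, one_mul]

lemma hs_succ' (z w : ℂ) (n : ℕ) : hs z w (n + 1) = w * hs z w n + z ^ (n + 1) := by
  rw [hs, Nat.sum_antidiagonal_succ', hs, mul_sum, add_comm]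
  simp only [pow_succ', mul_left_comm w, pow_zero, mul_one]

lemma hs_eq_ch {z w : ℂ} {t : ℝ} (h1 : z * w = 1) (h2 : z + w = 2 * t) (n : ℕ) :
    hs z w n = ch n t := by
  induction n using Nat.twoStepInduction with
  | zero => simp [hs, ch_zero]
  | one => rw [hs_succ, ch_one]; simp [hs, h2]
  | more n ih1 ih2 =>
    have e1 := hs_succ z w (n + 1)
    have e2 := hs_succ z w n
    rw [ch_add_two]
    push_cast
    rw [← ih1, ← ih2, ← h2]
    linear_combination e1 - w * e2 - hs z w n * h1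

lemma ch_bounds {t b : ℝ} (h : t ^ 2 + b ^ 2 = 1) (n : ℕ) :
    |ch n t| ≤ n + 1 ∧ |ch n t| * |b| ≤ 1 := by
  set z : ℂ := t + Complex.I * b with hz
  set w : ℂ := t - Complex.I * b with hw
  have h' : (t : ℂ) ^ 2 + (b : ℂ) ^ 2 = 1 := by exact_mod_cast h
  have h1 : z * w = 1 := by
    rw [hz, hw]; linear_combination h' - (b : ℂ) ^ 2 * Complex.I_mul_I
  have h2 : z + w = 2 * t := by rw [hz, hw]; ring
  have nz : ‖z‖ = 1 := by
    have : ‖z‖ ^ 2 = 1 := by rw [Complex.sq_norm, Complex.normSq_apply]; simp [hz]; linarith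
    exact (pow_eq_one_iff_of_nonneg (norm_nonneg _) two_ne_zero).1 this
  have nw : ‖w‖ = 1 := by
    have := congrArg norm h1
    simpa [nz] using this
  have e := hs_eq_ch h1 h2 n
  have e0 : |ch n t| = ‖hs z w n‖ := by rw [e, Complex.norm_real, Real.norm_eq_abs]
  constructor
  · rw [e0, hs]
    refine (norm_sum_le _ _).trans ?_
    simp [nz, nw]
  · have e1 : (2 * Complex.I * b) * hs z w n = z ^ (n + 1) - w ^ (n + 1) := by
      have a1 := hs_succ z w n
      have a2 := hs_succ' z w n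
      have a3 : z - w = 2 * Complex.I * b := by rw [hz, hw]; ring
      rw [← a3]
      linear_combination a2 - a1
    have e2 := congrArg norm e1
    have e3 : ‖z ^ (n + 1) - w ^ (n + 1)‖ ≤ 2 := by
      refine (norm_sub_le _ _).trans ?_
      simp [nz, nw]; norm_num
    rw [← e2] at e3
    simp at e3
    rw [e0]
    linarith

lemma ch_four (W : Multiset ℝ) (hpos : ∀ n, 0 ≤ (W.map (ch n)).sum) (l : ℕ) :
    ((l : ℝ) + 1) ^ 2 * (W.map (ch (2 * l))).sum ≤ (W.map fun t => ch (2 * l) t ^ 4).sum := by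
  have hsum : ∀ {κ : Type} (s : Finset κ) (f : κ → ℝ → ℝ),
      (W.map fun t => ∑ i ∈ s, f i t).sum = ∑ i ∈ s, (W.map (f i)).sum := by
    intro κ s f
    rw [Multiset.sum_map_sum]
  have key : ∀ i j : ℕ, j ≤ i → 0 ≤ (W.map fun t => ch (2 * i) t * ch (2 * j) t).sum ∧
      (l ≤ j → i ≤ 2 * l →
        (W.map (ch (2 * l))).sum ≤ (W.map fun t => ch (2 * i) t * ch (2 * j) t).sum) := by
    intro i j hij
    have e : (fun t => ch (2 * i) t * ch (2 * j) t) =
        fun t => ∑ k ∈ range (2 * j + 1), ch (2 * (i - j) + 2 * k) t := by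
      ext t
      rw [← ch_mul, show 2 * j + 2 * (i - j) = 2 * i by omega]
    rw [e, hsum]
    refine ⟨sum_nonneg fun k _ => hpos _, fun h1 h2 => ?_⟩
    have := single_le_sum (s := range (2 * j + 1))
      (f := fun k => (W.map (ch (2 * (i - j) + 2 * k))).sum) (fun k _ => hpos _)
      (a := l - (i - j)) (mem_range.2 (by omega))
    rwa [show 2 * (i - j) + 2 * (l - (i - j)) = 2 * l by omega] at this
  have key' : ∀ i j : ℕ, 0 ≤ (W.map fun t => ch (2 * i) t * ch (2 * j) t).sum ∧
      (l ≤ i → l ≤ j → i ≤ 2 * l → j ≤ 2 * l →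
        (W.map (ch (2 * l))).sum ≤ (W.map fun t => ch (2 * i) t * ch (2 * j) t).sum) := by
    intro i j
    rcases le_total j i with h | h
    · exact ⟨(key i j h).1, fun _ a b _ => (key i j h).2 a b⟩
    · simp only [mul_comm (ch (2 * i) _)]
      exact ⟨(key j i h).1, fun a _ _ b => (key j i h).2 a b⟩
  have e : (fun t => ch (2 * l) t ^ 4) = fun t => ∑ p ∈ range (2 * l + 1) ×ˢ range (2 * l + 1),
      ch (2 * p.1) t * ch (2 * p.2) t := by
    ext t
    have := ch_mul (2 * l) 0 t
    simp only [add_zero, zero_add] at this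
    rw [sum_product' (f := fun i j => ch (2 * i) t * ch (2 * j) t), ← sum_mul_sum, ← this]
    ring
  rw [e, hsum]
  calc ((l : ℝ) + 1) ^ 2 * (W.map (ch (2 * l))).sum
      = ∑ _p ∈ Icc l (2 * l) ×ˢ Icc l (2 * l), (W.map (ch (2 * l))).sum := by
        rw [sum_const, card_product, Nat.card_Icc, show 2 * l + 1 - l = l + 1 by omega]
        simp only [nsmul_eq_mul]
        push_cast
        ring
    _ ≤ ∑ p ∈ Icc l (2 * l) ×ˢ Icc l (2 * l),
          (W.map fun t => ch (2 * p.1) t * ch (2 * p.2) t).sum := by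
        refine sum_le_sum fun p hp => ?_
        simp only [mem_product, mem_Icc] at hp
        exact (key' _ _).2 hp.1.1 hp.2.1 hp.1.2 hp.2.2
    _ ≤ _ := by
        refine sum_le_sum_of_subset_of_nonneg ?_ fun p _ _ => (key' _ _).1
        intro p hp
        simp only [mem_product, mem_Icc, mem_range] at hp ⊢
        omega

end Pool.Agent.P.MP_465281_an
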