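import Mathlib

/-!
Lattice points on circles and spheres.
-/

namespace Pool.Agent.P.MP_465281_an

open scoped Classical Quaternion

lemma three_points {T k u1 u2 v1 v2 w1 w2 : ℤ} (hu : u1 ^ 2 + u2 ^ 2 = k)
    (hv : v1 ^ 2 + v2 ^ 2 = k) (hw : w1 ^ 2 + w2 ^ 2 = k) (huv : (u1, u2) ≠ (v1, v2))
    (huw : (u1, u2) ≠ (w1, w2)) (hvw : (v1, v2) ≠ (w1, w2))
    (a1 : |v1 - u1| ≤ T) (a2 : |v2 - u2| ≤ T) (b1 : |w1 - u1| ≤ T) (b2 : |w2 - u2| ≤ T) :
    k ≤ 8 * T ^ 6 := by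
  obtain ⟨p1, rfl⟩ : ∃ p, v1 = u1 + p := ⟨v1 - u1, by ring⟩
  obtain ⟨p2, rfl⟩ : ∃ p, v2 = u2 + p := ⟨v2 - u2, by ring⟩
  obtain ⟨r1, rfl⟩ : ∃ p, w1 = u1 + p := ⟨w1 - u1, by ring⟩
  obtain ⟨r2, rfl⟩ : ∃ p, w2 = u2 + p := ⟨w2 - u2, by ring⟩
  simp only [add_sub_cancel_left] at a1 a2 b1 b2
  have hT : 0 ≤ T := (abs_nonneg _).trans a1
  have e1 : 2 * (p1 * r2 - p2 * r1) * u1 = -(p1 ^ 2 + p2 ^ 2) * r2 + (r1 ^ 2 + r2 ^ 2) * p2 := by
    linear_combination r2 * (hv - hu) - p2 * (hw - hu)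
  have e2 : 2 * (p1 * r2 - p2 * r1) * u2 = (p1 ^ 2 + p2 ^ 2) * r1 - (r1 ^ 2 + r2 ^ 2) * p1 := by
    linear_combination -r1 * (hv - hu) + p1 * (hw - hu)
  have hP : 0 < p1 ^ 2 + p2 ^ 2 := by
    by_contra h
    have h1 : p1 = 0 := by nlinarith [sq_nonneg p1, sq_nonneg p2]
    have h2 : p2 = 0 := by nlinarith [sq_nonneg p1, sq_nonneg p2]
    exact huv (by simp [h1, h2])
  have hR : 0 < r1 ^ 2 + r2 ^ 2 := by
    by_contra h
    have h1 : r1 = 0 := by nlinarith [sq_nonneg r1, sq_nonneg r2]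
    have h2 : r2 = 0 := by nlinarith [sq_nonneg r1, sq_nonneg r2]
    exact huw (by simp [h1, h2])
  by_cases hD : p1 * r2 - p2 * r1 = 0
  · exfalso
    rw [hD] at e1 e2
    set P := p1 ^ 2 + p2 ^ 2 with hPd
    set R := r1 ^ 2 + r2 ^ 2 with hRd
    have f1 : P * r1 = R * p1 := by linarith
    have f2 : P * r2 = R * p2 := by linarith
    have f3 : P * R * (P - R) = 0 := by
      have : P ^ 2 * R = R ^ 2 * P := by
        calc P ^ 2 * R = (P * r1) ^ 2 + (P * r2) ^ 2 := by rw [hRd]; ring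
          _ = (R * p1) ^ 2 + (R * p2) ^ 2 := by rw [f1, f2]
          _ = R ^ 2 * P := by rw [hPd]; ring
      linarith
    have f4 : P = R := by
      have := (mul_eq_zero.1 f3).resolve_left (mul_pos hP hR).ne'
      linarith
    rw [← f4] at f1 f2
    exact hvw (by rw [mul_left_cancel₀ hP.ne' f1, mul_left_cancel₀ hP.ne' f2])
  · have hD1 : 1 ≤ |p1 * r2 - p2 * r1| := Int.one_le_abs hD
    have s1 : p1 ^ 2 ≤ T ^ 2 := sq_le_sq' (abs_le.1 a1).1 (abs_le.1 a1).2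
    have s2 : p2 ^ 2 ≤ T ^ 2 := sq_le_sq' (abs_le.1 a2).1 (abs_le.1 a2).2
    have s3 : r1 ^ 2 ≤ T ^ 2 := sq_le_sq' (abs_le.1 b1).1 (abs_le.1 b1).2
    have s4 : r2 ^ 2 ≤ T ^ 2 := sq_le_sq' (abs_le.1 b2).1 (abs_le.1 b2).2
    have key : ∀ u x y : ℤ, |x| ≤ T → |y| ≤ T →
        2 * (p1 * r2 - p2 * r1) * u = (p1 ^ 2 + p2 ^ 2) * x + (r1 ^ 2 + r2 ^ 2) * y →
        u ^ 2 ≤ 4 * T ^ 6 := by
      intro u x y hx hy h
      have h1 : 2 * |u| ≤ |2 * (p1 * r2 - p2 * r1) * u| := by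
        rw [abs_mul, abs_mul, abs_two]
        nlinarith [abs_nonneg u]
      have h2 : |(p1 ^ 2 + p2 ^ 2) * x + (r1 ^ 2 + r2 ^ 2) * y| ≤ 4 * T ^ 3 := by
        refine (abs_add_le _ _).trans ?_
        rw [abs_mul, abs_mul, abs_of_pos hP, abs_of_pos hR]
        have h3 : (p1 ^ 2 + p2 ^ 2) * |x| ≤ (2 * T ^ 2) * T :=
          mul_le_mul (by linarith) hx (abs_nonneg _) (by positivity)
        have h4 : (r1 ^ 2 + r2 ^ 2) * |y| ≤ (2 * T ^ 2) * T :=
          mul_le_mul (by linarith) hy (abs_nonneg _) (by positivity)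
        nlinarith
      rw [h] at h1
      have h5 : |u| ≤ 2 * T ^ 3 := by linarith
      have h6 : u ^ 2 ≤ (2 * T ^ 3) ^ 2 := sq_le_sq' (abs_le.1 h5).1 (abs_le.1 h5).2
      linarith
    have k1 := key u1 (-r2) p2 (by rwa [abs_neg]) a2 (by linarith)
    have k2 := key u2 r1 (-p1) b1 (by rwa [abs_neg]) (by linarith)
    linarith

lemma close_pair {T k s l s' l' : ℤ} (hT : 0 < T) (hk : 0 < k) (h : s ^ 2 + l ^ 2 = k)
    (h' : s' ^ 2 + l' ^ 2 = k) (hs : |s| ≤ |l|) (hs' : |s'| ≤ |l'|) (hsg : 0 ≤ l ↔ 0 ≤ l')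
    (hb : s / T = s' / T) : |s' - s| ≤ T ∧ |l' - l| ≤ T := by
  have h1 : |s' - s| ≤ T := by
    have e1 := Int.emod_add_mul_ediv s T
    have e2 := Int.emod_add_mul_ediv s' T
    have e3 := Int.emod_nonneg s hT.ne'
    have e4 := Int.emod_nonneg s' hT.ne'
    have e5 := Int.emod_lt_of_pos s hT
    have e6 := Int.emod_lt_of_pos s' hT
    rw [hb] at e1
    rw [abs_le]; constructor <;> linarith
  refine ⟨h1, le_trans ?_ h1⟩
  have h2 : |l' + l| = |l'| + |l| := by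
    by_cases h0 : 0 ≤ l
    · have h0' := hsg.1 h0
      rw [abs_of_nonneg h0, abs_of_nonneg h0', abs_of_nonneg (by linarith)]
    · have h0' : ¬ 0 ≤ l' := fun e => h0 (hsg.2 e)
      push Not at h0 h0'
      rw [abs_of_neg h0, abs_of_neg h0', abs_of_neg (by linarith)]; ring
  have h3 : 0 < |l| := by
    by_contra hh
    have hl : |l| = 0 := le_antisymm (not_lt.1 hh) (abs_nonneg _)
    have hs0 : |s| = 0 := le_antisymm (hl ▸ hs) (abs_nonneg _)
    rw [abs_eq_zero] at hl hs0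
    rw [hl, hs0] at h
    linarith
  have h4 : |l' - l| * |l' + l| = |s' - s| * |s' + s| := by
    rw [← abs_mul, ← abs_mul, ← abs_neg]
    congr 1
    linear_combination h - h'
  have h5 : |s' + s| ≤ |l' + l| := by
    rw [h2]; exact (abs_add_le _ _).trans (add_le_add hs' hs)
  have h6 : 0 < |l' + l| := by rw [h2]; linarith [abs_nonneg l']
  have h7 : |l' - l| * |l' + l| ≤ |s' - s| * |l' + l| := by
    rw [h4]; exact mul_le_mul_of_nonneg_left h5 (abs_nonneg _)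
  exact le_of_mul_le_mul_right h7 h6

lemma circ_card (T : ℕ) (hT : 1 ≤ T) (k : ℤ) (hk : k ≤ (T : ℤ) ^ 8) (s : Finset (ℤ × ℤ))
    (hs : ∀ z ∈ s, z.1 ^ 2 + z.2 ^ 2 = k) : s.card ≤ 24 * T ^ 3 := by
  have hT3 : 1 ≤ T ^ 3 := Nat.one_le_pow _ _ hT
  have hT0 : (0 : ℤ) < T := by exact_mod_cast hT
  by_cases hc : k ≤ 8 * (T : ℤ) ^ 6
  · have := Finset.card_le_card_of_injOn (s := s)
      (t := Finset.Icc (-(3 * (T : ℤ) ^ 3)) (3 * (T : ℤ) ^ 3) ×ˢ (Finset.univ : Finset Bool))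
      (fun z => (z.1, decide (0 ≤ z.2))) (by
        intro z hz
        have h1 := hs z hz
        have h2 : |z.1| ≤ 3 * (T : ℤ) ^ 3 := by
          apply abs_le_of_sq_le_sq' _ (by positivity) |> abs_le.2
          nlinarith [sq_nonneg z.2, pow_nonneg hT0.le 6]
        simp only [Finset.coe_product, Set.mem_prod, Finset.coe_Icc, Set.mem_Icc, Finset.coe_univ,
          Set.mem_univ, and_true]
        exact abs_le.1 h2) (by
        intro z hz z' hz' h
        simp only [Prod.mk.injEq, decide_eq_decide] at h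
        have h1 := hs z hz
        have h2 := hs z' hz'
        have h3 : z.2 ^ 2 = z'.2 ^ 2 := by rw [h.1] at h1; linarith
        refine Prod.ext h.1 ?_
        rcases sq_eq_sq_iff_eq_or_eq_neg.1 h3 with h4 | h4
        · exact h4
        · have := h.2
          omega)
    rw [Finset.card_product, Int.card_Icc] at this
    have e : (3 * (T : ℤ) ^ 3 + 1 - -(3 * (T : ℤ) ^ 3)).toNat = 6 * T ^ 3 + 1 := by
      have : (3 * (T : ℤ) ^ 3 + 1 - -(3 * (T : ℤ) ^ 3)) = ((6 * T ^ 3 + 1 : ℕ) : ℤ) := by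
        push_cast; ring
      rw [this, Int.toNat_natCast]
    rw [e] at this
    simp only [Finset.card_univ, Fintype.card_bool] at this
    omega
  · push Not at hc
    have hk0 : 0 < k := lt_of_le_of_lt (by positivity) hc
    let sm : ℤ × ℤ → ℤ := fun z => if |z.1| ≤ |z.2| then z.1 else z.2
    let lg : ℤ × ℤ → ℤ := fun z => if |z.1| ≤ |z.2| then z.2 else z.1
    have hsl : ∀ z ∈ s, sm z ^ 2 + lg z ^ 2 = k ∧ |sm z| ≤ |lg z| := by
      intro z hz
      have := hs z hz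
      simp only [sm, lg]
      split_ifs with h
      · exact ⟨this, h⟩
      · exact ⟨by linarith, (not_le.1 h).le⟩
    let f : ℤ × ℤ → ℤ × Bool × Bool := fun z =>
      (sm z / T, decide (|z.1| ≤ |z.2|), decide (0 ≤ lg z))
    have hclose : ∀ z ∈ s, ∀ z' ∈ s, f z = f z' → |z'.1 - z.1| ≤ T ∧ |z'.2 - z.2| ≤ T := by
      intro z hz z' hz' h
      simp only [f, Prod.mk.injEq, decide_eq_decide] at h
      obtain ⟨h1, h2⟩ := close_pair hT0 hk0 (hsl z hz).1 (hsl z' hz').1 (hsl z hz).2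
        (hsl z' hz').2 h.2.2 h.1
      by_cases h3 : |z.1| ≤ |z.2|
      · have h4 := h.2.1.1 h3
        simp only [sm, lg, h3, h4, if_true] at h1 h2
        exact ⟨h1, h2⟩
      · have h4 : ¬ |z'.1| ≤ |z'.2| := fun e => h3 (h.2.1.2 e)
        simp only [sm, lg, h3, h4, if_false] at h1 h2
        exact ⟨h2, h1⟩
    have := Finset.card_le_mul_card_image_of_maps_to (f := f) (s := s)
      (t := Finset.Icc (-((T : ℤ) ^ 3)) ((T : ℤ) ^ 3) ×ˢ (Finset.univ : Finset (Bool × Bool)))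
      (by
        intro z hz
        have h1 := (hsl z hz).1
        have h2 : |sm z| ≤ (T : ℤ) ^ 4 := by
          apply abs_le_of_sq_le_sq' _ (by positivity) |> abs_le.2
          nlinarith [sq_nonneg (lg z)]
        rw [abs_le] at h2
        simp only [f, Finset.mem_product, Finset.mem_Icc, Finset.mem_univ, and_true]
        constructor
        · rw [Int.le_ediv_iff_mul_le hT0]; nlinarith [h2.1]
        · exact Int.ediv_le_of_le_mul hT0 (by nlinarith [h2.2])) 2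
      (by
        intro b _
        by_contra hlt
        obtain ⟨u, v, w, hu, hv, hw, huv, huw, hvw⟩ := Finset.two_lt_card_iff.1 (not_le.1 hlt)
        simp only [Finset.mem_filter] at hu hv hw
        obtain ⟨a1, a2⟩ := hclose u hu.1 v hv.1 (hu.2.trans hv.2.symm)
        obtain ⟨b1, b2⟩ := hclose u hu.1 w hw.1 (hu.2.trans hw.2.symm)
        exact absurd (three_points (hs u hu.1) (hs v hv.1) (hs w hw.1) huv huw hvw a1 a2 b1 b2)
          (not_le.2 hc))
    rw [Finset.card_product, Int.card_Icc] at this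
    have e : ((T : ℤ) ^ 3 + 1 - -((T : ℤ) ^ 3)).toNat = 2 * T ^ 3 + 1 := by
      have : ((T : ℤ) ^ 3 + 1 - -((T : ℤ) ^ 3)) = ((2 * T ^ 3 + 1 : ℕ) : ℤ) := by
        push_cast; ring
      rw [this, Int.toNat_natCast]
    rw [e] at this
    simp only [Finset.card_univ, Fintype.card_prod, Fintype.card_bool] at this
    omega

lemma sph_card (T : ℕ) (hT : 1 ≤ T) (k : ℤ) (hk : k ≤ (T : ℤ) ^ 8) (s : Finset (ℤ × ℤ × ℤ))
    (hs : ∀ z ∈ s, z.1 ^ 2 + z.2.1 ^ 2 + z.2.2 ^ 2 = k) : s.card ≤ 72 * T ^ 7 := by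
  have hT4 : 1 ≤ T ^ 4 := Nat.one_le_pow _ _ hT
  have := Finset.card_le_mul_card_image_of_maps_to (f := fun z : ℤ × ℤ × ℤ => z.1) (s := s)
    (t := Finset.Icc (-((T : ℤ) ^ 4)) ((T : ℤ) ^ 4)) (by
      intro z hz
      have h1 := hs z hz
      have h2 : |z.1| ≤ (T : ℤ) ^ 4 := by
        apply abs_le_of_sq_le_sq' _ (by positivity) |> abs_le.2
        nlinarith [sq_nonneg z.2.1, sq_nonneg z.2.2]
      simpa using abs_le.1 h2) (24 * T ^ 3) (by
      intro b _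
      rw [← Finset.card_image_of_injOn (f := fun z : ℤ × ℤ × ℤ => z.2) (by
        intro z hz z' hz' h
        simp only [Finset.coe_filter, Set.mem_ofPred_eq] at hz hz'
        exact Prod.ext (hz.2.trans hz'.2.symm) h)]
      refine circ_card T hT (k - b ^ 2) (by nlinarith [sq_nonneg b]) _ ?_
      intro z hz
      obtain ⟨w, hw, rfl⟩ := Finset.mem_image.1 hz
      rw [Finset.mem_filter] at hw
      have := hs w hw.1
      rw [hw.2] at this
      linarith)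
  rw [Int.card_Icc] at this
  have e : ((T : ℤ) ^ 4 + 1 - -((T : ℤ) ^ 4)).toNat = 2 * T ^ 4 + 1 := by
    have : ((T : ℤ) ^ 4 + 1 - -((T : ℤ) ^ 4)) = ((2 * T ^ 4 + 1 : ℕ) : ℤ) := by
      push_cast; ring
    rw [this, Int.toNat_natCast]
  rw [e] at this
  calc s.card ≤ 24 * T ^ 3 * (2 * T ^ 4 + 1) := this
    _ ≤ 24 * T ^ 3 * (3 * T ^ 4) := by gcongr; omega
    _ = 72 * T ^ 7 := by ring

lemma sph_card_real (k : ℤ) (hk : 1 ≤ k) (s : Finset (ℤ × ℤ × ℤ))
    (hs : ∀ z ∈ s, z.1 ^ 2 + z.2.1 ^ 2 + z.2.2 ^ 2 = k) :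
    (s.card : ℝ) ≤ 9216 * (k : ℝ) ^ (7 / 8 : ℝ) := by
  have hk1 : (1 : ℝ) ≤ k := by exact_mod_cast hk
  set y : ℝ := (k : ℝ) ^ (1 / 8 : ℝ) with hy
  have hy1 : 1 ≤ y := Real.one_le_rpow hk1 (by norm_num)
  have hy8 : y ^ 8 = k := by
    rw [hy, ← Real.rpow_natCast, ← Real.rpow_mul (by linarith)]; norm_num
  have hy7 : y ^ 7 = (k : ℝ) ^ (7 / 8 : ℝ) := by
    rw [hy, ← Real.rpow_natCast, ← Real.rpow_mul (by linarith)]; norm_num
  have h1 : y ≤ (⌈y⌉₊ : ℝ) := Nat.le_ceil y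
  have h2 : (⌈y⌉₊ : ℝ) ≤ 2 * y := by
    have := Nat.ceil_lt_add_one (show 0 ≤ y by linarith)
    linarith
  have h3 := sph_card ⌈y⌉₊ (Nat.one_le_iff_ne_zero.2 (by
    rw [Ne, Nat.ceil_eq_zero, not_le]; linarith)) k (by
    have : (k : ℝ) ≤ (⌈y⌉₊ : ℝ) ^ 8 := by rw [← hy8]; gcongr
    exact_mod_cast this) s hs
  calc (s.card : ℝ) ≤ 72 * (⌈y⌉₊ : ℝ) ^ 7 := by exact_mod_cast h3
    _ ≤ 72 * (2 * y) ^ 7 := by gcongr
    _ = _ := by rw [← hy7]; ring

/-- squared length of the imaginary part -/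
def imsq (x : ℍ[ℤ]) : ℤ := x.imI ^ 2 + x.imJ ^ 2 + x.imK ^ 2

/-- squared norm -/
def nsq (x : ℍ[ℤ]) : ℤ := x.re ^ 2 + x.imI ^ 2 + x.imJ ^ 2 + x.imK ^ 2

/-- the majorant of the kernel -/
noncomputable def kk (Lq : ℝ) (x : ℍ[ℤ]) : ℝ :=
  if imsq x = 0 then Lq else ((nsq x : ℝ) / imsq x) ^ 2

theorem sum_kk_le : ∃ C : ℝ, 0 < C ∧ ∀ (Lq : ℝ), 0 ≤ Lq → ∀ Q : ℕ, 1 ≤ Q →
    ∀ s : Finset ℍ[ℤ], (∀ x ∈ s, nsq x = (Q : ℤ) ^ 2) →
      ∑ x ∈ s, kk Lq x ≤ 2 * Lq + C * (Q : ℝ) ^ (23 / 8 : ℝ) := by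
  have hsum : Summable fun t : ℕ => (t : ℝ) ^ (-(9 / 8) : ℝ) :=
    Real.summable_nat_rpow.2 (by norm_num)
  set C0 : ℝ := ∑' t : ℕ, (t : ℝ) ^ (-(9 / 8) : ℝ) with hC0
  have hC00 : 0 ≤ C0 := tsum_nonneg fun t => by positivity
  refine ⟨2 * 9216 * C0 + 1, by positivity, fun Lq hLq Q hQ s hs => ?_⟩
  have hQ0 : (0 : ℝ) < Q := by exact_mod_cast hQ
  let f : ℍ[ℤ] → ℕ × Bool := fun x => (Q - x.re.natAbs, decide (0 ≤ x.re))
  have hre : ∀ x ∈ s, x.re.natAbs ≤ Q := by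
    intro x hx
    have h1 := hs x hx
    have : |x.re| ≤ Q := by
      apply abs_le_of_sq_le_sq' _ (by positivity) |> abs_le.2
      unfold nsq at h1
      nlinarith [sq_nonneg x.imI, sq_nonneg x.imJ, sq_nonneg x.imK]
    rw [Int.abs_eq_natAbs] at this
    exact_mod_cast this
  let bd : ℕ → ℝ := fun t =>
    (if t = 0 then Lq else 0) + 9216 * (Q : ℝ) ^ (23 / 8 : ℝ) * (t : ℝ) ^ (-(9 / 8) : ℝ)
  have hfib : ∀ b : ℕ × Bool, ∑ x ∈ s with f x = b, kk Lq x ≤ bd b.1 := by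
    rintro ⟨t, sg⟩
    have hpos : 0 ≤ 9216 * (Q : ℝ) ^ (23 / 8 : ℝ) * (t : ℝ) ^ (-(9 / 8) : ℝ) := by positivity
    rcases (s.filter fun x => f x = (t, sg)).eq_empty_or_nonempty with he | ⟨x0, hx0⟩
    · rw [he, Finset.sum_empty]
      simp only [bd]
      split_ifs <;> linarith
    rw [Finset.mem_filter] at hx0
    have hsame : ∀ x ∈ s.filter fun x => f x = (t, sg), x.re = x0.re ∧ imsq x = imsq x0 := by
      intro x hx
      rw [Finset.mem_filter] at hx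
      have h1 := hx.2.trans hx0.2.symm
      simp only [f, Prod.mk.injEq, decide_eq_decide] at h1
      have h2 := hre x hx.1
      have h3 := hre x0 hx0.1
      have h4 : x.re = x0.re := by omega
      refine ⟨h4, ?_⟩
      have h5 := hs x hx.1
      have h6 := hs x0 hx0.1
      unfold nsq at h5 h6
      unfold imsq
      rw [h4] at h5
      linarith
    have hcard : ∀ c : ℝ, (∀ s' : Finset (ℤ × ℤ × ℤ),
        (∀ z ∈ s', z.1 ^ 2 + z.2.1 ^ 2 + z.2.2 ^ 2 = imsq x0) → (s'.card : ℝ) ≤ c) →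
        ((s.filter fun x => f x = (t, sg)).card : ℝ) ≤ c := by
      intro c hc
      rw [← Finset.card_image_of_injOn (f := fun x : ℍ[ℤ] => (x.imI, x.imJ, x.imK)) (by
        intro x hx y hy h
        simp only [Prod.mk.injEq] at h
        exact Quaternion.ext _ _ ((hsame x hx).1.trans (hsame y hy).1.symm) h.1 h.2.1 h.2.2)]
      apply hc
      intro z hz
      obtain ⟨w, hw, rfl⟩ := Finset.mem_image.1 hz
      exact (hsame w hw).2
    have hconst : ∑ x ∈ s with f x = (t, sg), kk Lq x =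
        ((s.filter fun x => f x = (t, sg)).card : ℝ) * kk Lq x0 := by
      rw [Finset.sum_congr rfl (g := fun _ => kk Lq x0), Finset.sum_const, nsmul_eq_mul]
      intro x hx
      unfold kk
      rw [(hsame x hx).2, hs x (Finset.mem_filter.1 hx).1, hs x0 hx0.1]
    have ht : (t : ℤ) = Q - |x0.re| := by
      have h1 := hx0.2
      simp only [f, Prod.mk.injEq] at h1
      have := hre x0 hx0.1
      rw [Int.abs_eq_natAbs]
      omega
    have him : imsq x0 = t * (Q + |x0.re|) := by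
      have h6 := hs x0 hx0.1
      unfold nsq at h6
      unfold imsq
      rw [ht]
      nlinarith [sq_abs x0.re]
    rw [hconst]
    by_cases ht0 : t = 0
    · have h0 : imsq x0 = 0 := by rw [him, ht0]; simp
      have h1 := hcard 1 (by
        intro s' hs'
        have : s'.card ≤ 1 := by
          rw [Finset.card_le_one]
          intro a ha b hb
          have ha' := hs' a ha
          have hb' := hs' b hb
          rw [h0] at ha' hb'
          have a1 : a.1 = 0 := by nlinarith [sq_nonneg a.1, sq_nonneg a.2.1, sq_nonneg a.2.2]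
          have a2 : a.2.1 = 0 := by nlinarith [sq_nonneg a.1, sq_nonneg a.2.1, sq_nonneg a.2.2]
          have a3 : a.2.2 = 0 := by nlinarith [sq_nonneg a.1, sq_nonneg a.2.1, sq_nonneg a.2.2]
          have b1 : b.1 = 0 := by nlinarith [sq_nonneg b.1, sq_nonneg b.2.1, sq_nonneg b.2.2]
          have b2 : b.2.1 = 0 := by nlinarith [sq_nonneg b.1, sq_nonneg b.2.1, sq_nonneg b.2.2]
          have b3 : b.2.2 = 0 := by nlinarith [sq_nonneg b.1, sq_nonneg b.2.1, sq_nonneg b.2.2]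
          exact Prod.ext (a1.trans b1.symm) (Prod.ext (a2.trans b2.symm) (a3.trans b3.symm))
        exact_mod_cast this)
      simp only [kk, h0, if_true, bd, ht0]
      rw [ht0] at hpos h1
      nlinarith
    · have ht1 : (1 : ℤ) ≤ t := by omega
      have hQ1 : (1 : ℤ) ≤ Q := by exact_mod_cast hQ
      have hlow : (t : ℤ) * Q ≤ imsq x0 := by rw [him]; nlinarith [abs_nonneg x0.re]
      have hk1 : 1 ≤ imsq x0 := by nlinarith
      have h1 := hcard _ (sph_card_real (imsq x0) hk1)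
      have hk0 : (0 : ℝ) < imsq x0 := by exact_mod_cast hk1
      have ht0' : (0 : ℝ) < t := by exact_mod_cast Nat.pos_of_ne_zero ht0
      have hlow' : (t : ℝ) * Q ≤ imsq x0 := by exact_mod_cast hlow
      have hne : imsq x0 ≠ 0 := by omega
      simp only [kk, hne, if_false, bd, ht0, zero_add, hs x0 hx0.1]
      push_cast
      calc ((s.filter fun x => f x = (t, sg)).card : ℝ) * ((Q : ℝ) ^ 2 / imsq x0) ^ 2
          ≤ 9216 * (imsq x0 : ℝ) ^ (7 / 8 : ℝ) * ((Q : ℝ) ^ 2 / imsq x0) ^ 2 := by gcongr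
        _ = 9216 * (Q : ℝ) ^ 4 * (imsq x0 : ℝ) ^ (-(9 / 8) : ℝ) := by
            have : (imsq x0 : ℝ) ^ (7 / 8 : ℝ) = (imsq x0 : ℝ) ^ (-(9 / 8) : ℝ) * (imsq x0) ^ 2 := by
              rw [← Real.rpow_natCast, ← Real.rpow_add hk0]; norm_num
            rw [this]; field_simp
        _ ≤ 9216 * (Q : ℝ) ^ 4 * ((t : ℝ) * Q) ^ (-(9 / 8) : ℝ) := by
            gcongr 9216 * (Q : ℝ) ^ 4 * ?_
            exact Real.rpow_le_rpow_of_nonpos (by positivity) hlow' (by norm_num)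
        _ = _ := by
            rw [Real.mul_rpow ht0'.le hQ0.le]
            have : (Q : ℝ) ^ (23 / 8 : ℝ) = (Q : ℝ) ^ (-(9 / 8) : ℝ) * (Q : ℝ) ^ 4 := by
              rw [← Real.rpow_natCast, ← Real.rpow_add hQ0]; norm_num
            rw [this]; ring
  rw [← Finset.sum_fiberwise_of_maps_to (g := f)
    (t := Finset.range (Q + 1) ×ˢ (Finset.univ : Finset Bool))
    (by intro x _; simp [f]; omega)]
  refine (Finset.sum_le_sum fun b _ => hfib b).trans ?_
  rw [Finset.sum_product]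
  simp only [Finset.sum_const, Finset.card_univ, Fintype.card_bool, nsmul_eq_mul, bd]
  rw [← Finset.mul_sum, Finset.sum_add_distrib, ← Finset.mul_sum, Finset.sum_ite_eq']
  have h1 : ∑ t ∈ Finset.range (Q + 1), (t : ℝ) ^ (-(9 / 8) : ℝ) ≤ C0 :=
    hsum.sum_le_tsum _ fun t _ => by positivity
  have h2 : 0 < (Q : ℝ) ^ (23 / 8 : ℝ) := by positivity
  simp only [Finset.mem_range, Nat.zero_lt_succ, if_true]
  push_cast
  nlinarith [mul_le_mul_of_nonneg_left h1 h2.le]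

end Pool.Agent.P.MP_465281_an
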