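import Mathlib

/-! The Borel Cantor-Bernstein theorem for piecewise maps. -/

namespace Pool.Agent.P.MP_465281_an

open Set MeasureTheory Function

theorem csb_fix {X : Type} [MeasurableSpace X] {C₀ : Set X} (h0 : MeasurableSet C₀)
    (F : Set X → Set X) (hF : ∀ S, MeasurableSet S → MeasurableSet (F S))
    (hU : ∀ S : ℕ → Set X, F (⋃ n, S n) = ⋃ n, F (S n)) :
    ∃ C, MeasurableSet C ∧ C = C₀ ∪ F C := by
  refine ⟨⋃ n, F^[n] C₀, MeasurableSet.iUnion fun n => ?_, ?_⟩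
  · induction n with
    | zero => exact h0
    | succ n ih => rw [iterate_succ_apply']; exact hF _ ih
  · rw [hU, ← union_iUnion_nat_succ]
    simp only [iterate_zero, id_eq, iterate_succ_apply']

theorem piecewise_csb {X : Type} [MeasurableSpace X] {ι κ : Type} [Fintype ι] [Fintype κ]
    (e : ι → X ≃ᵐ X) (f : κ → X ≃ᵐ X) {A B : Set X}
    (P : ι → Set X) (hP : ∀ i, MeasurableSet (P i)) (hPd : Pairwise (Disjoint on P))
    (hPA : ⋃ i, P i = A) (hPB : ∀ i, e i '' P i ⊆ B)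
    (hPe : Pairwise (Disjoint on fun i => e i '' P i))
    (Q : κ → Set X) (hQ : ∀ j, MeasurableSet (Q j)) (hQd : Pairwise (Disjoint on Q))
    (hQB : ⋃ j, Q j = B) (hQA : ∀ j, f j '' Q j ⊆ A)
    (hQf : Pairwise (Disjoint on fun j => f j '' Q j)) :
    ∃ R : ι ⊕ κ → Set X, (∀ s, MeasurableSet (R s)) ∧ Pairwise (Disjoint on R) ∧ ⋃ s, R s = A ∧
      Pairwise (Disjoint on fun s => (Sum.elim e (fun j => (f j).symm) s : X ≃ᵐ X) '' R s) ∧
      ⋃ s, (Sum.elim e (fun j => (f j).symm) s : X ≃ᵐ X) '' R s = B := by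
  have mφ : ∀ S, MeasurableSet S → MeasurableSet (⋃ i, e i '' (S ∩ P i)) := fun S hS =>
    MeasurableSet.iUnion fun i => (e i).measurableSet_image.2 (hS.inter (hP i))
  have mψ : ∀ S, MeasurableSet S → MeasurableSet (⋃ j, f j '' (S ∩ Q j)) := fun S hS =>
    MeasurableSet.iUnion fun j => (f j).measurableSet_image.2 (hS.inter (hQ j))
  have hA : MeasurableSet A := hPA ▸ MeasurableSet.iUnion hP
  obtain ⟨C, hC, eC⟩ := csb_fix (C₀ := A \ ⋃ j, f j '' Q j)
    (hA.diff (MeasurableSet.iUnion fun j => (f j).measurableSet_image.2 (hQ j)))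
    (fun S => ⋃ j, f j '' ((⋃ i, e i '' (S ∩ P i)) ∩ Q j)) (fun S hS => mψ _ (mφ S hS))
    (fun S => by
      ext x
      simp only [iUnion_inter, image_iUnion, mem_iUnion]
      exact ⟨fun ⟨j, i, n, h⟩ => ⟨n, j, i, h⟩, fun ⟨n, j, i, h⟩ => ⟨j, i, n, h⟩⟩)
  obtain ⟨D, hD⟩ : ∃ D, D = ⋃ i, e i '' (C ∩ P i) := ⟨_, rfl⟩
  rw [← hD] at eC
  have mD : MeasurableSet D := hD ▸ mφ C hC
  have key : ∀ j, ∀ y ∈ Q j, f j y ∈ C ↔ y ∈ D := by
    intro j y hy
    refine ⟨fun h => ?_, fun h => eC.ge (Or.inr (mem_iUnion.2 ⟨j, y, ⟨h, hy⟩, rfl⟩))⟩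
    rcases eC.le h with h | h
    · exact (h.2 (mem_iUnion.2 ⟨j, y, hy, rfl⟩)).elim
    · obtain ⟨j', y', h1, h2⟩ := mem_iUnion.1 h
      by_cases hj : j' = j
      · subst hj
        exact (f j').injective h2 ▸ h1.1
      · exact (disjoint_left.1 (hQf hj) ⟨y', h1.2, h2⟩ ⟨y, hy, rfl⟩).elim
  have im : ∀ j S, (f j).symm '' (f j '' S) = S := fun j S => by
    rw [image_image]
    simp
  have d1 : ∀ i j, Disjoint (C ∩ P i) (f j '' (Q j \ D)) := fun i j => disjoint_left.2 <| by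
    rintro _ h ⟨y, hy, rfl⟩
    exact hy.2 ((key j y hy.1).1 h.1)
  have d2 : ∀ i j, Disjoint (e i '' (C ∩ P i)) (Q j \ D) := fun i j => disjoint_left.2
    fun x h hx => hx.2 (hD ▸ mem_iUnion.2 ⟨i, h⟩)
  refine ⟨Sum.elim (fun i => C ∩ P i) fun j => f j '' (Q j \ D), ?_, ?_, ?_, ?_, ?_⟩
  · rintro (i | j)
    · exact hC.inter (hP i)
    · exact (f j).measurableSet_image.2 ((hQ j).diff mD)
  · rintro (i | j) (i' | j') h
    · exact (hPd fun k => h (congrArg _ k)).mono inter_subset_right inter_subset_right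
    · exact d1 i j'
    · exact (d1 i' j).symm
    · exact (hQf fun k => h (congrArg _ k)).mono (image_mono sdiff_subset) (image_mono sdiff_subset)
  · refine Subset.antisymm (iUnion_subset ?_) fun x hx => ?_
    · rintro (i | j)
      · exact inter_subset_right.trans (hPA ▸ subset_iUnion P i)
      · exact (image_mono sdiff_subset).trans (hQA j)
    · by_cases h : x ∈ C
      · obtain ⟨i, hi⟩ := mem_iUnion.1 (hPA.symm ▸ hx : x ∈ ⋃ i, P i)
        exact mem_iUnion.2 ⟨Sum.inl i, h, hi⟩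
      · have h1 : x ∈ ⋃ j, f j '' Q j := by
          by_contra h2
          exact h (eC.ge (Or.inl ⟨hx, h2⟩))
        obtain ⟨j, y, hy, rfl⟩ := mem_iUnion.1 h1
        exact mem_iUnion.2 ⟨Sum.inr j, y, ⟨hy, fun k => h ((key j y hy).2 k)⟩, rfl⟩
  · rintro (i | j) (i' | j') h <;> simp only [onFun, Sum.elim_inl, Sum.elim_inr, im]
    · exact (hPe fun k => h (congrArg _ k)).mono (image_mono inter_subset_right)
        (image_mono inter_subset_right)
    · exact d2 i j'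
    · exact (d2 i' j).symm
    · exact (hQd fun k => h (congrArg _ k)).mono sdiff_subset sdiff_subset
  · refine Subset.antisymm (iUnion_subset ?_) fun y hy => ?_
    · rintro (i | j) <;> simp only [Sum.elim_inl, Sum.elim_inr, im]
      · exact (image_mono inter_subset_right).trans (hPB i)
      · exact sdiff_subset.trans (hQB ▸ subset_iUnion Q j)
    · by_cases h : y ∈ D
      · obtain ⟨i, hi⟩ := mem_iUnion.1 (hD ▸ h : y ∈ ⋃ i, e i '' (C ∩ P i))
        exact mem_iUnion.2 ⟨Sum.inl i, hi⟩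
      · obtain ⟨j, hj⟩ := mem_iUnion.1 (hQB.symm ▸ hy : y ∈ ⋃ j, Q j)
        refine mem_iUnion.2 ⟨Sum.inr j, ?_⟩
        simp only [Sum.elim_inr, im]
        exact ⟨hj, h⟩

end Pool.Agent.P.MP_465281_an
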