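import Pool.Agent.P.MP_465281_an.Euclid

namespace Pool.Agent.P.MP_465281_an

open Set Metric MeasureTheory Filter Topology Real Bornology
open scoped Classical RealInnerProductSpace FourierTransform ENNReal

variable {n : ℕ}

attribute [local instance] SymFam.fin SymFam.ne

lemma eg_norm_le (g : Euc n ≃ᵢ Euc n) (y : Euc n) : ‖g y‖ ≤ ‖g 0‖ + ‖y‖ := by
  have h := norm_add_le (g 0) (g y - g 0)
  rw [add_sub_cancel, ← dist_eq_norm, g.dist_eq, dist_zero_right] at h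
  exact h

/-- Iterated squares of the basic family, with a bound on the displacement of the origin. -/
theorem euclid_gap_disp (hn : 3 ≤ n) : ∃ a0 c : ℝ, 0 ≤ a0 ∧ a0 < 1 ∧ 0 ≤ c ∧ ∀ j : ℕ,
    ∃ F : SymFam (Euc n), (∀ i, MeasurePreserving (F.g i) volume volume) ∧
      (∀ i, ‖F.g i 0‖ ≤ 2 ^ j * c) ∧ ∀ f, ClsE f → ClsE (F.avg f) ∧
        ∫ x, ‖hiF (F.avg f) x‖ ^ 2 ≤ a0 ^ (2 ^ j) * ∫ x, ‖hiF f x‖ ^ 2 := by
  obtain ⟨a0, h0, h1, hc⟩ := euclid_contract hn
  refine ⟨a0, ∑ i, ‖(base n hn).g i 0‖, h0, h1, Finset.sum_nonneg fun _ _ => norm_nonneg _,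
    fun j => ?_⟩
  induction j with
  | zero =>
    refine ⟨base n hn, base_mp hn, fun i => ?_, fun f hf => ⟨clsE_avg _ (base_mp hn) hf, ?_⟩⟩
    · rw [pow_zero, one_mul]
      exact Finset.single_le_sum (f := fun i => ‖(base n hn).g i 0‖) (fun _ _ => norm_nonneg _)
        (Finset.mem_univ i)
    · rw [pow_zero, pow_one]
      exact hc f hf
  | succ j ih =>
    obtain ⟨F, f1, f2, f3⟩ := ih
    refine ⟨F.sq, fun p => ((f1 p.1).comp (f1 p.2) :), fun p => ?_, fun f hf => ?_⟩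
    · refine (eg_norm_le (F.g p.1) (F.g p.2 0)).trans ?_
      rw [pow_succ]
      linarith [f2 p.1, f2 p.2]
    · rw [SymFam.avg_sq]
      refine ⟨(f3 _ (f3 f hf).1).1, (f3 _ (f3 f hf).1).2.trans ?_⟩
      rw [pow_succ 2 j, mul_two, pow_add, mul_assoc]
      exact mul_le_mul_of_nonneg_left (f3 f hf).2 (pow_nonneg h0 _)

lemma eg_tail (F : SymFam (Euc n)) (hF : ∀ i, MeasurePreserving (F.g i) volume volume) {a : ℝ}
    (ha : 0 ≤ a) (hen : ∀ f, ClsE f → ClsE (F.avg f) ∧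
      ∫ x, ‖hiF (F.avg f) x‖ ^ 2 ≤ a * ∫ x, ‖hiF f x‖ ^ 2) (B : Set (Euc n))
    (hB : MeasurableSet B) (hBf : volume B ≠ ∞) :
    Integrable (fun y => ‖F.avg (B.indicator 1) y‖ ^ 2) ∧
      ∫ y, ‖F.avg (B.indicator 1) y‖ ^ 2 ≤ a * volume.real B +
        volume.real (ball (0 : Euc n) n) * volume.real B ^ 2 := by
  have hf : ClsE (B.indicator (1 : Euc n → ℂ)) :=
    ⟨(integrable_indicator_iff hB).2 (integrableOn_const hBf),
      memLp_indicator_const 2 hB (1 : ℂ) (Or.inr hBf)⟩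
  set f := B.indicator (1 : Euc n → ℂ) with hfdef
  have hn1 : (fun x => ‖f x‖) = B.indicator 1 := by
    ext x; by_cases hx : x ∈ B <;> simp [hfdef, hx]
  have hn2 : (fun x => ‖f x‖ ^ 2) = B.indicator 1 := by
    ext x; by_cases hx : x ∈ B <;> simp [hfdef, hx]
  have hh := (hen f hf).1
  refine ⟨(memLp_two_iff_integrable_sq_norm hh.2.1).1 hh.2, ?_⟩
  have key : ∀ u : Euc n → ℂ, ClsE u → ∫ x, ‖u x‖ ^ 2 =
      (∫ x in ball (0 : Euc n) n, ‖𝓕 u x‖ ^ 2) + ∫ x, ‖hiF u x‖ ^ 2 := by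
    intro u hu
    obtain ⟨p1, p2⟩ := plancherel hu.1 hu.2
    rw [← p2, ← integral_add_compl (measurableSet_ball (x := (0 : Euc n)) (ε := n))
      ((memLp_two_iff_integrable_sq_norm p1.1).1 p1), ← integral_indicator measurableSet_ball.compl]
    congr 2
    ext x
    by_cases hx : x ∈ (ball (0 : Euc n) n)ᶜ <;> simp [hiF, hx]
  have e1 : ∫ x, ‖hiF f x‖ ^ 2 ≤ volume.real B := by
    have := key f hf
    rw [hn2, integral_indicator_one hB] at this
    rw [this]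
    exact le_add_of_nonneg_left (integral_nonneg fun x => sq_nonneg _)
  have e2 : ∀ x, ‖𝓕 (F.avg f) x‖ ≤ volume.real B := by
    intro x
    refine (VectorFourier.norm_fourierIntegral_le_integral_norm 𝐞 volume (innerₗ (Euc n))
      (F.avg f) x).trans ((l1_avg F hF hf.1).trans ?_)
    rw [hn1, integral_indicator_one hB]
  have e3 : ∫ x in ball (0 : Euc n) n, ‖𝓕 (F.avg f) x‖ ^ 2 ≤
      volume.real (ball (0 : Euc n) n) * volume.real B ^ 2 := by
    have := norm_setIntegral_le_of_norm_le_const (μ := volume) (s := ball (0 : Euc n) n)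
      (f := fun x => ‖𝓕 (F.avg f) x‖ ^ 2) (C := volume.real B ^ 2) measure_ball_lt_top
      (fun x _ => by
        rw [Real.norm_eq_abs, abs_of_nonneg (sq_nonneg _)]
        exact pow_le_pow_left₀ (norm_nonneg _) (e2 x) 2)
    rw [mul_comm]
    exact (le_abs_self _).trans this
  rw [key _ hh]
  have e4 := (hen f hf).2.trans (mul_le_mul_of_nonneg_left e1 ha)
  linarith

lemma eg_grid {δ : ℝ} (hδ : 0 < δ) (M : ℕ) (z : Euc n) (hz : ‖z‖ ≤ M * (δ / (n + 1))) :
    ∃ w : Fin n → Finset.Icc (-(M : ℤ)) M,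
      ‖z - (WithLp.toLp 2 fun t => ((w t : ℤ) : ℝ) * (δ / (n + 1)) : Euc n)‖ < δ := by
  set s := δ / (n + 1) with hs
  have s0 : 0 < s := by positivity
  have hk : ∀ t, |z t| ≤ M * s := fun t => (PiLp.norm_apply_le z t).trans hz
  refine ⟨fun t => ⟨⌊z t / s⌋, ?_⟩, ?_⟩
  · have h2 := abs_le.1 (hk t)
    rw [Finset.mem_Icc, Int.le_floor]
    refine ⟨?_, ?_⟩
    · rw [le_div_iff₀ s0]; push_cast; linarith [h2.1]
    · have : (⌊z t / s⌋ : ℝ) ≤ (M : ℤ) :=
        (Int.floor_le _).trans (by rw [div_le_iff₀ s0]; exact_mod_cast h2.2)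
      exact_mod_cast this
  · refine lt_of_pow_lt_pow_left₀ 2 hδ.le ?_
    rw [EuclideanSpace.norm_sq_eq]
    have h1 : ∀ t, ‖(z - (WithLp.toLp 2 fun t => ((⌊z t / s⌋ : ℤ) : ℝ) * s : Euc n)) t‖ ^ 2 ≤
        s ^ 2 := fun t => by
      have a1 := (le_div_iff₀ s0).1 (Int.floor_le (z t / s))
      have a2 := (div_lt_iff₀ s0).1 (Int.lt_floor_add_one (z t / s))
      rw [PiLp.sub_apply, Real.norm_eq_abs, sq_abs]
      exact pow_le_pow_left₀ (by linarith) (by linarith) 2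
    refine (Finset.sum_le_sum fun t _ => h1 t).trans_lt ?_
    have h2 : δ = (n + 1) * s := by rw [hs]; field_simp
    rw [Finset.sum_const, Finset.card_univ, Fintype.card_fin, nsmul_eq_mul, h2, mul_pow]
    exact mul_lt_mul_of_pos_right (by nlinarith [Nat.cast_nonneg (α := ℝ) n]) (by positivity)

/-- A family with a gap together with few translations that bring it back to two given balls. -/
theorem euclid_HG (hn : 3 ≤ n) (R δ ε : ℝ) (hδ : 0 < δ) (hε : 0 < ε) (x : Fin 2 → Euc n) :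
    ∃ (F : SymFam (Euc n)) (m : ℕ) (h : Fin m → Euc n ≃ᵢ Euc n) (a : ℝ), 0 ≤ a ∧
      a * (m : ℝ) ^ 3 ≤ ε ∧ (∀ i, MeasurePreserving (F.g i) volume volume) ∧
      (∀ j, MeasurePreserving (h j) volume volume) ∧
      (∀ B, MeasurableSet B → volume B ≠ ∞ →
        Integrable (fun y => ‖F.avg (B.indicator 1) y‖ ^ 2) ∧
        ∫ y, ‖F.avg (B.indicator 1) y‖ ^ 2 ≤ a * volume.real B +
          volume.real (ball (0 : Euc n) n) * volume.real B ^ 2) ∧
      ∀ y ∈ ball (0 : Euc n) R, ∀ i p, ∃ j, h j (F.g i y) ∈ ball (x p) δ := by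
  obtain ⟨a0, c, h0, h1, hc, hj⟩ := euclid_gap_disp hn
  have s0 : 0 < δ / (n + 1) := by positivity
  set D : ℕ := ⌈(|R| + c) / (δ / (n + 1))⌉₊ + 1 with hD
  have D1 : |R| + c ≤ D * (δ / (n + 1)) := by
    rw [← div_le_iff₀ s0, hD]
    push_cast
    linarith [Nat.le_ceil ((|R| + c) / (δ / (n + 1)))]
  have lim : Tendsto (fun j : ℕ => (2 * (3 * D) ^ n : ℝ) ^ 3 *
      (((2 ^ j : ℕ) : ℝ) ^ (n * 3) * a0 ^ (2 ^ j))) atTop (𝓝 0) := by
    have := ((tendsto_pow_const_mul_const_pow_of_abs_lt_one (n * 3)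
      (r := a0) (by rwa [abs_of_nonneg h0])).comp
        (tendsto_pow_atTop_atTop_of_one_lt (one_lt_two (α := ℕ)))).const_mul
          ((2 * (3 * D) ^ n : ℝ) ^ 3)
    simpa using this
  obtain ⟨j, hlim⟩ := (lim.eventually (ge_mem_nhds hε)).exists
  obtain ⟨F, f1, f2, f3⟩ := hj j
  let I := Fin 2 × (Fin n → Finset.Icc (-((2 ^ j * D : ℕ) : ℤ)) (2 ^ j * D : ℕ))
  let u : I → Euc n := fun p =>
    x p.1 - (WithLp.toLp 2 fun t => ((p.2 t : ℤ) : ℝ) * (δ / (n + 1)) : Euc n)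
  refine ⟨F, Fintype.card I, fun k => IsometryEquiv.addRight (u ((Fintype.equivFin I).symm k)),
    a0 ^ (2 ^ j), pow_nonneg h0 _, le_trans ?_ hlim, f1,
    fun k => measurePreserving_add_right volume _, eg_tail F f1 (pow_nonneg h0 _) f3,
    fun y hy i p => ?_⟩
  · have c1 : Fintype.card I = 2 * (2 * (2 ^ j * D) + 1) ^ n := by
      simp only [I, Fintype.card_prod, Fintype.card_fin, Fintype.card_fun, Fintype.card_coe,
        Int.card_Icc]
      congr 2
      omega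
    have c2 : Fintype.card I ≤ 2 * (3 * D) ^ n * (2 ^ j) ^ n := by
      rw [c1, mul_assoc, ← mul_pow]
      have : 0 < 2 ^ j * D := by positivity
      exact Nat.mul_le_mul_left _ (Nat.pow_le_pow_left (by nlinarith) n)
    have c3 : (Fintype.card I : ℝ) ≤ 2 * (3 * D) ^ n * ((2 ^ j : ℕ) : ℝ) ^ n := by
      exact_mod_cast c2
    rw [← mul_assoc, pow_mul, ← mul_pow, mul_comm]
    exact mul_le_mul_of_nonneg_right (pow_le_pow_left₀ (Nat.cast_nonneg _) c3 3) (pow_nonneg h0 _)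
  · have y1 : ‖y‖ ≤ |R| := (mem_ball_zero_iff.1 hy).le.trans (le_abs_self R)
    have k1 : (1 : ℝ) ≤ 2 ^ j := one_le_pow₀ one_le_two
    obtain ⟨w, hw⟩ := eg_grid hδ (2 ^ j * D) (F.g i y) (by
      refine (eg_norm_le _ _).trans ?_
      push_cast
      nlinarith [f2 i, mul_le_mul_of_nonneg_left D1 (zero_le_one.trans k1),
        mul_le_mul_of_nonneg_right k1 (abs_nonneg R)])
    refine ⟨Fintype.equivFin I (p, w), ?_⟩
    simp only [Equiv.symm_apply_apply]
    rw [mem_ball, dist_eq_norm]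
    refine lt_of_eq_of_lt (congrArg _ ?_) hw
    change F.g i y + (x p - _) - x p = _
    abel

end Pool.Agent.P.MP_465281_an
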