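import Pool.Agent.P.MP_465281_an.EqEG

namespace Pool.Agent.P.MP_465281_an

open Set Metric MeasureTheory Filter Topology Real Bornology
open scoped Classical RealInnerProductSpace FourierTransform ENNReal

variable {n : ℕ}

attribute [local instance] SymFam.fin SymFam.ne

lemma em_split (u : Euc n → ℂ) (hu : ClsE u) : ∫ x, ‖u x‖ ^ 2 =
    (∫ x in ball (0 : Euc n) n, ‖𝓕 u x‖ ^ 2) + ∫ x, ‖hiF u x‖ ^ 2 := by
  obtain ⟨p1, p2⟩ := plancherel hu.1 hu.2
  rw [← p2, ← integral_add_compl (measurableSet_ball (x := (0 : Euc n)) (ε := n))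
    ((memLp_two_iff_integrable_sq_norm p1.1).1 p1), ← integral_indicator measurableSet_ball.compl]
  congr 2
  ext x
  by_cases hx : x ∈ (ball (0 : Euc n) n)ᶜ <;> simp [hiF, hx]

lemma em_cls_shift {f : Euc n → ℂ} (hf : ClsE f) (s : Euc n) : ClsE fun x => f (x + s) :=
  ⟨(measurePreserving_add_right volume s).integrable_comp_of_integrable hf.1,
    hf.2.comp_measurePreserving (measurePreserving_add_right volume s)⟩

lemma em_shift {f : Euc n → ℂ} (hf : ClsE f) (s : Euc n) (δ v : ℝ) (hs : ‖s‖ ≤ δ)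
    (hv : ∫ x, ‖f x‖ ≤ v) : ∫ x, ‖f (x + s) - f x‖ ^ 2 ≤ 4 * (∫ x, ‖hiF f x‖ ^ 2) +
      volume.real (ball (0 : Euc n) n) * (2 * π * (δ * n) * v) ^ 2 := by
  have h1 := em_cls_shift hf s
  have hg : ClsE fun x => f (x + s) - f x := ⟨h1.1.sub hf.1, h1.2.sub hf.2⟩
  have hF : ∀ ξ, 𝓕 (fun x => f (x + s) - f x) ξ =
      (((𝐞 ⟪s, ξ⟫ : Circle) : ℂ) - 1) * 𝓕 f ξ := by
    intro ξ
    have e1 : 𝓕 (fun x => f (x + s)) ξ = ((𝐞 ⟪s, ξ⟫ : Circle) : ℂ) * 𝓕 f ξ :=
      congrFun (VectorFourier.fourierIntegral_comp_add_right 𝐞 volume (innerₗ (Euc n)) f s) ξ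
    rw [sub_mul, one_mul, ← e1]
    simp only [fourier_eq, smul_sub]
    exact integral_sub ((Real.fourierIntegral_convergent_iff ξ).2 h1.1)
      ((Real.fourierIntegral_convergent_iff ξ).2 hf.1)
  have e2 : ∀ x, ‖𝓕 f x‖ ≤ v := fun x =>
    (VectorFourier.norm_fourierIntegral_le_integral_norm 𝐞 volume (innerₗ (Euc n)) f x).trans hv
  have e3 : ∫ x in ball (0 : Euc n) n, ‖𝓕 (fun x => f (x + s) - f x) x‖ ^ 2 ≤
      volume.real (ball (0 : Euc n) n) * (2 * π * (δ * n) * v) ^ 2 := by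
    have := norm_setIntegral_le_of_norm_le_const (μ := volume) (s := ball (0 : Euc n) n)
      (f := fun x => ‖𝓕 (fun x => f (x + s) - f x) x‖ ^ 2) (C := (2 * π * (δ * n) * v) ^ 2)
      measure_ball_lt_top (fun x hx => by
        rw [Real.norm_eq_abs, abs_of_nonneg (sq_nonneg _), hF, norm_mul]
        refine pow_le_pow_left₀ (by positivity) (mul_le_mul ?_ (e2 x) (norm_nonneg _) ?_) 2
        · rw [Real.fourierChar_apply, mul_comm _ Complex.I]
          refine Real.norm_exp_I_mul_ofReal_sub_one_le.trans ?_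
          rw [norm_mul, Real.norm_eq_abs, abs_of_pos Real.two_pi_pos]
          refine mul_le_mul_of_nonneg_left ((norm_inner_le_norm _ _).trans ?_) Real.two_pi_pos.le
          exact mul_le_mul hs (mem_ball_zero_iff.1 hx).le (norm_nonneg _) ((norm_nonneg _).trans hs)
        · have := (norm_nonneg _).trans hs
          positivity)
    rw [mul_comm]
    exact (le_abs_self _).trans this
  have hφ : MemLp (hiF f) 2 := (plancherel hf.1 hf.2).1.indicator measurableSet_ball.compl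
  have e4 : ∫ x, ‖hiF (fun x => f (x + s) - f x) x‖ ^ 2 ≤ 4 * ∫ x, ‖hiF f x‖ ^ 2 := by
    rw [← integral_const_mul]
    refine integral_mono_of_nonneg (Eventually.of_forall fun x => sq_nonneg _)
      (((memLp_two_iff_integrable_sq_norm hφ.1).1 hφ).const_mul _)
      (Eventually.of_forall fun x => ?_)
    by_cases hx : x ∈ (ball (0 : Euc n) n)ᶜ
    · simp only [hiF, indicator_of_mem hx, hF, norm_mul, mul_pow]
      refine mul_le_mul_of_nonneg_right ?_ (sq_nonneg _)
      have : ‖((𝐞 ⟪s, x⟫ : Circle) : ℂ) - 1‖ ≤ 2 := (norm_sub_le _ _).trans (by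
        rw [Circle.norm_coe, norm_one]; norm_num)
      nlinarith [norm_nonneg (((𝐞 ⟪s, x⟫ : Circle) : ℂ) - 1)]
    · simp [hiF, indicator_of_notMem hx]
  rw [em_split _ hg]
  linarith

lemma em_fubini {f : Euc n → ℂ} (hm : Measurable f) (hf : Integrable f) (W : Set (Euc n))
    (ρ K : ℝ) (hK : 0 ≤ K)
    (h0 : ∀ s, s ∉ ball (0 : Euc n) ρ → ∫ x in W, ‖f (x + s)‖ ≤ 0)
    (h1 : ∀ s ∈ ball (0 : Euc n) ρ, ∫ x in W, ‖f (x + s)‖ ≤ K) :
    (∫ x, ‖f x‖) * volume.real W ≤ K * volume.real (ball (0 : Euc n) ρ) := by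
  have hi : ∀ s, IntegrableOn (fun x => f (x + s)) W := fun s =>
    ((measurePreserving_add_right volume s).integrable_comp_of_integrable hf).integrableOn
  have e1 : ∫⁻ s, ∫⁻ x in W, ‖f (x + s)‖ₑ = ∫⁻ x in W, ∫⁻ s, ‖f (x + s)‖ₑ :=
    lintegral_lintegral_swap (hm.comp (measurable_snd.add measurable_fst)).enorm.aemeasurable
  have e2 : ∀ x, ∫⁻ s, ‖f (x + s)‖ₑ = ENNReal.ofReal (∫ y, ‖f y‖) := fun x => by
    rw [lintegral_add_left_eq_self (fun y => ‖f y‖ₑ) x, ofReal_integral_norm_eq_lintegral_enorm hf]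
  have e3 : ∫⁻ s, ∫⁻ x in W, ‖f (x + s)‖ₑ ≤
      ∫⁻ s, (ball (0 : Euc n) ρ).indicator (fun _ => ENNReal.ofReal K) s := by
    refine lintegral_mono fun s => ?_
    rw [← ofReal_integral_norm_eq_lintegral_enorm (hi s)]
    by_cases hs : s ∈ ball (0 : Euc n) ρ
    · rw [indicator_of_mem hs]
      exact ENNReal.ofReal_le_ofReal (h1 s hs)
    · rw [indicator_of_notMem hs, ENNReal.ofReal_of_nonpos (h0 s hs)]
  simp only [e1, e2, lintegral_const, Measure.restrict_apply_univ] at e3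
  rw [lintegral_indicator_const measurableSet_ball] at e3
  have e4 := ENNReal.toReal_mono (ENNReal.mul_ne_top ENNReal.ofReal_ne_top measure_ball_lt_top.ne) e3
  rwa [ENNReal.toReal_mul, ENNReal.toReal_mul, ENNReal.toReal_ofReal hK,
    ENNReal.toReal_ofReal (integral_nonneg fun _ => norm_nonneg _)] at e4

lemma em_pick (a C ε : ℝ) (h0 : 0 ≤ a) (h1 : a < 1) (hε : 0 < ε) (d : ℕ) :
    ∃ j : ℕ, C * (((2 ^ j : ℕ) : ℝ) ^ d * a ^ (2 ^ j)) < ε := by
  have h2 := (tendsto_pow_const_mul_const_pow_of_abs_lt_one d (r := a)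
    (by rwa [abs_of_nonneg h0])).comp (tendsto_pow_atTop_atTop_of_one_lt (α := ℕ) one_lt_two)
  have h3 := h2.const_mul C
  rw [mul_zero] at h3
  exact (h3.eventually (gt_mem_nhds hε)).exists

/-- HOLE EM -/
theorem euclid_HM (hn : 3 ≤ n) (R u : ℝ) (hu : 0 < u) :
    ∃ (k : ℕ) (e : Fin k → Euc n ≃ᵢ Euc n), (∀ i, MeasurePreserving (e i) volume volume) ∧
      ∀ U W : Set (Euc n), MeasurableSet U → MeasurableSet W → U ⊆ ball 0 R → W ⊆ ball 0 R →
        u ≤ volume.real U → u ≤ volume.real W → ∃ i, (e i '' U ∩ W).Nonempty := by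
  obtain ⟨a0, c, ha0, ha1, hc, hj⟩ := euclid_gap_disp hn
  set ω : ℝ := volume.real (ball (0 : Euc n) 1) with hω
  obtain ⟨j, hj1⟩ := em_pick a0 (4 * ((2 * |R| + c + 1) ^ n * ω) ^ 2) (u ^ 2 / 2) ha0 ha1
    (by positivity) (2 * n)
  obtain ⟨F, hF, hD, hcl⟩ := hj j
  set a : ℝ := a0 ^ (2 ^ j) with ha
  have a0' : 0 ≤ a := by positivity
  have h2j : (1 : ℝ) ≤ 2 ^ j := one_le_pow₀ one_le_two
  set ρ : ℝ := (2 * |R| + c + 1) * 2 ^ j with hρ
  have ρ0 : 0 < ρ := by positivity
  set Q : ℝ := volume.real (ball (0 : Euc n) ρ) with hQ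
  have eQ : Q = ρ ^ n * ω := by
    rw [hQ, hω, measureReal_def, measureReal_def, Measure.addHaar_ball_of_pos _ _ ρ0,
      ENNReal.toReal_mul, ENNReal.toReal_ofReal (by positivity), finrank_euclideanSpace_fin]
  have Q0 : 0 < Q := ENNReal.toReal_pos (measure_ball_pos _ _ ρ0).ne' measure_ball_lt_top.ne
  have hQa : Q ^ 2 * (4 * a) < u ^ 2 / 2 := by
    refine lt_of_eq_of_lt ?_ hj1
    rw [eQ, hρ, mul_pow (2 * |R| + c + 1), pow_mul' _ 2 n]
    push_cast
    ring
  set V : ℝ := volume.real (ball (0 : Euc n) n) with hV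
  have V0 : 0 ≤ V := measureReal_nonneg
  set M : ℝ := volume.real (ball (0 : Euc n) R) with hM
  have M0 : 0 ≤ M := measureReal_nonneg
  set B : ℝ := Q ^ 2 * (V * (2 * π * n) ^ 2 * M) with hB
  have B0 : 0 ≤ B := by positivity
  set δ : ℝ := u / (2 * (B + 1)) with hδ
  have δ0 : 0 < δ := by positivity
  have hδB : δ ^ 2 * B ≤ u ^ 2 / 4 := by
    rw [hδ, div_pow, div_mul_eq_mul_div, div_le_div_iff₀ (by positivity) (by positivity)]
    nlinarith [mul_nonneg (sq_nonneg u) B0, mul_nonneg (sq_nonneg u) (sq_nonneg B), sq_nonneg u]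
  obtain ⟨t, ht, hcov⟩ := Metric.totallyBounded_iff.1
    (isCompact_closedBall (0 : Euc n) ρ).totallyBounded δ δ0
  let E : ht.toFinset × F.ι → Euc n ≃ᵢ Euc n := fun p =>
    (F.g (F.σ p.2)).trans (IsometryEquiv.addRight (-(p.1 : Euc n)))
  let q := Fintype.equivFin (ht.toFinset × F.ι)
  refine ⟨_, fun i => E (q.symm i), fun i =>
    ((measurePreserving_add_right volume _).comp (hF _) :
      MeasurePreserving ((fun x => x + -((q.symm i).1 : Euc n)) ∘ F.g (F.σ (q.symm i).2))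
        volume volume), fun U W hU hW hUR hWR hUu hWu => ?_⟩
  by_contra hcon
  have hUf : volume U ≠ ∞ := ((measure_mono hUR).trans_lt measure_ball_lt_top).ne
  have hWf : volume W ≠ ∞ := ((measure_mono hWR).trans_lt measure_ball_lt_top).ne
  have hUM : volume.real U ≤ M := measureReal_mono hUR measure_ball_lt_top.ne
  have hg : ClsE (U.indicator (1 : Euc n → ℂ)) :=
    ⟨(integrable_indicator_iff hU).2 (integrableOn_const hUf),
      memLp_indicator_const 2 hU (1 : ℂ) (Or.inr hUf)⟩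
  set g := U.indicator (1 : Euc n → ℂ) with hgdef
  have hn1 : (fun x => ‖g x‖) = U.indicator 1 := by
    ext x; by_cases hx : x ∈ U <;> simp [hgdef, hx]
  have hn2 : (fun x => ‖g x‖ ^ 2) = U.indicator 1 := by
    ext x; by_cases hx : x ∈ U <;> simp [hgdef, hx]
  obtain ⟨hf, hen⟩ := hcl g hg
  set f := F.avg g with hfdef
  set v : ℝ := volume.real U with hv
  have v0 : 0 < v := hu.trans_le hUu
  have e1 : ∫ x, ‖hiF g x‖ ^ 2 ≤ v := by
    have := em_split g hg
    rw [hn2, integral_indicator_one hU] at this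
    rw [hv, this]
    exact le_add_of_nonneg_left (integral_nonneg fun x => sq_nonneg _)
  have e2 : ∫ x, ‖f x‖ ≤ v := (l1_avg F hF hg.1).trans (by rw [hn1, integral_indicator_one hU])
  have e3 : v ≤ ∫ x, ‖f x‖ := by
    refine le_trans (le_of_eq ?_) (norm_integral_le_integral_norm f)
    have h1 : ∀ i, ∫ x, g (F.g i x) = (v : ℂ) := fun i => by
      rw [(hF i).integral_comp (F.g i).toHomeomorph.measurableEmbedding g, hgdef]
      change ∫ x, U.indicator (fun _ => (1 : ℂ)) x = _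
      rw [integral_indicator_const _ hU]
      simp [hv]
    have hN : (Fintype.card F.ι : ℂ) ≠ 0 := by exact_mod_cast Fintype.card_ne_zero
    have h2 : ∀ i, Integrable fun x => g (F.g i x) := fun i =>
      (hF i).integrable_comp_of_integrable hg.1
    simp only [hfdef, SymFam.avg]
    rw [integral_const_mul, integral_finsetSum _ fun i _ => h2 i]
    simp only [h1, Finset.sum_const, Finset.card_univ, nsmul_eq_mul]
    rw [inv_mul_cancel_left₀ hN, Complex.norm_real, Real.norm_eq_abs, abs_of_pos v0]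
  have hz : ∀ y, (∀ i, F.g i y ∉ U) → f y = 0 := fun y hy => by
    simp only [hfdef, SymFam.avg, hgdef, indicator_of_notMem (hy _), Finset.sum_const_zero,
      mul_zero]
  have hm : Measurable f := (Finset.measurable_sum _ fun i _ =>
    (measurable_one.indicator hU).comp (F.g i).continuous.measurable).const_mul _
  set En : ℝ := 4 * (a * v) + V * (2 * π * (δ * n) * v) ^ 2 with hEn
  have En0 : 0 ≤ En := by positivity
  set τ : ℝ := v / Q with hτ
  have τ0 : 0 < τ := by positivity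
  have key := em_fubini hm hf.1 W ρ (τ / 2 * volume.real W + En / (2 * τ)) (by
    have : 0 ≤ volume.real W := measureReal_nonneg
    positivity) (fun s hs => ?_) (fun s hs => ?_)
  · have w0 : 0 < volume.real W := hu.trans_le hWu
    have k1 := (mul_le_mul_of_nonneg_right e3 w0.le).trans key
    have k2 : (τ / 2 * volume.real W + En / (2 * τ)) * Q =
        v * volume.real W / 2 + Q ^ 2 * En / (2 * v) := by
      rw [hτ]
      field_simp
    rw [← hQ, k2] at k1
    have k3 : v * volume.real W / 2 ≤ Q ^ 2 * En / (2 * v) := by linarith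
    rw [le_div_iff₀ (by positivity)] at k3
    have k4 : Q ^ 2 * En = v * (Q ^ 2 * (4 * a) + δ ^ 2 * (Q ^ 2 * (V * (2 * π * n) ^ 2 * v))) := by
      rw [hEn]
      ring
    have k5 : δ ^ 2 * (Q ^ 2 * (V * (2 * π * n) ^ 2 * v)) ≤ δ ^ 2 * B := by
      rw [hB]
      gcongr
    have k6 : u ^ 2 ≤ v * volume.real W := by
      rw [sq]
      exact mul_le_mul hUu hWu hu.le v0.le
    have k7 : v * (v * volume.real W) ≤
        v * (Q ^ 2 * (4 * a) + δ ^ 2 * (Q ^ 2 * (V * (2 * π * n) ^ 2 * v))) := by linarith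
    have k8 := le_of_mul_le_mul_left k7 v0
    nlinarith [sq_nonneg u]
  · refine le_of_eq (setIntegral_eq_zero_of_forall_eq_zero fun x hx => ?_)
    rw [hz, norm_zero]
    intro i hi
    have h1 := mem_ball_zero_iff.1 (hUR hi)
    have h2 := mem_ball_zero_iff.1 (hWR hx)
    have h3 : ‖x + s‖ ≤ ‖F.g i (x + s)‖ + ‖F.g i 0‖ := by
      rw [← dist_zero_right (x + s), ← (F.g i).dist_eq, dist_eq_norm]
      exact norm_sub_le _ _
    have h4 : ‖s‖ ≤ ‖x + s‖ + ‖x‖ := by simpa using norm_sub_le (x + s) x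
    refine hs (mem_ball_zero_iff.2 ?_)
    nlinarith [hD i, le_abs_self R, mul_le_mul_of_nonneg_left h2j (abs_nonneg R)]
  · obtain ⟨p, hp, hsp⟩ := mem_iUnion₂.1 (hcov (ball_subset_closedBall hs))
    have hp0 : ∀ x ∈ W, f (x + p) = 0 := fun x hx => hz _ fun i hi => hcon
      ⟨q (⟨p, ht.mem_toFinset.2 hp⟩, i), x, ⟨_, hi, by simp [E, F.hσ]⟩, hx⟩
    have h1 := em_shift hf (s - p) δ v (by rw [← dist_eq_norm]; exact (mem_ball.1 hsp).le) e2
    have h2 : ∫ x, ‖f (x + s) - f (x + p)‖ ^ 2 = ∫ x, ‖f (x + (s - p)) - f x‖ ^ 2 := by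
      rw [← integral_add_right_eq_self (fun x => ‖f (x + (s - p)) - f x‖ ^ 2) p]
      simp only [add_assoc, add_sub_cancel]
    have h3 : MemLp (fun x => f (x + s) - f (x + p)) 2 :=
      (em_cls_shift hf s).2.sub (em_cls_shift hf p).2
    have h4 := (memLp_two_iff_integrable_sq_norm h3.1).1 h3
    have h5 : ∫ x in W, ‖f (x + s) - f (x + p)‖ ^ 2 ≤ En := by
      refine (setIntegral_le_integral h4 (Eventually.of_forall fun x => sq_nonneg _)).trans ?_
      rw [h2, hEn]
      linarith [hen.trans (mul_le_mul_of_nonneg_left e1 a0')]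
    calc ∫ x in W, ‖f (x + s)‖
        ≤ ∫ x in W, (τ / 2 + 1 / (2 * τ) * ‖f (x + s) - f (x + p)‖ ^ 2) := by
          refine setIntegral_mono_on (em_cls_shift hf s).1.norm.integrableOn
            ((integrableOn_const hWf).add (h4.const_mul _).integrableOn) hW fun x hx => ?_
          rw [hp0 x hx, sub_zero]
          have : τ / 2 + 1 / (2 * τ) * ‖f (x + s)‖ ^ 2 - ‖f (x + s)‖ =
              (‖f (x + s)‖ - τ) ^ 2 / (2 * τ) := by
            field_simp
            ring
          have h6 : 0 ≤ (‖f (x + s)‖ - τ) ^ 2 / (2 * τ) := by positivity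
          linarith
      _ ≤ _ := by
          have h6 : Integrable (fun _ => τ / 2) (volume.restrict W) := integrableOn_const hWf
          have h7 : Integrable (fun x => 1 / (2 * τ) * ‖f (x + s) - f (x + p)‖ ^ 2)
            (volume.restrict W) := (h4.const_mul _).integrableOn
          rw [integral_add h6 h7, integral_const_mul, setIntegral_const, smul_eq_mul, mul_comm, one_div_mul_eq_div]
          gcongr

end Pool.Agent.P.MP_465281_an
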