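import Pool.Agent.P.MP_465281_an.EqMain2
import Pool.Agent.P.MP_465281_an.EqEM

/-!
Borel equidecomposition in Euclidean space.
-/

namespace Pool.Agent.P.MP_465281_an

open Set Metric MeasureTheory Function
open scoped Classical ENNReal

variable {n : ℕ}

lemma euc_mp (g : Euc n ≃ᵢ Euc n) : MeasurePreserving g volume volume := by
  have h : (g : Euc n → Euc n) = (fun x => x + g 0) ∘ g.toRealLinearIsometryEquiv := by
    funext x
    simp [IsometryEquiv.toRealLinearIsometryEquiv_apply]
  rw [h]
  exact (measurePreserving_add_right volume (g 0)).comp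
    g.toRealLinearIsometryEquiv.measurePreserving

lemma euc_img (g : Euc n ≃ᵢ Euc n) (S : Set (Euc n)) : volume (g '' S) = volume S := by
  rw [← (euc_mp g).measure_preimage_emb g.toHomeomorph.measurableEmbedding,
    preimage_image_eq _ g.injective]

/-- the Euclidean setting -/
noncomputable def eucED (hn : 3 ≤ n) (R : ℝ) : ED (Euc n) where
  μ := volume
  reg := inferInstance
  ok := fun _ => True
  ok_symm := fun _ _ => trivial
  ok_trans := fun _ _ _ _ => trivial
  ok_mp := fun g _ => euc_mp g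
  K := ball 0 R
  Ko := isOpen_ball
  K2 := ball 0 (R + 5)
  K2f := measure_ball_lt_top.ne
  hK2 := fun x hx => ball_subset_ball' (by rw [mem_ball] at hx; linarith)
  v := fun r => volume.real (ball (0 : Euc n) r)
  hv := fun x r => by rw [measureReal_def, measureReal_def, Measure.addHaar_ball_center]
  vpos := fun r hr => ENNReal.toReal_pos (measure_ball_pos _ _ hr).ne' measure_ball_lt_top.ne
  C := 9 ^ Module.finrank ℝ (Euc n)
  C1 := Nat.one_le_pow _ _ (by norm_num)
  hC := fun r _ => by
    rw [measureReal_def, measureReal_def, Measure.addHaar_ball_mul_of_pos _ _ (by norm_num),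
      ENNReal.toReal_mul, ENNReal.toReal_ofReal (by positivity)]
    push_cast
    exact le_rfl
  perf := fun x ρ hρ => by
    refine ⟨x + EuclideanSpace.single ⟨0, by omega⟩ (ρ / 2), ?_, fun h => ?_⟩
    · rw [mem_ball, dist_self_add_left, PiLp.norm_single, Real.norm_eq_abs,
        abs_of_pos (half_pos hρ)]
      linarith
    · have h1 := congrArg (fun y => dist y x) h
      simp only [dist_self_add_left, PiLp.norm_single, Real.norm_eq_abs, dist_self,
        abs_eq_zero] at h1
      linarith
  V := volume.real (ball (0 : Euc n) n)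
  V0 := measureReal_nonneg
  HG := fun δ ε hδ hε x => by
    obtain ⟨F, m, h, a, h1, h2, -, -, h3, h4⟩ := euclid_HG hn R δ ε hδ hε x
    exact ⟨F, m, h, a, h1, h2, fun _ => trivial, fun _ => trivial, h3, h4⟩
  HM := fun u hu => by
    obtain ⟨k, e, -, h⟩ := euclid_HM hn R u hu
    exact ⟨k, e, fun _ => trivial, h⟩

theorem euclid_equi (hn : 3 ≤ n) {A B : Set (Euc n)} (hA : MeasurableSet A)
    (hB : MeasurableSet B) (hAb : Bornology.IsBounded A) (hBb : Bornology.IsBounded B)
    {x y : Euc n} {ρ r : ℝ} (hρ : 0 < ρ) (hr : 0 < r) {k l : ℕ} (f : Fin k → Euc n ≃ᵢ Euc n)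
    (f' : Fin l → Euc n ≃ᵢ Euc n) (hf : ball x ρ ⊆ ⋃ i, f i '' A)
    (hf' : ball y r ⊆ ⋃ i, f' i '' B) (hAB : volume A = volume B) :
    ∃ (k : ℕ) (e : Fin k → Euc n ≃ᵢ Euc n) (P : Fin k → Set (Euc n)),
      (∀ i, MeasurableSet (P i)) ∧ Pairwise (Disjoint on P) ∧ ⋃ i, P i = A ∧
      Pairwise (Disjoint on fun i => e i '' P i) ∧ ⋃ i, e i '' P i = B := by
  obtain ⟨R, hR⟩ := ((hAb.union hBb).union
    ((isBounded_ball (x := x) (r := ρ)).union (isBounded_ball (x := y) (r := r)))).subset_ball 0
  have hcov : ∀ {S : Set (Euc n)} {z : Euc n} {s : ℝ} {j : ℕ} (g : Fin j → Euc n ≃ᵢ Euc n),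
      0 < s → ball z s ⊆ ball 0 R → ball z s ⊆ ⋃ i, g i '' S → (eucED hn R).Cov S := by
    intro S z s j g hs h1 h2
    refine ⟨z, s, j, fun i => (g i).symm, hs, h1, fun _ => trivial, fun w hw => ?_⟩
    obtain ⟨i, a, ha, rfl⟩ := mem_iUnion.1 (h2 hw)
    exact ⟨i, by simpa using ha⟩
  obtain ⟨k, e, P, -, h⟩ := (eucED hn R).equi hA hB
    ((subset_union_left.trans subset_union_left).trans hR)
    ((subset_union_right.trans subset_union_left).trans hR)
    (hcov f hρ ((subset_union_left.trans subset_union_right).trans hR) hf)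
    (hcov f' hr ((subset_union_right.trans subset_union_right).trans hR) hf') hAB
  exact ⟨k, e, P, h⟩

end Pool.Agent.P.MP_465281_an
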