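import Pool.Agent.P.MP_465281_an.Sph2

namespace Pool.Agent.P.MP_465281_an

open scoped Classical RealInnerProductSpace ENNReal
open MeasureTheory Set Metric Filter

variable {m : ℕ}

attribute [local instance] lam_prob SymFam.fin SymFam.ne

theorem sphere_HG (δ ε : ℝ) (hδ : 0 < δ) (hε : 0 < ε) (x : Fin 2 → Sp m) :
    ∃ (F : SymFam (Sp m)) (k : ℕ) (h : Fin k → Sp m ≃ᵢ Sp m) (a : ℝ), 0 ≤ a ∧
      a * (k : ℝ) ^ 3 ≤ ε ∧ (∀ i, Ok (F.g i)) ∧ (∀ j, Ok (h j)) ∧
      (∀ B, MeasurableSet B → lam m B ≠ ∞ →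
        Integrable (fun y => ‖F.avg (B.indicator 1) y‖ ^ 2) (lam m) ∧
        ∫ y, ‖F.avg (B.indicator 1) y‖ ^ 2 ∂lam m ≤ a * (lam m).real B + 2 * (lam m).real B ^ 2) ∧
      ∀ y i p, ∃ j, h j (F.g i y) ∈ ball (x p) δ := by
  choose t ht using fun p : Fin 2 => (isCompact_univ (X := Sp m)).elim_finite_subcover
    (fun g : Es m ≃ₗᵢ[ℝ] Es m => sph g ⁻¹' ball (x p) δ)
    (fun g => isOpen_ball.preimage (sph g).continuous) (fun y _ => by
      obtain ⟨g, hg⟩ := sph_trans y (x p)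
      exact mem_iUnion.2 ⟨g, by rw [mem_preimage, hg]; exact mem_ball_self hδ⟩)
  obtain ⟨T, hT⟩ : ∃ T : Finset (Es m ≃ₗᵢ[ℝ] Es m), ∀ p, t p ⊆ T :=
    ⟨Finset.univ.biUnion t, fun p => Finset.subset_biUnion_of_mem t (Finset.mem_univ p)⟩
  have h0 : (0 : ℝ) < ((T.card : ℝ) + 1) ^ 3 := by positivity
  obtain ⟨F, hF, hB⟩ := sphere_gap (m := m) (ε / ((T.card : ℝ) + 1) ^ 3) (div_pos hε h0)
  refine ⟨F, T.card, fun j => sph (T.equivFin.symm j), _, (div_pos hε h0).le, ?_, hF,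
    fun j => ⟨_, rfl⟩, hB, fun y i p => ?_⟩
  · rw [div_mul_eq_mul_div, div_le_iff₀ h0]
    gcongr
    linarith
  · obtain ⟨g, hg, h⟩ := mem_iUnion₂.1 (ht p (mem_univ (F.g i y)))
    exact ⟨T.equivFin ⟨g, hT p hg⟩, by simp only [Equiv.symm_apply_apply]; exact h⟩

theorem sphere_HM (u : ℝ) (hu : 0 < u) :
    ∃ (k : ℕ) (e : Fin k → Sp m ≃ᵢ Sp m), (∀ i, Ok (e i)) ∧
      ∀ U W : Set (Sp m), MeasurableSet U → MeasurableSet W →
        u ≤ (lam m).real U → u ≤ (lam m).real W → ∃ i, (e i '' U ∩ W).Nonempty := by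
  obtain ⟨F0, hF0, a0, h0, h1, hc⟩ := sphere_contract (m := m)
  obtain ⟨F, hF, -, hen⟩ := power_up Ok
    (by rintro _ _ ⟨g, rfl⟩ ⟨h, rfl⟩; exact ⟨g * h, rfl⟩)
    (fun f => Bd f ∧ ∫ x, f x ∂lam m = 0) (fun f => ∫ x, ‖f x‖ ^ 2 ∂lam m)
    (fun f => integral_nonneg fun x => sq_nonneg _) F0 hF0
    (fun f hf => ⟨bd_avg _ hf.1, int_avg _ hF0 hf.1 hf.2⟩) h0 h1 hc (ε := u ^ 2 / 4)
    (by positivity)
  refine ⟨Fintype.card F.ι, fun j => F.g ((Fintype.equivFin F.ι).symm j), fun j => hF _,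
    fun B W hB hW h2 h3 => ?_⟩
  by_contra hn
  have miss : ∀ y ∈ W, ∀ i, F.g i y ∉ B := fun y hy i e => hn ⟨Fintype.equivFin F.ι (F.σ i), y,
    ⟨F.g i y, e, by
      simp only [Equiv.symm_apply_apply, F.hσ, IsometryEquiv.symm_apply_apply]⟩, hy⟩
  set b := (lam m).real B with hb
  have hb0 : 0 < b := hu.trans_le h2
  have hb1 : b ≤ 1 := measureReal_le_one
  have hf : Bd fun x => B.indicator (1 : Sp m → ℂ) x - b := (Bd.ind hB).sub (Bd.const _)
  have h4 := hen _ ⟨hf, by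
    rw [integral_sub ((Bd.ind hB).int _) (integrable_const _), Pi.one_def,
      integral_indicator_const (1 : ℂ) hB]
    simp [hb]⟩
  have h5 : ∫ x, ‖B.indicator (1 : Sp m → ℂ) x - b‖ ^ 2 ∂lam m ≤ 2 * b := by
    calc _ ≤ ∫ x, (‖B.indicator (1 : Sp m → ℂ) x‖ ^ 2 + b) ∂lam m := by
          refine integral_mono (hf.intsq _) (((Bd.ind hB).intsq _).add (integrable_const _))
            fun x => ?_
          by_cases hx : x ∈ B
          · simp only [hx, indicator_of_mem, Pi.one_apply, norm_one]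
            rw [← Complex.ofReal_one, ← Complex.ofReal_sub, Complex.norm_real, Real.norm_eq_abs,
              sq_abs]
            nlinarith
          · simp [hx]; nlinarith
      _ = 2 * b := by
          rw [integral_add ((Bd.ind hB).intsq _) (integrable_const _), int_ind _ hB]
          simp [two_mul, hb]
  have h6 : b ^ 2 * (lam m).real W ≤
      ∫ y, ‖F.avg (fun x => B.indicator (1 : Sp m → ℂ) x - b) y‖ ^ 2 ∂lam m := by
    rw [← int_ind _ hW, ← integral_const_mul]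
    refine integral_mono (((Bd.ind hW).intsq _).const_mul _) ((bd_avg F hf).intsq _) fun y => ?_
    by_cases hy : y ∈ W
    · have : (Fintype.card F.ι : ℂ) ≠ 0 := by exact_mod_cast Fintype.card_ne_zero
      simp only [SymFam.avg, indicator_of_notMem (miss y hy _), indicator_of_mem hy, zero_sub,
        Finset.sum_const, Finset.card_univ, nsmul_eq_mul, inv_mul_cancel_left₀ this, norm_neg,
        Complex.norm_real, Real.norm_eq_abs, sq_abs, Pi.one_apply, norm_one, one_pow, mul_one,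
        le_refl]
    · simp only [indicator_of_notMem hy, norm_zero]
      rw [zero_pow two_ne_zero, mul_zero]
      positivity
  have h7 : b ^ 2 * u ≤ u ^ 2 / 4 * (2 * b) :=
    (mul_le_mul_of_nonneg_left h3 (sq_nonneg b)).trans
      (h6.trans (h4.trans (mul_le_mul_of_nonneg_left h5 (by positivity))))
  nlinarith [mul_pos hu hb0, mul_le_mul_of_nonneg_left h2 (mul_pos hu hb0).le]

end Pool.Agent.P.MP_465281_an
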