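import Pool.Agent.P.MP_465281_an.EqMain2
import Pool.Agent.P.MP_465281_an.EqS

/-!
Borel equidecomposition on spheres.
-/

namespace Pool.Agent.P.MP_465281_an

open Set Metric MeasureTheory Function
open scoped Classical ENNReal

variable {m : ℕ}

attribute [local instance] lam_prob

lemma sph_perf (x : Sp m) (ρ : ℝ) (hρ : 0 < ρ) : ∃ y ∈ ball x ρ, y ≠ x := by
  have h1 : PreconnectedSpace (Sp m) := isPreconnected_iff_preconnectedSpace.1
    (isPreconnected_sphere (by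
      rw [← Module.finrank_eq_rank, finrank_euclideanSpace_fin]
      exact_mod_cast (by omega : 1 < m + 3)) _ _)
  by_contra hcon
  push Not at hcon
  have h2 : IsClopen ({x} : Set (Sp m)) := by
    refine ⟨isClosed_singleton, ?_⟩
    have : ({x} : Set (Sp m)) = ball x ρ :=
      Subset.antisymm (singleton_subset_iff.2 (mem_ball_self hρ)) hcon
    rw [this]
    exact isOpen_ball
  have h3 : -x ∈ ({x} : Set (Sp m)) := by
    rw [h2.eq_univ (singleton_nonempty x)]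
    exact mem_univ _
  exact ne_neg_of_mem_unit_sphere ℝ x (mem_singleton_iff.1 h3).symm

/-- the spherical setting -/
noncomputable def sphED (m : ℕ) : ED (Sp m) where
  μ := lam m
  reg := inferInstance
  ok := Ok
  ok_symm := by rintro _ ⟨g, rfl⟩; exact ⟨g⁻¹, rfl⟩
  ok_trans := by rintro _ _ ⟨g, rfl⟩ ⟨h, rfl⟩; exact ⟨h * g, rfl⟩
  ok_mp := by rintro _ ⟨g, rfl⟩; exact lam_mp g
  K := univ
  Ko := isOpen_univ
  K2 := univ
  K2f := measure_ne_top _ _
  hK2 := fun _ _ => subset_univ _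
  v := fun r => (lam m).real (ball ⟨eb 0, by simp [eb]⟩ r)
  hv := fun x r => by rw [measureReal_def, measureReal_def, lam_ball x]
  vpos := fun r hr => by
    have : (lam m).IsOpenPosMeasure := Measure.isOpenPosMeasure_smul _
      (ENNReal.inv_ne_zero.2 (measure_ne_top _ _))
    exact ENNReal.toReal_pos (measure_ball_pos _ _ hr).ne' (measure_ne_top _ _)
  C := (lam_doubling (m := m)).choose + 1
  C1 := Nat.le_add_left _ _
  hC := fun r hr => by
    have h1 := ENNReal.toReal_mono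
      (ENNReal.mul_ne_top (ENNReal.natCast_ne_top _) (measure_ne_top _ _))
      ((lam_doubling (m := m)).choose_spec ⟨eb 0, by simp [eb]⟩ r hr)
    rw [ENNReal.toReal_mul, ENNReal.toReal_natCast] at h1
    refine h1.trans (mul_le_mul_of_nonneg_right ?_ ENNReal.toReal_nonneg)
    push_cast
    linarith
  perf := sph_perf
  V := 2
  V0 := zero_le_two
  HG := fun δ ε hδ hε x => by
    obtain ⟨F, k, h, a, h1, h2, h3, h4, h5, h6⟩ := sphere_HG δ ε hδ hε x
    exact ⟨F, k, h, a, h1, h2, h3, h4, h5, fun y _ => h6 y⟩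
  HM := fun u hu => by
    obtain ⟨k, e, h1, h⟩ := sphere_HM (m := m) u hu
    exact ⟨k, e, h1, fun U W hU hW _ _ => h U W hU hW⟩

theorem sphere_equi {A B : Set (Sp m)} (hA : MeasurableSet A) (hB : MeasurableSet B)
    {x y : Sp m} {ρ r : ℝ} (hρ : 0 < ρ) (hr : 0 < r)
    {k l : ℕ} (f : Fin k → Es m ≃ₗᵢ[ℝ] Es m) (f' : Fin l → Es m ≃ₗᵢ[ℝ] Es m)
    (hf : ball x ρ ⊆ ⋃ i, sph (f i) '' A) (hf' : ball y r ⊆ ⋃ i, sph (f' i) '' B)
    (hAB : lam m A = lam m B) :
    ∃ (k : ℕ) (e : Fin k → Es m ≃ₗᵢ[ℝ] Es m) (P : Fin k → Set (Sp m)),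
      (∀ i, MeasurableSet (P i)) ∧ Pairwise (Disjoint on P) ∧ ⋃ i, P i = A ∧
      Pairwise (Disjoint on fun i => sph (e i) '' P i) ∧ ⋃ i, sph (e i) '' P i = B := by
  have hcov : ∀ {S : Set (Sp m)} {z : Sp m} {s : ℝ} {j : ℕ} (g : Fin j → Es m ≃ₗᵢ[ℝ] Es m),
      0 < s → ball z s ⊆ ⋃ i, sph (g i) '' S → (sphED m).Cov S := by
    intro S z s j g hs h2
    refine ⟨z, s, j, fun i => (sph (g i)).symm, hs, subset_univ _,
      fun i => ⟨(g i)⁻¹, rfl⟩, fun w hw => ?_⟩
    obtain ⟨i, a, ha, rfl⟩ := mem_iUnion.1 (h2 hw)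
    exact ⟨i, by simpa using ha⟩
  obtain ⟨k, e, P, he, h⟩ := (sphED m).equi hA hB (subset_univ _) (subset_univ _)
    (hcov f hρ hf) (hcov f' hr hf') hAB
  choose g hg using he
  refine ⟨k, g, P, ?_⟩
  simpa only [hg] using h

lemma sph_image (g : Es m ≃ₗᵢ[ℝ] Es m) (A : Set (Sp m)) :
    Subtype.val ⁻¹' (g '' (Subtype.val '' A)) = sph g '' A := by
  ext y
  constructor
  · rintro ⟨_, ⟨x, hx, rfl⟩, h⟩
    exact ⟨x, hx, Subtype.ext h⟩
  · rintro ⟨x, hx, rfl⟩
    exact ⟨_, ⟨x, hx, rfl⟩, rfl⟩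

lemma lam_eq_iff (A B : Set (Sp m)) : lam m A = lam m B ↔
    (volume : Measure (Es m)).toSphere A = (volume : Measure (Es m)).toSphere B := by
  simp only [lam, Measure.smul_apply, smul_eq_mul]
  exact ENNReal.mul_right_inj (ENNReal.inv_ne_zero.2 (measure_ne_top _ _))
    (ENNReal.inv_ne_top.2 (Measure.measure_univ_ne_zero.2 (Measure.toSphere_ne_zero _)))

end Pool.Agent.P.MP_465281_an
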