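import Pool.Agent.P.MP_465281_an.EqIT

/-!
Hull by balls with disjoint cores: data, measure estimates, maximal families.
-/

namespace Pool.Agent.P.MP_465281_an

open Set Metric MeasureTheory Function
open scoped Classical

/-- number of indices with a property -/
noncomputable def cnt {ι : Type} [Fintype ι] (P : ι → Prop) : ℕ := (Finset.univ.filter P).card

lemma cnt_mono {ι : Type} [Fintype ι] {P Q : ι → Prop} (h : ∀ i, P i → Q i) : cnt P ≤ cnt Q := by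
  refine Finset.card_le_card fun i hi => ?_
  simp only [Finset.mem_filter, Finset.mem_univ, true_and] at hi ⊢
  exact h i hi

/-- data of the hull construction -/
structure HD (X : Type) [MetricSpace X] [MeasurableSpace X] (ι : Type) [Fintype ι] where
  lam : Measure X
  fin : IsFiniteMeasure lam
  g : ι → X ≃ᵢ X
  σ : ι ≃ ι
  hσ : ∀ i, g (σ i) = (g i).symm
  r0 : ℝ
  r0pos : 0 < r0
  K : Set X
  K2 : Set X
  hK2 : ∀ x ∈ K, ball x (5 * r0) ⊆ K2
  v : ℝ → ℝ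
  hv : ∀ x ∈ K, ∀ r, r ≤ 5 * r0 → lam.real (ball x r) = v r
  vpos : ∀ r, 0 < r → 0 < v r
  C : ℕ
  C1 : 1 ≤ C
  hC : ∀ r, 0 < r → v (9 * r) ≤ C * v r
  t : ℕ
  tpos : 0 < t
  κ : ℝ
  η : ℝ
  hκ0 : 0 ≤ κ
  hκ : 4 * κ * C ≤ 1
  sse : ∀ B, MeasurableSet B → B ⊆ K2 → lam.real B ≤ η →
    lam.real {y | t ≤ cnt fun i => g i y ∈ B} ≤ κ * lam.real B
  D : ℕ → Set X
  hD : Disjoint (D 0) (D 1)
  DK : ∀ p, D p ⊆ K
  hθ : ∀ y ∈ K, ∀ p, (2 + 4 * C) * t ≤ cnt fun i => ball (g i y) r0 ⊆ D (p % 2)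
  W : Set X
  Wo : IsOpen W
  WK : W ⊆ K
  hW : 4 * C * lam.real W ≤ η

namespace HD

variable {X : Type} [MetricSpace X] [MeasurableSpace X] {ι : Type} [Fintype ι] (H : HD X ι)

attribute [local instance] HD.fin

/-- radii -/
noncomputable def r (T : ℕ) : ℝ := H.r0 / ((T : ℝ) + 1)

lemma r_pos (T : ℕ) : 0 < H.r T := div_pos H.r0pos (by positivity)

lemma r_anti {S T : ℕ} (h : S ≤ T) : H.r T ≤ H.r S := by
  have : (S : ℝ) ≤ T := by exact_mod_cast h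
  exact div_le_div_of_nonneg_left H.r0pos.le (by positivity) (by linarith)

lemma r_le (T : ℕ) : H.r T ≤ H.r0 := by
  have := H.r_anti (Nat.zero_le T)
  simpa [r] using this

lemma r_half (T : ℕ) : H.r T / 2 ≤ 5 * H.r0 := by
  have := H.r_le T
  have := H.r0pos
  linarith

lemma r_nine (T : ℕ) : 9 * (H.r T / 2) ≤ 5 * H.r0 := by
  have := H.r_le T
  have := H.r0pos
  linarith

/-- total mass of the cores -/
noncomputable def mass (Y : Finset (ℕ × X)) : ℝ := ∑ z ∈ Y, H.v (H.r z.1 / 2)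

/-- separation -/
def Sep (Y : Finset (ℕ × X)) : Prop :=
  ∀ z ∈ Y, ∀ z' ∈ Y, z ≠ z' → z.1 ≤ z'.1 → H.r z.1 ≤ dist z.2 z'.2

/-- fattened balls and fattened target balls -/
def Fat (Y Z : Finset (ℕ × X)) (f : ℕ × X → ι) : Set X :=
  (⋃ z ∈ Y, ball z.2 (9 * (H.r z.1 / 2))) ∪ ⋃ z ∈ Z, ball (H.g (f z) z.2) (9 * (H.r z.1 / 2))

/-- points with many neighbours in `B` -/
def Mny (B : Set X) : Set X := {y | H.t ≤ cnt fun i => H.g i y ∈ B}

lemma Mny_mono {B B' : Set X} (h : B ⊆ B') : H.Mny B ⊆ H.Mny B' :=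
  fun _ hy => le_trans hy (cnt_mono fun _ hi => h hi)

lemma vr_pos (T : ℕ) : 0 < H.v (H.r T / 2) := H.vpos _ (half_pos (H.r_pos T))

lemma mass_nonneg (Y : Finset (ℕ × X)) : 0 ≤ H.mass Y :=
  Finset.sum_nonneg fun z _ => (H.vr_pos z.1).le

lemma mass_mono {Y Y' : Finset (ℕ × X)} (h : Y ⊆ Y') : H.mass Y ≤ H.mass Y' :=
  Finset.sum_le_sum_of_subset_of_nonneg h fun z _ _ => (H.vr_pos z.1).le

lemma Sep.mono {Y Y' : Finset (ℕ × X)} (h : H.Sep Y') (hY : Y ⊆ Y') : H.Sep Y :=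
  fun z hz z' hz' => h z (hY hz) z' (hY hz')

lemma Fat_mono {Y Y' Z Z' : Finset (ℕ × X)} {f f' : ℕ × X → ι} (hY : Y ⊆ Y') (hZ : Z ⊆ Z')
    (hf : ∀ z ∈ Z, f' z = f z) : H.Fat Y Z f ⊆ H.Fat Y' Z' f' := by
  rintro y (hy | hy)
  · obtain ⟨z, hz, h⟩ := mem_iUnion₂.1 hy
    exact Or.inl (mem_iUnion₂.2 ⟨z, hY hz, h⟩)
  · obtain ⟨z, hz, h⟩ := mem_iUnion₂.1 hy
    exact Or.inr (mem_iUnion₂.2 ⟨z, hZ hz, by rwa [hf z hz]⟩)

lemma infect {S T : ℕ} (hST : S ≤ T) {y y' w : X} (i : ι) (hy : y' ∈ ball y (H.r T / 2))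
    (h : (ball (H.g i y) (3 * H.r T) ∩ ball w (H.r S)).Nonempty) :
    H.g i y' ∈ ball w (9 * (H.r S / 2)) := by
  obtain ⟨u, hu1, hu2⟩ := h
  simp only [mem_ball] at *
  have h1 : dist (H.g i y') (H.g i y) = dist y' y := (H.g i).dist_eq _ _
  have h2 := dist_triangle4 (H.g i y') (H.g i y) u w
  rw [dist_comm (H.g i y) u] at h2
  have h3 := H.r_anti hST
  linarith

variable [BorelSpace X]

lemma mass_le {Y : Finset (ℕ × X)} (hY : H.Sep Y) (hK : ∀ z ∈ Y, z.2 ∈ H.K) {S : Set X}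
    (h : ∀ z ∈ Y, ball z.2 (H.r z.1 / 2) ⊆ S) : H.mass Y ≤ H.lam.real S := by
  have hd : (Y : Set (ℕ × X)).PairwiseDisjoint fun z => ball z.2 (H.r z.1 / 2) := by
    intro z hz z' hz' hne
    refine ball_disjoint_ball ?_
    rcases le_total z.1 z'.1 with h1 | h1
    · have := hY z hz z' hz' hne h1
      have := H.r_anti h1
      linarith
    · have := hY z' hz' z hz hne.symm h1
      have := H.r_anti h1
      rw [dist_comm]
      linarith
  calc H.mass Y = ∑ z ∈ Y, H.lam.real (ball z.2 (H.r z.1 / 2)) :=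
        Finset.sum_congr rfl fun z hz => (H.hv _ (hK z hz) _ (H.r_half _)).symm
    _ = H.lam.real (⋃ z ∈ Y, ball z.2 (H.r z.1 / 2)) :=
        (measureReal_biUnion_finset hd fun _ _ => measurableSet_ball).symm
    _ ≤ _ := measureReal_mono (iUnion₂_subset h)

omit [BorelSpace X] in
lemma big_le (Y : Finset (ℕ × X)) (c : ℕ × X → X) (hK : ∀ z ∈ Y, c z ∈ H.K) :
    H.lam.real (⋃ z ∈ Y, ball (c z) (9 * (H.r z.1 / 2))) ≤ H.C * H.mass Y := by
  refine (measureReal_biUnion_finset_le _ _).trans ?_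
  rw [mass, Finset.mul_sum]
  refine Finset.sum_le_sum fun z hz => ?_
  rw [H.hv _ (hK z hz) _ (H.r_nine _)]
  exact H.hC _ (half_pos (H.r_pos _))

lemma Fat_meas (Y Z : Finset (ℕ × X)) (f : ℕ × X → ι) : MeasurableSet (H.Fat Y Z f) :=
  (Finset.measurableSet_biUnion _ fun _ _ => measurableSet_ball).union
    (Finset.measurableSet_biUnion _ fun _ _ => measurableSet_ball)

omit [BorelSpace X] in
lemma Fat_le (Y Z : Finset (ℕ × X)) (f : ℕ × X → ι) (hY : ∀ z ∈ Y, z.2 ∈ H.K)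
    (hZ : ∀ z ∈ Z, H.g (f z) z.2 ∈ H.K) :
    H.lam.real (H.Fat Y Z f) ≤ H.C * H.mass Y + H.C * H.mass Z :=
  (measureReal_union_le _ _).trans
    (add_le_add (H.big_le Y (fun z => z.2) hY) (H.big_le Z (fun z => H.g (f z) z.2) hZ))

omit [BorelSpace X] in
lemma big_sub (Y : Finset (ℕ × X)) (c : ℕ × X → X) (hK : ∀ z ∈ Y, c z ∈ H.K) :
    (⋃ z ∈ Y, ball (c z) (9 * (H.r z.1 / 2))) ⊆ H.K2 :=
  iUnion₂_subset fun z hz => (ball_subset_ball (H.r_nine _)).trans (H.hK2 _ (hK z hz))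

/-- admissible enlargements at stage `T` -/
structure Adm (T : ℕ) (Z : Finset (ℕ × X)) (f : ℕ × X → ι) (Y : Finset (ℕ × X)) : Prop where
  sub : Z ⊆ Y
  st : ∀ z ∈ Y, z ∈ Z ∨ z.1 = T
  sep : H.Sep Y
  inK : ∀ z ∈ Y, z.2 ∈ H.K
  core : ∀ z ∈ Y, ball z.2 (H.r z.1 / 2) ⊆ H.W ∪ H.Mny (H.Fat Y Z f)
  ms : H.mass Y ≤ 2 * H.lam.real H.W

/-- the index `i` is blocked at `y` -/
def Blk (T : ℕ) (Y Z : Finset (ℕ × X)) (f : ℕ × X → ι) (y : X) (i : ι) : Prop :=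
  (∃ z ∈ Y, (ball (H.g i y) (3 * H.r T) ∩ ball z.2 (H.r z.1)).Nonempty) ∨
    ∃ z ∈ Z, (ball (H.g i y) (3 * H.r T) ∩ ball (H.g (f z) z.2) (H.r z.1)).Nonempty

lemma exists_max {T : ℕ} {Z : Finset (ℕ × X)} {f : ℕ × X → ι} (hZ : ∀ z ∈ Z, z.1 < T)
    (hZK : ∀ z ∈ Z, H.g (f z) z.2 ∈ H.K)
    (h0 : H.Adm T Z f Z) : ∃ Y, H.Adm T Z f Y ∧ ∀ y ∈ H.K, (∀ z ∈ Y, y ∉ ball z.2 (H.r z.1)) →
      ¬ ball y (H.r T) ⊆ H.W ∧ cnt (H.Blk T Y Z f y) < H.t := by
  have hle : ∀ {Y}, H.Adm T Z f Y → ∀ z ∈ Y, z.1 ≤ T := fun hY z hz =>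
    (hY.st z hz).elim (fun h => (hZ z h).le) le_of_eq
  have hbd : BddAbove {n | ∃ Y, H.Adm T Z f Y ∧ Y.card = n} := by
    obtain ⟨N, hN⟩ := exists_nat_ge (2 * H.lam.real H.W / H.v (H.r T / 2))
    refine ⟨N, ?_⟩
    rintro _ ⟨Y, hY, rfl⟩
    have h1 : (Y.card : ℝ) * H.v (H.r T / 2) ≤ H.mass Y := by
      rw [← nsmul_eq_mul]
      refine Finset.card_nsmul_le_sum _ _ _ fun z hz => ?_
      rw [← H.hv z.2 (hY.inK z hz) _ (H.r_half _), ← H.hv z.2 (hY.inK z hz) _ (H.r_half _)]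
      have := H.r_anti (hle hY z hz)
      exact measureReal_mono (ball_subset_ball (by linarith))
    have h2 : (Y.card : ℝ) ≤ 2 * H.lam.real H.W / H.v (H.r T / 2) := by
      rw [le_div_iff₀ (H.vr_pos T)]
      exact h1.trans hY.ms
    exact_mod_cast h2.trans hN
  obtain ⟨Y, hY, hc⟩ := Nat.sSup_mem (s := {n | ∃ Y, H.Adm T Z f Y ∧ Y.card = n}) ⟨_, Z, h0, rfl⟩ hbd
  refine ⟨Y, hY, fun y hyK hy => ?_⟩
  by_contra hcon
  have hnew : (T, y) ∉ Y := fun h => hy _ h (mem_ball_self (H.r_pos _))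
  have hcore : ball y (H.r T / 2) ⊆ H.W ∪ H.Mny (H.Fat Y Z f) := by
    intro y' hy'
    by_cases hW : ball y (H.r T) ⊆ H.W
    · exact Or.inl (hW (ball_subset_ball (half_le_self (H.r_pos T).le) hy'))
    · have h1 : H.t ≤ cnt (H.Blk T Y Z f y) := by
        by_contra h
        exact hcon ⟨hW, not_le.1 h⟩
      refine Or.inr (h1.trans (cnt_mono ?_))
      rintro i (⟨z, hz, h⟩ | ⟨z, hz, h⟩)
      · exact Or.inl (mem_iUnion₂.2 ⟨z, hz, H.infect (hle hY z hz) i hy' h⟩)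
      · exact Or.inr (mem_iUnion₂.2 ⟨z, hz, H.infect (hZ z hz).le i hy' h⟩)
  have hsep : H.Sep (insert (T, y) Y) := by
    intro z hz z' hz' hne hzz
    rcases Finset.mem_insert.1 hz with rfl | hz <;> rcases Finset.mem_insert.1 hz' with rfl | hz'
    · exact absurd rfl hne
    · have h1 : z'.1 = T := le_antisymm (hle hY z' hz') hzz
      have h2 := hy z' hz'
      rw [mem_ball, not_lt, h1] at h2
      exact h2
    · have h2 := hy z hz
      rw [mem_ball, not_lt, dist_comm] at h2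
      exact h2
    · exact hY.sep z hz z' hz' hne hzz
  have hall : ∀ z ∈ insert (T, y) Y, ball z.2 (H.r z.1 / 2) ⊆ H.W ∪ H.Mny (H.Fat Y Z f) := by
    intro z hz
    rcases Finset.mem_insert.1 hz with rfl | hz
    · exact hcore
    · exact hY.core z hz
  have hallK : ∀ z ∈ insert (T, y) Y, z.2 ∈ H.K := by
    intro z hz
    rcases Finset.mem_insert.1 hz with rfl | hz
    · exact hyK
    · exact hY.inK z hz
  have hC0 : (0 : ℝ) ≤ H.C := Nat.cast_nonneg _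
  have hW0 : 0 ≤ H.lam.real H.W := measureReal_nonneg
  have hF : H.lam.real (H.Fat Y Z f) ≤ 4 * H.C * H.lam.real H.W := by
    have h1 := H.Fat_le Y Z f hY.inK hZK
    have h2 := mul_le_mul_of_nonneg_left hY.ms hC0
    have h3 := mul_le_mul_of_nonneg_left h0.ms hC0
    linarith
  have hms : H.mass (insert (T, y) Y) ≤ 2 * H.lam.real H.W := by
    have h1 := H.mass_le hsep hallK hall
    have h2 := measureReal_union_le (μ := H.lam) H.W (H.Mny (H.Fat Y Z f))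
    have h3 := H.sse _ (H.Fat_meas Y Z f) (union_subset (H.big_sub Y (fun z => z.2) hY.inK)
      (H.big_sub Z (fun z => H.g (f z) z.2) hZK)) (hF.trans H.hW)
    have h4 := mul_le_mul_of_nonneg_left hF H.hκ0
    have h5 := mul_le_mul_of_nonneg_right H.hκ hW0
    have h6 : H.lam.real (H.Mny (H.Fat Y Z f)) ≤ H.κ * H.lam.real (H.Fat Y Z f) := h3
    nlinarith
  have hA : H.Adm T Z f (insert (T, y) Y) := by
    refine ⟨hY.sub.trans (Finset.subset_insert _ _), fun z hz => ?_, hsep, hallK,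
      fun z hz => ?_, hms⟩
    · rcases Finset.mem_insert.1 hz with rfl | hz
      · exact Or.inr rfl
      · exact hY.st z hz
    · exact (hall z hz).trans (union_subset_union_right _ (H.Mny_mono
        (H.Fat_mono (Finset.subset_insert _ _) Finset.Subset.rfl fun _ _ => rfl)))
  have h7 := le_csSup hbd (show (insert (T, y) Y).card ∈ {n | ∃ Y, H.Adm T Z f Y ∧ Y.card = n} from
    ⟨_, hA, rfl⟩)
  rw [Finset.card_insert_of_notMem hnew, ← hc] at h7
  omega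

lemma peel {T : ℕ} {S : Finset (ℕ × X)} (hS : H.Sep S) (hK : ∀ z ∈ S, z.2 ∈ H.K)
    (hT : ∀ z ∈ S, z.1 = T)
    (hm : H.mass S ≤ 2 * H.lam.real H.W) (hne : S.Nonempty) :
    ∃ c ∈ S, (cnt fun i => ∃ z ∈ S,
      (ball (H.g i c.2) (3 * H.r T) ∩ ball z.2 (H.r T)).Nonempty) < H.t := by
  by_contra hcon
  push Not at hcon
  set B := ⋃ z ∈ S, ball z.2 (9 * (H.r z.1 / 2)) with hB
  have hBm : MeasurableSet B := Finset.measurableSet_biUnion _ fun _ _ => measurableSet_ball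
  have h1 : H.lam.real B ≤ H.C * H.mass S := H.big_le S (fun z => z.2) hK
  have hC0 : (0 : ℝ) ≤ H.C := Nat.cast_nonneg _
  have hW0 : 0 ≤ H.lam.real H.W := measureReal_nonneg
  have h2 : H.lam.real B ≤ H.η := by
    have := mul_le_mul_of_nonneg_left hm hC0
    have := H.hW
    nlinarith
  have h3 : H.mass S ≤ H.lam.real (H.Mny B) := by
    refine H.mass_le hS hK fun c hc y hy => (hcon c hc).trans (cnt_mono ?_)
    rintro i ⟨z, hz, h⟩
    rw [hT c hc] at hy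
    refine mem_iUnion₂.2 ⟨z, hz, ?_⟩
    rw [hT z hz]
    exact H.infect le_rfl i hy h
  have h4 : H.lam.real (H.Mny B) ≤ H.κ * H.lam.real B := 
    H.sse B hBm (H.big_sub S (fun z => z.2) hK) h2
  have h5 : 0 < H.mass S := Finset.sum_pos (fun z _ => H.vr_pos z.1) hne
  have h6 := mul_le_mul_of_nonneg_left h1 H.hκ0
  have h7 := mul_le_mul_of_nonneg_right H.hκ h5.le
  nlinarith

lemma pack {T : ℕ} {S : Finset (ℕ × X)} (hS : H.Sep S) (hK : ∀ z ∈ S, z.2 ∈ H.K)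
    (hT : ∀ z ∈ S, z.1 = T) (w : X) (hw : ∀ z ∈ S, dist z.2 w < 2 * H.r T) : S.card ≤ H.C := by
  rcases S.eq_empty_or_nonempty with rfl | ⟨z0, hz0⟩
  · simp
  have h1 : H.mass S ≤ H.lam.real (ball z0.2 (9 * (H.r T / 2))) := by
    refine H.mass_le hS hK fun z hz y hy => ?_
    rw [hT z hz] at hy
    have h2 := hw z hz
    have h3 := dist_triangle4 y z.2 w z0.2
    have h4 := hw z0 hz0
    rw [dist_comm] at h4
    simp only [mem_ball] at *
    linarith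
  have h2 : H.mass S = S.card * H.v (H.r T / 2) := by
    rw [mass, Finset.sum_congr rfl fun z hz => by rw [hT z hz]]
    simp
  rw [H.hv _ (hK z0 hz0) _ (H.r_nine _), h2] at h1
  have h3 := h1.trans (H.hC _ (half_pos (H.r_pos T)))
  exact_mod_cast le_of_mul_le_mul_right h3 (H.vr_pos T)

end HD

end Pool.Agent.P.MP_465281_an
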