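import Pool.Agent.P.MP_465281_an.EqHull1

/-!
Hull by balls with disjoint cores: choice of disjoint targets, the stages, the injection.
-/

namespace Pool.Agent.P.MP_465281_an

open Set Metric MeasureTheory Function
open scoped Classical

namespace HD

variable {X : Type} [MetricSpace X] [MeasurableSpace X] {ι : Type} [Fintype ι] (H : HD X ι)

attribute [local instance] HD.fin

/-- invariant after `T` stages -/
structure Inv (T : ℕ) (Z : Finset (ℕ × X)) (f : ℕ × X → ι) : Prop where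
  lt : ∀ z ∈ Z, z.1 < T
  adm : H.Adm T Z f Z
  tin : ∀ z ∈ Z, ball (H.g (f z) z.2) (H.r z.1) ⊆ H.D (z.1 % 2)
  tdisj : ∀ z ∈ Z, ∀ z' ∈ Z, z ≠ z' →
    Disjoint (ball (H.g (f z) z.2) (H.r z.1)) (ball (H.g (f z') z'.2) (H.r z'.1))
  few : ∀ y ∈ H.K, (∀ z ∈ Z, y ∉ ball z.2 (H.r z.1)) →
    cnt (H.Blk T Z (Z.filter fun z => z.1 + 1 < T) f y) < H.t
  cov : ∀ y ∈ H.K, (∀ z ∈ Z, y ∉ ball z.2 (H.r z.1)) →
    ∀ S, S + 1 = T → ¬ ball y (H.r S) ⊆ H.W

lemma cnt_union_le {P Q R : ι → Prop} :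
    cnt P ≤ cnt (fun i => P i ∧ ¬ Q i ∧ ¬ R i) + cnt Q + cnt R := by
  unfold cnt
  refine le_trans (Finset.card_le_card ?_) ((Finset.card_union_le _ _).trans
    (Nat.add_le_add_right (Finset.card_union_le _ _) _))
  intro i hi
  simp only [Finset.mem_filter, Finset.mem_univ, true_and, Finset.mem_union] at hi ⊢
  tauto

variable [BorelSpace X]

lemma targets {T : ℕ} {Z Y : Finset (ℕ × X)} {f : ℕ × X → ι} (hI : H.Inv T Z f)
    (hY : H.Adm T Z f Y)
    (hcl : ∀ y ∈ H.K, (∀ z ∈ Y, y ∉ ball z.2 (H.r z.1)) → cnt (H.Blk T Y Z f y) < H.t) :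
    ∃ F : ℕ × X → ι, (∀ c ∈ Y, c.1 = T → ball (H.g (F c) c.2) H.r0 ⊆ H.D (T % 2) ∧
      ¬ H.Blk T Z (Z.filter fun z => z.1 + 1 < T) f c.2 (F c)) ∧
      ∀ c ∈ Y, c.1 = T → ∀ c' ∈ Y, c'.1 = T → c ≠ c' →
        2 * H.r T ≤ dist (H.g (F c) c.2) (H.g (F c') c'.2) := by
  set S := Y.filter fun z => z.1 = T with hS
  have hSY : S ⊆ Y := Finset.filter_subset _ _
  have hST : ∀ z ∈ S, z.1 = T := fun z hz => (Finset.mem_filter.1 hz).2
  have hr := H.r_pos T
  obtain ⟨rk, hrk⟩ := exists_rank (fun (c : ℕ × X) (S' : Finset (ℕ × X)) => (cnt fun i => ∃ z ∈ S',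
      (ball (H.g i c.2) (3 * H.r T) ∩ ball z.2 (H.r T)).Nonempty) < H.t) S fun S' hS' hne =>
    H.peel (hY.sep.mono H (hS'.trans hSY)) (fun z hz => hY.inK z (hSY (hS' hz)))
      (fun z hz => hST z (hS' hz))
      ((H.mass_mono (hS'.trans hSY)).trans hY.ms) hne
  have hout : ∀ c ∈ S, ∀ z ∈ Z, c.2 ∉ ball z.2 (H.r z.1) := by
    intro c hc z hz
    have h1 := hI.lt z hz
    have h2 := hST c hc
    have h3 := hY.sep z (hY.sub hz) c (hSY hc) (by rintro rfl; omega) (by omega)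
    rw [mem_ball, not_lt, dist_comm]
    exact h3
  let b2 : ℕ × X → ι → Prop := fun c i => ∃ z ∈ S.filter fun c' => rk c' ≤ rk c,
      (ball (H.g i c.2) (3 * H.r T) ∩ ball z.2 (H.r T)).Nonempty
  let L : S → Finset ι := fun c => Finset.univ.filter fun i =>
    ball (H.g i c.1.2) H.r0 ⊆ H.D (T % 2) ∧
      ¬ H.Blk T Z (Z.filter fun z => z.1 + 1 < T) f c.1.2 i ∧ ¬ b2 c.1 i
  have hLm : ∀ c i, i ∈ L c ↔ ball (H.g i c.1.2) H.r0 ⊆ H.D (T % 2) ∧
      ¬ H.Blk T Z (Z.filter fun z => z.1 + 1 < T) f c.1.2 i ∧ ¬ b2 c.1 i := by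
    intro c i
    simp only [L, Finset.mem_filter, Finset.mem_univ, true_and]
  let conf : S × ι → S × ι → Prop := fun p q =>
    dist (H.g p.2 p.1.1.2) (H.g q.2 q.1.1.2) < 2 * H.r T
  have hL : ∀ c, 4 * (H.C * H.t) ≤ (L c).card := by
    intro c
    have h1 := H.hθ c.1.2 (hY.inK _ (hSY c.2)) T
    have h2 := cnt_union_le (P := fun i => ball (H.g i c.1.2) H.r0 ⊆ H.D (T % 2))
      (Q := H.Blk T Z (Z.filter fun z => z.1 + 1 < T) f c.1.2) (R := b2 c.1)
    have h3 := hI.few c.1.2 (hY.inK _ (hSY c.2)) (hout c.1 c.2)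
    have h4 : cnt (b2 c.1) < H.t := hrk c.1 c.2
    have h5 : (cnt fun i => ball (H.g i c.1.2) H.r0 ⊆ H.D (T % 2) ∧
      ¬ H.Blk T Z (Z.filter fun z => z.1 + 1 < T) f c.1.2 i ∧ ¬ b2 c.1 i) = (L c).card := by
      unfold cnt
      congr 1
      ext i
      rw [hLm]
      simp only [Finset.mem_filter, Finset.mem_univ, true_and]
    have h6 : (2 + 4 * H.C) * H.t = 2 * H.t + 4 * (H.C * H.t) := by ring
    omega
  have hdeg : ∀ c, ∀ i ∈ L c, (Finset.univ.filter fun q : S × ι =>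
      q.1 ≠ c ∧ q.2 ∈ L q.1 ∧ conf (c, i) q).card ≤ H.C * H.t := by
    intro c i hi
    have hback : ∀ (q : S × ι) (w : X), dist (H.g (H.σ q.2) w) q.1.1.2 =
        dist w (H.g q.2 q.1.1.2) := by
      intro q w
      rw [H.hσ, ← (H.g q.2).dist_eq, IsometryEquiv.apply_symm_apply]
    obtain ⟨I, hI1, hI2⟩ : ∃ I : ι → Prop, cnt I < H.t ∧ ∀ q : S × ι, q.2 ∈ L q.1 →
        conf (c, i) q → I (H.σ q.2) := by
      by_cases hA : ∃ s ∈ S, H.g i c.1.2 ∈ ball s.2 (H.r T)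
      · obtain ⟨s, hs, hz⟩ := hA
        refine ⟨b2 s, hrk s hs, fun q hq hc => ?_⟩
        have hc' : dist (H.g i c.1.2) (H.g q.2 q.1.1.2) < 2 * H.r T := hc
        have h1 : rk q.1.1 ≤ rk s := by
          by_contra h
          refine ((hLm _ _).1 hq).2.2 ⟨s, Finset.mem_filter.2 ⟨hs, (not_le.1 h).le⟩,
            H.g i c.1.2, ?_, hz⟩
          rw [mem_ball]
          linarith
        refine ⟨q.1.1, Finset.mem_filter.2 ⟨q.1.2, h1⟩, q.1.1.2, ?_, mem_ball_self hr⟩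
        rw [mem_ball, dist_comm, hback]
        have := dist_triangle_left s.2 (H.g q.2 q.1.1.2) (H.g i c.1.2)
        rw [mem_ball] at hz
        linarith
      · refine ⟨H.Blk T Y Z f (H.g i c.1.2), hcl _ (H.DK _ (((hLm _ _).1 hi).1
          (mem_ball_self H.r0pos))) fun z hz hm => ?_, fun q _ hc => ?_⟩
        · rcases hY.st z hz with h | h
          · exact ((hLm _ _).1 hi).2.1 (Or.inl ⟨z, h, _, mem_ball_self (by linarith), hm⟩)
          · exact hA ⟨z, Finset.mem_filter.2 ⟨hz, h⟩, by rwa [h] at hm⟩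
        · have hc' : dist (H.g i c.1.2) (H.g q.2 q.1.1.2) < 2 * H.r T := hc
          refine Or.inl ⟨q.1.1, hSY q.1.2, q.1.1.2, ?_, mem_ball_self (H.r_pos _)⟩
          rw [mem_ball, dist_comm, hback]
          linarith
    set Q := Finset.univ.filter fun q : S × ι => q.1 ≠ c ∧ q.2 ∈ L q.1 ∧ conf (c, i) q with hQ
    have hQm : ∀ q ∈ Q, q.2 ∈ L q.1 ∧ conf (c, i) q := fun q hq => (Finset.mem_filter.1 hq).2.2
    have h1 : Q.card ≤ H.C * (Finset.univ.filter I).card := by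
      refine Finset.card_le_mul_card_image_of_maps_to (f := fun q : S × ι => H.σ q.2)
        (fun q hq => Finset.mem_filter.2 ⟨Finset.mem_univ _, hI2 q (hQm q hq).1 (hQm q hq).2⟩)
        H.C fun j _ => ?_
      set R := Q.filter fun q : S × ι => H.σ q.2 = j with hR
      have hinj : Set.InjOn (fun q : S × ι => q.1.1) R := by
        intro q hq q' hq' h
        have e1 := (Finset.mem_filter.1 hq).2
        have e2 := (Finset.mem_filter.1 hq').2
        exact Prod.ext (Subtype.ext h) (H.σ.injective (e1.trans e2.symm))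
      rw [← Finset.card_image_of_injOn hinj]
      have hsub : R.image (fun q : S × ι => q.1.1) ⊆ S := by
        intro z hz
        obtain ⟨q, -, rfl⟩ := Finset.mem_image.1 hz
        exact q.1.2
      refine H.pack (hY.sep.mono H (hsub.trans hSY)) (fun z hz => hY.inK z (hSY (hsub hz)))
        (fun z hz => hST z (hsub hz))
        (H.g j (H.g i c.1.2)) fun z hz => ?_
      obtain ⟨q, hq, rfl⟩ := Finset.mem_image.1 hz
      obtain ⟨hq1, rfl⟩ := Finset.mem_filter.1 hq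
      rw [dist_comm, hback]
      exact (hQm q hq1).2
    exact h1.trans (Nat.mul_le_mul_left _ hI1.le)
  obtain ⟨F, hF1, hF2⟩ := indep_transversal L conf
    (fun p q h => by simpa only [conf, dist_comm] using h) (H.C * H.t)
    (Nat.mul_pos H.C1 H.tpos) hL fun c i hi => le_trans (Finset.card_le_card fun q hq => by
      simp only [Finset.mem_filter] at hq ⊢
      exact hq) (hdeg c i hi)
  refine ⟨fun z => if h : z ∈ S then F ⟨z, h⟩ else f z, fun c hc hT => ?_,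
    fun c hc hT c' hc' hT' hne => ?_⟩
  · have h : c ∈ S := Finset.mem_filter.2 ⟨hc, hT⟩
    simp only [dif_pos h]
    have := (hLm _ _).1 (hF1 ⟨c, h⟩)
    exact ⟨this.1, this.2.1⟩
  · have h : c ∈ S := Finset.mem_filter.2 ⟨hc, hT⟩
    have h' : c' ∈ S := Finset.mem_filter.2 ⟨hc', hT'⟩
    simp only [dif_pos h, dif_pos h']
    exact not_lt.1 (hF2 ⟨c, h⟩ ⟨c', h'⟩ fun e => hne (congrArg Subtype.val e))

lemma step {T : ℕ} {Z : Finset (ℕ × X)} {f : ℕ × X → ι} (hI : H.Inv T Z f) :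
    ∃ Y f', H.Inv (T + 1) Y f' ∧ Z ⊆ Y ∧ ∀ z ∈ Z, f' z = f z := by
  obtain ⟨Y, hY, hcl⟩ := H.exists_max hI.lt
    (fun z hz => H.DK _ (hI.tin z hz (mem_ball_self (H.r_pos _)))) hI.adm
  obtain ⟨F, hF1, hF2⟩ := H.targets hI hY fun y hK hy => (hcl y hK hy).2
  let f' : ℕ × X → ι := fun z => if z.1 = T then F z else f z
  have ho : ∀ z ∈ Z, f' z = f z := fun z hz => if_neg (hI.lt z hz).ne
  have hn : ∀ z, z.1 = T → f' z = F z := fun z hz => if_pos hz
  have hr := H.r_pos T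
  have hmix : ∀ z ∈ Z, ∀ c ∈ Y, c.1 = T →
      Disjoint (ball (H.g (f z) z.2) (H.r z.1)) (ball (H.g (F c) c.2) (H.r T)) := by
    intro z hz c hc hT
    obtain ⟨h1, h2⟩ := hF1 c hc hT
    by_cases hz1 : z.1 + 1 < T
    · rw [Set.disjoint_left]
      intro w hw1 hw2
      exact h2 (Or.inr ⟨z, Finset.mem_filter.2 ⟨hz, hz1⟩, w,
        ball_subset_ball (by linarith) hw2, hw1⟩)
    · have h3 := hI.lt z hz
      have h4 := hI.tin z hz
      have h5 : ball (H.g (F c) c.2) (H.r T) ⊆ H.D (T % 2) :=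
        (ball_subset_ball (H.r_le T)).trans h1
      rcases Nat.mod_two_eq_zero_or_one T with h | h
      · rw [h] at h5
        rw [show z.1 % 2 = 1 by omega] at h4
        exact H.hD.symm.mono h4 h5
      · rw [h] at h5
        rw [show z.1 % 2 = 0 by omega] at h4
        exact H.hD.mono h4 h5
  refine ⟨Y, f', ⟨fun z hz => ?_, ⟨Finset.Subset.rfl, fun z hz => Or.inl hz, hY.sep, hY.inK,
    fun z hz => ?_, hY.ms⟩, fun z hz => ?_, fun z hz z' hz' hne => ?_, fun y hK hy => ?_,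
    fun y hK hy S hS => ?_⟩, hY.sub, ho⟩
  · rcases hY.st z hz with h | h
    · exact (hI.lt z h).trans (Nat.lt_succ_self _)
    · omega
  · exact (hY.core z hz).trans (union_subset_union_right _
      (H.Mny_mono (H.Fat_mono Finset.Subset.rfl hY.sub ho)))
  · rcases hY.st z hz with h | h
    · rw [ho z h]
      exact hI.tin z h
    · rw [hn z h, h]
      exact (ball_subset_ball (H.r_le T)).trans (hF1 z hz h).1
  · rcases hY.st z hz with h | h <;> rcases hY.st z' hz' with h' | h'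
    · rw [ho z h, ho z' h']
      exact hI.tdisj z h z' h' hne
    · rw [ho z h, hn z' h', h']
      exact hmix z h z' hz' h'
    · rw [ho z' h', hn z h, h]
      exact (hmix z' h' z hz h).symm
    · rw [hn z h, hn z' h', h, h']
      refine ball_disjoint_ball ?_
      have := hF2 z hz h z' hz' h' hne
      linarith
  · refine lt_of_le_of_lt (cnt_mono fun i hi => ?_) (hcl y hK hy).2
    have hb : ball (H.g i y) (3 * H.r (T + 1)) ⊆ ball (H.g i y) (3 * H.r T) := by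
      have := H.r_anti (Nat.le_succ T)
      exact ball_subset_ball (by linarith)
    rcases hi with ⟨z, hz, h⟩ | ⟨z, hz, h⟩
    · exact Or.inl ⟨z, hz, h.mono (inter_subset_inter_left _ hb)⟩
    · obtain ⟨hz1, hz2⟩ := Finset.mem_filter.1 hz
      have hz3 : z ∈ Z := (hY.st z hz1).resolve_right (by omega)
      rw [ho z hz3] at h
      exact Or.inr ⟨z, hz3, h.mono (inter_subset_inter_left _ hb)⟩
  · rw [show S = T by omega]
    exact (hcl y hK hy).1

omit [BorelSpace X] in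
lemma inv_zero (f : ℕ × X → ι) : H.Inv 0 ∅ f := by
  refine ⟨by simp, ⟨Finset.Subset.rfl, by simp, by simp [Sep], by simp, by simp, ?_⟩, by simp,
    by simp, fun y _ _ => ?_, fun y _ _ S hS => by omega⟩
  · have : 0 ≤ H.lam.real H.W := measureReal_nonneg
    simp only [mass, Finset.sum_empty]
    linarith
  · have : cnt (H.Blk 0 ∅ ((∅ : Finset (ℕ × X)).filter fun z => z.1 + 1 < 0) f y) = 0 := by
      unfold cnt
      rw [Finset.card_eq_zero, Finset.filter_eq_empty_iff]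
      intro i _
      simp [Blk]
    rw [this]
    exact H.tpos

/-- the injection of a small open set -/
theorem inject [Nonempty ι] : ∃ P : ι → Set X, (∀ i, MeasurableSet (P i)) ∧
    Pairwise (Disjoint on P) ∧ H.W ⊆ ⋃ i, P i ∧ (∀ i, H.g i '' P i ⊆ H.D 0 ∪ H.D 1) ∧
    Pairwise (Disjoint on fun i => H.g i '' P i) := by
  have hstep : ∀ T (p : {p : Finset (ℕ × X) × (ℕ × X → ι) // H.Inv T p.1 p.2}),
      ∃ q : {p : Finset (ℕ × X) × (ℕ × X → ι) // H.Inv (T + 1) p.1 p.2},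
        p.1.1 ⊆ q.1.1 ∧ ∀ z ∈ p.1.1, q.1.2 z = p.1.2 z := by
    intro T p
    obtain ⟨Y, f', h1, h2, h3⟩ := H.step p.2
    exact ⟨⟨(Y, f'), h1⟩, h2, h3⟩
  choose nx hnx using hstep
  let sq : ∀ T, {p : Finset (ℕ × X) × (ℕ × X → ι) // H.Inv T p.1 p.2} := fun T =>
    Nat.rec ⟨(∅, fun _ => Classical.arbitrary ι), H.inv_zero _⟩ (fun T p => nx T p) T
  have hsq : ∀ T, sq (T + 1) = nx T (sq T) := fun _ => rfl
  have hmono : ∀ S T, S ≤ T → (sq S).1.1 ⊆ (sq T).1.1 ∧
      ∀ z ∈ (sq S).1.1, (sq T).1.2 z = (sq S).1.2 z := by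
    intro S T h
    induction T, h using Nat.le_induction with
    | base => exact ⟨Finset.Subset.rfl, fun _ _ => rfl⟩
    | succ T _ ih =>
      rw [hsq]
      exact ⟨ih.1.trans (hnx T _).1, fun z hz => ((hnx T _).2 z (ih.1 hz)).trans (ih.2 z hz)⟩
  let K := Σ T : ℕ, (sq T).1.1
  let ctr : K → ℕ × X := fun k => k.2.1
  let tag : K → ι := fun k => (sq k.1).1.2 k.2.1
  let B : K → Set X := fun k => ball (ctr k).2 (H.r (ctr k).1)
  have himg : ∀ k, H.g (tag k) '' B k = ball (H.g (tag k) (ctr k).2) (H.r (ctr k).1) :=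
    fun k => (H.g _).image_ball _ _
  have hdis : ∀ k k', tag k ≠ tag k' → Disjoint (H.g (tag k) '' B k) (H.g (tag k') '' B k') := by
    intro k k' hne
    have a1 := hmono k.1 (max k.1 k'.1) (le_max_left _ _)
    have a2 := hmono k'.1 (max k.1 k'.1) (le_max_right _ _)
    have e1 : tag k = (sq (max k.1 k'.1)).1.2 (ctr k) := (a1.2 _ k.2.2).symm
    have e2 : tag k' = (sq (max k.1 k'.1)).1.2 (ctr k') := (a2.2 _ k'.2.2).symm
    rw [himg, himg, e1, e2]
    refine (sq _).2.tdisj _ (a1.1 k.2.2) _ (a2.1 k'.2.2) fun h => hne ?_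
    rw [e1, e2]
    exact congrArg _ h
  obtain ⟨en, hen⟩ := exists_injective_nat K
  let Q : K → Set X := fun k => B k \ ⋃ k' : {k' // en k' < en k}, B k'.1
  have hQm : ∀ k, MeasurableSet (Q k) := fun k =>
    measurableSet_ball.diff (MeasurableSet.iUnion fun _ => measurableSet_ball)
  have hQd : ∀ k k', k ≠ k' → Disjoint (Q k) (Q k') := by
    intro k k' hne
    rw [Set.disjoint_left]
    intro x hx hx'
    rcases lt_or_gt_of_ne (hen.ne hne) with h | h
    · exact hx'.2 (mem_iUnion.2 ⟨⟨k, h⟩, hx.1⟩)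
    · exact hx.2 (mem_iUnion.2 ⟨⟨k', h⟩, hx'.1⟩)
  refine ⟨fun i => ⋃ k : {k // tag k = i}, Q k.1, fun i => MeasurableSet.iUnion fun k => hQm _,
    fun i j hij => ?_, fun y hy => ?_, fun i => ?_, fun i j hij => ?_⟩
  · simp only [onFun, disjoint_iUnion_left, disjoint_iUnion_right]
    intro k' k
    exact hQd _ _ fun h => hij (by rw [← k.2, ← k'.2, h])
  · have hex : ∃ n, ∃ k, en k = n ∧ y ∈ B k := by
      obtain ⟨ε, hε, hb⟩ := Metric.isOpen_iff.1 H.Wo y hy
      obtain ⟨S, hS⟩ := exists_nat_gt (H.r0 / ε)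
      have h1 : H.r S ≤ ε := by
        rw [div_lt_iff₀ hε] at hS
        rw [r, div_le_iff₀ (by positivity)]
        nlinarith
      by_contra hcon
      refine (sq (S + 1)).2.cov y (H.WK hy)
        (fun z hz hm => hcon ⟨_, ⟨S + 1, z, hz⟩, rfl, hm⟩) S rfl ?_
      exact (ball_subset_ball h1).trans hb
    obtain ⟨k, hk, hyk⟩ := Nat.find_spec hex
    refine mem_iUnion.2 ⟨tag k, mem_iUnion.2 ⟨⟨k, rfl⟩, hyk, fun h => ?_⟩⟩
    obtain ⟨k', hk'⟩ := mem_iUnion.1 h
    exact Nat.find_min hex (hk ▸ k'.2) ⟨k'.1, rfl, hk'⟩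
  · rintro _ ⟨x, hx, rfl⟩
    obtain ⟨⟨k, rfl⟩, hk⟩ := mem_iUnion.1 hx
    have h1 : H.g (tag k) x ∈ H.g (tag k) '' B k := mem_image_of_mem _ hk.1
    rw [himg] at h1
    have h2 := (sq k.1).2.tin _ k.2.2 h1
    rcases Nat.mod_two_eq_zero_or_one (ctr k).1 with h | h
    · exact Or.inl (h ▸ h2)
    · exact Or.inr (h ▸ h2)
  · simp only [onFun, image_iUnion, disjoint_iUnion_left, disjoint_iUnion_right]
    rintro ⟨k', rfl⟩ ⟨k, rfl⟩
    exact (hdis k k' hij).mono (image_mono sdiff_subset) (image_mono sdiff_subset)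

end HD

end Pool.Agent.P.MP_465281_an
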