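import Mathlib

/-!
Finite combinatorics: independent transversals by counting, ranks by peeling.
-/

namespace Pool.Agent.P.MP_465281_an

open Finset Function
open scoped Classical

section IT

variable {α ι : Type} [Fintype α] [Fintype ι] (L : α → Finset ι) (conf : α × ι → α × ι → Prop)

/-- good choices with domain `S` -/
noncomputable def goodSet (S : Finset α) : Finset (α → Option ι) :=
  univ.filter fun f => (∀ a, a ∉ S → f a = none) ∧ (∀ a ∈ S, ∃ i ∈ L a, f a = some i) ∧
    ∀ a a' i i', a ≠ a' → f a = some i → f a' = some i' → ¬ conf (a, i) (a', i')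

lemma mem_goodSet {S : Finset α} {f : α → Option ι} : f ∈ goodSet L conf S ↔
    (∀ a, a ∉ S → f a = none) ∧ (∀ a ∈ S, ∃ i ∈ L a, f a = some i) ∧
    ∀ a a' i i', a ≠ a' → f a = some i → f a' = some i' → ¬ conf (a, i) (a', i') := by
  simp only [goodSet, mem_filter, mem_univ, true_and]

lemma good_erase (S : Finset α) (a : α) (i : ι) :
    ((goodSet L conf S).filter fun f => f a = some i).card ≤
      (goodSet L conf (S.erase a)).card := by
  refine card_le_card_of_injOn (fun f => update f a none) ?_ ?_
  · intro f hf
    rw [mem_coe, mem_filter, mem_goodSet] at hf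
    obtain ⟨⟨h1, h2, h3⟩, -⟩ := hf
    rw [mem_coe, mem_goodSet]
    refine ⟨fun b hb => ?_, fun b hb => ?_, fun b b' j j' hbb hb hb' => ?_⟩
    · by_cases hba : b = a
      · subst hba; simp
      · simp only [update_of_ne hba]
        exact h1 b fun h => hb (mem_erase.2 ⟨hba, h⟩)
    · obtain ⟨hba, hbS⟩ := mem_erase.1 hb
      simp only [update_of_ne hba]
      exact h2 b hbS
    · have e1 : b ≠ a := by rintro rfl; simp at hb
      have e2 : b' ≠ a := by rintro rfl; simp at hb'
      simp only [update_of_ne e1] at hb
      simp only [update_of_ne e2] at hb'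
      exact h3 b b' j j' hbb hb hb'
  · intro f hf f' hf' h
    rw [mem_coe, mem_filter] at hf hf'
    funext b
    by_cases hba : b = a
    · subst hba; rw [hf.2, hf'.2]
    · have := congrFun h b
      simpa only [update_of_ne hba] using this

lemma good_grow (hs : ∀ p q, conf p q → conf q p) (Δ : ℕ) (hΔ : 0 < Δ)
    (hL : ∀ a, 4 * Δ ≤ (L a).card)
    (hdeg : ∀ a, ∀ i ∈ L a,
      (univ.filter fun q : α × ι => q.1 ≠ a ∧ q.2 ∈ L q.1 ∧ conf (a, i) q).card ≤ Δ)
    (n : ℕ) : ∀ S : Finset α, S.card = n → ∀ a, a ∉ S →
      2 * Δ * (goodSet L conf S).card ≤ (goodSet L conf (insert a S)).card := by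
  induction n using Nat.strong_induction_on with
  | _ n ih =>
  intro S hS a ha
  set G := goodSet L conf S with hG
  have hprev : ∀ b ∈ S, ∀ j, 2 * Δ * (G.filter fun f => f b = some j).card ≤ G.card := by
    intro b hb j
    have h1 := ih (S.erase b).card (by rw [← hS]; exact card_erase_lt_of_mem hb) (S.erase b) rfl b
      (notMem_erase _ _)
    rw [insert_erase hb] at h1
    exact (Nat.mul_le_mul_left _ (good_erase L conf S b j)).trans h1
  let bad : ι → Finset (α → Option ι) := fun i =>
    G.filter fun f => ∃ b j, f b = some j ∧ conf (a, i) (b, j)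
  have hbad : ∀ i ∈ L a, 2 * (bad i).card ≤ G.card := by
    intro i hi
    let Q := univ.filter fun q : α × ι => (q.1 ≠ a ∧ q.2 ∈ L q.1 ∧ conf (a, i) q) ∧ q.1 ∈ S
    have hQ : Q.card ≤ Δ := by
      refine le_trans (card_le_card ?_) (hdeg a i hi)
      intro q hq
      simp only [Q, mem_filter, mem_univ, true_and] at hq ⊢
      exact hq.1
    have hsub : bad i ⊆ Q.biUnion fun q => G.filter fun f => f q.1 = some q.2 := by
      intro f hf
      obtain ⟨hfG, b, j, hb, hc⟩ := mem_filter.1 hf
      obtain ⟨h1, h2, -⟩ := (mem_goodSet L conf).1 hfG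
      have hbS : b ∈ S := by
        by_contra h
        rw [h1 b h] at hb
        cases hb
      obtain ⟨j', hj', hj2⟩ := h2 b hbS
      have : j' = j := by rw [hb] at hj2; exact (Option.some.inj hj2).symm
      subst this
      refine mem_biUnion.2 ⟨(b, j'), ?_, mem_filter.2 ⟨hfG, hb⟩⟩
      simp only [Q, mem_filter, mem_univ, true_and]
      exact ⟨⟨fun h => ha (h ▸ hbS), hj', hc⟩, hbS⟩
    have h1 : 2 * Δ * (bad i).card ≤ Δ * G.card := by
      calc 2 * Δ * (bad i).card
          ≤ 2 * Δ * ∑ q ∈ Q, (G.filter fun f => f q.1 = some q.2).card :=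
            Nat.mul_le_mul_left _ ((card_le_card hsub).trans card_biUnion_le)
        _ = ∑ q ∈ Q, 2 * Δ * (G.filter fun f => f q.1 = some q.2).card := mul_sum _ _ _
        _ ≤ ∑ _q ∈ Q, G.card := sum_le_sum fun q hq => hprev _ (mem_filter.1 hq).2.2 _
        _ = Q.card * G.card := by simp
        _ ≤ Δ * G.card := Nat.mul_le_mul_right _ hQ
    have h2 : Δ * (2 * (bad i).card) ≤ Δ * G.card := by
      calc Δ * (2 * (bad i).card) = 2 * Δ * (bad i).card := by ring
        _ ≤ _ := h1
    exact Nat.le_of_mul_le_mul_left h2 hΔ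
  have hgood : ((L a).sigma fun i => G \ bad i).card ≤ (goodSet L conf (insert a S)).card := by
    refine card_le_card_of_injOn (fun p => update p.2 a (some p.1)) ?_ ?_
    · rintro ⟨i, f⟩ hp
      rw [mem_coe, mem_sigma, mem_sdiff] at hp
      obtain ⟨hi, hfG, hfb⟩ := hp
      obtain ⟨h1, h2, h3⟩ := (mem_goodSet L conf).1 hfG
      have hnb : ∀ b j, f b = some j → ¬ conf (a, i) (b, j) := fun b j hb hc =>
        hfb (mem_filter.2 ⟨hfG, b, j, hb, hc⟩)
      rw [mem_coe, mem_goodSet]
      refine ⟨fun b hb => ?_, fun b hb => ?_, fun b b' j j' hbb hb hb' => ?_⟩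
      · rw [mem_insert, not_or] at hb
        simp only [update_of_ne hb.1]
        exact h1 b hb.2
      · by_cases hba : b = a
        · subst hba
          exact ⟨i, hi, by simp⟩
        · simp only [update_of_ne hba]
          exact h2 b ((mem_insert.1 hb).resolve_left hba)
      · by_cases e1 : b = a
        · subst e1
          simp only [update_self, Option.some.injEq] at hb
          simp only [update_of_ne hbb.symm] at hb'
          subst hb
          exact hnb _ _ hb'
        · simp only [update_of_ne e1] at hb
          by_cases e2 : b' = a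
          · subst e2
            simp only [update_self, Option.some.injEq] at hb'
            subst hb'
            exact fun hc => hnb _ _ hb (hs _ _ hc)
          · simp only [update_of_ne e2] at hb'
            exact h3 b b' j j' hbb hb hb'
    · rintro ⟨i, f⟩ hp ⟨i', f'⟩ hp' h
      rw [mem_coe, mem_sigma, mem_sdiff] at hp hp'
      have e1 : i = i' := by
        have := congrFun h a
        simpa using this
      subst e1
      have e2 : f = f' := by
        funext b
        by_cases hba : b = a
        · subst hba
          exact (((mem_goodSet L conf).1 hp.2.1).1 b ha).trans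
            (((mem_goodSet L conf).1 hp'.2.1).1 b ha).symm
        · have := congrFun h b
          simpa only [update_of_ne hba] using this
      rw [e2]
  have hcount : (L a).card * G.card ≤ 2 * ((L a).sigma fun i => G \ bad i).card := by
    rw [card_sigma, mul_sum]
    calc (L a).card * G.card = ∑ _i ∈ L a, G.card := by simp
      _ ≤ _ := sum_le_sum fun i hi => by
          have h1 := hbad i hi
          have h2 : (G \ bad i).card + (bad i).card = G.card :=
            card_sdiff_add_card_eq_card (filter_subset _ _)
          omega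
  have h5 : 4 * Δ * G.card ≤ (L a).card * G.card := Nat.mul_le_mul_right _ (hL a)
  have h6 : 4 * Δ * G.card = 2 * (2 * Δ * G.card) := by ring
  omega

/-- independent transversal when all lists have size at least four times the degree -/
lemma indep_transversal (hs : ∀ p q, conf p q → conf q p) (Δ : ℕ) (hΔ : 0 < Δ)
    (hL : ∀ a, 4 * Δ ≤ (L a).card)
    (hdeg : ∀ a, ∀ i ∈ L a,
      (univ.filter fun q : α × ι => q.1 ≠ a ∧ q.2 ∈ L q.1 ∧ conf (a, i) q).card ≤ Δ) :
    ∃ f : α → ι, (∀ a, f a ∈ L a) ∧ ∀ a a', a ≠ a' → ¬ conf (a, f a) (a', f a') := by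
  have key : ∀ S : Finset α, 0 < (goodSet L conf S).card := by
    intro S
    induction S using Finset.induction_on with
    | empty =>
      refine card_pos.2 ⟨fun _ => none, (mem_goodSet L conf).2 ⟨fun _ _ => rfl, by simp, ?_⟩⟩
      intro a a' i i' _ h
      cases h
    | insert a S ha ih =>
      refine lt_of_lt_of_le ?_ (good_grow L conf hs Δ hΔ hL hdeg _ S rfl a ha)
      positivity
  obtain ⟨f, hf⟩ := card_pos.1 (key univ)
  obtain ⟨-, h2, h3⟩ := (mem_goodSet L conf).1 hf
  choose F hF1 hF2 using fun a => h2 a (mem_univ a)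
  exact ⟨F, hF1, fun a a' h => h3 a a' _ _ h (hF2 a) (hF2 a')⟩

end IT

/-- a rank function from peeling -/
lemma exists_rank {α : Type} (P : α → Finset α → Prop) (S : Finset α)
    (h : ∀ S' ⊆ S, S'.Nonempty → ∃ c ∈ S', P c S') :
    ∃ rk : α → ℕ, ∀ c ∈ S, P c (S.filter fun c' => rk c' ≤ rk c) := by
  induction S using Finset.strongInduction with
  | _ S ih =>
  rcases S.eq_empty_or_nonempty with rfl | hS
  · exact ⟨fun _ => 0, by simp⟩
  obtain ⟨c, hc, hP⟩ := h S Subset.rfl hS
  obtain ⟨rk, hrk⟩ := ih (S.erase c) (erase_ssubset hc)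
    fun S' hS' => h S' (hS'.trans (erase_subset _ _))
  refine ⟨update rk c (S.sup rk + 1), fun a ha => ?_⟩
  by_cases hac : a = c
  · subst hac
    have : (S.filter fun c' => update rk a (S.sup rk + 1) c' ≤ update rk a (S.sup rk + 1) a) = S := by
      refine filter_true_of_mem fun b hb => ?_
      by_cases hba : b = a
      · rw [hba]
      · rw [update_of_ne hba, update_self]
        exact (le_sup (f := rk) hb).trans (Nat.le_succ _)
    rw [this]
    exact hP
  · have : (S.filter fun c' => update rk c (S.sup rk + 1) c' ≤ update rk c (S.sup rk + 1) a) =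
        (S.erase c).filter fun c' => rk c' ≤ rk a := by
      ext b
      rw [mem_filter, mem_filter, mem_erase, update_of_ne hac]
      by_cases hbc : b = c
      · subst hbc
        have := le_sup (f := rk) ha
        simp only [update_self, ne_eq, not_true_eq_false, false_and, iff_false, not_and, not_le]
        intro _
        omega
      · rw [update_of_ne hbc]
        tauto
    rw [this]
    exact hrk a (mem_erase.2 ⟨hac, ha⟩)

end Pool.Agent.P.MP_465281_an
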