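import Mathlib

/-!
Almost everywhere perfect matching from two-sided expansion (Lyons-Nazarov type).
-/

namespace Pool.Agent.P.MP_465281_an

open Set MeasureTheory Function Filter

namespace LN

variable {X : Type} [MeasurableSpace X] {ι : Type} [Fintype ι]

/-- the piecewise map -/
def phi (e : ι → X ≃ᵐ X) (m : X → ι) (x : X) : X := e (m x) x

/-- measurable fibres -/
def Fib (m : X → ι) : Prop := ∀ i, MeasurableSet {x | m x = i}

/-- a matching defined on D -/
structure Mat (e : ι → X ≃ᵐ X) (A B D : Set X) (m : X → ι) : Prop where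
  meas : MeasurableSet D
  sub : D ⊆ A
  fib : Fib m
  maps : MapsTo (phi e m) D B
  inj : InjOn (phi e m) D

variable {e : ι → X ≃ᵐ X} {m : X → ι} {lam : Measure X} {A B D : Set X}

omit [Fintype ι] in
theorem img_eq (S : Set X) : phi e m '' S = ⋃ i, e i '' (S ∩ {x | m x = i}) := by
  ext y
  simp only [mem_image, mem_iUnion, mem_inter_iff, mem_ofPred_eq]
  constructor
  · rintro ⟨x, hx, rfl⟩
    exact ⟨m x, x, ⟨hx, rfl⟩, rfl⟩
  · rintro ⟨i, x, ⟨hx, rfl⟩, rfl⟩
    exact ⟨x, hx, rfl⟩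

theorem Fib.img (hm : Fib m) {S : Set X} (hS : MeasurableSet S) :
    MeasurableSet (phi e m '' S) := by
  rw [img_eq]
  exact MeasurableSet.iUnion fun i => (e i).measurableSet_image.2 (hS.inter (hm i))

theorem Fib.pre (hm : Fib m) {R : Set X} (hR : MeasurableSet R) :
    MeasurableSet (phi e m ⁻¹' R) := by
  have : phi e m ⁻¹' R = ⋃ i, {x | m x = i} ∩ e i ⁻¹' R := by
    ext x
    simp only [mem_preimage, mem_iUnion, mem_inter_iff, mem_ofPred_eq]
    exact ⟨fun h => ⟨m x, rfl, h⟩, by rintro ⟨i, rfl, h⟩; exact h⟩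
  rw [this]
  exact MeasurableSet.iUnion fun i => (hm i).inter ((e i).measurable hR)

omit [Fintype ι] in
theorem fib_const (i : ι) : Fib (fun _ : X => i) := fun j => MeasurableSet.const (i = j)

omit [Fintype ι] in
theorem Fib.ite {m' : X → ι} (hm : Fib m) (hm' : Fib m') {T : Set X} [DecidablePred (· ∈ T)]
    (hT : MeasurableSet T) :
    Fib (fun x => if x ∈ T then m x else m' x) := fun i => by
  have : {x | (if x ∈ T then m x else m' x) = i} = (T ∩ {x | m x = i}) ∪ (Tᶜ ∩ {x | m' x = i}) := by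
    ext x
    by_cases h : x ∈ T <;> simp [h]
  rw [this]
  exact (hT.inter (hm i)).union (hT.compl.inter (hm' i))

theorem real_pre {f : X ≃ᵐ X} (hf : MeasurePreserving f lam lam) (S : Set X) :
    lam.real (f ⁻¹' S) = lam.real S := by
  rw [measureReal_def, measureReal_def, hf.measure_preimage_equiv]

theorem real_img {f : X ≃ᵐ X} (hf : MeasurePreserving f lam lam) (S : Set X) :
    lam.real (f '' S) = lam.real S := by
  rw [← real_pre hf, f.injective.preimage_image]

theorem Fib.real (hm : Fib m) (he : ∀ i, MeasurePreserving (e i) lam lam) {S : Set X}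
    (hS : MeasurableSet S) (hi : InjOn (phi e m) S) : lam.real (phi e m '' S) = lam.real S := by
  have h : S = ⋃ i, S ∩ {x | m x = i} := by
    ext x
    simp
  rw [measureReal_def, measureReal_def, img_eq, measure_iUnion ?_
    (fun i => (e i).measurableSet_image.2 (hS.inter (hm i)))]
  · conv_rhs => rw [h]
    rw [measure_iUnion ?_ (fun i => hS.inter (hm i))]
    · refine congrArg _ (tsum_congr fun i => ?_)
      rw [← (he i).measure_preimage_equiv, (e i).injective.preimage_image]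
    · intro i j hij
      exact disjoint_left.2 fun x hx hx' => hij (hx.2.symm.trans hx'.2)
  · intro i j hij
    refine disjoint_left.2 ?_
    rintro _ ⟨x, ⟨hx, rfl⟩, rfl⟩ ⟨y, ⟨hy, rfl⟩, hxy⟩
    exact hij (by rw [hi hy hx hxy])

theorem piece {κ : Type} [Fintype κ] [Nonempty κ] {S : Set X} (R : κ → Set X)
    (h : S ⊆ ⋃ i, R i) : ∃ i, lam.real S ≤ Fintype.card κ * lam.real (S ∩ R i) := by
  obtain ⟨i, -, hi⟩ := Finset.exists_max_image Finset.univ (fun i => lam.real (S ∩ R i))
    Finset.univ_nonempty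
  refine ⟨i, ?_⟩
  calc lam.real S = lam.real (⋃ j, S ∩ R j) := by rw [← inter_iUnion, inter_eq_left.2 h]
    _ ≤ ∑ j, lam.real (S ∩ R j) := measureReal_iUnion_fintype_le _
    _ ≤ ∑ _j : κ, lam.real (S ∩ R i) := Finset.sum_le_sum fun j hj => hi j hj
    _ = _ := by simp

/-- neighbours in A -/
def nb (e : ι → X ≃ᵐ X) (A V : Set X) : Set X := A ∩ ⋃ i, e i ⁻¹' V

/-- one level step -/
def stp (e : ι → X ≃ᵐ X) (A B D : Set X) (m : X → ι) (V : Set X) : Set X :=
  (B \ phi e m '' D) ∪ phi e m '' (nb e A V ∩ D)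

/-- levels in B -/
def lv (e : ι → X ≃ᵐ X) (A B D : Set X) (m : X → ι) (k : ℕ) : Set X := (stp e A B D m)^[k] ∅

omit [Fintype ι] in
theorem lv_succ (k : ℕ) : lv e A B D m (k + 1) =
    (B \ phi e m '' D) ∪ phi e m '' (nb e A (lv e A B D m k) ∩ D) :=
  Function.iterate_succ_apply' _ _ _

omit [Fintype ι] in
theorem nb_mono {V V' : Set X} (h : V ⊆ V') : nb e A V ⊆ nb e A V' :=
  inter_subset_inter_right _ (iUnion_mono fun _ => preimage_mono h)

omit [Fintype ι] in
theorem nb_zero : nb e A (lv e A B D m 0) = ∅ := by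
  simp [nb, lv]

omit [Fintype ι] in
theorem lv_mono (k : ℕ) : lv e A B D m k ⊆ lv e A B D m (k + 1) := by
  induction k with
  | zero => exact empty_subset _
  | succ k ih =>
    rw [lv_succ (k + 1), lv_succ k]
    refine union_subset_union_right _ (image_mono (inter_subset_inter_left _ (nb_mono ?_)))
    rwa [lv_succ k] at ih

theorem nb_meas (hA : MeasurableSet A) {V : Set X} (hV : MeasurableSet V) :
    MeasurableSet (nb e A V) :=
  hA.inter (MeasurableSet.iUnion fun i => (e i).measurable hV)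

theorem Mat.lv_meas (h : Mat e A B D m) (hA : MeasurableSet A) (hB : MeasurableSet B) (k : ℕ) :
    MeasurableSet (lv e A B D m k) := by
  induction k with
  | zero => exact MeasurableSet.empty
  | succ k ih =>
    rw [lv_succ]
    exact (hB.diff (h.fib.img h.meas)).union (h.fib.img ((nb_meas hA ih).inter h.meas))

omit [Fintype ι] in
theorem Mat.lv_sub (h : Mat e A B D m) (k : ℕ) : lv e A B D m k ⊆ B := by
  cases k with
  | zero => exact empty_subset _
  | succ k =>
    rw [lv_succ]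
    exact union_subset sdiff_subset ((image_mono inter_subset_right).trans h.maps.image_subset)

theorem Mat.lv_real (h : Mat e A B D m) (he : ∀ i, MeasurePreserving (e i) lam lam)
    (hA : MeasurableSet A) (hB : MeasurableSet B) (hAB : lam.real A = lam.real B)
    (fA : lam A ≠ ⊤) (fB : lam B ≠ ⊤) (k : ℕ) :
    lam.real (lv e A B D m (k + 1)) =
      lam.real (A \ D) + lam.real (nb e A (lv e A B D m k) ∩ D) := by
  have h1 := (nb_meas (e := e) hA (h.lv_meas hA hB k)).inter h.meas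
  rw [lv_succ, measureReal_union (disjoint_sdiff_left.mono_right (image_mono inter_subset_right))
    (h.fib.img h1) (measure_ne_top_of_subset sdiff_subset fB) (measure_ne_top_of_subset
      ((image_mono inter_subset_right).trans h.maps.image_subset) fB),
    h.fib.real he h1 (h.inj.mono inter_subset_right),
    measureReal_sdiff h.maps.image_subset (h.fib.img h.meas) fB, h.fib.real he h.meas h.inj,
    measureReal_sdiff h.sub h.meas fA, hAB]

theorem Mat.lv_ge (h : Mat e A B D m) (he : ∀ i, MeasurePreserving (e i) lam lam)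
    (hA : MeasurableSet A) (hB : MeasurableSet B) (hAB : lam.real A = lam.real B)
    (fA : lam A ≠ ⊤) (fB : lam B ≠ ⊤) (k : ℕ) :
    lam.real (nb e A (lv e A B D m k)) ≤ lam.real (lv e A B D m (k + 1)) := by
  rw [h.lv_real he hA hB hAB fA fB, ← measureReal_sdiff_add_inter (s := nb e A _) h.meas
    (measure_ne_top_of_subset inter_subset_left fA)]
  exact add_le_add_left (measureReal_mono (sdiff_subset_sdiff_left inter_subset_left)
    (measure_ne_top_of_subset sdiff_subset fA)) _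

theorem Mat.reach (h : Mat e A B D m) (he : ∀ i, MeasurePreserving (e i) lam lam)
    (hA : MeasurableSet A) (hB : MeasurableSet B) (hAB : lam.real A = lam.real B)
    (fA : lam A ≠ ⊤) (fB : lam B ≠ ⊤)
    (h1 : ∀ U, MeasurableSet U → U ⊆ A →
      2 * lam.real U ≤ lam.real (B ∩ ⋃ i, e i '' U) ∨
      2 / 3 * lam.real B ≤ lam.real (B ∩ ⋃ i, e i '' U))
    (h2 : ∀ V, MeasurableSet V → V ⊆ B →
      2 * lam.real V ≤ lam.real (A ∩ ⋃ i, e i ⁻¹' V) ∨
      2 / 3 * lam.real B ≤ lam.real (A ∩ ⋃ i, e i ⁻¹' V))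
    (hb : 0 < lam.real B) (J : ℕ) (hJ : lam.real B ≤ 2 ^ J * lam.real (A \ D)) :
    lam.real (A \ D) ≤ 2 * lam.real ((A \ D) ∩ nb e A (lv e A B D m (2 * J + 1))) := by
  have ha : ∀ k : ℕ, min (2 ^ k * lam.real (A \ D)) (2 / 3 * lam.real B) ≤
      lam.real (lv e A B D m (k + 1)) := by
    intro k
    induction k with
    | zero =>
      rw [h.lv_real he hA hB hAB fA fB]
      exact (min_le_left _ _).trans (by simp [measureReal_nonneg])
    | succ k ih =>
      have h3 := h.lv_ge he hA hB hAB fA fB (k + 1)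
      rcases h2 _ (h.lv_meas hA hB (k + 1)) (h.lv_sub (k + 1)) with h4 | h4
      · rcases min_le_iff.1 ih with h5 | h5
        · refine (min_le_left _ _).trans ?_
          rw [pow_succ]
          unfold nb at h3
          linarith
        · refine (min_le_right _ _).trans ?_
          unfold nb at h3
          linarith
      · exact (min_le_right _ _).trans (h4.trans h3)
  have hb2 : ∀ k, lam.real B - lam.real (lv e A B D m k) < 2 / 3 * lam.real B →
      2 * (lam.real B - lam.real (nb e A (lv e A B D m k))) ≤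
        lam.real B - lam.real (lv e A B D m k) := by
    intro k hk
    have hm := h.lv_meas hA hB k
    have hn := nb_meas (e := e) hA hm
    have h5 : lam.real (B ∩ ⋃ i, e i '' (A \ nb e A (lv e A B D m k))) ≤
        lam.real B - lam.real (lv e A B D m k) := by
      rw [← measureReal_sdiff (h.lv_sub k) hm fB]
      refine measureReal_mono ?_ (measure_ne_top_of_subset sdiff_subset fB)
      rintro y ⟨hy, hy'⟩
      obtain ⟨i, x, hx, rfl⟩ := mem_iUnion.1 hy'
      exact ⟨hy, fun h' => hx.2 ⟨hx.1, mem_iUnion.2 ⟨i, h'⟩⟩⟩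
    rcases h1 _ (hA.diff hn) sdiff_subset with h4 | h4
    · rw [measureReal_sdiff (show nb e A _ ⊆ A from inter_subset_left) hn fA, hAB] at h4
      exact h4.trans h5
    · linarith
  have hc : ∀ t : ℕ, 2 ^ t * (lam.real B - lam.real (lv e A B D m (J + 1 + t))) ≤
      lam.real B / 3 := by
    intro t
    induction t with
    | zero =>
      have := ha J
      rw [min_eq_right (by linarith)] at this
      simp only [pow_zero, add_zero]
      linarith
    | succ t ih =>
      have h3 := h.lv_ge he hA hB hAB fA fB (J + 1 + t)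
      have h0 : 0 ≤ lam.real B - lam.real (lv e A B D m (J + 1 + t)) :=
        sub_nonneg.2 (measureReal_mono (h.lv_sub _) fB)
      have h6 : (1 : ℝ) ≤ 2 ^ t := one_le_pow₀ one_le_two
      have h4 := hb2 (J + 1 + t) (by nlinarith)
      rw [← add_assoc, pow_succ]
      nlinarith
  have h3 := hc J
  rw [show J + 1 + J = 2 * J + 1 by ring] at h3
  have h0 : 0 ≤ lam.real B - lam.real (lv e A B D m (2 * J + 1)) :=
    sub_nonneg.2 (measureReal_mono (h.lv_sub _) fB)
  have h6 : (1 : ℝ) ≤ 2 ^ J := one_le_pow₀ one_le_two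
  have h4 := hb2 (2 * J + 1) (by nlinarith)
  have hn := nb_meas (e := e) hA (h.lv_meas hA hB (2 * J + 1))
  have h7 := measureReal_inter_add_sdiff (μ := lam) (s := A \ D) hn
    (measure_ne_top_of_subset sdiff_subset fA)
  have h8 : lam.real ((A \ D) \ nb e A (lv e A B D m (2 * J + 1))) ≤
      lam.real B - lam.real (nb e A (lv e A B D m (2 * J + 1))) := by
    rw [← hAB, ← measureReal_sdiff (show nb e A _ ⊆ A from inter_subset_left) hn fA]
    exact measureReal_mono (sdiff_subset_sdiff_left sdiff_subset)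
      (measure_ne_top_of_subset sdiff_subset fA)
  have h9 : 3 * (lam.real B - lam.real (lv e A B D m (2 * J + 1))) ≤ lam.real (A \ D) := by
    refine le_of_mul_le_mul_left ?_ (show (0 : ℝ) < 2 ^ J by positivity)
    linarith
  linarith

theorem Mat.aug [Nonempty ι] (h : Mat e A B D m) (he : ∀ i, MeasurePreserving (e i) lam lam)
    (hA : MeasurableSet A) (hB : MeasurableSet B) (k : ℕ) : ∀ S, MeasurableSet S →
    S ⊆ nb e A (lv e A B D m (k + 1)) \ nb e A (lv e A B D m k) →
    ∃ (S' T : Set X) (m' : X → ι), MeasurableSet S' ∧ MeasurableSet T ∧ Fib m' ∧ S' ⊆ S ∧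
      T ⊆ D ∩ nb e A (lv e A B D m k) ∧
      lam.real S ≤ (Fintype.card ι : ℝ) ^ (k + 1) * lam.real S' ∧
      lam.real T ≤ k * lam.real S' ∧ InjOn (phi e m') (S' ∪ T) ∧
      phi e m' '' (S' ∪ T) ⊆ phi e m '' T ∪ (B \ phi e m '' D) := by
  classical
  induction k with
  | zero =>
    intro S hS hS'
    obtain ⟨i, hi⟩ := piece (lam := lam) (S := S) (fun i => e i ⁻¹' (B \ phi e m '' D)) (by
      intro x hx
      have := (hS' hx).1.2
      rwa [lv_succ, nb_zero, empty_inter, image_empty, union_empty] at this)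
    refine ⟨_, ∅, fun _ => i, hS.inter ((e i).measurable (hB.diff (h.fib.img h.meas))),
      MeasurableSet.empty, fib_const i, inter_subset_left, empty_subset _, by simpa using hi,
      by simp, fun x _ y _ hxy => (e i).injective hxy, ?_⟩
    rintro _ ⟨x, hx | hx, rfl⟩
    · exact Or.inr hx.2
    · exact hx.elim
  | succ k ih =>
    intro S hS hS'
    set Z := (nb e A (lv e A B D m (k + 1)) \ nb e A (lv e A B D m k)) ∩ D with hZ
    have hZm : MeasurableSet Z := ((nb_meas hA (h.lv_meas hA hB _)).diff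
      (nb_meas hA (h.lv_meas hA hB _))).inter h.meas
    obtain ⟨i, hi⟩ := piece (lam := lam) (S := S) (fun i => e i ⁻¹' (phi e m '' Z)) (by
      intro x hx
      obtain ⟨⟨hxA, hx1⟩, hx2⟩ := hS' hx
      obtain ⟨i, hi⟩ := mem_iUnion.1 hx1
      have hx3 : e i x ∉ lv e A B D m (k + 1) := fun h' => hx2 ⟨hxA, mem_iUnion.2 ⟨i, h'⟩⟩
      refine mem_iUnion.2 ⟨i, ?_⟩
      rw [mem_preimage, lv_succ] at hi
      rw [lv_succ] at hx3
      rcases hi with hi | ⟨z, hz, hz'⟩
      · exact (hx3 (Or.inl hi)).elim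
      · exact ⟨z, ⟨⟨hz.1, fun h' => hx3 (Or.inr ⟨z, ⟨h', hz.2⟩, hz'⟩)⟩, hz.2⟩, hz'⟩)
    set S1 := S ∩ e i ⁻¹' (phi e m '' Z) with hS1
    have hS1m : MeasurableSet S1 := hS.inter ((e i).measurable (h.fib.img hZm))
    set S2 := Z ∩ phi e m ⁻¹' (e i '' S1) with hS2
    have hS2m : MeasurableSet S2 := hZm.inter (h.fib.pre ((e i).measurableSet_image.2 hS1m))
    have hS2D : S2 ⊆ D := fun x hx => hx.1.2
    have h12 : phi e m '' S2 = e i '' S1 := by
      rw [hS2, image_inter_preimage, inter_eq_right]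
      rintro _ ⟨x, hx, rfl⟩
      exact hx.2
    have h13 : lam.real S2 = lam.real S1 := by
      rw [← h.fib.real he hS2m (h.inj.mono hS2D), h12, real_img (he i)]
    obtain ⟨S3, T, m2, k1, k2, k3, k4, k5, k6, k7, k8, k9⟩ := ih S2 hS2m fun x hx => hx.1.1
    set S' := e i ⁻¹' (phi e m '' S3) with hS'd
    have hS'm : MeasurableSet S' := (e i).measurable (h.fib.img k1)
    have h14 : S' ⊆ S := fun x hx => by
      have : e i x ∈ e i '' S1 := h12 ▸ image_mono k4 hx
      exact (((e i).injective.mem_set_image).1 this).1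
    have h15 : lam.real S' = lam.real S3 := by
      rw [hS'd, real_pre (he i), h.fib.real he k1 (h.inj.mono (k4.trans hS2D))]
    have h16 : S3 ∪ T ⊆ D ∩ nb e A (lv e A B D m (k + 1)) :=
      union_subset (fun x hx => ⟨hS2D (k4 hx), (k4 hx).1.1.1⟩)
        (k5.trans (inter_subset_inter_right _ (nb_mono (lv_mono k))))
    have h17 : ∀ y ∈ S3 ∪ T, y ∉ S' := fun y hy hy' => (hS' (h14 hy')).2 (h16 hy).2
    have h18 : ∀ x ∈ S', phi e (fun x => if x ∈ S' then i else m2 x) x = e i x := fun x hx => by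
      simp only [phi, if_pos hx]
    have h19 : ∀ y ∈ S3 ∪ T, phi e (fun x => if x ∈ S' then i else m2 x) y = phi e m2 y :=
      fun y hy => by simp only [phi, if_neg (h17 y hy)]
    have h20 : ∀ x ∈ S', ∀ y ∈ S3 ∪ T, e i x ≠ phi e m2 y := by
      rintro x ⟨z, hz, hz'⟩ y hy hxy
      rcases k9 ⟨y, hy, rfl⟩ with ⟨w, hw, hw'⟩ | hw
      · have : z = w := h.inj (hS2D (k4 hz)) (k5 hw).1 (by rw [hz', hw', hxy])
        exact (k4 hz).1.1.2 (this ▸ (k5 hw).2)
      · exact hw.2 ⟨z, hS2D (k4 hz), by rw [hz', hxy]⟩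
    refine ⟨S', S3 ∪ T, fun x => if x ∈ S' then i else m2 x, hS'm, k1.union k2,
      (fib_const i).ite k3 hS'm, h14, h16, ?_, ?_, ?_, ?_⟩
    · rw [h15, pow_succ', mul_assoc]
      exact hi.trans (mul_le_mul_of_nonneg_left (h13 ▸ k6) (Nat.cast_nonneg _))
    · rw [h15]
      have := measureReal_union_le (μ := lam) S3 T
      push_cast
      linarith
    · rintro x (hx | hx) y (hy | hy) hxy
      · rw [h18 x hx, h18 y hy] at hxy
        exact (e i).injective hxy
      · rw [h18 x hx, h19 y hy] at hxy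
        exact (h20 x hx y hy hxy).elim
      · rw [h19 x hx, h18 y hy] at hxy
        exact (h20 y hy x hx hxy.symm).elim
      · rw [h19 x hx, h19 y hy] at hxy
        exact k8 hx hy hxy
    · rintro _ ⟨x, hx | hx, rfl⟩
      · rw [h18 x hx]
        exact Or.inl (image_mono subset_union_left hx)
      · rw [h19 x hx]
        exact (k9 ⟨x, hx, rfl⟩).imp_left fun h' => image_mono subset_union_right h'

omit [Fintype ι] [MeasurableSpace X] in
theorem exists_level {Q : ℕ → Set X} (h0 : Q 0 = ∅) {x : X} (n : ℕ) (hx : x ∈ Q n) :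
    ∃ k < n, x ∈ Q (k + 1) \ Q k := by
  induction n with
  | zero => rw [h0] at hx; exact hx.elim
  | succ n ih =>
    by_cases h : x ∈ Q n
    · obtain ⟨k, hk, hk'⟩ := ih h
      exact ⟨k, hk.trans n.lt_succ_self, hk'⟩
    · exact ⟨n, n.lt_succ_self, hx, h⟩

theorem Mat.step [Nonempty ι] (h : Mat e A B D m) (he : ∀ i, MeasurePreserving (e i) lam lam)
    (hA : MeasurableSet A) (hB : MeasurableSet B) (fA : lam A ≠ ⊤) (n : ℕ)
    (hn : lam.real (A \ D) ≤ 2 * lam.real ((A \ D) ∩ nb e A (lv e A B D m (n + 1)))) :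
    ∃ D' m', Mat e A B D' m' ∧ D ⊆ D' ∧
      lam.real (A \ D) ≤ (2 * (n + 1) * (Fintype.card ι : ℝ) ^ (n + 1)) *
        (lam.real (A \ D) - lam.real (A \ D')) ∧
      lam.real {x | x ∈ D ∧ m' x ≠ m x} ≤ (n + 1) * (lam.real (A \ D) - lam.real (A \ D')) := by
  classical
  obtain ⟨k, hk⟩ := piece (lam := lam) (S := (A \ D) ∩ nb e A (lv e A B D m (n + 1)))
    (fun k : Fin (n + 1) => nb e A (lv e A B D m (k + 1)) \ nb e A (lv e A B D m k)) (by
      intro x hx
      obtain ⟨k, hk, hk'⟩ := exists_level (Q := fun k => nb e A (lv e A B D m k)) nb_zero _ hx.2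
      exact mem_iUnion.2 ⟨⟨k, hk⟩, hk'⟩)
  have hm := fun k => nb_meas (e := e) hA (h.lv_meas hA hB k)
  obtain ⟨S, T, m2, k1, k2, k3, k4, k5, k6, k7, k8, k9⟩ := h.aug he hA hB k _
    (((hA.diff h.meas).inter (hm (n + 1))).inter ((hm _).diff (hm _))) inter_subset_right
  have hS : S ⊆ A \ D := fun x hx => (k4 hx).1.1
  have h1 : lam.real (A \ D) - lam.real (A \ (D ∪ S)) = lam.real S := by
    rw [← sdiff_sdiff, measureReal_sdiff hS k1 (measure_ne_top_of_subset sdiff_subset fA)]
    ring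
  have h18 : ∀ x ∈ S ∪ T, phi e (fun x => if x ∈ S ∪ T then m2 x else m x) x = phi e m2 x :=
    fun x hx => by simp only [phi, if_pos hx]
  have h19 : ∀ x ∉ S ∪ T, phi e (fun x => if x ∈ S ∪ T then m2 x else m x) x = phi e m x :=
    fun x hx => by simp only [phi, if_neg hx]
  have h21 : ∀ x ∈ D ∪ S, x ∉ S ∪ T → x ∈ D := fun x hx hx' =>
    hx.resolve_right fun h' => hx' (Or.inl h')
  have h20 : ∀ x ∈ S ∪ T, ∀ y ∈ D, y ∉ S ∪ T → phi e m2 x ≠ phi e m y := by
    intro x hx y hy hy' hxy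
    rcases k9 ⟨x, hx, rfl⟩ with ⟨w, hw, hw'⟩ | hw
    · have : w = y := h.inj (k5 hw).1 hy (by rw [hw', hxy])
      exact hy' (Or.inr (this ▸ hw))
    · exact hw.2 ⟨y, hy, hxy.symm⟩
  have h0 : 0 ≤ lam.real S := measureReal_nonneg
  have hd : (1 : ℝ) ≤ Fintype.card ι := Nat.one_le_cast.2 Fintype.card_pos
  refine ⟨D ∪ S, fun x => if x ∈ S ∪ T then m2 x else m x,
    ⟨h.meas.union k1, union_subset h.sub (hS.trans sdiff_subset), k3.ite h.fib (k1.union k2),
      fun x hx => ?_, fun x hx y hy hxy => ?_⟩, subset_union_left, ?_, ?_⟩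
  · by_cases hx' : x ∈ S ∪ T
    · rw [h18 x hx']
      rcases k9 ⟨x, hx', rfl⟩ with ⟨w, hw, hw'⟩ | hw
      · exact hw' ▸ h.maps (k5 hw).1
      · exact hw.1
    · rw [h19 x hx']
      exact h.maps (h21 x hx hx')
  · by_cases hx' : x ∈ S ∪ T <;> by_cases hy' : y ∈ S ∪ T
    · rw [h18 x hx', h18 y hy'] at hxy
      exact k8 hx' hy' hxy
    · rw [h18 x hx', h19 y hy'] at hxy
      exact (h20 x hx' y (h21 y hy hy') hy' hxy).elim
    · rw [h19 x hx', h18 y hy'] at hxy
      exact (h20 y hy' x (h21 x hx hx') hx' hxy.symm).elim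
    · rw [h19 x hx', h19 y hy'] at hxy
      exact h.inj (h21 x hx hx') (h21 y hy hy') hxy
  · rw [h1]
    have h2 : (Fintype.card ι : ℝ) ^ (k.1 + 1) ≤ (Fintype.card ι : ℝ) ^ (n + 1) :=
      pow_le_pow_right₀ hd k.2
    have h3 := k6.trans (mul_le_mul_of_nonneg_right h2 h0)
    rw [Fintype.card_fin] at hk
    push_cast at hk
    have h4 := hk.trans (mul_le_mul_of_nonneg_left h3 (by positivity))
    linarith
  · rw [h1]
    have h2 : lam.real {x | x ∈ D ∧ (if x ∈ S ∪ T then m2 x else m x) ≠ m x} ≤ lam.real T := by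
      refine measureReal_mono (fun x hx => ?_)
        (measure_ne_top_of_subset (fun x hx => h.sub (k5 hx).1) fA)
      by_contra hT
      exact hx.2 (if_neg fun h' => h'.elim (fun h'' => (hS h'').2 hx.1) hT)
    have h3 : (k.1 : ℝ) ≤ n + 1 := by exact_mod_cast k.2.le
    exact h2.trans (k7.trans (mul_le_mul_of_nonneg_right h3 h0))

omit [Fintype ι] in
theorem halving {c K w : ℝ} (fA : lam A ≠ ⊤) (hK : 0 < K) (hw : 0 < w)
    (hs : ∀ D m, Mat e A B D m → w < lam.real (A \ D) → ∃ D' m', Mat e A B D' m' ∧ D ⊆ D' ∧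
      lam.real (A \ D) ≤ K * (lam.real (A \ D) - lam.real (A \ D')) ∧
      lam.real {x | x ∈ D ∧ m' x ≠ m x} ≤ c * (lam.real (A \ D) - lam.real (A \ D')))
    (h : Mat e A B D m) : ∃ D' m', Mat e A B D' m' ∧ D ⊆ D' ∧ lam.real (A \ D') ≤ w ∧
      lam.real {x | x ∈ D ∧ m' x ≠ m x} ≤ c * (lam.real (A \ D) - lam.real (A \ D')) := by
  have key : ∀ N : ℕ, ∀ D m, Mat e A B D m → lam.real (A \ D) ≤ w + N * (w / K) →
      ∃ D' m', Mat e A B D' m' ∧ D ⊆ D' ∧ lam.real (A \ D') ≤ w ∧
      lam.real {x | x ∈ D ∧ m' x ≠ m x} ≤ c * (lam.real (A \ D) - lam.real (A \ D')) := by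
    intro N
    induction N with
    | zero => exact fun D m h hu => ⟨D, m, h, Subset.rfl, by simpa using hu, by simp⟩
    | succ N ih =>
      intro D m h hu
      rcases le_or_gt (lam.real (A \ D)) w with h1 | h1
      · exact ⟨D, m, h, Subset.rfl, h1, by simp⟩
      obtain ⟨D1, m1, k1, k2, k3, k4⟩ := hs D m h h1
      have h2 : w / K ≤ lam.real (A \ D) - lam.real (A \ D1) := by
        rw [div_le_iff₀' hK]
        linarith
      obtain ⟨D2, m2, l1, l2, l3, l4⟩ := ih D1 m1 k1 (by push_cast at hu; linarith)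
      refine ⟨D2, m2, l1, k2.trans l2, l3, ?_⟩
      have h3 : lam.real {x | x ∈ D ∧ m2 x ≠ m x} ≤
          lam.real ({x | x ∈ D ∧ m1 x ≠ m x} ∪ {x | x ∈ D1 ∧ m2 x ≠ m1 x}) := by
        refine measureReal_mono (fun x hx => ?_) (measure_ne_top_of_subset
          (union_subset (fun x hx => h.sub hx.1) fun x hx => k1.sub hx.1) fA)
        by_cases h' : m1 x = m x
        · exact Or.inr ⟨k2 hx.1, h' ▸ hx.2⟩
        · exact Or.inl ⟨hx.1, h'⟩
      have h4 := h3.trans (measureReal_union_le _ _)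
      linarith
  obtain ⟨N, hN⟩ := exists_nat_ge (lam.real (A \ D) / (w / K))
  refine key N D m h ?_
  rw [div_le_iff₀ (div_pos hw hK)] at hN
  linarith

omit [Fintype ι] in
theorem limit (i0 : ι) (fA : lam A ≠ ⊤)
    (hs : ∀ (k : ℕ) D m, Mat e A B D m → ∃ D' m', Mat e A B D' m' ∧ D ⊆ D' ∧
      lam.real (A \ D') ≤ lam.real A * (1 / 2) ^ (k + 1) ∧
      lam.real {x | x ∈ D ∧ m' x ≠ m x} ≤ (2 * k + 3) * lam.real (A \ D)) :
    ∃ P : ι → Set X, (∀ i, MeasurableSet (P i)) ∧ Pairwise (Disjoint on P) ∧ (∀ i, P i ⊆ A) ∧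
      (∀ i, e i '' P i ⊆ B) ∧ Pairwise (Disjoint on fun i => e i '' P i) ∧
      lam (A \ ⋃ i, P i) = 0 := by
  choose! F G h1 h2 h3 h4 using hs
  obtain ⟨s, s0, s1⟩ : ∃ s : ℕ → Set X × (X → ι), s 0 = (∅, fun _ => i0) ∧
      ∀ k, s (k + 1) = (F k (s k).1 (s k).2, G k (s k).1 (s k).2) :=
    ⟨fun k => Nat.rec (∅, fun _ => i0) (fun k p => (F k p.1 p.2, G k p.1 p.2)) k, rfl,
      fun _ => rfl⟩
  have hM : ∀ k, Mat e A B (s k).1 (s k).2 := by
    intro k
    induction k with
    | zero =>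
      rw [s0]
      exact ⟨MeasurableSet.empty, empty_subset _, fib_const i0, mapsTo_empty _ _, injOn_empty _⟩
    | succ k ih =>
      rw [s1]
      exact h1 k _ _ ih
  have hmono : Monotone fun k => (s k).1 := monotone_nat_of_le_succ fun k => by
    simp only [s1 k]
    exact h2 k _ _ (hM k)
  have hu : ∀ k, lam.real (A \ (s k).1) ≤ lam.real A * (1 / 2) ^ k := by
    intro k
    cases k with
    | zero => simp [s0]
    | succ k =>
      rw [s1]
      exact h3 k _ _ (hM k)
  have hC : ∀ k : ℕ, lam {x | x ∈ (s k).1 ∧ (s (k + 1)).2 x ≠ (s k).2 x} ≤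
      ENNReal.ofReal ((2 * k + 3) * (lam.real A * (1 / 2) ^ k)) := by
    intro k
    rw [← ofReal_measureReal (measure_ne_top_of_subset (fun x hx => (hM k).sub hx.1) fA)]
    refine ENNReal.ofReal_le_ofReal ?_
    rw [s1]
    exact (h4 k _ _ (hM k)).trans (mul_le_mul_of_nonneg_left (hu k) (by positivity))
  have hsum : Summable fun k : ℕ => (2 * k + 3 : ℝ) * (lam.real A * (1 / 2) ^ k) := by
    have a1 := (summable_pow_mul_geometric_of_norm_lt_one 1
      (show ‖(1 / 2 : ℝ)‖ < 1 by norm_num)).mul_left (2 * lam.real A)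
    have a2 := summable_geometric_two.mul_left (3 * lam.real A)
    refine (a1.add a2).congr fun k => ?_
    ring
  have hae := ae_eventually_notMem (μ := lam)
    (ne_top_of_le_ne_top hsum.tsum_ofReal_ne_top (ENNReal.tsum_le_tsum hC))
  have hnull : lam (A \ ⋃ k, (s k).1) = 0 := by
    rw [← measureReal_eq_zero_iff (measure_ne_top_of_subset sdiff_subset fA)]
    refine le_antisymm (ge_of_tendsto' (f := fun k : ℕ => lam.real A * (1 / 2) ^ k)
      (x := atTop) ?_ fun k => ?_) measureReal_nonneg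
    · simpa using (tendsto_pow_atTop_nhds_zero_of_lt_one (r := (1 / 2 : ℝ)) (by norm_num)
        (by norm_num)).const_mul (lam.real A)
    · exact (measureReal_mono (sdiff_subset_sdiff_right (subset_iUnion (fun k => (s k).1) k))
        (measure_ne_top_of_subset sdiff_subset fA)).trans (hu k)
  refine ⟨fun i => {x | ∀ᶠ k in atTop, x ∈ (s k).1 ∧ (s k).2 x = i}, fun i => ?_, ?_, ?_, ?_, ?_,
    ?_⟩
  · have : {x | ∀ᶠ k in atTop, x ∈ (s k).1 ∧ (s k).2 x = i} =
        ⋃ K, ⋂ k, ⋂ _ : K ≤ k, (s k).1 ∩ {x | (s k).2 x = i} := by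
      ext x
      simp [eventually_atTop]
    simp only [this]
    exact MeasurableSet.iUnion fun K => MeasurableSet.iInter fun k => MeasurableSet.iInter
      fun _ => (hM k).meas.inter ((hM k).fib i)
  · intro i j hij
    refine disjoint_left.2 fun x hx hx' => ?_
    obtain ⟨k, a1, a2⟩ := (Filter.Eventually.and hx hx').exists
    exact hij (a1.2.symm.trans a2.2)
  · intro i x hx
    obtain ⟨k, a1⟩ := Filter.Eventually.exists hx
    exact (hM k).sub a1.1
  · rintro i _ ⟨x, hx, rfl⟩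
    obtain ⟨k, a1, rfl⟩ := Filter.Eventually.exists hx
    exact (hM k).maps a1
  · intro i j hij
    refine disjoint_left.2 ?_
    rintro _ ⟨x, hx, rfl⟩ ⟨y, hy, hxy⟩
    obtain ⟨k, ⟨a1, rfl⟩, a2, rfl⟩ := (Filter.Eventually.and hx hy).exists
    exact hij (by rw [(hM k).inj a2 a1 hxy])
  · refine measure_mono_null (t := (A \ ⋃ k, (s k).1) ∪ _) (fun x hx => ?_)
      (measure_union_null hnull (ae_iff.1 hae))
    by_contra hx'
    rw [mem_union, not_or] at hx'
    obtain ⟨K0, hK0⟩ := mem_iUnion.1 (not_not.1 fun h' => hx'.1 ⟨hx.1, h'⟩)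
    obtain ⟨K1, hK1⟩ := eventually_atTop.1 (not_not.1 hx'.2)
    refine hx.2 (mem_iUnion.2 ⟨(s (max K0 K1)).2 x, eventually_atTop.2 ⟨max K0 K1, fun k hk =>
      ⟨hmono ((le_max_left _ _).trans hk) hK0, ?_⟩⟩⟩)
    induction k, hk using Nat.le_induction with
    | base => rfl
    | succ k hk ih =>
      rw [← ih]
      by_contra h'
      exact hK1 k ((le_max_right _ _).trans hk) ⟨hmono ((le_max_left _ _).trans hk) hK0, h'⟩

end LN

theorem ae_matching {X : Type} [MeasurableSpace X] (lam : Measure X)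
    {ι : Type} [Fintype ι] (e : ι → X ≃ᵐ X) (he : ∀ i, MeasurePreserving (e i) lam lam)
    {A B : Set X} (hA : MeasurableSet A) (hB : MeasurableSet B) (hAB : lam A = lam B)
    (hfin : lam A ≠ ⊤)
    (h1 : ∀ U, MeasurableSet U → U ⊆ A →
      2 * lam.real U ≤ lam.real (B ∩ ⋃ i, e i '' U) ∨
      2 / 3 * lam.real B ≤ lam.real (B ∩ ⋃ i, e i '' U))
    (h2 : ∀ V, MeasurableSet V → V ⊆ B →
      2 * lam.real V ≤ lam.real (A ∩ ⋃ i, e i ⁻¹' V) ∨
      2 / 3 * lam.real B ≤ lam.real (A ∩ ⋃ i, e i ⁻¹' V)) :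
    ∃ P : ι → Set X, (∀ i, MeasurableSet (P i)) ∧ Pairwise (Disjoint on P) ∧ (∀ i, P i ⊆ A) ∧
      (∀ i, e i '' P i ⊆ B) ∧ Pairwise (Disjoint on fun i => e i '' P i) ∧
      lam (A \ ⋃ i, P i) = 0 := by
  have hAB' : lam.real A = lam.real B := by rw [measureReal_def, measureReal_def, hAB]
  rcases (measureReal_nonneg (μ := lam) (s := B)).eq_or_lt with hb | hb
  · refine ⟨fun _ => ∅, fun _ => MeasurableSet.empty, fun i j _ => disjoint_left.2 fun _ h => h.elim,
      fun _ => empty_subset _, by simp, fun i j _ => by simp [Function.onFun], ?_⟩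
    refine measure_mono_null sdiff_subset ?_
    rw [← measureReal_eq_zero_iff hfin, hAB', hb]
  rcases isEmpty_or_nonempty ι with hi | hi
  · have := h1 A hA Subset.rfl
    simp only [iUnion_of_empty, inter_empty, measureReal_empty] at this
    rcases this with h | h <;> linarith
  have hd : (0 : ℝ) < Fintype.card ι := Nat.cast_pos.2 Fintype.card_pos
  refine LN.limit hi.some hfin fun k D m h => ?_
  obtain ⟨D', m', k1, k2, k3, k4⟩ := LN.halving (lam := lam) (c := ((2 * (k + 1) : ℕ) : ℝ) + 1)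
    (K := 2 * (((2 * (k + 1) : ℕ) : ℝ) + 1) * (Fintype.card ι : ℝ) ^ (2 * (k + 1) + 1))
    (w := lam.real A * (1 / 2) ^ (k + 1)) hfin (by positivity) (by rw [hAB']; positivity)
    (fun D m h hw => h.step he hA hB hfin _ (h.reach he hA hB hAB' hfin (hAB ▸ hfin) h1 h2 hb
      (k + 1) (by
      have := mul_le_mul_of_nonneg_left hw.le (show (0 : ℝ) ≤ 2 ^ (k + 1) by positivity)
      rwa [mul_left_comm, ← mul_pow, show (2 : ℝ) * (1 / 2) = 1 by norm_num, one_pow, mul_one,
        hAB'] at this))) h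
  refine ⟨D', m', k1, k2, k3, k4.trans ?_⟩
  have : 0 ≤ lam.real (A \ D') := measureReal_nonneg
  have h3 : (0 : ℝ) ≤ k := Nat.cast_nonneg k
  push_cast
  nlinarith

end Pool.Agent.P.MP_465281_an
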