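import Pool.Agent.P.MP_465281_an.Family
import Pool.Agent.P.MP_465281_an.EqHull2

/-!
From the spectral input to the injection of null sets.
-/

namespace Pool.Agent.P.MP_465281_an

open Set Metric MeasureTheory Function Filter
open scoped Classical ENNReal

attribute [local instance] SymFam.fin SymFam.ne

variable {X : Type} [MetricSpace X] [MeasurableSpace X]

lemma cnt_eq_sum {ι : Type} [Fintype ι] (P : ι → Prop) :
    cnt P = ∑ i, if P i then 1 else 0 := Finset.card_filter _ _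

lemma cnt_prod {α β : Type} [Fintype α] [Fintype β] (P : α × β → Prop) :
    cnt P = ∑ a, cnt fun b => P (a, b) := by
  simp only [cnt_eq_sum]
  rw [Fintype.sum_prod_type]

lemma cnt_sum {α β : Type} [Fintype α] [Fintype β] (P : α ⊕ β → Prop) :
    cnt P = (cnt fun a => P (Sum.inl a)) + cnt fun b => P (Sum.inr b) := by
  simp only [cnt_eq_sum]
  rw [Fintype.sum_sum_type]

lemma cnt_equiv {α : Type} [Fintype α] (σ : α ≃ α) (P : α → Prop) :
    (cnt fun a => P (σ a)) = cnt P := by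
  simp only [cnt_eq_sum]
  exact Equiv.sum_comp σ fun a => if P a then 1 else 0

lemma cnt_fst {α : Type} [Fintype α] {L : ℕ} (P : α → Prop) :
    (cnt fun s : α × Fin L => P s.1) = L * cnt P := by
  rw [cnt_prod, cnt_eq_sum P, Finset.mul_sum]
  refine Finset.sum_congr rfl fun a _ => ?_
  by_cases h : P a <;> simp [cnt, h]

lemma cheb (F : SymFam X) (μ : Measure X) {B : Set X} {b q : ℝ} (hq : 0 < q)
    (hint : Integrable (fun y => ‖F.avg (B.indicator 1) y‖ ^ 2) μ)
    (hle : ∫ y, ‖F.avg (B.indicator 1) y‖ ^ 2 ∂μ ≤ b) :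
    μ {y | (Fintype.card F.ι : ℝ) ≤ q * cnt fun i => F.g i y ∈ B} ≤
      ENNReal.ofReal (q ^ 2 * b) := by
  have hsub : {y | (Fintype.card F.ι : ℝ) ≤ q * cnt fun i => F.g i y ∈ B} ⊆
      {y | ENNReal.ofReal (1 / q ^ 2) ≤ ENNReal.ofReal (‖F.avg (B.indicator 1) y‖ ^ 2)} := by
    intro y hy
    apply ENNReal.ofReal_le_ofReal
    have hM : (0 : ℝ) < Fintype.card F.ι := by exact_mod_cast Fintype.card_pos
    have h1 : F.avg (B.indicator 1) y = (((Fintype.card F.ι : ℝ)⁻¹ *
        ((cnt fun i => F.g i y ∈ B : ℕ) : ℝ) : ℝ) : ℂ) := by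
      simp only [SymFam.avg, Set.indicator, Pi.one_apply, cnt]
      rw [Finset.sum_ite]
      simp
    rw [h1, Complex.norm_real, Real.norm_eq_abs, sq_abs]
    have h3 : 1 / q ≤ (Fintype.card F.ι : ℝ)⁻¹ * ((cnt fun i => F.g i y ∈ B : ℕ) : ℝ) := by
      rw [le_inv_mul_iff₀ hM, mul_one_div, div_le_iff₀ hq, mul_comm]
      exact hy
    calc 1 / q ^ 2 = (1 / q) ^ 2 := by ring
      _ ≤ _ := pow_le_pow_left₀ (by positivity) h3 2
  have hmk := mul_meas_ge_le_lintegral₀ (μ := μ)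
    (f := fun y => ENNReal.ofReal (‖F.avg (B.indicator 1) y‖ ^ 2))
    (hint.aestronglyMeasurable.aemeasurable.ennreal_ofReal) (ENNReal.ofReal (1 / q ^ 2))
  rw [← ofReal_integral_eq_lintegral_ofReal hint (Eventually.of_forall fun y => sq_nonneg _)]
    at hmk
  have h25 : ENNReal.ofReal (q ^ 2) * ENNReal.ofReal (1 / q ^ 2) = 1 := by
    rw [← ENNReal.ofReal_mul (by positivity), mul_one_div_cancel (by positivity),
      ENNReal.ofReal_one]
  calc _ ≤ 1 * μ {y | ENNReal.ofReal (1 / q ^ 2) ≤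
          ENNReal.ofReal (‖F.avg (B.indicator 1) y‖ ^ 2)} := by
        rw [one_mul]; exact measure_mono hsub
    _ ≤ ENNReal.ofReal (q ^ 2) * ENNReal.ofReal (∫ y, ‖F.avg (B.indicator 1) y‖ ^ 2 ∂μ) := by
        rw [← h25, mul_assoc]; gcongr
    _ ≤ _ := by
        rw [← ENNReal.ofReal_mul (by positivity)]
        exact ENNReal.ofReal_le_ofReal (mul_le_mul_of_nonneg_left hle (by positivity))

/-- the abstract setting -/
structure ED (X : Type) [MetricSpace X] [MeasurableSpace X] where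
  μ : Measure X
  reg : μ.OuterRegular
  ok : (X ≃ᵢ X) → Prop
  ok_symm : ∀ g, ok g → ok g.symm
  ok_trans : ∀ g h, ok g → ok h → ok (g.trans h)
  ok_mp : ∀ g, ok g → MeasurePreserving g μ μ
  K : Set X
  Ko : IsOpen K
  K2 : Set X
  K2f : μ K2 ≠ ∞
  hK2 : ∀ x ∈ K, ball x 5 ⊆ K2
  v : ℝ → ℝ
  hv : ∀ x r, μ.real (ball x r) = v r
  vpos : ∀ r, 0 < r → 0 < v r
  C : ℕ
  C1 : 1 ≤ C
  hC : ∀ r, 0 < r → v (9 * r) ≤ C * v r
  perf : ∀ (x : X) (ρ : ℝ), 0 < ρ → ∃ y ∈ ball x ρ, y ≠ x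
  V : ℝ
  V0 : 0 ≤ V
  HG : ∀ δ ε : ℝ, 0 < δ → 0 < ε → ∀ x : Fin 2 → X,
    ∃ (F : SymFam X) (m : ℕ) (h : Fin m → X ≃ᵢ X) (a : ℝ), 0 ≤ a ∧
      a * (m : ℝ) ^ 3 ≤ ε ∧ (∀ i, ok (F.g i)) ∧ (∀ j, ok (h j)) ∧
      (∀ B, MeasurableSet B → μ B ≠ ∞ →
        Integrable (fun y => ‖F.avg (B.indicator 1) y‖ ^ 2) μ ∧
        ∫ y, ‖F.avg (B.indicator 1) y‖ ^ 2 ∂μ ≤ a * μ.real B + V * μ.real B ^ 2) ∧
      ∀ y ∈ K, ∀ i p, ∃ j, h j (F.g i y) ∈ ball (x p) δ
  HM : ∀ u : ℝ, 0 < u → ∃ (k : ℕ) (e : Fin k → X ≃ᵢ X), (∀ i, ok (e i)) ∧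
      ∀ U W : Set X, MeasurableSet U → MeasurableSet W → U ⊆ K → W ⊆ K →
        u ≤ μ.real U → u ≤ μ.real W → ∃ i, (e i '' U ∩ W).Nonempty

namespace ED

variable (E : ED X)

lemma K_sub : E.K ⊆ E.K2 := fun x hx => E.hK2 x hx (mem_ball_self (by norm_num))

lemma fin_of_sub {A : Set X} (h : A ⊆ E.K) : E.μ A ≠ ∞ :=
  ne_top_of_le_ne_top E.K2f (measure_mono (h.trans E.K_sub))

variable [BorelSpace X]

lemma sse_big (F : SymFam X) {m : ℕ} (hm : 0 < m) (h : Fin m → X ≃ᵢ X) {a : ℝ}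
    (hh : ∀ j, E.ok (h j))
    (hb : ∀ B, MeasurableSet B → E.μ B ≠ ∞ →
        Integrable (fun y => ‖F.avg (B.indicator 1) y‖ ^ 2) E.μ ∧
        ∫ y, ‖F.avg (B.indicator 1) y‖ ^ 2 ∂E.μ ≤ a * E.μ.real B + E.V * E.μ.real B ^ 2)
    {L : ℕ} (hL : 0 < L) {B : Set X} (hB : MeasurableSet B) (hBf : E.μ B ≠ ∞)
    (h0 : 0 ≤ a * E.μ.real B + E.V * E.μ.real B ^ 2) :
    E.μ {y | Fintype.card F.ι ≤ cnt fun s : ((Fin m × F.ι) ⊕ (Fin m × F.ι)) × Fin L =>
      (Sum.elim (fun p : Fin m × F.ι => (F.g p.2).trans (h p.1))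
        (fun p : Fin m × F.ι => ((F.g p.2).trans (h p.1)).symm) s.1 : X ≃ᵢ X) y ∈ B} ≤
      ENNReal.ofReal (2 * m * ((2 * m * L) ^ 2 * (a * E.μ.real B + E.V * E.μ.real B ^ 2))) := by
  set q : ℝ := 2 * m * L with hq
  have hm' : (0 : ℝ) < m := by exact_mod_cast hm
  have hL' : (0 : ℝ) < L := by exact_mod_cast hL
  have hq0 : 0 < q := by positivity
  set b := a * E.μ.real B + E.V * E.μ.real B ^ 2 with hbdef
  let S : Set X → Set X := fun B => {y | (Fintype.card F.ι : ℝ) ≤ q * cnt fun i => F.g i y ∈ B}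
  have hsub : {y | Fintype.card F.ι ≤ cnt fun s : ((Fin m × F.ι) ⊕ (Fin m × F.ι)) × Fin L =>
      (Sum.elim (fun p : Fin m × F.ι => (F.g p.2).trans (h p.1))
        (fun p : Fin m × F.ι => ((F.g p.2).trans (h p.1)).symm) s.1 : X ≃ᵢ X) y ∈ B} ⊆
      ⋃ j, (S (h j ⁻¹' B) ∪ (h j).symm ⁻¹' S B) := by
    intro y hy
    by_contra hcon
    simp only [mem_iUnion, not_exists, mem_union, not_or, mem_preimage, S, mem_ofPred_eq,
      not_le] at hcon
    have e1 : (cnt fun s : ((Fin m × F.ι) ⊕ (Fin m × F.ι)) × Fin L =>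
        (Sum.elim (fun p : Fin m × F.ι => (F.g p.2).trans (h p.1))
          (fun p : Fin m × F.ι => ((F.g p.2).trans (h p.1)).symm) s.1 : X ≃ᵢ X) y ∈ B) =
        L * ∑ j, ((cnt fun i => h j (F.g i y) ∈ B) + cnt fun i => F.g i ((h j).symm y) ∈ B) := by
      rw [cnt_fst (fun t : (Fin m × F.ι) ⊕ (Fin m × F.ι) =>
        (Sum.elim (fun p : Fin m × F.ι => (F.g p.2).trans (h p.1))
          (fun p : Fin m × F.ι => ((F.g p.2).trans (h p.1)).symm) t : X ≃ᵢ X) y ∈ B), cnt_sum,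
        cnt_prod, cnt_prod, ← Finset.sum_add_distrib]
      congr 1
      refine Finset.sum_congr rfl fun j _ => ?_
      rw [← cnt_equiv F.σ fun i => F.g i ((h j).symm y) ∈ B]
      simp only [F.hσ]
      rfl
    rw [mem_ofPred_eq, e1] at hy
    have h2 : (Fintype.card F.ι : ℝ) ≤ L * ∑ j, (((cnt fun i => h j (F.g i y) ∈ B : ℕ) : ℝ) +
        (cnt fun i => F.g i ((h j).symm y) ∈ B : ℕ)) := by exact_mod_cast hy
    have h3 : q * ∑ j, (((cnt fun i => h j (F.g i y) ∈ B : ℕ) : ℝ) +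
        (cnt fun i => F.g i ((h j).symm y) ∈ B : ℕ)) < ∑ _j : Fin m,
          (2 * Fintype.card F.ι : ℝ) := by
      rw [Finset.mul_sum]
      have : Nonempty (Fin m) := ⟨⟨0, hm⟩⟩
      refine Finset.sum_lt_sum_of_nonempty Finset.univ_nonempty fun j _ => ?_
      have := hcon j
      linarith [this.1, this.2]
    simp only [Finset.sum_const, Finset.card_univ, Fintype.card_fin, nsmul_eq_mul] at h3
    have h4 := mul_le_mul_of_nonneg_left h2 (by positivity : (0 : ℝ) ≤ 2 * m)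
    rw [hq] at h3
    linarith
  have hS : ∀ B', MeasurableSet B' → E.μ B' = E.μ B → E.μ (S B') ≤ ENNReal.ofReal (q ^ 2 * b) := by
    intro B' hB' he
    obtain ⟨h1, h2⟩ := hb B' hB' (he ▸ hBf)
    refine cheb F E.μ hq0 h1 (h2.trans (le_of_eq ?_))
    rw [hbdef, measureReal_def, measureReal_def, he]
  refine (measure_mono hsub).trans ((measure_iUnion_fintype_le _ _).trans ?_)
  calc ∑ j, E.μ (S (h j ⁻¹' B) ∪ (h j).symm ⁻¹' S B)
      ≤ ∑ _j : Fin m, (ENNReal.ofReal (q ^ 2 * b) + ENNReal.ofReal (q ^ 2 * b)) := by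
        refine Finset.sum_le_sum fun j _ => (measure_union_le _ _).trans (add_le_add ?_ ?_)
        · exact hS _ ((h j).continuous.measurable hB)
            ((E.ok_mp _ (hh j)).measure_preimage hB.nullMeasurableSet)
        · rw [(E.ok_mp _ (E.ok_symm _ (hh j))).measure_preimage_emb
            (h j).symm.toHomeomorph.measurableEmbedding]
          exact hS B hB rfl
    _ = _ := by
        rw [← ENNReal.ofReal_add (by positivity) (by positivity), Finset.sum_const,
          Finset.card_univ, Fintype.card_fin, nsmul_eq_mul, ← ENNReal.ofReal_natCast,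
          ← ENNReal.ofReal_mul hm'.le]
        congr 1
        ring

/-- every null set injects into a set with an interior point, by one fixed finite family -/
theorem null_inject {B : Set X} (hBK : B ⊆ E.K) {x0 : X} {ρ : ℝ} (hρ : 0 < ρ)
    (hx0 : ball x0 ρ ⊆ B) :
    ∃ (ι : Type) (_ : Fintype ι) (g : ι → X ≃ᵢ X), (∀ i, E.ok (g i)) ∧
      ∀ N ⊆ E.K, E.μ N = 0 → ∃ P : ι → Set X, (∀ i, MeasurableSet (P i)) ∧
        Pairwise (Disjoint on P) ∧ N ⊆ ⋃ i, P i ∧ (∀ i, g i '' P i ⊆ B) ∧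
        Pairwise (Disjoint on fun i => g i '' P i) := by
  obtain ⟨x1, hx1, hne⟩ := E.perf x0 (ρ / 2) (half_pos hρ)
  have hd : 0 < dist x1 x0 := dist_pos.2 hne
  rw [mem_ball] at hx1
  set δ := min 1 (dist x1 x0 / 4) with hδ
  have hδ0 : 0 < δ := lt_min one_pos (by positivity)
  have hδ1 : δ ≤ 1 := min_le_left _ _
  have hδ2 : δ ≤ dist x1 x0 / 4 := min_le_right _ _
  set L : ℕ := 2 + 4 * E.C with hL
  have hL0 : 0 < L := by omega
  have hL' : (0 : ℝ) < L := by exact_mod_cast hL0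
  have hC' : (0 : ℝ) < E.C := by exact_mod_cast E.C1
  obtain ⟨F, m, h, a, ha0, ham, hF, hh, hb, hcov⟩ :=
    E.HG δ (1 / (64 * L ^ 2 * E.C)) hδ0 (by positivity) ![x0, x1]
  have hx0K : x0 ∈ E.K := hBK (hx0 (mem_ball_self hρ))
  have hm : 0 < m := by
    obtain ⟨j, -⟩ := hcov x0 hx0K (Classical.arbitrary _) 0
    exact j.pos
  have hm' : (0 : ℝ) < m := by exact_mod_cast hm
  let G0 : (Fin m × F.ι) ⊕ (Fin m × F.ι) → X ≃ᵢ X :=
    Sum.elim (fun p => (F.g p.2).trans (h p.1)) fun p => ((F.g p.2).trans (h p.1)).symm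
  let D : ℕ → Set X := fun p => ball (if p = 0 then x0 else x1) (2 * δ)
  have hDB : ∀ p, D p ⊆ B := by
    intro p y hy
    apply hx0
    simp only [D, mem_ball] at hy ⊢
    split_ifs at hy
    · linarith
    · have := dist_triangle y x1 x0
      linarith
  have hV := E.V0
  set η : ℝ := 1 / (64 * m ^ 3 * L ^ 2 * E.C * (E.V + 1)) with hη
  have hη0 : 0 < η := by positivity
  refine ⟨((Fin m × F.ι) ⊕ (Fin m × F.ι)) × Fin L, inferInstance, fun s => G0 s.1, ?_,
    fun N hNK hN => ?_⟩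
  · rintro ⟨p | p, l⟩
    · exact E.ok_trans _ _ (hF _) (hh _)
    · exact E.ok_symm _ (E.ok_trans _ _ (hF _) (hh _))
  have := E.reg
  obtain ⟨W, hNW, hWo, hW⟩ := N.exists_isOpen_lt_of_lt (μ := E.μ)
    (ENNReal.ofReal (η / (4 * E.C))) (by rw [hN]; exact ENNReal.ofReal_pos.2 (by positivity))
  have hres : ∀ S ⊆ E.K2, (E.μ.restrict E.K2).real S = E.μ.real S := fun S hS => by
    rw [measureReal_def, measureReal_def, Measure.restrict_eq_self _ hS]
  let H : HD X (((Fin m × F.ι) ⊕ (Fin m × F.ι)) × Fin L) :=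
    { lam := E.μ.restrict E.K2
      fin := isFiniteMeasure_restrict.2 E.K2f
      g := fun s => G0 s.1
      σ := (Equiv.sumComm _ _).prodCongr (Equiv.refl _)
      hσ := by rintro ⟨p | p, l⟩ <;> rfl
      r0 := δ
      r0pos := hδ0
      K := E.K
      K2 := E.K2
      hK2 := fun x hx => (ball_subset_ball (by linarith)).trans (E.hK2 x hx)
      v := E.v
      hv := fun x hx r hr => by
        rw [hres _ ((ball_subset_ball (by linarith)).trans (E.hK2 x hx)), E.hv]
      vpos := E.vpos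
      C := E.C
      C1 := E.C1
      hC := E.hC
      t := Fintype.card F.ι
      tpos := Fintype.card_pos
      κ := 2 * m * ((2 * m * L) ^ 2 * (a + E.V * η))
      η := η
      hκ0 := by positivity
      hκ := by
        have e1 : 4 * (2 * m * ((2 * m * L) ^ 2 * (a + E.V * η))) * (E.C : ℝ) =
            32 * L ^ 2 * E.C * (a * m ^ 3) + 32 * m ^ 3 * L ^ 2 * E.C * E.V * η := by ring
        have e2 : 32 * L ^ 2 * E.C * (a * m ^ 3) ≤ (1 / 2 : ℝ) := by
          calc _ ≤ 32 * L ^ 2 * E.C * (1 / (64 * L ^ 2 * E.C) : ℝ) := by gcongr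
            _ = _ := by field_simp; norm_num
        have e3 : 32 * m ^ 3 * L ^ 2 * E.C * E.V * η ≤ (1 / 2 : ℝ) := by
          calc _ ≤ 32 * m ^ 3 * L ^ 2 * E.C * (E.V + 1) * η := by gcongr; linarith
            _ = _ := by rw [hη]; field_simp; norm_num
        linarith
      sse := fun S hS hSK hSη => by
        rw [hres S hSK] at hSη ⊢
        have hSf : E.μ S ≠ ∞ := ne_top_of_le_ne_top E.K2f (measure_mono hSK)
        have hS0 : 0 ≤ E.μ.real S := measureReal_nonneg
        have h1 := E.sse_big F hm h hh hb hL0 hS hSf (by positivity)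
        refine ENNReal.toReal_le_of_le_ofReal (by positivity)
          ((Measure.restrict_le_self _).trans (h1.trans (ENNReal.ofReal_le_ofReal ?_)))
        have h2 : a * E.μ.real S + E.V * E.μ.real S ^ 2 ≤ (a + E.V * η) * E.μ.real S := by
          have := mul_le_mul_of_nonneg_left (mul_le_mul_of_nonneg_right hSη hS0) hV
          nlinarith
        calc _ ≤ 2 * m * ((2 * m * L) ^ 2 * ((a + E.V * η) * E.μ.real S)) := by gcongr
          _ = _ := by ring
      D := D
      hD := by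
        refine ball_disjoint_ball ?_
        simp only [if_true, one_ne_zero, if_false]
        rw [dist_comm]
        linarith
      DK := fun p => (hDB p).trans hBK
      hθ := fun y hy p => by
        have hc : ∀ i, ∃ j, ball (h j (F.g i y)) δ ⊆ D (p % 2) := by
          intro i
          obtain ⟨j, hj⟩ := hcov y hy i (if p % 2 = 0 then 0 else 1)
          refine ⟨j, ball_subset_ball' ?_⟩
          rw [mem_ball] at hj
          split_ifs at hj ⊢
          · simp only [Matrix.cons_val_zero] at hj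
            linarith
          · simp only [Matrix.cons_val_one, Matrix.cons_val_zero] at hj
            linarith
        choose jj hjj using hc
        have e1 : (2 + 4 * E.C) * Fintype.card F.ι =
            (Finset.univ : Finset (F.ι × Fin L)).card := by
          rw [Finset.card_univ, Fintype.card_prod, Fintype.card_fin, mul_comm]
        rw [e1]
        refine Finset.card_le_card_of_injOn (fun s => (Sum.inl (jj s.1, s.1), s.2)) ?_ ?_
        · intro s _
          rw [Finset.mem_coe, Finset.mem_filter]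
          exact ⟨Finset.mem_univ _, hjj s.1⟩
        · intro s _ s' _ e
          simp only [Prod.mk.injEq, Sum.inl.injEq] at e
          exact Prod.ext e.1.2 e.2
      W := W ∩ E.K
      Wo := hWo.inter E.Ko
      WK := inter_subset_right
      hW := by
        rw [hres _ (inter_subset_right.trans E.K_sub)]
        have h1 : E.μ.real (W ∩ E.K) ≤ η / (4 * E.C) :=
          ENNReal.toReal_le_of_le_ofReal (by positivity)
            ((measure_mono inter_subset_left).trans hW.le)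
        rwa [le_div_iff₀ (by positivity), mul_comm] at h1 }
  have : Nonempty (((Fin m × F.ι) ⊕ (Fin m × F.ι)) × Fin L) :=
    ⟨(Sum.inl (⟨0, hm⟩, Classical.arbitrary _), ⟨0, hL0⟩)⟩
  obtain ⟨P, h1, h2, h3, h4, h5⟩ := H.inject
  exact ⟨P, h1, h2, (subset_inter hNW hNK).trans h3,
    fun i => (h4 i).trans (union_subset (hDB 0) (hDB 1)), h5⟩

end ED

end Pool.Agent.P.MP_465281_an
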