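import Pool.Agent.P.MP_465281_an.EqMain1
import Pool.Agent.P.MP_465281_an.EqLN
import Pool.Agent.P.MP_465281_an.EqCSB

/-!
Borel equidecomposition in the abstract setting.
-/

namespace Pool.Agent.P.MP_465281_an

open Set Metric MeasureTheory Function Filter
open scoped Classical ENNReal

attribute [local instance] SymFam.fin SymFam.ne

variable {X : Type} [MetricSpace X] [MeasurableSpace X] [BorelSpace X]

namespace ED

variable (E : ED X)

lemma img_meas (g : X ≃ᵢ X) {S : Set X} (hS : MeasurableSet S) : MeasurableSet (g '' S) :=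
  g.toHomeomorph.measurableEmbedding.measurableSet_image.2 hS

lemma img_eq {g : X ≃ᵢ X} (hg : E.ok g) (S : Set X) : E.μ (g '' S) = E.μ S := by
  rw [← (E.ok_mp g hg).measure_preimage_emb g.toHomeomorph.measurableEmbedding,
    preimage_image_eq _ g.injective]

lemma small (F : SymFam X) {m : ℕ} (hm : 0 < m) (h : Fin m → X ≃ᵢ X) {a : ℝ} (ha0 : 0 ≤ a)
    (ham : a * (m : ℝ) ^ 3 ≤ 1 / 4) (hh : ∀ j, E.ok (h j))
    (hb : ∀ B, MeasurableSet B → E.μ B ≠ ∞ →
        Integrable (fun y => ‖F.avg (B.indicator 1) y‖ ^ 2) E.μ ∧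
        ∫ y, ‖F.avg (B.indicator 1) y‖ ^ 2 ∂E.μ ≤ a * E.μ.real B + E.V * E.μ.real B ^ 2)
    {U S : Set X} (hU : MeasurableSet U) (hS : MeasurableSet S) (hSK : S ⊆ E.K)
    (hu : E.μ.real U ≤ 1 / (8 * (E.V + 1) * m ^ 2))
    (hc : ∀ y ∈ U, ∀ i, ∃ j, h j (F.g i y) ∈ S) : 2 * E.μ.real U ≤ E.μ.real S := by
  have hm' : (1 : ℝ) ≤ m := by exact_mod_cast hm
  have hV := E.V0
  set w := E.μ.real S with hw
  have hw0 : 0 ≤ w := measureReal_nonneg
  by_cases hbig : 1 / (4 * (E.V + 1) * m ^ 2) ≤ w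
  · have : 2 * (1 / (8 * (E.V + 1) * m ^ 2)) = 1 / (4 * (E.V + 1) * (m : ℝ) ^ 2) := by
      field_simp; norm_num
    linarith
  push Not at hbig
  set Y := ⋃ i, F.g i '' U with hY
  have hYm : MeasurableSet Y := MeasurableSet.iUnion fun i => img_meas _ hU
  have hYs : Y ⊆ ⋃ j, h j ⁻¹' S := by
    intro z hz
    obtain ⟨i, y, hy, rfl⟩ := mem_iUnion.1 hz
    obtain ⟨j, hj⟩ := hc y hy i
    exact mem_iUnion.2 ⟨j, hj⟩
  have hYle : E.μ Y ≤ ENNReal.ofReal (m * w) := by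
    refine (measure_mono hYs).trans ((measure_iUnion_fintype_le _ _).trans (le_of_eq ?_))
    rw [Finset.sum_congr rfl fun j _ =>
      (E.ok_mp _ (hh j)).measure_preimage hS.nullMeasurableSet, Finset.sum_const,
      Finset.card_univ, Fintype.card_fin, nsmul_eq_mul, ENNReal.ofReal_mul (by positivity),
      ENNReal.ofReal_natCast, hw, measureReal_def, ENNReal.ofReal_toReal (E.fin_of_sub hSK)]
  have hYr : E.μ.real Y ≤ m * w := ENNReal.toReal_le_of_le_ofReal (by positivity) hYle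
  have hY0 : 0 ≤ E.μ.real Y := measureReal_nonneg
  obtain ⟨h1, h2⟩ := hb Y hYm (ne_top_of_le_ne_top ENNReal.ofReal_ne_top hYle)
  have h3 := cheb F E.μ one_pos h1 h2
  have h4 : U ⊆ {y | (Fintype.card F.ι : ℝ) ≤ 1 * cnt fun i => F.g i y ∈ Y} := by
    intro y hy
    have : Fintype.card F.ι ≤ cnt fun i => F.g i y ∈ Y := by
      refine Finset.card_le_card fun i _ => Finset.mem_filter.2 ⟨Finset.mem_univ _, ?_⟩
      exact mem_iUnion.2 ⟨i, mem_image_of_mem _ hy⟩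
    rw [mem_ofPred_eq, one_mul]
    exact_mod_cast this
  have h5 : E.μ.real U ≤ 1 ^ 2 * (a * E.μ.real Y + E.V * E.μ.real Y ^ 2) :=
    ENNReal.toReal_le_of_le_ofReal (by positivity) ((measure_mono h4).trans h3)
  have h6 : a * E.μ.real Y ≤ w / 4 := by
    have e1 : a * m ≤ a * (m : ℝ) ^ 3 :=
      mul_le_mul_of_nonneg_left (le_self_pow₀ hm' (by norm_num)) ha0
    calc _ ≤ a * (m * w) := by gcongr
      _ = a * m * w := by ring
      _ ≤ 1 / 4 * w := by gcongr; linarith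
      _ = _ := by ring
  have h7 : E.V * E.μ.real Y ^ 2 ≤ w / 4 := by
    rw [lt_div_iff₀ (by positivity)] at hbig
    calc _ ≤ (E.V + 1) * (m * w) ^ 2 := by gcongr; linarith
      _ = w * (4 * (E.V + 1) * m ^ 2) * (w / 4) := by ring
      _ ≤ 1 * (w / 4) := by gcongr
      _ = _ := one_mul _
  linarith

/-- finitely many copies of `B` cover a ball inside the region -/
def Cov (B : Set X) : Prop := ∃ (x : X) (ρ : ℝ) (L : ℕ) (f : Fin L → X ≃ᵢ X), 0 < ρ ∧
  ball x ρ ⊆ E.K ∧ (∀ l, E.ok (f l)) ∧ ∀ z ∈ ball x ρ, ∃ l, f l z ∈ B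

omit [MeasurableSpace X] [BorelSpace X] in
lemma shrink {κ : Type} (s : Finset κ) (f f' : κ → X ≃ᵢ X) (x : X) (ρ : ℝ) (hρ : 0 < ρ) :
    ∃ (y : X) (r : ℝ), 0 < r ∧ ball y r ⊆ ball x ρ ∧ ∀ k ∈ s,
      ∀ z ∈ ball y r, ∀ z' ∈ ball y r, f k z = f' k z' → z = z' := by
  induction s using Finset.induction_on with
  | empty => exact ⟨x, ρ, hρ, Subset.rfl, by simp⟩
  | insert k s _ ih =>
    obtain ⟨y, r, hr, h1, h2⟩ := ih
    by_cases h : ∀ z ∈ ball y r, f k z = f' k z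
    · refine ⟨y, r, hr, h1, fun k' hk' => ?_⟩
      rcases Finset.mem_insert.1 hk' with rfl | hk'
      · intro z _ z' hz' e
        rw [← h z' hz'] at e
        exact (f k').injective e
      · exact h2 k' hk'
    · push Not at h
      obtain ⟨w, hw, hne⟩ := h
      have hd : 0 < dist (f k w) (f' k w) := dist_pos.2 hne
      obtain ⟨ε, hε, hb⟩ := Metric.isOpen_iff.1 isOpen_ball w hw
      have h3 : ball w (min ε (dist (f k w) (f' k w) / 2)) ⊆ ball y r :=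
        (ball_subset_ball (min_le_left _ _)).trans hb
      refine ⟨w, min ε (dist (f k w) (f' k w) / 2), lt_min hε (half_pos hd), h3.trans h1,
        fun k' hk' => ?_⟩
      rcases Finset.mem_insert.1 hk' with rfl | hk'
      · intro z hz z' hz' e
        have a1 := (mem_ball.1 hz).trans_le (min_le_right _ _)
        have a2 := (mem_ball.1 hz').trans_le (min_le_right _ _)
        have a3 := dist_triangle_left (f k' w) (f' k' w) (f k' z)
        rw [(f k').dist_eq] at a3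
        rw [e, (f' k').dist_eq] at a3
        linarith
      · exact fun z hz z' hz' => h2 k' hk' z (h3 hz) z' (h3 hz')

lemma null_inject' {B : Set X} (hB : MeasurableSet B) (hc : E.Cov B) :
    ∃ (ι : Type) (_ : Fintype ι) (g : ι → X ≃ᵢ X), (∀ i, E.ok (g i)) ∧
      ∀ N ⊆ E.K, E.μ N = 0 → ∃ P : ι → Set X, (∀ i, MeasurableSet (P i)) ∧
        Pairwise (Disjoint on P) ∧ N ⊆ ⋃ i, P i ∧ (∀ i, g i '' P i ⊆ B) ∧
        Pairwise (Disjoint on fun i => g i '' P i) := by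
  obtain ⟨x, ρ, L, f, hρ, hK, hf, hcov⟩ := hc
  obtain ⟨y, r, hr, h1, h2⟩ := shrink (Finset.univ : Finset (Fin L × Fin L))
    (fun p => f p.1) (fun p => f p.2) x ρ hρ
  obtain ⟨ι, _, g, hg, hinj⟩ := E.null_inject (h1.trans hK) hr Subset.rfl
  refine ⟨ι × Fin L, inferInstance, fun p => (g p.1).trans (f p.2),
    fun p => E.ok_trans _ _ (hg _) (hf _), fun N hN h0 => ?_⟩
  obtain ⟨P, p1, p2, p3, p4, p5⟩ := hinj N hN h0
  let T : Fin L → Set X := disjointed fun l => f l ⁻¹' B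
  have hTm : ∀ l, MeasurableSet (T l) := by
    intro l
    simp only [T, disjointed_apply, Finset.sup_eq_iSup, iSup_eq_iUnion]
    exact ((f l).continuous.measurable hB).diff (MeasurableSet.iUnion fun j =>
      MeasurableSet.iUnion fun _ => (f j).continuous.measurable hB)
  have hTd : Pairwise (Disjoint on T) := disjoint_disjointed _
  have hTu : ⋃ l, T l = ⋃ l, f l ⁻¹' B := iUnion_disjointed
  have hTs : ∀ l, T l ⊆ f l ⁻¹' B := fun l => disjointed_subset (fun l => f l ⁻¹' B) l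
  have key : ∀ p q : ι × Fin L, p ≠ q → ∀ a ∈ P p.1 ∩ g p.1 ⁻¹' T p.2,
      ∀ b ∈ P q.1 ∩ g q.1 ⁻¹' T q.2, g p.1 a ≠ g q.1 b := by
    intro p q hpq a ha b hb e
    by_cases h : p.1 = q.1
    · have h' : p.2 ≠ q.2 := fun h' => hpq (Prod.ext h h')
      exact Set.disjoint_left.1 (hTd h') ha.2 (by rw [e]; exact hb.2)
    · exact Set.disjoint_left.1 (p5 h) (mem_image_of_mem _ ha.1)
        (by rw [e]; exact mem_image_of_mem _ hb.1)
  refine ⟨fun p => P p.1 ∩ g p.1 ⁻¹' T p.2,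
    fun p => (p1 _).inter ((g _).continuous.measurable (hTm _)), fun p q hpq => ?_,
    fun a ha => ?_, fun p => ?_, fun p q hpq => ?_⟩
  · refine Set.disjoint_left.2 fun a ha hb => ?_
    by_cases h : p.1 = q.1
    · exact key p q hpq a ha a hb (by rw [h])
    · exact Set.disjoint_left.1 (p2 h) ha.1 hb.1
  · obtain ⟨i, hi⟩ := mem_iUnion.1 (p3 ha)
    have a1 : g i a ∈ ⋃ l, T l := by
      rw [hTu]
      exact mem_iUnion.2 (hcov _ (h1 (p4 i (mem_image_of_mem _ hi))))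
    obtain ⟨l, hl⟩ := mem_iUnion.1 a1
    exact mem_iUnion.2 ⟨(i, l), hi, hl⟩
  · rintro _ ⟨a, ha, rfl⟩
    exact hTs _ ha.2
  · refine Set.disjoint_left.2 ?_
    rintro _ ⟨a, ha, rfl⟩ ⟨b, hb, e⟩
    exact key p q hpq a ha b hb (h2 (p.2, q.2) (Finset.mem_univ _) _
      (p4 _ (mem_image_of_mem _ ha.1)) _ (p4 _ (mem_image_of_mem _ hb.1)) e.symm)

omit [BorelSpace X] in
lemma Cov.pos {B : Set X} (hB : MeasurableSet B) (hBK : B ⊆ E.K) (hc : E.Cov B) :
    0 < E.μ.real B := by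
  obtain ⟨x, ρ, L, f, hρ, hK, hf, hcov⟩ := hc
  refine ENNReal.toReal_pos (fun h0 => ?_) (E.fin_of_sub hBK)
  have h1 : E.μ (ball x ρ) = 0 := by
    refine measure_mono_null (t := ⋃ l, f l ⁻¹' B) (fun z hz => mem_iUnion.2 (hcov z hz))
      (measure_iUnion_null fun l => ?_)
    rw [(E.ok_mp _ (hf l)).measure_preimage hB.nullMeasurableSet, h0]
  have h2 := E.vpos ρ hρ
  rw [← E.hv x, measureReal_def, h1] at h2
  simp at h2

omit [BorelSpace X] in
lemma HG' {A B : Set X} (hA : E.Cov A) (hB : E.Cov B) :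
    ∃ (F : SymFam X) (m : ℕ) (h : Fin m → X ≃ᵢ X) (a : ℝ), 0 < m ∧ 0 ≤ a ∧
      a * (m : ℝ) ^ 3 ≤ 1 / 4 ∧ (∀ i, E.ok (F.g i)) ∧ (∀ j, E.ok (h j)) ∧
      (∀ B, MeasurableSet B → E.μ B ≠ ∞ →
        Integrable (fun y => ‖F.avg (B.indicator 1) y‖ ^ 2) E.μ ∧
        ∫ y, ‖F.avg (B.indicator 1) y‖ ^ 2 ∂E.μ ≤ a * E.μ.real B + E.V * E.μ.real B ^ 2) ∧
      (∀ y ∈ E.K, ∀ i, ∃ j, h j (F.g i y) ∈ A) ∧ ∀ y ∈ E.K, ∀ i, ∃ j, h j (F.g i y) ∈ B := by
  obtain ⟨x, ρ, L, f, hρ, hK, hf, hcov⟩ := hA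
  obtain ⟨x', ρ', L', f', hρ', -, hf', hcov'⟩ := hB
  have hL : 0 < L + L' := by
    obtain ⟨l, -⟩ := hcov x (mem_ball_self hρ)
    have := l.pos
    omega
  have hL' : (0 : ℝ) < (L + L' : ℕ) := by exact_mod_cast hL
  obtain ⟨F, m, h, a, ha0, ham, hF, hh, hb, hc⟩ :=
    E.HG (min ρ ρ') (1 / (4 * ((L + L' : ℕ) : ℝ) ^ 3)) (lt_min hρ hρ') (by positivity) ![x, x']
  have hm : 0 < m := by
    obtain ⟨j, -⟩ := hc x (hK (mem_ball_self hρ)) (Classical.arbitrary _) 0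
    exact j.pos
  refine ⟨F, m * (L + L'), fun j => (h (finProdFinEquiv.symm j).1).trans
    (Fin.append f f' (finProdFinEquiv.symm j).2), a, Nat.mul_pos hm hL, ha0, ?_, hF,
    fun j => E.ok_trans _ _ (hh _) ?_, hb, fun y hy i => ?_, fun y hy i => ?_⟩
  · rw [le_div_iff₀ (by positivity)] at ham
    rw [Nat.cast_mul]
    linarith [mul_pow (m : ℝ) ((L + L' : ℕ) : ℝ) 3, show a * ((m : ℝ) * ((L + L' : ℕ) : ℝ)) ^ 3 * 4 =
      a * (m : ℝ) ^ 3 * (4 * ((L + L' : ℕ) : ℝ) ^ 3) by ring]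
  · refine Fin.addCases (fun l => ?_) (fun l => ?_) (finProdFinEquiv.symm j).2
    · rw [Fin.append_left]; exact hf l
    · rw [Fin.append_right]; exact hf' l
  · obtain ⟨j, hj⟩ := hc y hy i 0
    obtain ⟨l, hl⟩ := hcov _ (ball_subset_ball (min_le_left _ _) hj)
    refine ⟨finProdFinEquiv (j, Fin.castAdd L' l), ?_⟩
    simp only [Equiv.symm_apply_apply, Fin.append_left]
    exact hl
  · obtain ⟨j, hj⟩ := hc y hy i 1
    obtain ⟨l, hl⟩ := hcov' _ (ball_subset_ball (min_le_right _ _) hj)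
    refine ⟨finProdFinEquiv (j, Fin.natAdd L l), ?_⟩
    simp only [Equiv.symm_apply_apply, Fin.append_right]
    exact hl

lemma ae_part {A B : Set X} (hA : MeasurableSet A) (hB : MeasurableSet B) (hAK : A ⊆ E.K)
    (hBK : B ⊆ E.K) (hcA : E.Cov A) (hcB : E.Cov B) (hAB : E.μ A = E.μ B) :
    ∃ (ι : Type) (_ : Fintype ι) (e : ι → X ≃ᵢ X) (P : ι → Set X), (∀ i, E.ok (e i)) ∧
      (∀ i, MeasurableSet (P i)) ∧ Pairwise (Disjoint on P) ∧ (∀ i, P i ⊆ A) ∧
      (∀ i, e i '' P i ⊆ B) ∧ Pairwise (Disjoint on fun i => e i '' P i) ∧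
      E.μ (A \ ⋃ i, P i) = 0 := by
  obtain ⟨F, m, h, a, hm, ha0, ham, hF, hh, hb, hcovA, hcovB⟩ := E.HG' hcA hcB
  have hm' : (0 : ℝ) < m := by exact_mod_cast hm
  have hV := E.V0
  have hβ : 0 < E.μ.real B := hcB.pos E hB hBK
  have hABr : E.μ.real A = E.μ.real B := by rw [measureReal_def, measureReal_def, hAB]
  set u0 : ℝ := 1 / (8 * (E.V + 1) * m ^ 2) with hu0
  obtain ⟨k, e', he', hM⟩ := E.HM (min u0 (E.μ.real B / 3)) (lt_min (by positivity) (by positivity))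
  let e : ((Fin m × F.ι) ⊕ (Fin m × F.ι)) ⊕ Fin k → X ≃ᵢ X := Sum.elim
    (Sum.elim (fun p => (F.g p.2).trans (h p.1)) fun p => ((F.g p.2).trans (h p.1)).symm) e'
  have he : ∀ i, E.ok (e i) := by
    rintro ((p | p) | i)
    · exact E.ok_trans _ _ (hF _) (hh _)
    · exact E.ok_symm _ (E.ok_trans _ _ (hF _) (hh _))
    · exact he' i
  have hsplit : ∀ {T N : Set X}, MeasurableSet N → T ⊆ E.K → E.μ.real T = E.μ.real B →
      E.μ.real (T \ N) < E.μ.real B / 3 → 2 / 3 * E.μ.real B ≤ E.μ.real (T ∩ N) := by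
    intro T N hN hT h1 h2
    have := measureReal_inter_add_sdiff (μ := E.μ) (s := T) hN (E.fin_of_sub hT)
    linarith
  obtain ⟨P, h1, h2, h3, h4, h5, h6⟩ := ae_matching E.μ
    (fun i => (e i).toHomeomorph.toMeasurableEquiv) (fun i => E.ok_mp _ (he i)) hA hB hAB
    (E.fin_of_sub hAK) (fun U hU hUA => by
      change _ ≤ E.μ.real (B ∩ ⋃ i, e i '' U) ∨ _ ≤ E.μ.real (B ∩ ⋃ i, e i '' U)
      have hN : MeasurableSet (⋃ i, e i '' U) := MeasurableSet.iUnion fun i => img_meas _ hU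
      by_cases hs : E.μ.real U ≤ u0
      · refine Or.inl (E.small F hm h ha0 ham hh hb hU (hB.inter hN)
          (inter_subset_left.trans hBK) hs fun y hy i => ?_)
        obtain ⟨j, hj⟩ := hcovB y (hAK (hUA hy)) i
        exact ⟨j, hj, mem_iUnion.2 ⟨Sum.inl (Sum.inl (j, i)), y, hy, rfl⟩⟩
      · refine Or.inr (hsplit hN hBK rfl ?_)
        by_contra hcon
        obtain ⟨i, z, hz1, hz2⟩ := hM U _ hU (hB.diff hN) (hUA.trans hAK)
          (sdiff_subset.trans hBK) ((min_le_left _ _).trans (not_le.1 hs).le)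
          ((min_le_right _ _).trans (not_lt.1 hcon))
        exact hz2.2 (mem_iUnion.2 ⟨Sum.inr i, hz1⟩)) (fun U hU hUB => by
      change _ ≤ E.μ.real (A ∩ ⋃ i, e i ⁻¹' U) ∨ _ ≤ E.μ.real (A ∩ ⋃ i, e i ⁻¹' U)
      have hN : MeasurableSet (⋃ i, e i ⁻¹' U) :=
        MeasurableSet.iUnion fun i => (e i).continuous.measurable hU
      by_cases hs : E.μ.real U ≤ u0
      · refine Or.inl (E.small F hm h ha0 ham hh hb hU (hA.inter hN)
          (inter_subset_left.trans hAK) hs fun y hy i => ?_)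
        obtain ⟨j, hj⟩ := hcovA y (hBK (hUB hy)) i
        refine ⟨j, hj, mem_iUnion.2 ⟨Sum.inl (Sum.inr (j, i)), ?_⟩⟩
        have : e (Sum.inl (Sum.inr (j, i))) (h j (F.g i y)) = y :=
          ((F.g i).trans (h j)).symm_apply_apply y
        rw [mem_preimage, this]
        exact hy
      · refine Or.inr (hsplit hN hAK hABr ?_)
        by_contra hcon
        obtain ⟨i, _, ⟨z, hz1, rfl⟩, hz2⟩ := hM _ U (hA.diff hN) hU (sdiff_subset.trans hAK)
          (hUB.trans hBK) ((min_le_right _ _).trans (not_lt.1 hcon))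
          ((min_le_left _ _).trans (not_le.1 hs).le)
        exact hz1.2 (mem_iUnion.2 ⟨Sum.inr i, hz2⟩))
  exact ⟨_, inferInstance, e, P, he, h1, h2, h3, h4, h5, h6⟩

lemma saturate {ι : Type} [Fintype ι] (g : ι → X ≃ᵢ X) (hg : ∀ i, E.ok (g i)) {N0 : Set X}
    (hm : MeasurableSet N0) (h0 : E.μ N0 = 0) :
    ∃ N, MeasurableSet N ∧ E.μ N = 0 ∧ N0 ⊆ N ∧ ∀ i x, g i x ∈ N ↔ x ∈ N := by
  let S : ℕ → Set X := fun k => Nat.rec N0 (fun _ T => ⋃ i, (g i '' T ∪ g i ⁻¹' T)) k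
  have hS : ∀ k, MeasurableSet (S k) ∧ E.μ (S k) = 0 := by
    intro k
    induction k with
    | zero => exact ⟨hm, h0⟩
    | succ k ih =>
      refine ⟨MeasurableSet.iUnion fun i => (img_meas _ ih.1).union
        ((g i).continuous.measurable ih.1), measure_iUnion_null fun i => measure_union_null ?_ ?_⟩
      · rw [E.img_eq (hg i), ih.2]
      · rw [(E.ok_mp _ (hg i)).measure_preimage ih.1.nullMeasurableSet, ih.2]
  refine ⟨⋃ k, S k, MeasurableSet.iUnion fun k => (hS k).1, measure_iUnion_null fun k => (hS k).2,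
    subset_iUnion S 0, fun i x => ⟨fun hx => ?_, fun hx => ?_⟩⟩
  · obtain ⟨k, hk⟩ := mem_iUnion.1 hx
    exact mem_iUnion.2 ⟨k + 1, mem_iUnion.2 ⟨i, Or.inr hk⟩⟩
  · obtain ⟨k, hk⟩ := mem_iUnion.1 hx
    exact mem_iUnion.2 ⟨k + 1, mem_iUnion.2 ⟨i, Or.inl (mem_image_of_mem _ hk)⟩⟩

lemma sub_part {A B : Set X} (hA : MeasurableSet A) (hB : MeasurableSet B) (hAK : A ⊆ E.K)
    (hBK : B ⊆ E.K) (hcA : E.Cov A) (hcB : E.Cov B) (hAB : E.μ A = E.μ B) :
    ∃ (ι : Type) (_ : Fintype ι) (e : ι → X ≃ᵢ X) (P : ι → Set X), (∀ i, E.ok (e i)) ∧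
      (∀ i, MeasurableSet (P i)) ∧ Pairwise (Disjoint on P) ∧ ⋃ i, P i = A ∧
      (∀ i, e i '' P i ⊆ B) ∧ Pairwise (Disjoint on fun i => e i '' P i) := by
  obtain ⟨ι, _, e, P, he, h1, h2, h3, h4, h5, h6⟩ := E.ae_part hA hB hAK hBK hcA hcB hAB
  obtain ⟨κ, _, g, hg, hinj⟩ := E.null_inject' hB hcB
  obtain ⟨N, hNm, hN0, hN1, hN2⟩ := E.saturate (Sum.elim e g)
    (by rintro (i | j); exacts [he i, hg j]) (hA.diff (MeasurableSet.iUnion h1)) h6
  obtain ⟨Q, q1, q2, q3, q4, q5⟩ := hinj (A ∩ N) (inter_subset_left.trans hAK)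
    (measure_mono_null inter_subset_right hN0)
  have hx : ∀ i j, Disjoint (e i '' (P i \ N)) (g j '' (Q j ∩ (A ∩ N))) := by
    intro i j
    rw [Set.disjoint_left]
    rintro _ ⟨x, hx, rfl⟩ ⟨y, hy, hxy⟩
    have a1 : g j y ∈ N := (hN2 (Sum.inr j) y).2 hy.2.2
    rw [hxy] at a1
    exact hx.2 ((hN2 (Sum.inl i) x).1 a1)
  have hy : ∀ i j, Disjoint (P i \ N) (Q j ∩ (A ∩ N)) := fun i j =>
    Set.disjoint_left.2 fun x h h' => h.2 h'.2.2
  refine ⟨ι ⊕ κ, inferInstance, Sum.elim e g,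
    Sum.elim (fun i => P i \ N) fun j => Q j ∩ (A ∩ N), ?_, ?_, ?_, ?_, ?_, ?_⟩
  · rintro (i | j); exacts [he i, hg j]
  · rintro (i | j); exacts [(h1 i).diff hNm, (q1 j).inter (hA.inter hNm)]
  · rintro (i | j) (i' | j') hne
    · exact (h2 fun h => hne (congrArg _ h)).mono sdiff_subset sdiff_subset
    · exact hy i j'
    · exact (hy i' j).symm
    · exact (q2 fun h => hne (congrArg _ h)).mono inter_subset_left inter_subset_left
  · refine Subset.antisymm (iUnion_subset ?_) fun x hx => ?_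
    · rintro (i | j)
      exacts [sdiff_subset.trans (h3 i), inter_subset_right.trans inter_subset_left]
    · by_cases hxN : x ∈ N
      · obtain ⟨j, hj⟩ := mem_iUnion.1 (q3 ⟨hx, hxN⟩)
        exact mem_iUnion.2 ⟨Sum.inr j, hj, hx, hxN⟩
      · have : x ∈ ⋃ i, P i := by
          by_contra h
          exact hxN (hN1 ⟨hx, h⟩)
        obtain ⟨i, hi⟩ := mem_iUnion.1 this
        exact mem_iUnion.2 ⟨Sum.inl i, hi, hxN⟩
  · rintro (i | j)
    exacts [(image_mono sdiff_subset).trans (h4 i), (image_mono inter_subset_left).trans (q4 j)]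
  · rintro (i | j) (i' | j') hne
    · exact (h5 fun h => hne (congrArg _ h)).mono (image_mono sdiff_subset)
        (image_mono sdiff_subset)
    · exact hx i j'
    · exact (hx i' j).symm
    · exact (q5 fun h => hne (congrArg _ h)).mono (image_mono inter_subset_left)
        (image_mono inter_subset_left)

/-- Borel equidecomposition -/
theorem equi {A B : Set X} (hA : MeasurableSet A) (hB : MeasurableSet B) (hAK : A ⊆ E.K)
    (hBK : B ⊆ E.K) (hcA : E.Cov A) (hcB : E.Cov B) (hAB : E.μ A = E.μ B) :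
    ∃ (k : ℕ) (e : Fin k → X ≃ᵢ X) (P : Fin k → Set X), (∀ i, E.ok (e i)) ∧
      (∀ i, MeasurableSet (P i)) ∧ Pairwise (Disjoint on P) ∧ ⋃ i, P i = A ∧
      Pairwise (Disjoint on fun i => e i '' P i) ∧ ⋃ i, e i '' P i = B := by
  obtain ⟨ι, _, e, P, he, p1, p2, p3, p4, p5⟩ := E.sub_part hA hB hAK hBK hcA hcB hAB
  obtain ⟨κ, _, f, Q, hf, q1, q2, q3, q4, q5⟩ := E.sub_part hB hA hBK hAK hcB hcA hAB.symm
  obtain ⟨R, r1, r2, r3, r4, r5⟩ := piecewise_csb
    (fun i => (e i).toHomeomorph.toMeasurableEquiv)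
    (fun j => (f j).toHomeomorph.toMeasurableEquiv) P p1 p2 p3 p4 p5 Q q1 q2 q3 q4 q5
  let g : ι ⊕ κ → X ≃ᵢ X := Sum.elim e fun j => (f j).symm
  have hg : ∀ s, ((Sum.elim (fun i => (e i).toHomeomorph.toMeasurableEquiv)
      (fun j => (f j).toHomeomorph.toMeasurableEquiv.symm) s : X ≃ᵐ X) : X → X) = g s := by
    rintro (i | j) <;> rfl
  simp only [hg] at r4 r5
  let φ := (Fintype.equivFin (ι ⊕ κ)).symm
  refine ⟨_, fun i => g (φ i), fun i => R (φ i), fun i => ?_, fun i => r1 _,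
    fun i j hij => r2 (φ.injective.ne hij), ?_, fun i j hij => r4 (φ.injective.ne hij), ?_⟩
  · change E.ok (g (φ i))
    rcases φ i with i | j
    exacts [he i, E.ok_symm _ (hf j)]
  · rw [← r3]
    exact φ.surjective.iUnion_comp R
  · rw [← r5]
    exact φ.surjective.iUnion_comp fun s => g s '' R s

end ED

end Pool.Agent.P.MP_465281_an
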