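import Pool.Agent.P.MP_465281_an.Arith5

/-!
The Kazhdan type inequality on the Fourier side in Euclidean space of dimension at least three.
-/

namespace Pool.Agent.P.MP_465281_an

open Set Metric MeasureTheory Filter Topology Real
open scoped Classical RealInnerProductSpace FourierTransform

variable {n : ℕ}

/-- Euclidean space -/
abbrev Euc (n : ℕ) := EuclideanSpace ℝ (Fin n)

/-- the real vector `2 e_i + e_j` -/
noncomputable def wv (s : Fin n × Fin n) : Euc n := WithLp.toLp 2 fun k => (wz s k : ℝ)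

/-- inner product with `wv s` -/
noncomputable def ipr (s : Fin n × Fin n) (x : Euc n) : ℝ :=
  if s.1 = s.2 then 0 else 2 * x s.1 + x s.2

lemma inner_wv (s : Fin n × Fin n) (x : Euc n) : ⟪wv s, x⟫ = ipr s x := by
  simp only [wv, PiLp.inner_apply, ipr, wz]
  by_cases hs : s.1 = s.2
  · simp [hs]
  · simp only [hs, if_false]
    have : ∀ k, ⟪((if k = s.1 then 2 else if k = s.2 then 1 else 0 : ℤ) : ℝ), x k⟫ =
        (if k = s.1 then 2 * x k else 0) + (if k = s.2 then x k else 0) := by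
      intro k
      by_cases h1 : k = s.1
      · have h2 : k ≠ s.2 := fun e => hs (h1.symm.trans e)
        simp [h1, hs, mul_comm]
      · by_cases h2 : k = s.2
        · simp [h2, Ne.symm hs]
        · simp [h1, h2]
    simp_rw [this]
    rw [Finset.sum_add_distrib]
    simp

/-- the reflection in the hyperplane orthogonal to `wv s` -/
noncomputable def refl5 (s : Fin n × Fin n) : Euc n ≃ₗᵢ[ℝ] Euc n := (ℝ ∙ wv s)ᗮ.reflection

lemma refl5_refl5 (s : Fin n × Fin n) (x : Euc n) : refl5 s (refl5 s x) = x :=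
  Submodule.reflection_reflection _ _

lemma refl5_apply (s : Fin n × Fin n) (x : Euc n) (k : Fin n) :
    refl5 s x k = x k - 2 / 5 * ipr s x * wz s k := by
  unfold refl5
  rw [Submodule.reflection_orthogonal_apply, Submodule.reflection_singleton_apply, inner_wv]
  by_cases hs : s.1 = s.2
  · simp [ipr, hs]
  · have h5 : ‖wv s‖ ^ 2 = 5 := by
      rw [← real_inner_self_eq_norm_sq, inner_wv]
      simp [ipr, hs, wv, wz, Ne.symm hs]
      norm_num
    simp only [RCLike.ofReal_real_eq_id, id]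
    rw [h5]
    simp only [neg_sub, PiLp.sub_apply, PiLp.smul_apply, smul_eq_mul, nsmul_eq_mul, wv]
    push_cast
    ring

lemma refl5_diag (i : Fin n) (x : Euc n) : refl5 (i, i) x = x := by
  ext k
  simp [refl5_apply, ipr]

/-- nearest point of the lattice `5 ℤ^n` -/
noncomputable def nl (x : Euc n) : Fin n → ℤ := fun k => 5 * round (x k / 5)

/-- points far from the lattice -/
def Bad (n : ℕ) : Set (Euc n) := {x | ∃ k, 1 / 10 ≤ |x k - nl x k|}

lemma measurable_round' : Measurable (round : ℝ → ℤ) := by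
  have : (round : ℝ → ℤ) = fun x => ⌊x + 1 / 2⌋ := by
    ext x; exact round_eq x
  rw [this]
  exact Int.measurable_floor.comp (measurable_id.add_const _)

lemma measurable_nl : Measurable (nl : Euc n → Fin n → ℤ) := by
  refine measurable_pi_lambda _ fun k => ?_
  exact (measurable_of_countable fun z : ℤ => 5 * z).comp
    (measurable_round'.comp (by fun_prop))

lemma measurableSet_Bad : MeasurableSet (Bad n) := by
  have : Bad n = ⋃ k, {x : Euc n | 1 / 10 ≤ |x k - nl x k|} := by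
    ext x; simp [Bad]
  rw [this]
  refine MeasurableSet.iUnion fun k => measurableSet_le measurable_const ?_
  have h1 : Measurable fun x : Euc n => ((nl x k : ℤ) : ℝ) :=
    (measurable_of_countable fun z : ℤ => (z : ℝ)).comp
      ((measurable_pi_apply k).comp measurable_nl)
  have h2 : Measurable fun x : Euc n => x k := by fun_prop
  exact continuous_abs.measurable.comp (h2.sub h1)

lemma nl_refl5 {x : Euc n} {s : Fin n × Fin n} (hx : x ∉ Bad n) (hx' : refl5 s x ∉ Bad n)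
    (k : Fin n) : 5 * nl (refl5 s x) k = 5 * nl x k - 2 * ipz s (nl x) * wz s k := by
  simp only [Bad, mem_ofPred_eq, not_exists, not_le] at hx hx'
  by_cases hs : s.1 = s.2
  · have : refl5 s x = x := by
      ext k; simp [refl5_apply, ipr, hs]
    simp [this, ipz, hs]
  set z : ℤ := nl x k - 2 * (2 * round (x s.1 / 5) + round (x s.2 / 5)) * wz s k with hz
  have hz5 : 5 * z = 5 * nl x k - 2 * ipz s (nl x) * wz s k := by
    simp only [hz, ipz, hs, if_false, nl]; ring
  rw [← hz5]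
  congr 1
  have h1 := hx' k
  have h2 := hx k
  have h3 := hx s.1
  have h4 := hx s.2
  rw [refl5_apply] at h1
  simp only [ipr, hs, if_false] at h1
  have hw : (0 : ℝ) ≤ wz s k ∧ (wz s k : ℝ) ≤ 2 := by
    unfold wz
    split_ifs <;> norm_num
  have hzr : (z : ℝ) = nl x k - 2 / 5 * (2 * nl x s.1 + nl x s.2) * wz s k := by
    simp only [hz, nl]; push_cast; ring
  have h5 : |((nl (refl5 s x) k - z : ℤ) : ℝ)| < 1 := by
    push_cast
    rw [hzr]
    rw [abs_lt] at h1 h2 h3 h4 ⊢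
    have h6 : -(3 / 5 : ℝ) ≤ (2 * (x s.1 - nl x s.1) + (x s.2 - nl x s.2)) * wz s k := by
      nlinarith [hw.1, hw.2]
    have h7 : (2 * (x s.1 - nl x s.1) + (x s.2 - nl x s.2)) * wz s k ≤ (3 / 5 : ℝ) := by
      nlinarith [hw.1, hw.2]
    constructor <;> nlinarith
  have h8 : |nl (refl5 s x) k - z| < 1 := by exact_mod_cast h5
  have := Int.abs_lt_one_iff.1 h8
  omega

lemma nl_ne_zero (hn : 3 ≤ n) {x : Euc n} (hx : x ∉ Bad n) (hxn : (n : ℝ) ≤ ‖x‖) : nl x ≠ 0 := by
  intro h0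
  simp only [Bad, mem_ofPred_eq, not_exists, not_le, h0, Pi.zero_apply, Int.cast_zero,
    sub_zero] at hx
  have h1 : ‖x‖ ^ 2 ≤ n := by
    rw [EuclideanSpace.norm_sq_eq]
    calc ∑ k, ‖x k‖ ^ 2 ≤ ∑ _k : Fin n, (1 : ℝ) := by
          refine Finset.sum_le_sum fun k _ => ?_
          have := hx k
          rw [Real.norm_eq_abs]
          nlinarith [abs_nonneg (x k)]
      _ = n := by simp
  have h3 : (3 : ℝ) ≤ n := by exact_mod_cast hn
  nlinarith

/-- the valuation drops along `s` -/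
def UpS (s : Fin n × Fin n) : Set (Euc n) := {x | Up (nl x) (nl (refl5 s x))}

/-- the valuation rises along `s` -/
def DnS (s : Fin n × Fin n) : Set (Euc n) := {x | Up (nl (refl5 s x)) (nl x)}

lemma measurableSet_DnS (s : Fin n × Fin n) : MeasurableSet (DnS s) := by
  have h : Measurable fun x : Euc n => (nl (refl5 s x), nl x) :=
    (measurable_nl.comp (refl5 s).continuous.measurable).prodMk measurable_nl
  exact h (Set.to_countable {p : (Fin n → ℤ) × (Fin n → ℤ) | Up p.1 p.2}).measurableSet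

lemma UpS_eq (s : Fin n × Fin n) : UpS s = refl5 s ⁻¹' DnS s := by
  ext x; simp [UpS, DnS, refl5_refl5]

lemma pointwise_count (hn : 3 ≤ n) (ψ : Euc n → ℝ) (hψ : ∀ x, 0 ≤ ψ x)
    (hψ0 : ∀ x, ‖x‖ < n → ψ x = 0) (x : Euc n) :
    ψ x + ∑ s, (DnS s).indicator ψ x ≤ ∑ s, (refl5 s ⁻¹' DnS s).indicator ψ x +
      ((n : ℝ) ^ 2 + 1) * ∑ s, (refl5 s ⁻¹' Bad n).indicator ψ x := by
  have hind : ∀ S : Set (Euc n), 0 ≤ S.indicator ψ x := fun S => indicator_nonneg (fun a _ => hψ a) _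
  have hind' : ∀ S : Set (Euc n), S.indicator ψ x ≤ ψ x := fun S =>
    indicator_le_self' (fun a _ => hψ a) _
  by_cases hxn : ‖x‖ < n
  · have h0 := hψ0 x hxn
    have : ∀ S : Set (Euc n), S.indicator ψ x = 0 := fun S => le_antisymm (h0 ▸ hind' S) (hind S)
    simp [this, h0]
  by_cases hb : ∃ s, refl5 s x ∈ Bad n
  · obtain ⟨s, hs⟩ := hb
    have h1 : ψ x ≤ ∑ s, (refl5 s ⁻¹' Bad n).indicator ψ x := by
      refine le_trans ?_ (Finset.single_le_sum
        (f := fun s => (refl5 s ⁻¹' Bad n).indicator ψ x) (fun s _ => hind _) (Finset.mem_univ s))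
      rw [indicator_of_mem (show x ∈ refl5 s ⁻¹' Bad n from hs)]
    have h2 : ∑ s, (DnS s).indicator ψ x ≤ (n : ℝ) ^ 2 * ψ x := by
      calc ∑ s, (DnS s).indicator ψ x ≤ ∑ _s : Fin n × Fin n, ψ x :=
            Finset.sum_le_sum fun s _ => hind' _
        _ = _ := by simp [sq]
    have h3 : 0 ≤ ∑ s, (refl5 s ⁻¹' DnS s).indicator ψ x := Finset.sum_nonneg fun s _ => hind _
    have h4 : ((n : ℝ) ^ 2 + 1) * ψ x ≤
        ((n : ℝ) ^ 2 + 1) * ∑ s, (refl5 s ⁻¹' Bad n).indicator ψ x := by gcongr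
    linarith
  · push Not at hb
    have hx : x ∉ Bad n := by
      have := hb (⟨0, by omega⟩, ⟨0, by omega⟩)
      rwa [refl5_diag] at this
    have hc := count_up_down hn (nl x) (nl_ne_zero hn hx (not_lt.1 hxn))
      (fun s => nl (refl5 s x)) (fun s k => nl_refl5 hx (hb s) k)
    have e1 : ∑ s, (DnS s).indicator ψ x =
        ((Finset.univ.filter fun s => Up (nl (refl5 s x)) (nl x)).card : ℝ) * ψ x := by
      rw [Finset.card_filter]
      push_cast
      rw [Finset.sum_mul]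
      refine Finset.sum_congr rfl fun s _ => ?_
      by_cases h : Up (nl (refl5 s x)) (nl x)
      · rw [indicator_of_mem (show x ∈ DnS s from h)]; simp [h]
      · rw [indicator_of_notMem (show x ∉ DnS s from h)]; simp [h]
    have e2 : ∑ s, (refl5 s ⁻¹' DnS s).indicator ψ x =
        ((Finset.univ.filter fun s => Up (nl x) (nl (refl5 s x))).card : ℝ) * ψ x := by
      rw [Finset.card_filter]
      push_cast
      rw [Finset.sum_mul]
      refine Finset.sum_congr rfl fun s _ => ?_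
      rw [← UpS_eq]
      by_cases h : Up (nl x) (nl (refl5 s x))
      · rw [indicator_of_mem (show x ∈ UpS s from h)]; simp [h]
      · rw [indicator_of_notMem (show x ∉ UpS s from h)]; simp [h]
    have h3 : 0 ≤ ((n : ℝ) ^ 2 + 1) * ∑ s, (refl5 s ⁻¹' Bad n).indicator ψ x :=
      mul_nonneg (by positivity) (Finset.sum_nonneg fun s _ => hind _)
    have h4 : (1 : ℝ) + ((Finset.univ.filter fun s => Up (nl (refl5 s x)) (nl x)).card : ℝ) ≤
        ((Finset.univ.filter fun s => Up (nl x) (nl (refl5 s x))).card : ℝ) := by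
      exact_mod_cast hc
    rw [e1, e2]
    nlinarith [hψ x]

lemma integrable_comp_refl5 {F : Type*} [NormedAddCommGroup F] {ψ : Euc n → F}
    (hψ : Integrable ψ) (s : Fin n × Fin n) : Integrable fun x => ψ (refl5 s x) :=
  ((refl5 s).measurePreserving.integrable_comp_emb
    (refl5 s).toHomeomorph.measurableEmbedding).2 hψ

lemma integral_comp_refl5 (ψ : Euc n → ℝ) (s : Fin n × Fin n) :
    ∫ x, ψ (refl5 s x) = ∫ x, ψ x :=
  (refl5 s).measurePreserving.integral_comp (refl5 s).toHomeomorph.measurableEmbedding ψ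

lemma shift_le {ψ : Euc n → ℝ} (hψ : Integrable ψ) (s : Fin n × Fin n) {S : Set (Euc n)}
    (hS : MeasurableSet S) : ∫ x, (refl5 s ⁻¹' S).indicator ψ x ≤
      (∫ x, S.indicator ψ x) + ∫ x, |ψ (refl5 s x) - ψ x| := by
  have h1 := integrable_comp_refl5 hψ s
  have h2 : Integrable fun x => |ψ (refl5 s x) - ψ x| := (h1.sub hψ).abs
  rw [← integral_comp_refl5 _ s, ← integral_add (hψ.indicator hS) h2]
  refine integral_mono ?_ ((hψ.indicator hS).add h2) fun x => ?_
  · exact integrable_comp_refl5 (hψ.indicator ((refl5 s).continuous.measurable hS)) s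
  · by_cases hx : x ∈ S
    · have : refl5 s x ∈ refl5 s ⁻¹' S := by simpa [refl5_refl5] using hx
      simp only [indicator_of_mem this, indicator_of_mem hx]
      linarith [le_abs_self (ψ (refl5 s x) - ψ x)]
    · have : refl5 s x ∉ refl5 s ⁻¹' S := by simpa [refl5_refl5] using hx
      simp only [indicator_of_notMem this, indicator_of_notMem hx]
      positivity

lemma norm_char_sub_one (t : ℝ) : 4 * |t - round t| ≤ ‖((𝐞 t : Circle) : ℂ) - 1‖ := by
  have h1 : ((𝐞 t : Circle) : ℂ) = Complex.exp (Complex.I * ((2 * π * (t - round t) : ℝ) : ℂ)) := by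
    rw [Real.fourierChar_apply]
    have := Complex.exp_int_mul_two_pi_mul_I (round t)
    rw [← mul_one (Complex.exp (Complex.I * _)), ← this, ← Complex.exp_add]
    congr 1
    push_cast
    ring
  rw [h1, Complex.norm_exp_I_mul_ofReal_sub_one]
  have h2 : |t - round t| ≤ 1 / 2 := abs_sub_round t
  have h3 : 2 * π * (t - round t) / 2 = π * (t - round t) := by ring
  have h4 : |π * (t - round t)| = π * |t - round t| := by
    rw [abs_mul, abs_of_pos pi_pos]
  have h5 := mul_abs_le_abs_sin (x := π * (t - round t)) (by rw [h4]; nlinarith [pi_pos])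
  rw [h3, Real.norm_eq_abs, abs_mul, abs_two]
  rw [h4] at h5
  have : 2 / π * (π * |t - round t|) = 2 * |t - round t| := by field_simp
  linarith

lemma bad_le (φ : Euc n → ℂ) (x : Euc n) : (Bad n).indicator (fun x => ‖φ x‖ ^ 2) x ≤
    160 * ∑ k, ‖((𝐞 (x k / 5) : Circle) : ℂ) * φ x - φ x‖ ^ 2 := by
  by_cases hx : x ∈ Bad n
  · rw [indicator_of_mem hx]
    obtain ⟨k, hk⟩ := hx
    have h1 := norm_char_sub_one (x k / 5)
    have h2 : |x k - nl x k| = 5 * |x k / 5 - round (x k / 5)| := by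
      rw [← abs_of_pos (show (0 : ℝ) < 5 by norm_num), ← abs_mul]
      simp only [nl, abs_of_pos (show (0 : ℝ) < 5 by norm_num)]
      push_cast
      congr 1; ring
    have h3 : 2 / 25 ≤ ‖((𝐞 (x k / 5) : Circle) : ℂ) - 1‖ := by linarith
    have h4 : ‖((𝐞 (x k / 5) : Circle) : ℂ) * φ x - φ x‖ ^ 2 =
        ‖((𝐞 (x k / 5) : Circle) : ℂ) - 1‖ ^ 2 * ‖φ x‖ ^ 2 := by
      rw [← mul_pow, ← norm_mul]; congr 2; ring
    have h5 := Finset.single_le_sum
      (f := fun k => ‖((𝐞 (x k / 5) : Circle) : ℂ) * φ x - φ x‖ ^ 2)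
      (fun _ _ => sq_nonneg _) (Finset.mem_univ k)
    have h6 : (2 / 25 : ℝ) ^ 2 ≤ ‖((𝐞 (x k / 5) : Circle) : ℂ) - 1‖ ^ 2 := by gcongr
    simp only at h5
    nlinarith [sq_nonneg ‖φ x‖]
  · rw [indicator_of_notMem hx]
    positivity

lemma abs_sq_sub_le (a b : ℂ) {ε : ℝ} (hε : 0 < ε) :
    |‖a‖ ^ 2 - ‖b‖ ^ 2| ≤ (4 * ε)⁻¹ * ‖a - b‖ ^ 2 + 2 * ε * (‖a‖ ^ 2 + ‖b‖ ^ 2) := by
  have h1 : |‖a‖ ^ 2 - ‖b‖ ^ 2| ≤ ‖a - b‖ * (‖a‖ + ‖b‖) := by
    rw [sq_sub_sq, abs_mul, abs_of_nonneg (by positivity), mul_comm]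
    gcongr
    exact abs_norm_sub_norm_le a b
  have h2 : ‖a - b‖ * (‖a‖ + ‖b‖) ≤ (4 * ε)⁻¹ * ‖a - b‖ ^ 2 + ε * (‖a‖ + ‖b‖) ^ 2 := by
    have h3 : 0 ≤ (4 * ε)⁻¹ * (‖a - b‖ - 2 * ε * (‖a‖ + ‖b‖)) ^ 2 := by positivity
    have h4 : (4 * ε)⁻¹ * (‖a - b‖ - 2 * ε * (‖a‖ + ‖b‖)) ^ 2 =
        (4 * ε)⁻¹ * ‖a - b‖ ^ 2 + ε * (‖a‖ + ‖b‖) ^ 2 - ‖a - b‖ * (‖a‖ + ‖b‖) := by
      field_simp; ring
    linarith
  nlinarith [sq_nonneg (‖a‖ - ‖b‖)]

theorem euclid_kazhdan (hn : 3 ≤ n) : ∃ c : ℝ, 0 < c ∧ ∀ φ : Euc n → ℂ, MemLp φ 2 →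
    (∀ x, ‖x‖ < n → φ x = 0) → ∫ x, ‖φ x‖ ^ 2 ≤ c * ((∑ s, ∫ x, ‖φ (refl5 s x) - φ x‖ ^ 2) +
      ∑ k, ∫ x, ‖((𝐞 (x k / 5) : Circle) : ℂ) * φ x - φ x‖ ^ 2) := by
  set q : ℝ := (n : ℝ) ^ 2 with hq
  have hq0 : 0 < q := by
    have : (0 : ℝ) < n := by exact_mod_cast (by omega : 0 < n)
    positivity
  set ε : ℝ := 1 / (8 * q * (q + 2)) with hε
  have hε0 : 0 < ε := by positivity
  refine ⟨2 * ((q + 2) * (4 * ε)⁻¹ + (q + 1) * q * 160), by positivity, fun φ hφ hφ0 => ?_⟩
  set ψ : Euc n → ℝ := fun x => ‖φ x‖ ^ 2 with hψdef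
  have hψ : Integrable ψ := (memLp_two_iff_integrable_sq_norm hφ.1).1 hφ
  have hφs : ∀ s, MemLp (fun x => φ (refl5 s x)) 2 := fun s =>
    hφ.comp_measurePreserving (refl5 s).measurePreserving
  have hDs : ∀ s, Integrable fun x => ‖φ (refl5 s x) - φ x‖ ^ 2 := fun s =>
    (memLp_two_iff_integrable_sq_norm ((hφs s).sub hφ).1).1 ((hφs s).sub hφ)
  have hφk : ∀ k, MemLp (fun x : Euc n => ((𝐞 (x k / 5) : Circle) : ℂ) * φ x) 2 := by
    intro k
    refine hφ.of_le (AEStronglyMeasurable.mul ?_ hφ.1) 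
      (Eventually.of_forall fun x => by rw [norm_mul, Circle.norm_coe, one_mul])
    exact (continuous_subtype_val.comp
      (Real.continuous_fourierChar.comp (by fun_prop))).aestronglyMeasurable
  have hDk : ∀ k, Integrable fun x : Euc n =>
      ‖((𝐞 (x k / 5) : Circle) : ℂ) * φ x - φ x‖ ^ 2 := fun k =>
    (memLp_two_iff_integrable_sq_norm ((hφk k).sub hφ).1).1 ((hφk k).sub hφ)
  set N : ℝ := ∫ x, ψ x with hN
  set D1 : ℝ := ∑ s, ∫ x, ‖φ (refl5 s x) - φ x‖ ^ 2 with hD1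
  set D2 : ℝ := ∑ k, ∫ x, ‖((𝐞 (x k / 5) : Circle) : ℂ) * φ x - φ x‖ ^ 2 with hD2
  have hD10 : 0 ≤ D1 := Finset.sum_nonneg fun s _ => integral_nonneg fun x => sq_nonneg _
  have hD20 : 0 ≤ D2 := Finset.sum_nonneg fun s _ => integral_nonneg fun x => sq_nonneg _
  set e : Fin n × Fin n → ℝ := fun s => ∫ x, |ψ (refl5 s x) - ψ x| with he
  have hes : ∀ s, e s ≤ (4 * ε)⁻¹ * (∫ x, ‖φ (refl5 s x) - φ x‖ ^ 2) + 4 * ε * N := by
    intro s
    have h1 := integrable_comp_refl5 hψ s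
    have h1' : Integrable fun x => ψ (refl5 s x) + ψ x := h1.add hψ
    calc e s ≤ ∫ x, ((4 * ε)⁻¹ * ‖φ (refl5 s x) - φ x‖ ^ 2 + 2 * ε * (ψ (refl5 s x) + ψ x)) :=
          integral_mono (h1.sub hψ).abs (((hDs s).const_mul _).add (h1'.const_mul _))
            fun x => abs_sq_sub_le _ _ hε0
      _ = _ := by
          rw [integral_add ((hDs s).const_mul _) (h1'.const_mul _), integral_const_mul,
            integral_const_mul, integral_add h1 hψ, integral_comp_refl5]
          ring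
  have hesum : ∑ s, e s ≤ (4 * ε)⁻¹ * D1 + q * (4 * ε * N) := by
    refine (Finset.sum_le_sum fun s _ => hes s).trans (le_of_eq ?_)
    rw [Finset.sum_add_distrib, ← Finset.mul_sum]
    simp [hq, sq, hD1]
  have hβ : ∫ x, (Bad n).indicator ψ x ≤ 160 * D2 := by
    calc ∫ x, (Bad n).indicator ψ x
        ≤ ∫ x, 160 * ∑ k, ‖((𝐞 (x k / 5) : Circle) : ℂ) * φ x - φ x‖ ^ 2 :=
          integral_mono (hψ.indicator measurableSet_Bad)
            ((integrable_finsetSum _ fun k _ => hDk k).const_mul _) fun x => bad_le φ x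
      _ = _ := by rw [integral_const_mul, integral_finsetSum _ fun k _ => hDk k]
  have hm1 : ∀ s, Integrable ((DnS s).indicator ψ) := fun s => hψ.indicator (measurableSet_DnS s)
  have hm2 : ∀ s, Integrable ((refl5 s ⁻¹' DnS s).indicator ψ) := fun s =>
    hψ.indicator ((refl5 s).continuous.measurable (measurableSet_DnS s))
  have hm3 : ∀ s, Integrable ((refl5 s ⁻¹' Bad n).indicator ψ) := fun s =>
    hψ.indicator ((refl5 s).continuous.measurable measurableSet_Bad)
  have hmain := integral_mono (hψ.add (integrable_finsetSum _ fun s _ => hm1 s))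
    ((integrable_finsetSum _ fun s _ => hm2 s).add
      ((integrable_finsetSum _ fun s _ => hm3 s).const_mul (q + 1)))
    (pointwise_count hn ψ (fun x => sq_nonneg _) (fun x hx => by simp [hψdef, hφ0 x hx]))
  simp only [Pi.add_apply] at hmain
  rw [integral_add hψ (integrable_finsetSum _ fun s _ => hm1 s),
    integral_add (integrable_finsetSum _ fun s _ => hm2 s)
      ((integrable_finsetSum _ fun s _ => hm3 s).const_mul (q + 1)), integral_const_mul,
    integral_finsetSum _ fun s _ => hm1 s, integral_finsetSum _ fun s _ => hm2 s,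
    integral_finsetSum _ fun s _ => hm3 s] at hmain
  have h2 : ∑ s, ∫ x, (refl5 s ⁻¹' DnS s).indicator ψ x ≤
      (∑ s, ∫ x, (DnS s).indicator ψ x) + ∑ s, e s := by
    rw [← Finset.sum_add_distrib]
    exact Finset.sum_le_sum fun s _ => shift_le hψ s (measurableSet_DnS s)
  have h3 : ∑ s, ∫ x, (refl5 s ⁻¹' Bad n).indicator ψ x ≤ q * (160 * D2) + ∑ s, e s := by
    calc ∑ s, ∫ x, (refl5 s ⁻¹' Bad n).indicator ψ x ≤ ∑ s, (160 * D2 + e s) :=
          Finset.sum_le_sum fun s _ => (shift_le hψ s measurableSet_Bad).trans (by gcongr)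
      _ = _ := by
          rw [Finset.sum_add_distrib]; simp [hq, sq]
  have h4 : (q + 1) * ∑ s, ∫ x, (refl5 s ⁻¹' Bad n).indicator ψ x ≤
      (q + 1) * (q * (160 * D2) + ∑ s, e s) := by gcongr
  have h5 : N ≤ (q + 2) * ∑ s, e s + (q + 1) * q * 160 * D2 := by linarith
  have h6 : (q + 2) * ∑ s, e s ≤ (q + 2) * ((4 * ε)⁻¹ * D1 + q * (4 * ε * N)) := by gcongr
  have h7 : (q + 2) * (q * (4 * ε * N)) = N / 2 := by
    rw [hε]; field_simp; ring
  have h8 : 0 ≤ (q + 2) * (4 * ε)⁻¹ := by positivity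
  have h9 : 0 ≤ (q + 1) * q * 160 := by positivity
  nlinarith [mul_nonneg h8 hD20, mul_nonneg h9 hD10]

end Pool.Agent.P.MP_465281_an
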