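import Pool.Agent.P.MP_465281_an.Family
import Pool.Agent.P.MP_465281_an.EuclidK

/-!
The Euclidean case.
-/

namespace Pool.Agent.P.MP_465281_an

open Set Metric MeasureTheory Filter Topology Real Bornology
open scoped Classical RealInnerProductSpace FourierTransform ENNReal SchwartzMap

variable {n : ℕ}

lemma continuous_fourier' {f : Euc n → ℂ} (hf : Integrable f) : Continuous (𝓕 f) :=
  VectorFourier.fourierIntegral_continuous Real.continuous_fourierChar
    (L := innerₗ (Euc n)) continuous_inner hf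

lemma plancherel {f : Euc n → ℂ} (h1 : Integrable f) (h2 : MemLp f 2) :
    MemLp (𝓕 f) 2 ∧ ∫ x, ‖𝓕 f x‖ ^ 2 = ∫ x, ‖f x‖ ^ 2 := by
  set fL : Lp ℂ 2 (volume : Measure (Euc n)) := h2.toLp f with hfL
  set F : Lp ℂ 2 (volume : Measure (Euc n)) := 𝓕 fL with hF
  have hae : (F : Euc n → ℂ) =ᵐ[volume] 𝓕 f := by
    refine ae_eq_of_integral_contDiff_smul_eq
      ((Lp.memLp F).locallyIntegrable (by norm_num))
      (continuous_fourier' h1).locallyIntegrable fun g hg1 hg2 => ?_
    have hc : HasCompactSupport (Complex.ofRealCLM ∘ g) := hg2.comp_left rfl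
    set φ : 𝓢(Euc n, ℂ) := hc.toSchwartzMap (Complex.ofRealCLM.contDiff.comp hg1) with hφ
    have hφx : ∀ x, φ x = (g x : ℂ) := fun x => rfl
    have e1 := congrArg (fun u => u φ) (Lp.fourier_toTemperedDistribution_eq fL)
    simp only [TemperedDistribution.fourier_apply, Lp.toTemperedDistribution_apply] at e1
    have e2 : ∫ x, (𝓕 φ) x • (fL : Euc n → ℂ) x = ∫ x, (𝓕 φ) x • f x := by
      refine integral_congr_ae ?_
      filter_upwards [h2.coeFn_toLp] with x hx
      rw [hx]
    have e3 := VectorFourier.integral_fourierIntegral_smul_eq_flip (e := 𝐞)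
      (μ := (volume : Measure (Euc n))) (ν := (volume : Measure (Euc n)))
      (L := innerₗ (Euc n)) Real.continuous_fourierChar continuous_inner φ.integrable h1
    rw [flip_innerₗ] at e3
    have e4 : ∫ x, (𝓕 φ) x • f x = ∫ x, φ x • 𝓕 f x := e3
    calc ∫ x, g x • (F : Euc n → ℂ) x = ∫ x, φ x • (F : Euc n → ℂ) x := by
          simp only [hφx, Complex.coe_smul]
      _ = ∫ x, φ x • 𝓕 f x := by rw [← e4, ← e2, e1]
      _ = _ := by simp only [hφx, Complex.coe_smul]
  have hnorm : ∀ G : Lp ℂ 2 (volume : Measure (Euc n)), ‖G‖ ^ 2 = ∫ x, ‖G x‖ ^ 2 := by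
    intro G
    rw [← real_inner_self_eq_norm_sq, L2.inner_def]
    simp only [real_inner_self_eq_norm_sq]
  refine ⟨(Lp.memLp F).ae_eq hae, ?_⟩
  calc ∫ x, ‖𝓕 f x‖ ^ 2 = ∫ x, ‖(F : Euc n → ℂ) x‖ ^ 2 := by
        refine integral_congr_ae ?_
        filter_upwards [hae] with x hx
        rw [hx]
    _ = ‖fL‖ ^ 2 := by rw [← hnorm, hF, Lp.norm_fourier_eq]
    _ = _ := by
        rw [hnorm]
        refine integral_congr_ae ?_
        filter_upwards [h2.coeFn_toLp] with x hx
        rw [hx]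

/-- the translation vectors -/
noncomputable def tv (p : Fin n × Bool) : Euc n :=
  EuclideanSpace.single p.1 (if p.2 then 1 / 5 else -(1 / 5))

/-- the basic family of Euclidean isometries -/
noncomputable def base (n : ℕ) (hn : 3 ≤ n) : SymFam (Euc n) where
  ι := (Fin n × Fin n) ⊕ (Fin n × Bool)
  fin := inferInstance
  ne := ⟨Sum.inl (⟨0, by omega⟩, ⟨0, by omega⟩)⟩
  g := Sum.elim (fun s => (refl5 s).toIsometryEquiv) fun p => IsometryEquiv.addRight (tv p)
  σ := Equiv.sumCongr (Equiv.refl _) (Equiv.prodCongr (Equiv.refl _) Equiv.boolNot)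
  hσ := by
    rintro (s | ⟨k, b⟩)
    · ext1 x
      apply (refl5 s).injective
      simp [refl5_refl5]
    · simp only [Equiv.sumCongr_apply, Sum.map_inr, Sum.elim_inr, IsometryEquiv.addRight_symm]
      congr 1
      ext j
      cases b <;> simp [tv] <;> split_ifs <;> simp

lemma base_mp (hn : 3 ≤ n) (i : (base n hn).ι) : MeasurePreserving ((base n hn).g i) := by
  rcases i with s | p
  · exact (refl5 s).measurePreserving
  · exact measurePreserving_add_right volume (tv p)

/-- the class of functions considered -/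
def ClsE (f : Euc n → ℂ) : Prop := Integrable f ∧ MemLp f 2

attribute [local instance] SymFam.fin SymFam.ne

lemma clsE_avg (F : SymFam (Euc n)) (hF : ∀ i, MeasurePreserving (F.g i)) {f : Euc n → ℂ}
    (hf : ClsE f) : ClsE (F.avg f) :=
  ⟨(integrable_finsetSum _ fun i _ =>
      (hF i).integrable_comp_of_integrable hf.1).const_mul _,
    (memLp_finsetSum _ fun i _ => hf.2.comp_measurePreserving (hF i)).const_mul _⟩

lemma l1_avg (F : SymFam (Euc n)) (hF : ∀ i, MeasurePreserving (F.g i)) {f : Euc n → ℂ}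
    (hf : Integrable f) : ∫ x, ‖F.avg f x‖ ≤ ∫ x, ‖f x‖ := by
  have h1 : ∀ i, Integrable fun x => ‖f (F.g i x)‖ := fun i =>
    ((hF i).integrable_comp_of_integrable hf).norm
  have hM : (0 : ℝ) < Fintype.card F.ι := by exact_mod_cast Fintype.card_pos
  calc ∫ x, ‖F.avg f x‖ ≤ ∫ x, (Fintype.card F.ι : ℝ)⁻¹ * ∑ i, ‖f (F.g i x)‖ := by
        refine integral_mono_of_nonneg (Eventually.of_forall fun x => norm_nonneg _)
          ((integrable_finsetSum _ fun i _ => h1 i).const_mul _)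
          (Eventually.of_forall fun x => ?_)
        simp only [SymFam.avg, norm_mul, norm_inv, Complex.norm_natCast]
        gcongr
        exact norm_sum_le _ _
    _ = _ := by
        rw [integral_const_mul, integral_finsetSum _ fun i _ => h1 i]
        have : ∀ i, ∫ x, ‖f (F.g i x)‖ = ∫ x, ‖f x‖ := fun i =>
          (hF i).integral_comp (F.g i).toHomeomorph.measurableEmbedding fun x => ‖f x‖
        simp only [this, Finset.sum_const, Finset.card_univ, nsmul_eq_mul]
        field_simp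

lemma fourier_avg (F : SymFam (Euc n)) (hF : ∀ i, MeasurePreserving (F.g i)) {f : Euc n → ℂ}
    (hf : Integrable f) (ξ : Euc n) :
    𝓕 (F.avg f) ξ = (Fintype.card F.ι : ℂ)⁻¹ * ∑ i, 𝓕 (f ∘ F.g i) ξ := by
  simp only [fourier_eq]
  rw [← integral_finsetSum _ fun i _ => (Real.fourierIntegral_convergent_iff ξ).2
    ((hF i).integrable_comp_of_integrable hf), ← integral_const_mul]
  congr 1
  ext v
  simp only [SymFam.avg, Circle.smul_def, smul_eq_mul, Function.comp, Finset.mul_sum]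
  refine Finset.sum_congr rfl fun i _ => by ring

/-- the high frequency part of the Fourier transform -/
noncomputable def hiF (f : Euc n → ℂ) : Euc n → ℂ := (ball (0 : Euc n) n)ᶜ.indicator (𝓕 f)

/-- the action of the basic family on the Fourier side -/
noncomputable def TF (φ : Euc n → ℂ) : (Fin n × Fin n) ⊕ (Fin n × Bool) → Euc n → ℂ :=
  Sum.elim (fun s ξ => φ (refl5 s ξ)) fun p ξ => ((𝐞 ⟪tv p, ξ⟫ : Circle) : ℂ) * φ ξ

lemma hiF_avg (hn : 3 ≤ n) {f : Euc n → ℂ} (hf : Integrable f) (ξ : Euc n) :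
    hiF ((base n hn).avg f) ξ =
      (Fintype.card ((Fin n × Fin n) ⊕ (Fin n × Bool)) : ℂ)⁻¹ * ∑ i, TF (hiF f) i ξ := by
  by_cases hξ : ξ ∈ (ball (0 : Euc n) n)ᶜ
  · rw [hiF, indicator_of_mem hξ, fourier_avg _ (base_mp hn) hf]
    congr 1
    refine Finset.sum_congr rfl ?_
    rintro (s | p) -
    · have : refl5 s ξ ∈ (ball (0 : Euc n) n)ᶜ := by simpa using hξ
      simp only [TF, Sum.elim_inl, hiF, indicator_of_mem this]
      exact fourier_comp_linearIsometry (refl5 s) f ξ
    · simp only [TF, Sum.elim_inr, hiF, indicator_of_mem hξ]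
      exact congrFun (VectorFourier.fourierIntegral_comp_add_right 𝐞 volume (innerₗ (Euc n)) f
        (tv p)) ξ
  · rw [hiF, indicator_of_notMem hξ, Finset.sum_eq_zero, mul_zero]
    rintro (s | p) -
    · have : refl5 s ξ ∉ (ball (0 : Euc n) n)ᶜ := by simpa using hξ
      simp only [TF, Sum.elim_inl, hiF, indicator_of_notMem this]
    · simp only [TF, Sum.elim_inr, hiF, indicator_of_notMem hξ, mul_zero]

lemma TF_memLp {φ : Euc n → ℂ} (hφ : MemLp φ 2) (i) : MemLp (TF φ i) 2 := by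
  rcases i with s | p
  · exact hφ.comp_measurePreserving (refl5 s).measurePreserving
  · refine hφ.of_le (AEStronglyMeasurable.mul ?_ hφ.1)
      (Eventually.of_forall fun x => by
        simp only [TF, Sum.elim_inr]; rw [norm_mul, Circle.norm_coe, one_mul])
    exact (continuous_subtype_val.comp
      (Real.continuous_fourierChar.comp (by fun_prop))).aestronglyMeasurable

lemma TF_norm (φ : Euc n → ℂ) (i) : ∫ x, ‖TF φ i x‖ ^ 2 = ∫ x, ‖φ x‖ ^ 2 := by
  rcases i with s | p
  · exact integral_comp_refl5 (fun x => ‖φ x‖ ^ 2) s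
  · simp only [TF, Sum.elim_inr, norm_mul, Circle.norm_coe, one_mul]

lemma euclid_contract (hn : 3 ≤ n) : ∃ a : ℝ, 0 ≤ a ∧ a < 1 ∧ ∀ f : Euc n → ℂ, ClsE f →
    ∫ x, ‖hiF ((base n hn).avg f) x‖ ^ 2 ≤ a * ∫ x, ‖hiF f x‖ ^ 2 := by
  obtain ⟨c, hc0, hc⟩ := euclid_kazhdan hn
  set M : ℝ := (Fintype.card ((Fin n × Fin n) ⊕ (Fin n × Bool)) : ℝ) with hM
  let i0 : (Fin n × Fin n) ⊕ (Fin n × Bool) := Sum.inl (⟨0, by omega⟩, ⟨0, by omega⟩)
  have hM0 : 0 < M := by
    have : Nonempty ((Fin n × Fin n) ⊕ (Fin n × Bool)) := ⟨i0⟩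
    rw [hM]; exact_mod_cast Fintype.card_pos
  have hb : 0 < M⁻¹ * (2 + 2 * M)⁻¹ * c⁻¹ := by positivity
  refine ⟨max 0 (1 - M⁻¹ * (2 + 2 * M)⁻¹ * c⁻¹), le_max_left _ _,
    max_lt one_pos (by linarith), fun f hf => ?_⟩
  set φ := hiF f with hφdef
  have hφ : MemLp φ 2 := (plancherel hf.1 hf.2).1.indicator measurableSet_ball.compl
  have hφ0 : ∀ x, ‖x‖ < n → φ x = 0 := fun x hx =>
    indicator_of_notMem (by simpa using hx) _
  have hK := hc φ hφ hφ0
  have hi0 : ∀ x, TF φ i0 x = φ x := fun x => by simp [TF, i0, refl5_diag]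
  have h1 : ∀ i, Integrable fun x => ‖TF φ i x‖ ^ 2 := fun i =>
    (memLp_two_iff_integrable_sq_norm (TF_memLp hφ i).1).1 (TF_memLp hφ i)
  have h2 : ∀ i, Integrable fun x => ‖TF φ i x - φ x‖ ^ 2 := fun i =>
    (memLp_two_iff_integrable_sq_norm ((TF_memLp hφ i).sub hφ).1).1 ((TF_memLp hφ i).sub hφ)
  have h3 : Integrable fun x => ∑ i, ‖TF φ i x‖ ^ 2 := integrable_finsetSum _ fun i _ => h1 i
  have h4 : Integrable fun x => (2 + 2 * M)⁻¹ * ∑ i, ‖TF φ i x - φ x‖ ^ 2 :=
    (integrable_finsetSum _ fun i _ => h2 i).const_mul _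
  set N : ℝ := ∫ x, ‖φ x‖ ^ 2 with hN
  have hN0 : 0 ≤ N := integral_nonneg fun x => sq_nonneg _
  have h5 : (∑ s, ∫ x, ‖φ (refl5 s x) - φ x‖ ^ 2) +
      ∑ k, ∫ x : Euc n, ‖((𝐞 (x k / 5) : Circle) : ℂ) * φ x - φ x‖ ^ 2 ≤
      ∑ i, ∫ x, ‖TF φ i x - φ x‖ ^ 2 := by
    rw [Fintype.sum_sum_type, Fintype.sum_prod_type (α₁ := Fin n) (α₂ := Bool)]
    refine add_le_add le_rfl (Finset.sum_le_sum fun k _ => ?_)
    rw [Fintype.sum_bool]
    refine le_add_of_le_of_nonneg (le_of_eq ?_) (integral_nonneg fun x => sq_nonneg _)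
    congr 1
    ext x
    have : ⟪tv (k, true), x⟫ = x k / 5 := by
      simp only [tv, if_true, EuclideanSpace.inner_single_left]
      simp
      ring
    simp only [TF, Sum.elim_inr, this]
  have h6 : c⁻¹ * N ≤ ∑ i, ∫ x, ‖TF φ i x - φ x‖ ^ 2 := by
    rw [inv_mul_le_iff₀ hc0]
    exact hK.trans (by gcongr)
  calc ∫ x, ‖hiF ((base n hn).avg f) x‖ ^ 2
      ≤ ∫ x, M⁻¹ * (∑ i, ‖TF φ i x‖ ^ 2 - (2 + 2 * M)⁻¹ * ∑ i, ‖TF φ i x - φ x‖ ^ 2) := by
        refine integral_mono_of_nonneg (Eventually.of_forall fun x => sq_nonneg _)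
          ((h3.sub h4).const_mul _) (Eventually.of_forall fun x => ?_)
        have := avg_convex (fun i => TF φ i x) i0
        simp only [hi0] at this
        simp only [hiF_avg hn hf.1]
        exact this
    _ = M⁻¹ * (M * N - (2 + 2 * M)⁻¹ * ∑ i, ∫ x, ‖TF φ i x - φ x‖ ^ 2) := by
        rw [integral_const_mul, integral_sub h3 h4, integral_const_mul,
          integral_finsetSum _ fun i _ => h1 i, integral_finsetSum _ fun i _ => h2 i]
        simp only [TF_norm, Finset.sum_const, Finset.card_univ, nsmul_eq_mul, hM, hN]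
    _ ≤ M⁻¹ * (M * N - (2 + 2 * M)⁻¹ * (c⁻¹ * N)) := by gcongr
    _ = (1 - M⁻¹ * (2 + 2 * M)⁻¹ * c⁻¹) * N := by field_simp
    _ ≤ _ := by gcongr; exact le_max_right _ _

lemma euclid_gap (hn : 3 ≤ n) (a : ℝ) (ha : 0 < a) :
    ∃ F : SymFam (Euc n), (∀ i, MeasurePreserving (F.g i)) ∧ ∀ B, MeasurableSet B →
      volume B ≠ ∞ → Integrable (fun y => ‖F.avg (B.indicator 1) y‖ ^ 2) ∧
      ∫ y, ‖F.avg (B.indicator 1) y‖ ^ 2 ≤ a * volume.real B +
        volume.real (ball (0 : Euc n) n) * volume.real B ^ 2 := by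
  obtain ⟨a0, h0, h1, hc⟩ := euclid_contract hn
  obtain ⟨F, hF, hcl, hen⟩ := power_up (fun g : Euc n ≃ᵢ Euc n => MeasurePreserving g volume volume)
    (fun a b ha hb => (ha.comp hb : MeasurePreserving (a ∘ b) volume volume)) ClsE (fun f => ∫ x, ‖hiF f x‖ ^ 2)
    (fun f => integral_nonneg fun x => sq_nonneg _) (base n hn) (base_mp hn)
    (fun f hf => clsE_avg _ (base_mp hn) hf) h0 h1 hc ha
  refine ⟨F, hF, fun B hB hBf => ?_⟩
  have hf : ClsE (B.indicator (1 : Euc n → ℂ)) :=
    ⟨(integrable_indicator_iff hB).2 (integrableOn_const hBf),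
      memLp_indicator_const 2 hB (1 : ℂ) (Or.inr hBf)⟩
  set f := B.indicator (1 : Euc n → ℂ) with hfdef
  have hn1 : (fun x => ‖f x‖) = B.indicator 1 := by
    ext x; by_cases hx : x ∈ B <;> simp [hfdef, hx]
  have hn2 : (fun x => ‖f x‖ ^ 2) = B.indicator 1 := by
    ext x; by_cases hx : x ∈ B <;> simp [hfdef, hx]
  have hh := hcl f hf
  refine ⟨(memLp_two_iff_integrable_sq_norm hh.2.1).1 hh.2, ?_⟩
  have key : ∀ u : Euc n → ℂ, ClsE u → ∫ x, ‖u x‖ ^ 2 =
      (∫ x in ball (0 : Euc n) n, ‖𝓕 u x‖ ^ 2) + ∫ x, ‖hiF u x‖ ^ 2 := by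
    intro u hu
    obtain ⟨p1, p2⟩ := plancherel hu.1 hu.2
    rw [← p2, ← integral_add_compl (measurableSet_ball (x := (0 : Euc n)) (ε := n))
      ((memLp_two_iff_integrable_sq_norm p1.1).1 p1), ← integral_indicator measurableSet_ball.compl]
    congr 2
    ext x
    by_cases hx : x ∈ (ball (0 : Euc n) n)ᶜ <;> simp [hiF, hx]
  have e1 : ∫ x, ‖hiF f x‖ ^ 2 ≤ volume.real B := by
    have := key f hf
    rw [hn2, integral_indicator_one hB] at this
    rw [this]
    exact le_add_of_nonneg_left (integral_nonneg fun x => sq_nonneg _)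
  have e2 : ∀ x, ‖𝓕 (F.avg f) x‖ ≤ volume.real B := by
    intro x
    refine (VectorFourier.norm_fourierIntegral_le_integral_norm 𝐞 volume (innerₗ (Euc n))
      (F.avg f) x).trans ((l1_avg F hF hf.1).trans ?_)
    rw [hn1, integral_indicator_one hB]
  have e3 : ∫ x in ball (0 : Euc n) n, ‖𝓕 (F.avg f) x‖ ^ 2 ≤
      volume.real (ball (0 : Euc n) n) * volume.real B ^ 2 := by
    have := norm_setIntegral_le_of_norm_le_const (μ := volume) (s := ball (0 : Euc n) n)
      (f := fun x => ‖𝓕 (F.avg f) x‖ ^ 2) (C := volume.real B ^ 2) measure_ball_lt_top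
      (fun x _ => by
        rw [Real.norm_eq_abs, abs_of_nonneg (sq_nonneg _)]
        exact pow_le_pow_left₀ (norm_nonneg _) (e2 x) 2)
    rw [mul_comm]
    exact (le_abs_self _).trans this
  rw [key _ hh]
  have e4 := (hen f hf).trans (mul_le_mul_of_nonneg_left e1 ha.le)
  linarith

/-- the unit cube -/
def cube (n : ℕ) : Set (Euc n) := {x | ∀ i, x i ∈ Icc (0 : ℝ) 1}

lemma cube_eq : cube n = WithLp.ofLp ⁻¹' (Set.pi univ fun _ => Icc (0 : ℝ) 1) := by
  ext x; simp only [cube, mem_ofPred_eq, mem_preimage, mem_univ_pi]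

lemma measurableSet_cube : MeasurableSet (cube n) := by
  rw [cube_eq]
  exact (PiLp.volume_preserving_ofLp (Fin n)).measurable
    (MeasurableSet.univ_pi fun _ => measurableSet_Icc)

lemma volume_cube : volume (cube n) = 1 := by
  rw [cube_eq, (PiLp.volume_preserving_ofLp (Fin n)).measure_preimage
    (MeasurableSet.univ_pi fun _ => measurableSet_Icc).nullMeasurableSet, volume_pi_pi]
  simp

lemma adm_cube : Adm (cube n) := by
  refine ⟨measurableSet_cube, (isBounded_closedBall (x := (0 : Euc n)) (r := n + 1)).subset ?_⟩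
  intro x hx
  rw [mem_closedBall_zero_iff]
  have h1 : ‖x‖ ^ 2 ≤ n := by
    rw [EuclideanSpace.norm_sq_eq]
    calc ∑ k, ‖x k‖ ^ 2 ≤ ∑ _k : Fin n, (1 : ℝ) := by
          refine Finset.sum_le_sum fun k _ => ?_
          have := hx k
          rw [Real.norm_eq_abs, sq_abs]
          nlinarith [this.1, this.2]
      _ = n := by simp
  nlinarith [sq_nonneg (‖x‖ - 1), Nat.cast_nonneg (α := ℝ) n]

lemma growth_euclid {μ : Set (Euc n) → ℝ≥0∞} (h : FA μ)
    (hinv : ∀ g : Euc n ≃ᵢ Euc n, ∀ A, Adm A → μ (g '' A) = μ A) (h1 : μ (cube n) = 1)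
    (R : ℝ) (hR : 0 ≤ R) : μ (ball 0 R) ≤ ENNReal.ofReal (3 ^ n * (R + 1) ^ n) := by
  let s : Finset (Fin n → ℤ) := Fintype.piFinset fun _ => Finset.Icc (-⌈R⌉) ⌈R⌉
  let t : (Fin n → ℤ) → Set (Euc n) := fun z =>
    IsometryEquiv.addRight (WithLp.toLp 2 fun k => (z k : ℝ) : Euc n) '' cube n
  have ht : ∀ z, Adm (t z) := fun z => adm_cube.image _
  have hsub : ball (0 : Euc n) R ⊆ ⋃ z ∈ s, t z := by
    intro x hx
    rw [mem_ball_zero_iff] at hx
    have hk : ∀ k, |x k| ≤ R := fun k => (PiLp.norm_apply_le x k).trans hx.le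
    refine mem_biUnion (x := fun k => ⌊x k⌋) ?_ ?_
    · simp only [s, Finset.mem_coe, Fintype.mem_piFinset, Finset.mem_Icc]
      intro k
      have h2 := abs_le.1 (hk k)
      have h3 := Int.le_ceil R
      constructor
      · rw [Int.le_floor]; push_cast; linarith [h2.1]
      · have : (⌊x k⌋ : ℝ) ≤ ⌈R⌉ := (Int.floor_le _).trans (h2.2.trans h3)
        exact_mod_cast this
    · refine ⟨WithLp.toLp 2 fun k => Int.fract (x k), fun k => ⟨Int.fract_nonneg _,
        (Int.fract_lt_one _).le⟩, ?_⟩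
      ext k
      simp
  calc μ (ball 0 R) ≤ μ (⋃ z ∈ s, t z) :=
        h.mono measurableSet_ball (adm_biUnion _ _ fun z _ => ht z) hsub
    _ ≤ ∑ z ∈ s, μ (t z) := h.biUnion_le _ _ fun z _ => ht z
    _ = (s.card : ℝ≥0∞) := by
        simp only [t, hinv _ _ adm_cube, h1, Finset.sum_const, nsmul_eq_mul, mul_one]
    _ ≤ _ := by
        rw [← ENNReal.ofReal_natCast]
        apply ENNReal.ofReal_le_ofReal
        simp only [s, Fintype.card_piFinset, Finset.prod_const, Finset.card_univ,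
          Fintype.card_fin, Int.card_Icc]
        rw [← mul_pow]
        push_cast
        gcongr
        have h2 : (0 : ℤ) ≤ ⌈R⌉ := Int.ceil_nonneg hR
        have h3 : (((⌈R⌉ + 1 - -⌈R⌉).toNat : ℤ) : ℝ) = 2 * ⌈R⌉ + 1 := by
          rw [Int.toNat_of_nonneg (by omega)]; push_cast; ring
        have h4 := Int.ceil_lt_add_one R
        push_cast at h3
        rw [h3]
        linarith

theorem euclid_main (hn : 3 ≤ n) {μ : Set (Euc n) → ℝ≥0∞} (h : FA μ)
    (hinv : ∀ g : Euc n ≃ᵢ Euc n, ∀ A, Adm A → μ (g '' A) = μ A) (h1 : μ (cube n) = 1)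
    (A : Set (Euc n)) (hA : Adm A) : μ A = volume A := by
  have hlam : ∀ g : Euc n ≃ᵢ Euc n, MeasurePreserving g → ∀ A, MeasurableSet A →
      volume (g '' A) = volume A := by
    intro g hg A hA
    have hm : MeasurableSet (g '' A) :=
      g.toHomeomorph.toMeasurableEquiv.measurableEmbedding.measurableSet_image.2 hA
    rw [← hg.measure_preimage hm.nullMeasurableSet, preimage_image_eq _ g.injective]
  obtain ⟨ν, hν⟩ := exists_measure_of_gap h volume (fun g => MeasurePreserving g)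
    (fun g _ => hinv g) hlam (C := ENNReal.ofReal (9 ^ Module.finrank ℝ (Euc n)))
    ENNReal.ofReal_ne_top
    (fun x r _ _ => by
      rw [Measure.addHaar_ball_mul_of_pos _ _ (by norm_num), Measure.addHaar_ball_center _ x r])
    (fun r hr => ⟨volume (ball (0 : Euc n) r), measure_ball_pos _ _ hr,
      fun x => (Measure.addHaar_ball_center _ x r).ge⟩)
    0 (fun R => measure_ball_lt_top.ne) (3 ^ n) n (growth_euclid h hinv h1)
    measureReal_nonneg (euclid_gap hn)
  have hfin : IsFiniteMeasureOnCompacts ν := ⟨fun K hK => by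
    obtain ⟨r, hr, hKr⟩ := hK.isBounded.subset_ball_lt 0 0
    refine (measure_mono hKr).trans_lt ?_
    rw [hν _ (adm_ball _ _)]
    exact (growth_euclid h hinv h1 r hr.le).trans_lt ENNReal.ofReal_lt_top⟩
  have hle : ∀ (v : Euc n) (B : Set (Euc n)), MeasurableSet B → ν ((v + ·) '' B) ≤ ν B := by
    intro v B hB
    have e : (v + ·) '' B = ⋃ k : ℕ, (v + ·) '' (B ∩ ball 0 k) := by
      rw [← image_iUnion, ← inter_iUnion, iUnion_ball_nat, inter_univ]
    have hm : Monotone fun k : ℕ => (v + ·) '' (B ∩ ball (0 : Euc n) k) := fun a b hab =>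
      image_mono (inter_subset_inter_right _ (ball_subset_ball (by exact_mod_cast hab)))
    rw [e, hm.measure_iUnion]
    refine iSup_le fun k => ?_
    have hk : Adm (B ∩ ball (0 : Euc n) k) :=
      (adm_ball _ _).of_subset (hB.inter measurableSet_ball) inter_subset_right
    have e2 := hinv (IsometryEquiv.addLeft v) _ hk
    rw [← hν _ hk, ← hν _ (hk.image _)] at e2
    exact (le_of_eq e2).trans (measure_mono inter_subset_left)
  have hinv' : ν.IsAddLeftInvariant := by
    rw [← forall_measure_preimage_add_iff]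
    intro v B hB
    apply le_antisymm
    · have := hle (-v) B hB
      rwa [image_add_left, neg_neg] at this
    · have := hle v _ (measurable_const_add v hB)
      rwa [image_preimage_eq _ (add_left_surjective v)] at this
  have hc := Measure.isAddLeftInvariant_eq_smul ν volume
  have h2 := hν _ adm_cube
  rw [hc, h1, Measure.smul_apply, volume_cube] at h2
  rw [← hν A hA, hc, Measure.smul_apply]
  simp only [ENNReal.smul_def, smul_eq_mul, mul_one] at h2 ⊢
  rw [h2, one_mul]

end Pool.Agent.P.MP_465281_an
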