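import Pool.Agent.P.MP_465281_an.Transport

/-!
Finite symmetric families of isometries, averaging operators, powers, and small set expansion
from an `L²` bound.
-/

namespace Pool.Agent.P.MP_465281_an

open Set Metric MeasureTheory Bornology Filter Topology
open scoped ENNReal Classical

variable {X : Type*} [MetricSpace X]

/-- a finite symmetric family of isometries -/
structure SymFam (X : Type*) [MetricSpace X] where
  ι : Type
  fin : Fintype ι
  ne : Nonempty ι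
  g : ι → X ≃ᵢ X
  σ : ι ≃ ι
  hσ : ∀ i, g (σ i) = (g i).symm

attribute [local instance] SymFam.fin SymFam.ne

/-- averaging operator -/
noncomputable def SymFam.avg (F : SymFam X) (f : X → ℂ) : X → ℂ :=
  fun x => (Fintype.card F.ι : ℂ)⁻¹ * ∑ i, f (F.g i x)

/-- the square of a family -/
noncomputable def SymFam.sq (F : SymFam X) : SymFam X where
  ι := F.ι × F.ι
  fin := inferInstance
  ne := inferInstance
  g := fun p => (F.g p.2).trans (F.g p.1)
  σ := (Equiv.prodComm _ _).trans (F.σ.prodCongr F.σ)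
  hσ := by
    rintro ⟨a, b⟩
    ext x
    simp [F.hσ]

lemma SymFam.avg_sq (F : SymFam X) (f : X → ℂ) : F.sq.avg f = F.avg (F.avg f) := by
  ext x
  show (Fintype.card (F.ι × F.ι) : ℂ)⁻¹ * ∑ p : F.ι × F.ι, f (F.g p.1 (F.g p.2 x)) = _
  simp only [SymFam.avg]
  rw [Fintype.sum_prod_type_right, Fintype.card_prod, ← Finset.mul_sum, Nat.cast_mul, mul_inv,
    mul_assoc]

lemma power_up (ok : (X ≃ᵢ X) → Prop) (hok : ∀ a b, ok a → ok b → ok (b.trans a))
    (cls : (X → ℂ) → Prop) (en : (X → ℂ) → ℝ) (hen : ∀ f, 0 ≤ en f)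
    (F : SymFam X) (hF : ∀ i, ok (F.g i)) (hcls : ∀ f, cls f → cls (F.avg f))
    {a : ℝ} (ha0 : 0 ≤ a) (ha1 : a < 1) (hc : ∀ f, cls f → en (F.avg f) ≤ a * en f)
    {ε : ℝ} (hε : 0 < ε) :
    ∃ F' : SymFam X, (∀ i, ok (F'.g i)) ∧ (∀ f, cls f → cls (F'.avg f)) ∧
      ∀ f, cls f → en (F'.avg f) ≤ ε * en f := by
  have key : ∀ k : ℕ, ∃ F' : SymFam X, (∀ i, ok (F'.g i)) ∧ (∀ f, cls f → cls (F'.avg f)) ∧
      ∀ f, cls f → en (F'.avg f) ≤ a ^ (k + 1) * en f := by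
    intro k
    induction k with
    | zero => exact ⟨F, hF, hcls, by simpa using hc⟩
    | succ k ih =>
      obtain ⟨F', h1, h2, h3⟩ := ih
      refine ⟨F'.sq, fun p => hok _ _ (h1 _) (h1 _), fun f hf => ?_, fun f hf => ?_⟩
      · rw [SymFam.avg_sq]; exact h2 _ (h2 _ hf)
      · rw [SymFam.avg_sq]
        have h4 := h3 _ (h2 _ hf)
        have h5 := h3 _ hf
        have h6 : 0 ≤ a ^ (k + 1) := pow_nonneg ha0 _
        have h7 : a ^ (k + 1) ≤ a := pow_le_of_le_one ha0 ha1.le (by omega)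
        calc en (F'.avg (F'.avg f)) ≤ a ^ (k + 1) * (a ^ (k + 1) * en f) :=
              h4.trans (mul_le_mul_of_nonneg_left h5 h6)
          _ ≤ a ^ (k + 1) * (a * en f) :=
              mul_le_mul_of_nonneg_left (mul_le_mul_of_nonneg_right h7 (hen f)) h6
          _ = _ := by ring
  obtain ⟨k, hk⟩ := exists_pow_lt_of_lt_one hε ha1
  obtain ⟨F', h1, h2, h3⟩ := key k
  refine ⟨F', h1, h2, fun f hf => (h3 f hf).trans (mul_le_mul_of_nonneg_right ?_ (hen f))⟩
  calc a ^ (k + 1) = a ^ k * a := pow_succ _ _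
    _ ≤ a ^ k * 1 := mul_le_mul_of_nonneg_left ha1.le (pow_nonneg ha0 _)
    _ ≤ ε := by linarith

/-- uniform convexity of averages -/
lemma avg_convex {ι : Type} [Fintype ι] (z : ι → ℂ) (i0 : ι) :
    ‖(Fintype.card ι : ℂ)⁻¹ * ∑ i, z i‖ ^ 2 ≤ (Fintype.card ι : ℝ)⁻¹ *
      (∑ i, ‖z i‖ ^ 2 - (2 + 2 * (Fintype.card ι : ℝ))⁻¹ * ∑ i, ‖z i - z i0‖ ^ 2) := by
  have hM : (0 : ℝ) < Fintype.card ι := by
    have : Nonempty ι := ⟨i0⟩
    exact_mod_cast Fintype.card_pos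
  set M : ℝ := (Fintype.card ι : ℝ) with hMdef
  set w : ℂ := (Fintype.card ι : ℂ)⁻¹ * ∑ i, z i with hw
  have hsum : ∑ i, z i = (M : ℂ) * w := by
    rw [hw, hMdef]
    have : (Fintype.card ι : ℂ) ≠ 0 := by
      have : Nonempty ι := ⟨i0⟩
      exact_mod_cast Fintype.card_ne_zero
    push_cast
    field_simp
  have hV : ∑ i, ‖z i - w‖ ^ 2 = ∑ i, ‖z i‖ ^ 2 - M * ‖w‖ ^ 2 := by
    have h1 : ∀ i, ‖z i - w‖ ^ 2 = ‖z i‖ ^ 2 - 2 * ((z i).re * w.re + (z i).im * w.im)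
        + ‖w‖ ^ 2 := by
      intro i
      simp only [Complex.sq_norm, Complex.normSq_apply, Complex.sub_re, Complex.sub_im]
      ring
    have h2 : ∑ i, (z i).re = M * w.re := by
      rw [← Complex.re_sum, hsum]; simp
    have h3 : ∑ i, (z i).im = M * w.im := by
      rw [← Complex.im_sum, hsum]; simp
    simp_rw [h1]
    rw [Finset.sum_add_distrib, Finset.sum_sub_distrib, ← Finset.mul_sum, Finset.sum_add_distrib,
      ← Finset.sum_mul, ← Finset.sum_mul, h2, h3]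
    simp only [Finset.sum_const, Finset.card_univ, nsmul_eq_mul, Complex.sq_norm,
      Complex.normSq_apply]
    ring
  have h4 : ∀ i, ‖z i - z i0‖ ^ 2 ≤ 2 * ‖z i - w‖ ^ 2 + 2 * ‖z i0 - w‖ ^ 2 := by
    intro i
    have h5 : ‖z i - z i0‖ ≤ ‖z i - w‖ + ‖z i0 - w‖ := by
      have : z i - z i0 = (z i - w) - (z i0 - w) := by ring
      rw [this]; exact norm_sub_le _ _
    have h6 : ‖z i - z i0‖ ^ 2 ≤ (‖z i - w‖ + ‖z i0 - w‖) ^ 2 := by gcongr
    nlinarith [sq_nonneg (‖z i - w‖ - ‖z i0 - w‖)]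
  have h7 : ‖z i0 - w‖ ^ 2 ≤ ∑ i, ‖z i - w‖ ^ 2 :=
    Finset.single_le_sum (f := fun i => ‖z i - w‖ ^ 2) (fun _ _ => sq_nonneg _)
      (Finset.mem_univ i0)
  have h8 : ∑ i, ‖z i - z i0‖ ^ 2 ≤ (2 + 2 * M) * ∑ i, ‖z i - w‖ ^ 2 := by
    calc ∑ i, ‖z i - z i0‖ ^ 2 ≤ ∑ i, (2 * ‖z i - w‖ ^ 2 + 2 * ‖z i0 - w‖ ^ 2) :=
          Finset.sum_le_sum fun i _ => h4 i
      _ = 2 * ∑ i, ‖z i - w‖ ^ 2 + M * (2 * ‖z i0 - w‖ ^ 2) := by
          rw [Finset.sum_add_distrib, ← Finset.mul_sum]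
          simp [hMdef]
      _ ≤ _ := by nlinarith
  have h9 : (2 + 2 * M)⁻¹ * ∑ i, ‖z i - z i0‖ ^ 2 ≤ ∑ i, ‖z i - w‖ ^ 2 := by
    rw [inv_mul_le_iff₀ (by positivity)]; exact h8
  rw [le_inv_mul_iff₀ hM]
  linarith

variable [MeasurableSpace X] [BorelSpace X]

omit [BorelSpace X] in
/-- Chebyshev: an `L²` bound gives small set expansion. -/
lemma sse_of_bound (F : SymFam X) (lam : Measure X) {a V η : ℝ} (ha : 0 ≤ a) (hV : 0 ≤ V)
    (hη : 0 ≤ η)
    (h : ∀ B, MeasurableSet B → lam B ≠ ∞ →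
      Integrable (fun y => ‖F.avg (B.indicator 1) y‖ ^ 2) lam ∧
      ∫ y, ‖F.avg (B.indicator 1) y‖ ^ 2 ∂lam ≤ a * lam.real B + V * lam.real B ^ 2) :
    SSE F.g lam (ENNReal.ofReal (25 * (a + V * η))) (ENNReal.ofReal η) := by
  intro B hB hBη
  have hBf : lam B ≠ ∞ := ne_top_of_le_ne_top ENNReal.ofReal_ne_top hBη
  obtain ⟨hint, hle⟩ := h B hB hBf
  have hBr : lam.real B ≤ η := ENNReal.toReal_le_of_le_ofReal hη hBη
  have hB0 : 0 ≤ lam.real B := measureReal_nonneg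
  have hsub : {y | Many fun i => F.g i y ∈ B} ⊆
      {y | ENNReal.ofReal (1 / 25) ≤ ENNReal.ofReal (‖F.avg (B.indicator 1) y‖ ^ 2)} := by
    intro y hy
    apply ENNReal.ofReal_le_ofReal
    have hM : (0 : ℝ) < Fintype.card F.ι := by exact_mod_cast Fintype.card_pos
    have h1 : F.avg (B.indicator 1) y = (((Fintype.card F.ι : ℝ)⁻¹ *
        ((Finset.univ.filter fun i => F.g i y ∈ B).card : ℝ) : ℝ) : ℂ) := by
      simp only [SymFam.avg, Set.indicator, Pi.one_apply]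
      rw [Finset.sum_ite]
      simp
    rw [h1, Complex.norm_real, Real.norm_eq_abs, sq_abs]
    have h2 : (Fintype.card F.ι : ℝ) ≤
        5 * ((Finset.univ.filter fun i => F.g i y ∈ B).card : ℝ) := by
      have : Fintype.card F.ι ≤ 5 * (Finset.univ.filter fun i => F.g i y ∈ B).card := by
        convert hy using 0
        rfl
      exact_mod_cast this
    have h3 : 1 / 5 ≤ (Fintype.card F.ι : ℝ)⁻¹ *
        ((Finset.univ.filter fun i => F.g i y ∈ B).card : ℝ) := by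
      rw [le_inv_mul_iff₀ hM]; linarith
    nlinarith
  have hmk := mul_meas_ge_le_lintegral₀ (μ := lam)
    (f := fun y => ENNReal.ofReal (‖F.avg (B.indicator 1) y‖ ^ 2))
    (hint.aestronglyMeasurable.aemeasurable.ennreal_ofReal) (ENNReal.ofReal (1 / 25))
  rw [← ofReal_integral_eq_lintegral_ofReal hint (Eventually.of_forall fun y => sq_nonneg _)]
    at hmk
  have h25 : ENNReal.ofReal 25 * ENNReal.ofReal (1 / 25) = 1 := by
    rw [← ENNReal.ofReal_mul (by norm_num)]; norm_num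
  calc lam {y | Many fun i => F.g i y ∈ B}
      ≤ 1 * lam {y | ENNReal.ofReal (1 / 25) ≤
          ENNReal.ofReal (‖F.avg (B.indicator 1) y‖ ^ 2)} := by
        rw [one_mul]; exact measure_mono hsub
    _ ≤ ENNReal.ofReal 25 * ENNReal.ofReal (∫ y, ‖F.avg (B.indicator 1) y‖ ^ 2 ∂lam) := by
        rw [← h25, mul_assoc]; gcongr
    _ ≤ ENNReal.ofReal (25 * (a + V * η) * lam.real B) := by
        rw [← ENNReal.ofReal_mul (by norm_num)]
        apply ENNReal.ofReal_le_ofReal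
        have : V * lam.real B ^ 2 ≤ V * η * lam.real B := by
          rw [sq, mul_assoc]; gcongr
        nlinarith
    _ = _ := by
        rw [ENNReal.ofReal_mul (by positivity), measureReal_def, ENNReal.ofReal_toReal hBf]

variable [SecondCountableTopology X]

/-- The abstract theorem: a finitely additive set function, invariant under enough isometries,
agrees on bounded Borel sets with a countably additive measure. -/
theorem exists_measure_of_gap {μ : Set X → ℝ≥0∞} (h : FA μ) (lam : Measure X) [lam.OuterRegular]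
    (ok : (X ≃ᵢ X) → Prop) (hinv : ∀ g, ok g → ∀ A, Adm A → μ (g '' A) = μ A)
    (hlam : ∀ g, ok g → ∀ A, MeasurableSet A → lam (g '' A) = lam A)
    {C : ℝ≥0∞} (hC : C ≠ ∞)
    (hD : ∀ x r, 0 < r → r ≤ 1 → lam (ball x (9 * r)) ≤ C * lam (ball x r))
    (hP : ∀ r, 0 < r → ∃ v : ℝ≥0∞, 0 < v ∧ ∀ x, v ≤ lam (ball x r))
    (x0 : X) (hlf : ∀ R, lam (ball x0 R) ≠ ∞) (K : ℝ) (d : ℕ)
    (hgrow : ∀ R : ℝ, 0 ≤ R → μ (ball x0 R) ≤ ENNReal.ofReal (K * (R + 1) ^ d))
    {V : ℝ} (hV : 0 ≤ V)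
    (hgap : ∀ a : ℝ, 0 < a → ∃ F : SymFam X, (∀ i, ok (F.g i)) ∧ ∀ B, MeasurableSet B →
      lam B ≠ ∞ → Integrable (fun y => ‖F.avg (B.indicator 1) y‖ ^ 2) lam ∧
      ∫ y, ‖F.avg (B.indicator 1) y‖ ^ 2 ∂lam ≤ a * lam.real B + V * lam.real B ^ 2) :
    ∃ ν : Measure X, ∀ A, Adm A → ν A = μ A := by
  have hc0 : 0 ≤ C.toReal := ENNReal.toReal_nonneg
  set a : ℝ := 1 / (50 * (1 + V) * (C.toReal + 1)) with ha
  have ha0 : 0 < a := by positivity
  obtain ⟨F, hF, hb⟩ := hgap a ha0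
  have hS := sse_of_bound F lam ha0.le hV ha0.le hb
  refine exists_measure h lam x0 hlf fun R ε hε => ?_
  refine abs_cont h F.g F.σ F.hσ (fun i => hinv _ (hF i)) lam (fun i => hlam _ (hF i)) hC
    (by simpa using ha0) hD hP hS ?_ x0 K d hgrow R hε
  calc 2 * (ENNReal.ofReal (25 * (a + V * a)) * C)
      = ENNReal.ofReal (2 * (25 * (a + V * a) * C.toReal)) := by
        rw [ENNReal.ofReal_mul (p := 2) (by norm_num),
          ENNReal.ofReal_mul (p := 25 * (a + V * a)) (by positivity), ENNReal.ofReal_toReal hC]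
        norm_num
    _ ≤ ENNReal.ofReal 1 := by
        apply ENNReal.ofReal_le_ofReal
        have : 2 * (25 * (a + V * a) * C.toReal) = C.toReal / (C.toReal + 1) := by
          rw [ha]; field_simp; ring
        rw [this, div_le_one (by positivity)]
        linarith
    _ = 1 := ENNReal.ofReal_one

end Pool.Agent.P.MP_465281_an
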