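import Mathlib

/-!
Traces of powers of symmetric operators.
-/

namespace Pool.Agent.P.MP_465281_an

open scoped InnerProductSpace

variable {U H : Type*} [AddCommGroup U] [Module ℂ U] [FiniteDimensional ℂ U]
  [NormedAddCommGroup H] [InnerProductSpace ℂ H]

lemma spec (T : U →ₗ[ℂ] H) (hT : Function.Injective T) (A : Module.End ℂ U)
    (hA : ∀ u v, ⟪T (A u), T v⟫_ℂ = ⟪T u, T (A v)⟫_ℂ) :
    ∃ (n : ℕ) (μ : Fin n → ℝ), (∀ k : ℕ, (LinearMap.trace ℂ U (A ^ k)).re = ∑ i, μ i ^ k) ∧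
      (∀ i, ∃ u, u ≠ 0 ∧ A u = (μ i : ℂ) • u) ∧
      ∀ ρ : ℝ, 0 ≤ ρ → (∀ i, |μ i| ≤ ρ) → ∀ u, ‖T (A u)‖ ≤ ρ * ‖T u‖ := by
  let _ : NormedAddCommGroup U := NormedAddCommGroup.induced U H T hT
  let _ : InnerProductSpace ℂ U := InnerProductSpace.induced T
  have hs : A.IsSymmetric := hA
  set b := hs.eigenvectorBasis rfl with hb
  set μ := hs.eigenvalues rfl with hμ
  have h1 : ∀ i, A (b i) = (μ i : ℂ) • b i := fun i => hs.apply_eigenvectorBasis rfl i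
  refine ⟨_, μ, fun k => ?_, fun i => ⟨b i, b.toBasis.ne_zero i, h1 i⟩, fun ρ h0 h u => ?_⟩
  · have h2 : ∀ i, (A ^ k) (b i) = ((μ i : ℂ) ^ k) • b i := by
      intro i
      induction k with
      | zero => simp
      | succ k ih => rw [pow_succ', Module.End.mul_apply, ih, map_smul, h1, smul_smul, pow_succ]
    rw [LinearMap.trace_eq_sum_inner _ b, Complex.re_sum]
    refine Finset.sum_congr rfl fun i _ => ?_
    rw [h2, inner_smul_right, b.inner_eq_one, mul_one, ← Complex.ofReal_pow, Complex.ofReal_re]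
  · change ‖A u‖ ≤ ρ * ‖u‖
    refine le_of_sq_le_sq ?_ (by positivity)
    rw [mul_pow, ← b.repr.norm_map, ← b.repr.norm_map u, EuclideanSpace.norm_sq_eq,
      EuclideanSpace.norm_sq_eq, Finset.mul_sum]
    refine Finset.sum_le_sum fun i _ => ?_
    rw [hb, hs.eigenvectorBasis_apply_self_apply rfl, norm_mul, mul_pow]
    gcongr
    simpa using h i

lemma le_of_pow_le {x ρ C : ℝ} (hρ : 0 < ρ) (h : ∀ m : ℕ, 1 ≤ m → x ^ (2 * m) ≤ C * ρ ^ (2 * m)) :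
    |x| ≤ ρ := by
  by_contra hh
  push Not at hh
  have h1 : 1 < (|x| / ρ) ^ 2 := one_lt_pow₀ ((one_lt_div hρ).2 hh) two_ne_zero
  obtain ⟨m, hm⟩ := pow_unbounded_of_one_lt C h1
  have h2 := h (m + 1) (by omega)
  have h3 : ((|x| / ρ) ^ 2) ^ m ≤ ((|x| / ρ) ^ 2) ^ (m + 1) := pow_le_pow_right₀ h1.le (by omega)
  have h4 : ((|x| / ρ) ^ 2) ^ (m + 1) ≤ C := by
    rw [← pow_mul, div_pow, div_le_iff₀ (by positivity), pow_mul, sq_abs, ← pow_mul]
    exact h2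
  linarith

lemma norm_le_of_trace (T : U →ₗ[ℂ] H) (hT : Function.Injective T) (A : Module.End ℂ U)
    (hA : ∀ u v, ⟪T (A u), T v⟫_ℂ = ⟪T u, T (A v)⟫_ℂ) {ρ C : ℝ} (hρ : 0 < ρ)
    (h : ∀ m : ℕ, 1 ≤ m → (LinearMap.trace ℂ U (A ^ (2 * m))).re ≤ C * ρ ^ (2 * m)) (u : U) :
    ‖T (A u)‖ ≤ ρ * ‖T u‖ := by
  obtain ⟨n, μ, h1, -, h3⟩ := spec T hT A hA
  refine h3 ρ hρ.le (fun i => le_of_pow_le (C := C) hρ fun m hm => le_trans ?_ (h m hm)) u
  rw [h1]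
  exact Finset.single_le_sum (f := fun i => μ i ^ (2 * m))
    (fun j _ => by rw [pow_mul]; positivity) (Finset.mem_univ i)

lemma trace_le_of_norm (T : U →ₗ[ℂ] H) (hT : Function.Injective T) (A : Module.End ℂ U)
    (hA : ∀ u v, ⟪T (A u), T v⟫_ℂ = ⟪T u, T (A v)⟫_ℂ) {ρ : ℝ}
    (h : ∀ u, ‖T (A u)‖ ≤ ρ * ‖T u‖) :
    ∃ C : ℝ, ∀ m : ℕ, (LinearMap.trace ℂ U (A ^ (2 * m))).re ≤ C * ρ ^ (2 * m) := by
  obtain ⟨n, μ, h1, h2, -⟩ := spec T hT A hA
  refine ⟨n, fun m => ?_⟩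
  rw [h1]
  calc ∑ i, μ i ^ (2 * m) ≤ ∑ _i : Fin n, ρ ^ (2 * m) := by
        refine Finset.sum_le_sum fun i _ => ?_
        obtain ⟨u, hu, hu'⟩ := h2 i
        have h3 := h u
        rw [hu', map_smul, norm_smul, Complex.norm_real, Real.norm_eq_abs] at h3
        have h4 : 0 < ‖T u‖ := norm_pos_iff.2 fun h0 => hu (hT (by rw [h0, map_zero]))
        have h5 := le_of_mul_le_mul_right h3 h4
        rw [pow_mul, pow_mul, ← sq_abs (μ i)]
        gcongr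
    _ = _ := by simp

lemma trace_nonneg (T : U →ₗ[ℂ] H) (hT : Function.Injective T) (A : Module.End ℂ U)
    (hA : ∀ u v, ⟪T (A u), T v⟫_ℂ = ⟪T u, T (A v)⟫_ℂ) (m : ℕ) :
    0 ≤ (LinearMap.trace ℂ U (A ^ (2 * m))).re := by
  obtain ⟨n, μ, h1, -, -⟩ := spec T hT A hA
  rw [h1]
  exact Finset.sum_nonneg fun j _ => by rw [pow_mul]; positivity

lemma norm_le_of_forall (T : U →ₗ[ℂ] H) (hT : Function.Injective T) (A : Module.End ℂ U)
    (hA : ∀ u v, ⟪T (A u), T v⟫_ℂ = ⟪T u, T (A v)⟫_ℂ) {ρ : ℝ} (hρ : 0 ≤ ρ)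
    (h : ∀ x : ℝ, (∀ m : ℕ, x ^ (2 * m) ≤ (LinearMap.trace ℂ U (A ^ (2 * m))).re) → x ≤ ρ)
    (u : U) : ‖T (A u)‖ ≤ ρ * ‖T u‖ := by
  obtain ⟨n, μ, h1, -, h3⟩ := spec T hT A hA
  refine h3 ρ hρ (fun i => h _ fun m => ?_) u
  rw [h1, pow_mul, sq_abs, ← pow_mul]
  exact Finset.single_le_sum (f := fun i => μ i ^ (2 * m))
    (fun j _ => by rw [pow_mul]; positivity) (Finset.mem_univ i)

lemma exists_norm_lt (T : U →ₗ[ℂ] H) (hT : Function.Injective T) (A : Module.End ℂ U)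
    (hA : ∀ u v, ⟪T (A u), T v⟫_ℂ = ⟪T u, T (A v)⟫_ℂ) {r : ℝ} (hr : 0 < r)
    (h : ∀ u, u ≠ 0 → ‖T (A u)‖ < r * ‖T u‖) :
    ∃ ρ, 0 ≤ ρ ∧ ρ < r ∧ ∀ u, ‖T (A u)‖ ≤ ρ * ‖T u‖ := by
  obtain ⟨n, μ, -, h2, h3⟩ := spec T hT A hA
  have h4 : ∀ i, |μ i| < r := by
    intro i
    obtain ⟨u, hu, hu'⟩ := h2 i
    have h3 := h u hu
    rw [hu', map_smul, norm_smul, Complex.norm_real, Real.norm_eq_abs] at h3
    exact lt_of_mul_lt_mul_right h3 (norm_nonneg _)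
  obtain ⟨ρ, h5, h6, h7⟩ : ∃ ρ, 0 ≤ ρ ∧ ρ < r ∧ ∀ i ∈ (Finset.univ : Finset (Fin n)), |μ i| ≤ ρ := by
    induction (Finset.univ : Finset (Fin n)) using Finset.induction_on with
    | empty => exact ⟨0, le_rfl, hr, by simp⟩
    | insert a s _ ih =>
      obtain ⟨ρ, h5, h6, h7⟩ := ih
      refine ⟨max ρ |μ a|, le_max_of_le_left h5, max_lt h6 (h4 a), fun i hi => ?_⟩
      rcases Finset.mem_insert.1 hi with rfl | hi
      · exact le_max_right _ _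
      · exact le_max_of_le_left (h7 i hi)
  exact ⟨ρ, h5, h6, h3 ρ h5 fun i => h7 i (Finset.mem_univ i)⟩

lemma norm_le_of_trace_one (T : U →ₗ[ℂ] H) (hT : Function.Injective T) (A : Module.End ℂ U)
    (B : H →L[ℂ] H) (hA : ∀ u, T (A u) = B (T u)) (hB : ∀ φ ψ, ⟪B φ, ψ⟫_ℂ = ⟪φ, B ψ⟫_ℂ)
    {o : H} (ho : ⟪o, o⟫_ℂ = 1) {d : U} (hd : T d = o) {n : ℕ} (hn : B o = (n : ℂ) • o)
    {ρ C : ℝ} (hρ : 0 < ρ) (h : ∀ m : ℕ, 1 ≤ m →
      (LinearMap.trace ℂ U (A ^ (2 * m))).re ≤ (n : ℝ) ^ (2 * m) + C * ρ ^ (2 * m)) (u : U) :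
    ‖B (T u) - (n : ℂ) • ⟪o, T u⟫_ℂ • o‖ ≤ ρ * ‖T u‖ := by
  let E : Module.End ℂ U := ((innerSL ℂ o).toLinearMap ∘ₗ T).smulRight d
  have hE : ∀ u, T (E u) = ⟪o, T u⟫_ℂ • o := by
    intro u; simp [E, hd]
  have hin : ∀ φ, ⟪o, B φ⟫_ℂ = n * ⟪o, φ⟫_ℂ := by
    intro φ
    rw [← hB, hn, inner_smul_left]
    simp
  have e1 : A * E = (n : ℂ) • E := by
    ext1 u; apply hT
    rw [Module.End.mul_apply, hA, hE, map_smul, hn, LinearMap.smul_apply, map_smul, hE, smul_comm]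
  have e2 : E * A = (n : ℂ) • E := by
    ext1 u; apply hT
    rw [Module.End.mul_apply, hE, hA, hin, LinearMap.smul_apply, map_smul, hE, smul_smul]
  have e3 : E * E = E := by
    ext1 u; apply hT
    rw [Module.End.mul_apply, hE, hE, inner_smul_right, ho, mul_one]
  have e4 : ∀ k : ℕ, A ^ k * E = (n : ℂ) ^ k • E := by
    intro k
    induction k with
    | zero => simp
    | succ k ih => rw [pow_succ, mul_assoc, e1, mul_smul_comm, ih, smul_smul, pow_succ']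
  have e5 : ∀ k : ℕ, (A - (n : ℂ) • E) ^ (k + 1) = A ^ (k + 1) - (n : ℂ) ^ (k + 1) • E := by
    intro k
    induction k with
    | zero => simp
    | succ k ih =>
      rw [pow_succ, ih, sub_mul, mul_sub, mul_sub, ← pow_succ, mul_smul_comm, e4, smul_mul_assoc,
        e2, smul_mul_assoc, mul_smul_comm, e3]
      simp only [smul_smul, sub_self, sub_zero, ← pow_succ']
  have htr : LinearMap.trace ℂ _ E = 1 := by
    rw [LinearMap.trace_smulRight, ← ho, LinearMap.comp_apply, hd]; rfl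
  have := norm_le_of_trace T hT (A - (n : ℂ) • E) (fun u v => by
    simp only [LinearMap.sub_apply, LinearMap.smul_apply, map_sub, map_smul, hE, inner_sub_left,
      inner_sub_right, inner_smul_left, inner_smul_right, hA, hB]
    simp [mul_comm]) (C := C) hρ (fun m hm => by
      obtain ⟨k, hk⟩ : ∃ k, 2 * m = k + 1 := ⟨2 * m - 1, by omega⟩
      have := h m hm
      rw [hk, e5, ← hk, map_sub, map_smul, htr, Complex.sub_re, smul_eq_mul,
        mul_one, ← Complex.ofReal_natCast, ← Complex.ofReal_pow, Complex.ofReal_re]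
      linarith) u
  rwa [LinearMap.sub_apply, map_sub, hA, LinearMap.smul_apply, map_smul, hE] at this

/-- finitely many operators have no common fixed vector -/
lemma exists_finset_fix {Γ : Type*} (π : Γ → Module.End ℂ U)
    (h : ∀ u, (∀ g, π g u = u) → u = 0) :
    ∃ s : Finset Γ, ∀ u, (∀ g ∈ s, π g u = u) → u = 0 := by
  classical
  let K : Finset Γ → Submodule ℂ U := fun s => ⨅ g ∈ s, LinearMap.ker (π g - 1)
  have hK : ∀ s u, u ∈ K s ↔ ∀ g ∈ s, π g u = u := by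
    intro s u
    simp [K, sub_eq_zero]
  obtain ⟨s, hs⟩ : ∃ s, ∀ t, Module.finrank ℂ (K s) ≤ Module.finrank ℂ (K t) :=
    ⟨Function.argmin fun s => Module.finrank ℂ (K s), fun t =>
      Function.argmin_le (fun s => Module.finrank ℂ (K s)) t⟩
  refine ⟨s, fun u hu => h u fun g => ?_⟩
  have h1 : K (insert g s) ≤ K s := fun v hv =>
    (hK _ _).2 fun g' hg' => (hK _ _).1 hv g' (Finset.mem_insert_of_mem hg')
  have h2 := Submodule.eq_of_le_of_finrank_le h1 (hs _)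
  have h3 : u ∈ K (insert g s) := h2 ▸ (hK _ _).2 hu
  exact (hK _ _).1 h3 g (Finset.mem_insert_self _ _)

end Pool.Agent.P.MP_465281_an
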