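import Pool.Agent.P.MP_465281_an.Words

/-!
The numerical part of the spectral gap estimate.
-/

namespace Pool.Agent.P.MP_465281_an

open scoped Classical Quaternion
open Filter Topology

lemma kk_nonneg {Lq : ℝ} (h : 0 ≤ Lq) (x : ℍ[ℤ]) : 0 ≤ kk Lq x := by
  unfold kk; split_ifs
  · exact h
  · positivity

lemma kk_smul (Lq : ℝ) {q : ℤ} (hq : q ≠ 0) (x : ℍ[ℤ]) : kk Lq (q • x) = kk Lq x := by
  unfold kk
  rw [imsq_smul, nsq_smul]
  have hq' : (q : ℝ) ≠ 0 := by exact_mod_cast hq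
  by_cases h : imsq x = 0
  · simp [h]
  · have h' : (imsq x : ℝ) ≠ 0 := by exact_mod_cast h
    rw [if_neg (mul_ne_zero (pow_ne_zero 2 hq) h), if_neg h]
    push_cast
    field_simp

lemma words_kk_le {p : ℕ} [Fact p.Prime] {ι : ZMod p} (hp5 : 5 ≤ p) (hι : ι * ι = -1) {e : ℕ}
    (he1 : 1 ≤ e) (he : e ≤ 3) (hne : 1 ≤ (Rn (e * p)).card)
    (hle : ((Rn (e * p)).card : ℝ) ≤ (p : ℝ) ^ (23 / 8 : ℝ)) {C : ℝ} (hC0 : 0 < C)
    (hC : ∀ (Lq : ℝ), 0 ≤ Lq → ∀ Q : ℕ, 1 ≤ Q → ∀ s : Finset ℍ[ℤ],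
      (∀ x ∈ s, nsq x = (Q : ℤ) ^ 2) → ∑ x ∈ s, kk Lq x ≤ 2 * Lq + C * (Q : ℝ) ^ (23 / 8 : ℝ))
    {Lq : ℝ} (hLq : 0 ≤ Lq) (m : ℕ) :
    ((words (Rn (e * p)) (2 * m)).map (kk Lq)).sum ≤ (m + 1) * (2402 ^ (2 * m) *
      (2 * Lq * ((Rn (e * p)).card : ℝ) ^ m + C * (27 * (p : ℝ) ^ (23 / 8 : ℝ)) ^ m)) := by
  have hp : p.Prime := Fact.out
  have hp0 : (p : ℤ) ≠ 0 := by exact_mod_cast hp.ne_zero
  have hp1 : (1 : ℝ) ≤ p := by exact_mod_cast hp.one_le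
  set S := Rn (e * p) with hS
  set W := words S (2 * m) with hW
  have hs1 : (1 : ℝ) ≤ S.card := by exact_mod_cast hne
  let Q : ℕ → ℕ := fun a => e ^ m * p ^ (m - a)
  have hdec : ∀ x ∈ W.toFinset, ∃ a ∈ Finset.range (m + 1), ∃ x' ∈ Rn ((Q a : ℤ) ^ 2),
      x = ((p : ℤ) ^ a) • x' ∧ W.count x ≤ 2402 ^ (2 * m) * S.card ^ a := by
    intro x hx
    have hn := nsq_words (D := e * p) (fun s hs => mem_Rn.1 hs) _ x (Multiset.mem_toFinset.1 hx)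
    have hm : ¬ Dv ((p : ℤ) ^ (m + 1)) x := by
      rintro ⟨z, rfl⟩
      rw [nsq_smul] at hn
      have h1 : (p : ℤ) * (p * nsq z) = (e : ℤ) ^ (2 * m) := by
        apply mul_left_cancel₀ (pow_ne_zero (2 * m) hp0)
        rw [mul_comm ((p : ℤ) ^ (2 * m)) ((e : ℤ) ^ (2 * m)), ← mul_pow, ← hn]
        ring
      have h2 : (p : ℤ) ∣ (e : ℤ) ^ (2 * m) := ⟨_, h1.symm⟩
      have h3 : p ∣ e ^ (2 * m) := by exact_mod_cast h2
      have := Nat.le_of_dvd he1 (hp.dvd_of_dvd_pow h3)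
      omega
    have hex : ∃ a, ¬ Dv ((p : ℤ) ^ (a + 1)) x := ⟨m, hm⟩
    have ha : Nat.find hex ≤ m := Nat.find_min' hex hm
    have hd : Dv ((p : ℤ) ^ Nat.find hex) x := by
      rcases h : Nat.find hex with _ | a
      · exact ⟨x, by simp⟩
      · exact not_not.1 (Nat.find_min hex (m := a) (by omega))
    obtain ⟨x', hx'⟩ := hd
    refine ⟨Nat.find hex, Finset.mem_range.2 (by omega), x', ?_, hx',
      count_words (by omega) hι he1 he hne _ x _ (Nat.find_spec hex)⟩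
    rw [mem_Rn]
    rw [hx', nsq_smul] at hn
    apply mul_left_cancel₀ (pow_ne_zero 2 (pow_ne_zero (Nat.find hex) hp0))
    rw [hn]
    simp only [Q]
    push_cast
    rw [← mul_pow, mul_left_comm, ← pow_add, Nat.add_sub_cancel' ha, ← mul_pow, ← pow_mul, mul_comm m]
  let g : ℕ → ℍ[ℤ] → ℝ := fun a x' => 2402 ^ (2 * m) * (S.card : ℝ) ^ a * kk Lq x'
  have hg0 : ∀ a x', 0 ≤ g a x' := fun a x' => mul_nonneg (by positivity) (kk_nonneg hLq _)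
  rw [Finset.sum_multiset_map_count]
  calc ∑ x ∈ W.toFinset, W.count x • kk Lq x
      ≤ ∑ x ∈ W.toFinset, ∑ a ∈ Finset.range (m + 1), ∑ x' ∈ Rn ((Q a : ℤ) ^ 2),
          if x = ((p : ℤ) ^ a) • x' then g a x' else 0 := by
        refine Finset.sum_le_sum fun x hx => ?_
        obtain ⟨a, ha, x', hx', h1, h2⟩ := hdec x hx
        refine le_trans ?_ (Finset.single_le_sum (f := fun a => ∑ x' ∈ Rn ((Q a : ℤ) ^ 2),
          if x = ((p : ℤ) ^ a) • x' then g a x' else 0) (fun a _ => Finset.sum_nonneg fun x' _ => by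
            split_ifs; exacts [hg0 _ _, le_rfl]) ha)
        refine le_trans ?_ (Finset.single_le_sum (f := fun x' =>
          if x = ((p : ℤ) ^ a) • x' then g a x' else 0) (fun x' _ => by
            split_ifs; exacts [hg0 _ _, le_rfl]) hx')
        simp only [if_pos h1, g, nsmul_eq_mul]
        rw [← kk_smul Lq (pow_ne_zero a hp0) x', ← h1]
        refine mul_le_mul_of_nonneg_right ?_ (kk_nonneg hLq _)
        exact_mod_cast h2
    _ ≤ ∑ a ∈ Finset.range (m + 1), ∑ x' ∈ Rn ((Q a : ℤ) ^ 2), g a x' := by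
        rw [Finset.sum_comm]
        refine Finset.sum_le_sum fun a _ => ?_
        rw [Finset.sum_comm]
        refine Finset.sum_le_sum fun x' _ => ?_
        rw [Finset.sum_ite_eq']
        split_ifs; exacts [le_rfl, hg0 _ _]
    _ ≤ ∑ _a ∈ Finset.range (m + 1), (2402 ^ (2 * m) *
          (2 * Lq * (S.card : ℝ) ^ m + C * (27 * (p : ℝ) ^ (23 / 8 : ℝ)) ^ m)) := by
        refine Finset.sum_le_sum fun a ha => ?_
        have ham : a ≤ m := Nat.lt_succ_iff.1 (Finset.mem_range.1 ha)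
        have hQ : 1 ≤ Q a := Nat.mul_pos (Nat.pow_pos he1) (Nat.pow_pos hp.pos)
        have h1 := hC Lq hLq (Q a) hQ _ fun x hx => mem_Rn.1 hx
        simp only [g]
        rw [← Finset.mul_sum, mul_assoc]
        gcongr 2402 ^ (2 * m) * ?_
        have h2 : (S.card : ℝ) ^ a ≤ (S.card : ℝ) ^ m := pow_le_pow_right₀ hs1 ham
        have h3 : (S.card : ℝ) ^ a * (Q a : ℝ) ^ (23 / 8 : ℝ) ≤
            (27 * (p : ℝ) ^ (23 / 8 : ℝ)) ^ m := by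
          have h4 : (e : ℝ) ^ (23 / 8 : ℝ) ≤ 27 := by
            have h5 : (1 : ℝ) ≤ e := by exact_mod_cast he1
            have h6 : (e : ℝ) ≤ 3 := by exact_mod_cast he
            calc (e : ℝ) ^ (23 / 8 : ℝ) ≤ (e : ℝ) ^ ((3 : ℕ) : ℝ) :=
                  Real.rpow_le_rpow_of_exponent_le h5 (by norm_num)
              _ = (e : ℝ) ^ 3 := Real.rpow_natCast _ _
              _ ≤ 3 ^ 3 := by gcongr
              _ = 27 := by norm_num
          have h7 : (Q a : ℝ) ^ (23 / 8 : ℝ) =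
              ((e : ℝ) ^ (23 / 8 : ℝ)) ^ m * ((p : ℝ) ^ (23 / 8 : ℝ)) ^ (m - a) := by
            simp only [Q]
            push_cast
            rw [Real.mul_rpow (by positivity) (by positivity), Real.rpow_pow_comm (by positivity),
              Real.rpow_pow_comm (by positivity)]
          rw [h7, mul_pow]
          calc (S.card : ℝ) ^ a * (((e : ℝ) ^ (23 / 8 : ℝ)) ^ m *
                ((p : ℝ) ^ (23 / 8 : ℝ)) ^ (m - a))
              ≤ ((p : ℝ) ^ (23 / 8 : ℝ)) ^ a * (27 ^ m * ((p : ℝ) ^ (23 / 8 : ℝ)) ^ (m - a)) := by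
                gcongr
            _ = _ := by rw [mul_left_comm, ← pow_add, Nat.add_sub_cancel' ham]
        calc (S.card : ℝ) ^ a * ∑ x ∈ Rn ((Q a : ℤ) ^ 2), kk Lq x
            ≤ (S.card : ℝ) ^ a * (2 * Lq + C * (Q a : ℝ) ^ (23 / 8 : ℝ)) := by gcongr
          _ = 2 * Lq * (S.card : ℝ) ^ a + C * ((S.card : ℝ) ^ a * (Q a : ℝ) ^ (23 / 8 : ℝ)) := by
              ring
          _ ≤ _ := by gcongr
    _ = _ := by simp

lemma card_Rn_le (n : ℕ) (hn : 1 ≤ n) : (Rn n).card ≤ 625 * n ^ 2 := by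
  have h1 : Rn n ⊆ box (-((Nat.sqrt n : ℤ) + 1)) ((Nat.sqrt n : ℤ) + 1) := by
    intro x hx
    refine mem_box_of_nsq (by positivity) ?_
    rw [mem_Rn.1 hx]
    exact_mod_cast (Nat.lt_succ_sqrt' n).le
  have h2 := Finset.card_le_card h1
  rw [card_box] at h2
  have h3 : 1 ≤ Nat.sqrt n := Nat.le_sqrt'.2 (by simpa using hn)
  have h4 : ((Nat.sqrt n : ℤ) + 1 + 1 - -((Nat.sqrt n : ℤ) + 1)).toNat ≤ 5 * Nat.sqrt n := by
    omega
  calc (Rn n).card ≤ (5 * Nat.sqrt n) ^ 4 := h2.trans (Nat.pow_le_pow_left h4 4)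
    _ = 625 * (Nat.sqrt n ^ 2) ^ 2 := by ring
    _ ≤ 625 * n ^ 2 := by gcongr; exact Nat.sqrt_le' n

theorem exists_good_norm : ∃ D : ℤ, 0 < D ∧ (Rn D).Nonempty ∧ ∃ l0 : ℕ, ∀ l : ℕ, l0 ≤ l →
    ∀ μ : ℝ, (∀ m : ℕ, ((l : ℝ) + 1) ^ 2 * (μ * (Rn D).card) ^ (2 * m) ≤
      ((words (Rn D) (2 * m)).map (kk ((2 * (l : ℝ) + 1) ^ 4))).sum) → μ ≤ 3 / 4 := by
  obtain ⟨C, hC0, hC⟩ := sum_kk_le
  obtain ⟨p, hp, hpl, hp4⟩ := Nat.exists_prime_gt_modEq_one ((11664 * 2402 ^ 4) ^ 8)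
    (show 4 ≠ 0 by norm_num)
  have : Fact p.Prime := ⟨hp⟩
  obtain ⟨ι, hι⟩ : IsSquare (-1 : ZMod p) := ZMod.exists_sq_eq_neg_one_iff.2 (by
    unfold Nat.ModEq at hp4; omega)
  have hp5 : 5 ≤ p := le_trans (by norm_num) hpl.le
  obtain ⟨e, he1, he, hmany⟩ := exists_many hp5 hι.symm
  have hp0 : (0 : ℝ) < p := by exact_mod_cast hp.pos
  set τ : ℝ := (p : ℝ) ^ (1 / 8 : ℝ) with hτ
  have hτ0 : 0 < τ := by positivity
  have hτ8 : τ ^ 8 = p := by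
    rw [hτ, ← Real.rpow_natCast, ← Real.rpow_mul hp0.le]; norm_num
  have hτ23 : τ ^ 23 = (p : ℝ) ^ (23 / 8 : ℝ) := by
    rw [hτ, ← Real.rpow_natCast, ← Real.rpow_mul hp0.le]; norm_num
  have hτA : 11664 * 2402 ^ 4 ≤ τ := by
    apply le_of_pow_le_pow_left₀ (n := 8) (by norm_num) hτ0.le
    rw [hτ8]; exact_mod_cast hpl.le
  have hτ1 : 1 ≤ τ := le_trans (by norm_num) hτA
  have hne : 1 ≤ (Rn (e * p)).card := by omega
  set s : ℝ := ((Rn (e * p)).card : ℝ) with hs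
  have hs3 : τ ^ 8 ≤ 3 * s := by rw [hτ8, hs]; exact_mod_cast hmany
  have hs0 : 0 < s := by rw [hs]; exact_mod_cast hne
  have hsle : s ≤ (p : ℝ) ^ (23 / 8 : ℝ) := by
    have h1 := card_Rn_le (e * p) (Nat.mul_pos he1 hp.pos)
    have h2 : s ≤ 625 * ((e : ℝ) * p) ^ 2 := by rw [hs]; exact_mod_cast h1
    have h3 : (e : ℝ) ≤ 3 := by exact_mod_cast he
    have h4 : τ ≤ τ ^ 7 := le_self_pow₀ hτ1 (by norm_num)
    calc s ≤ 625 * (3 * p) ^ 2 := h2.trans (by gcongr)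
      _ = 5625 * τ ^ 16 := by rw [← hτ8]; ring
      _ ≤ τ ^ 7 * τ ^ 16 := by gcongr; linarith
      _ = _ := by rw [← hτ23]; ring
  set b : ℝ := τ ^ 8 / (12 * 2402 ^ 2) with hb
  have hb1 : 1 < b := by
    rw [hb, one_lt_div (by norm_num)]
    have : τ ≤ τ ^ 8 := le_self_pow₀ hτ1 (by norm_num)
    linarith
  have hb0 : 0 < b := by linarith
  have hlim : Tendsto (fun m : ℕ => ((m : ℝ) + 1) * (4 / 9 : ℝ) ^ m * (32 * b + C)) atTop (𝓝 0) := by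
    have h2 := (tendsto_pow_const_mul_const_pow_of_abs_lt_one 1
      (r := (4 / 9 : ℝ)) (by rw [abs_of_pos] <;> norm_num))
    have h3 := (h2.comp (tendsto_add_atTop_nat 1)).mul_const ((9 / 4 : ℝ) * (32 * b + C))
    rw [zero_mul] at h3
    refine h3.congr fun j => ?_
    simp only [Function.comp]
    push_cast
    ring
  obtain ⟨m0, hm0⟩ := eventually_atTop.1 (hlim.eventually (gt_mem_nhds one_pos))
  refine ⟨e * p, by positivity, Finset.card_pos.1 hne, ⌈b ^ (m0 + 1)⌉₊, fun l hl μ hμ => ?_⟩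
  by_contra hlt
  push Not at hlt
  set l1 : ℝ := (l : ℝ) + 1 with hl1
  have hl0 : (0 : ℝ) ≤ l := Nat.cast_nonneg l
  have hl11 : 1 ≤ l1 := by linarith
  obtain ⟨m, hm1, hm2⟩ := exists_nat_pow_near (x := l1 ^ 2) (one_le_pow₀ hl11) hb1
  have hmm : m0 ≤ m := by
    have h1 : b ^ (m0 + 1) ≤ l := Nat.ceil_le.1 hl
    have h2 : b ^ (m0 + 1) < b ^ (m + 1) := by nlinarith
    have := (pow_lt_pow_iff_right₀ hb1).1 h2
    omega
  have h1 := (hμ m).trans (words_kk_le hp5 hι.symm he1 he hne hsle hC0 hC (by positivity) m)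
  rw [← hs, ← hτ23] at h1
  have h2 := hm0 m hmm
  have k1 : 2402 ^ (2 * m) * (2 * (2 * (l : ℝ) + 1) ^ 4 * s ^ m) ≤
      l1 ^ 2 * s ^ (2 * m) * (32 * b * (1 / 4) ^ m) := by
    have a1 : (2 * (l : ℝ) + 1) ^ 4 ≤ 16 * l1 ^ 2 * b ^ (m + 1) := by
      calc (2 * (l : ℝ) + 1) ^ 4 ≤ (2 * l1) ^ 4 := by gcongr; linarith
        _ = 16 * l1 ^ 2 * l1 ^ 2 := by ring
        _ ≤ _ := by gcongr
    have a2 : 2402 ^ 2 * b ≤ s * (1 / 4) := by
      rw [hb]; linarith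
    have a3 : (2402 ^ 2 * b) ^ m ≤ (s * (1 / 4)) ^ m := by gcongr
    calc 2402 ^ (2 * m) * (2 * (2 * (l : ℝ) + 1) ^ 4 * s ^ m)
        ≤ 2402 ^ (2 * m) * (2 * (16 * l1 ^ 2 * b ^ (m + 1)) * s ^ m) := by gcongr
      _ = 32 * b * l1 ^ 2 * s ^ m * (2402 ^ 2 * b) ^ m := by rw [mul_pow, ← pow_mul]; ring
      _ ≤ 32 * b * l1 ^ 2 * s ^ m * (s * (1 / 4)) ^ m := by gcongr
      _ = _ := by rw [mul_pow]; ring
  have k2 : 2402 ^ (2 * m) * (C * (27 * τ ^ 23) ^ m) ≤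
      l1 ^ 2 * s ^ (2 * m) * (C * (1 / 4) ^ m) := by
    have a2 : 2402 ^ 2 * (27 * τ ^ 23) ≤ b * s ^ 2 * (1 / 4) := by
      have c1 : (τ ^ 8 / 3) ^ 2 ≤ s ^ 2 := by gcongr; linarith
      calc 2402 ^ 2 * (27 * τ ^ 23) = (11664 * 2402 ^ 4) * τ ^ 23 / (432 * 2402 ^ 2) := by
            field_simp; ring
        _ ≤ τ * τ ^ 23 / (432 * 2402 ^ 2) := by gcongr
        _ = b * (τ ^ 8 / 3) ^ 2 * (1 / 4) := by rw [hb]; field_simp; ring
        _ ≤ _ := by gcongr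
    have a3 : (2402 ^ 2 * (27 * τ ^ 23)) ^ m ≤ (b * s ^ 2 * (1 / 4)) ^ m := by gcongr
    calc 2402 ^ (2 * m) * (C * (27 * τ ^ 23) ^ m) = C * (2402 ^ 2 * (27 * τ ^ 23)) ^ m := by
          rw [mul_pow (2402 ^ 2), ← pow_mul]; ring
      _ ≤ C * (b * s ^ 2 * (1 / 4)) ^ m := by gcongr
      _ = C * (b ^ m * s ^ (2 * m) * (1 / 4) ^ m) := by rw [mul_pow, mul_pow, ← pow_mul]
      _ ≤ C * (l1 ^ 2 * s ^ (2 * m) * (1 / 4) ^ m) := by gcongr
      _ = _ := by ring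
  have k3 : l1 ^ 2 * s ^ (2 * m) * (9 / 16) ^ m ≤ l1 ^ 2 * (μ * s) ^ (2 * m) := by
    have : (9 / 16 : ℝ) ^ m ≤ μ ^ (2 * m) := by
      rw [pow_mul]; gcongr; nlinarith
    calc l1 ^ 2 * s ^ (2 * m) * (9 / 16) ^ m ≤ l1 ^ 2 * s ^ (2 * m) * μ ^ (2 * m) := by gcongr
      _ = _ := by rw [mul_pow]; ring
  have k4 : l1 ^ 2 * s ^ (2 * m) * (9 / 16) ^ m ≤
      l1 ^ 2 * s ^ (2 * m) * (((m : ℝ) + 1) * ((32 * b + C) * (1 / 4) ^ m)) := by
    refine k3.trans (h1.trans ?_)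
    rw [mul_add (2402 ^ (2 * m) : ℝ)]
    calc ((m : ℝ) + 1) * (2402 ^ (2 * m) * (2 * (2 * (l : ℝ) + 1) ^ 4 * s ^ m) +
          2402 ^ (2 * m) * (C * (27 * τ ^ 23) ^ m))
        ≤ ((m : ℝ) + 1) * (l1 ^ 2 * s ^ (2 * m) * (32 * b * (1 / 4) ^ m) +
          l1 ^ 2 * s ^ (2 * m) * (C * (1 / 4) ^ m)) := by gcongr
      _ = _ := by ring
  have k5 := le_of_mul_le_mul_left k4 (by positivity)
  have k6 : ((m : ℝ) + 1) * ((32 * b + C) * (1 / 4) ^ m) =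
      (((m : ℝ) + 1) * (4 / 9) ^ m * (32 * b + C)) * (9 / 16) ^ m := by
    have : (1 / 4 : ℝ) ^ m = (4 / 9) ^ m * (9 / 16) ^ m := by rw [← mul_pow]; norm_num
    rw [this]; ring
  rw [k6] at k5
  have k7 : (0 : ℝ) < (9 / 16) ^ m := by positivity
  nlinarith

end Pool.Agent.P.MP_465281_an
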