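import Pool.Agent.P.MP_465281_an.Rep
import Pool.Agent.P.MP_465281_an.Spec
import Pool.Agent.P.MP_465281_an.WordSum

/-!
The regular representation of the group of unit quaternions.
-/

namespace Pool.Agent.P.MP_465281_an

open scoped Classical Quaternion InnerProductSpace
open MvPolynomial MeasureTheory

/-- unit quaternions -/
abbrev SU := Metric.sphere (0 : ℍ[ℝ]) 1

/-- Borel sets -/
@[reducible] noncomputable def msSU : MeasurableSpace SU := borel _

attribute [local instance] msSU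

lemma bsSU : BorelSpace SU := ⟨rfl⟩

attribute [local instance] bsSU

/-- Haar measure -/
noncomputable def mG : Measure SU := Measure.haarMeasure ⊤

lemma mG_haar : mG.IsHaarMeasure := by unfold mG; infer_instance

lemma mG_prob : IsProbabilityMeasure mG := ⟨Measure.haarMeasure_self⟩

attribute [local instance] mG_haar mG_prob

lemma SU.norm (s : SU) : ‖(s : ℍ[ℝ])‖ = 1 := norm_eq_of_mem_sphere s

/-- square integrable functions -/
noncomputable abbrev HH := Lp ℂ 2 mG

/-- left translation -/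
noncomputable def Lop (s : SU) : HH →ₗᵢ[ℂ] HH :=
  Lp.compMeasurePreservingₗᵢ ℂ (s * ·) (measurePreserving_mul_left mG s)

lemma Lop_ae (s : SU) (φ : HH) : Lop s φ =ᵐ[mG] fun x => φ (s * x) :=
  Lp.coeFn_compMeasurePreserving φ (measurePreserving_mul_left mG s)

lemma Lop_mul (s t : SU) (φ : HH) : Lop (s * t) φ = Lop t (Lop s φ) := by
  ext1
  filter_upwards [Lop_ae (s * t) φ, Lop_ae t (Lop s φ),
    (measurePreserving_mul_left mG t).quasiMeasurePreserving.ae (Lop_ae s φ)] with x h1 h2 h3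
  rw [h1, h2, h3, mul_assoc]

lemma Lop_one (φ : HH) : Lop 1 φ = φ := by
  ext1
  filter_upwards [Lop_ae 1 φ] with x h1
  rw [h1, one_mul]

lemma inner_Lop (s : SU) (φ ψ : HH) : ⟪Lop s φ, ψ⟫_ℂ = ⟪φ, Lop s⁻¹ ψ⟫_ℂ := by
  rw [← (Lop s).inner_map_map φ, ← Lop_mul, inv_mul_cancel, Lop_one]

/-- continuous functions as square integrable functions -/
noncomputable abbrev tL : C(SU, ℂ) →L[ℂ] HH := ContinuousMap.toLp 2 mG ℂ

lemma Lop_tL (s : SU) (f g : C(SU, ℂ)) (h : ∀ x, g x = f (s * x)) : Lop s (tL f) = tL g := by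
  ext1
  filter_upwards [Lop_ae s (tL f), ContinuousMap.coeFn_toLp (p := 2) (𝕜 := ℂ) mG g,
    (measurePreserving_mul_left mG s).quasiMeasurePreserving.ae
      (ContinuousMap.coeFn_toLp (p := 2) (𝕜 := ℂ) mG f)] with x h1 h2 h3
  rw [h1, h2, h3, h]

/-- matrix entries -/
noncomputable def ent (p : Fin 2 × Fin 2) : C(SU, ℂ) :=
  ⟨fun x => qm x p.1 p.2, by
    have h1 := Quaternion.continuous_re
    have h2 := Quaternion.continuous_imI
    have h3 := Quaternion.continuous_imJ
    have h4 := Quaternion.continuous_imK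
    obtain ⟨i, j⟩ := p
    fin_cases i <;> fin_cases j <;> simp [qm, qmat] <;> fun_prop⟩

variable {κ : Type}

/-- polynomial functions -/
noncomputable def ev (c : κ → Fin 2) : Pol κ →ₐ[ℂ] C(SU, ℂ) := aeval fun p => ent (p.1, c p.2)

lemma ev_apply (c : κ → Fin 2) (p : Pol κ) (x : SU) :
    ev c p x = eval (fun q => qm x q.1 (c q.2)) p := by
  induction p using MvPolynomial.induction_on with
  | C a => simp [ev]
  | add p q h1 h2 => simp [h1, h2]
  | mul_X p q h => rw [map_mul, map_mul, ContinuousMap.mul_apply, h]; simp [ev, ent]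

lemma ev_subs (c : κ → Fin 2) (p : Pol κ) (s x : SU) :
    ev c (subs (qm s) p) x = ev c p (s * x) := by
  rw [ev_apply, ev_apply, eval_subs, Metric.unitSphere.coe_mul, qm_mul]
  simp only [Matrix.mul_apply]

/-- homogeneous polynomials as square integrable functions -/
noncomputable def TT (c : κ → Fin 2) (N : ℕ) : Hm κ N →ₗ[ℂ] HH :=
  tL.toLinearMap ∘ₗ (ev c).toLinearMap ∘ₗ (Hm κ N).subtype

lemma TT_apply (c : κ → Fin 2) (N : ℕ) (u : Hm κ N) : TT c N u = tL (ev c u) := rfl

lemma TT_rep (c : κ → Fin 2) (N : ℕ) (s : SU) (u : Hm κ N) :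
    TT c N (rep κ N (qm s) u) = Lop s (TT c N u) :=
  (Lop_tL s _ _ fun x => ev_subs c u s x).symm

lemma TT_inj {c : κ → Fin 2} (hc : Function.Injective c) (N : ℕ) : Function.Injective (TT c N) := by
  refine (injective_iff_map_eq_zero _).2 fun u hu => ?_
  have h1 : ev c u = 0 := ContinuousMap.toLp_injective mG (hu.trans tL.map_zero.symm)
  ext1
  refine eq_zero_of_sphere' hc u.2 fun x hx => ?_
  have := ev_apply c u ⟨x, mem_sphere_zero_iff_norm.2 hx⟩
  rw [h1] at this
  exact this.symm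

/-- sum of translations -/
noncomputable def AH (F : Multiset SU) : HH →L[ℂ] HH :=
  (F.map fun s => (Lop s).toContinuousLinearMap).sum

/-- sum of translations on polynomials -/
noncomputable def AU (κ : Type) (N : ℕ) (F : Multiset SU) : Module.End ℂ (Hm κ N) :=
  (F.map fun s : SU => rep κ N (qm s)).sum

lemma AH_cons (s : SU) (F : Multiset SU) (φ : HH) : AH (s ::ₘ F) φ = Lop s φ + AH F φ := by
  simp [AH]

lemma AH_add (F F' : Multiset SU) (φ : HH) : AH (F + F') φ = AH F φ + AH F' φ := by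
  simp [AH]

lemma AH_zero (φ : HH) : AH 0 φ = 0 := by simp [AH]

lemma TT_AU (c : κ → Fin 2) (N : ℕ) (F : Multiset SU) (u : Hm κ N) :
    TT c N (AU κ N F u) = AH F (TT c N u) := by
  induction F using Multiset.induction_on with
  | empty => simp [AU, AH]
  | cons s F ih => rw [AH_cons, ← ih, ← TT_rep]; simp [AU]

lemma norm_AH_le (F : Multiset SU) (φ : HH) : ‖AH F φ‖ ≤ F.card * ‖φ‖ := by
  induction F using Multiset.induction_on with
  | empty => simp [AH]
  | cons s F ih =>
    rw [AH_cons, Multiset.card_cons]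
    refine (norm_add_le _ _).trans ?_
    rw [LinearIsometry.norm_map]
    push_cast
    linarith

lemma inner_AH (F : Multiset SU) (φ ψ : HH) : ⟪AH F φ, ψ⟫_ℂ = ⟪φ, AH (F.map (·⁻¹)) ψ⟫_ℂ := by
  induction F using Multiset.induction_on with
  | empty => simp [AH]
  | cons s F ih =>
    rw [Multiset.map_cons, AH_cons, AH_cons, inner_add_left, inner_add_right, ih, inner_Lop]

lemma AU_symm (c : κ → Fin 2) (N : ℕ) {F : Multiset SU} (hF : F.map (·⁻¹) = F) (u v : Hm κ N) :
    ⟪TT c N (AU κ N F u), TT c N v⟫_ℂ = ⟪TT c N u, TT c N (AU κ N F v)⟫_ℂ := by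
  rw [TT_AU, TT_AU, inner_AH, hF]

/-- products of words -/
noncomputable def gw (F : Multiset SU) : ℕ → Multiset SU
  | 0 => {1}
  | m + 1 => F.bind fun s => (gw F m).map (s * ·)

lemma card_gw (F : Multiset SU) (m : ℕ) : (gw F m).card = F.card ^ m := by
  induction m with
  | zero => simp [gw]
  | succ m ih => simp [gw, Multiset.card_bind, ih, pow_succ']

lemma AU_pow (N : ℕ) (F : Multiset SU) (m : ℕ) : AU κ N F ^ m = AU κ N (gw F m) := by
  induction m with
  | zero => simp [gw, AU, qm_one, rep_one]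
  | succ m ih =>
    rw [pow_succ, ih]
    simp only [AU, gw, Multiset.map_bind, Multiset.sum_bind, Multiset.map_map, Function.comp_def,
      Metric.unitSphere.coe_mul, qm_mul, rep_mul, Multiset.sum_map_mul_right,
      Multiset.sum_map_mul_left]

lemma trace_AU (N : ℕ) (W : Multiset SU) : (LinearMap.trace ℂ _ (AU κ N W)).re =
    (W.map fun s : SU => (LinearMap.trace ℂ _ (rep κ N (qm s))).re).sum := by
  induction W using Multiset.induction_on with
  | empty => simp [AU]
  | cons s F ih => rw [Multiset.map_cons, Multiset.sum_cons, ← ih]; simp [AU]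

lemma trace_AU_one (N : ℕ) (F : Multiset SU) (m : ℕ) :
    (LinearMap.trace ℂ _ (AU Unit N F ^ m)).re =
      (((gw F m).map fun s : SU => (s : ℍ[ℝ]).re).map (ch N)).sum := by
  rw [AU_pow, trace_AU, Multiset.map_map]
  simp only [trace_rep_one N _ (SU.norm _), Function.comp_def]

lemma trace_AU_two (N : ℕ) (F : Multiset SU) (m : ℕ) :
    (LinearMap.trace ℂ _ (AU (Fin 2) (2 * N) F ^ m)).re = (F.card : ℝ) ^ m +
      ∑ k ∈ Finset.range N, (2 * k + 3) *
        (LinearMap.trace ℂ _ (AU Unit (2 * (k + 1)) F ^ m)).re := by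
  rw [AU_pow, trace_AU]
  simp only [trace_rep_two N _ (SU.norm _), trace_AU_one, Multiset.sum_map_add, Multiset.map_map,
    Function.comp_def, Multiset.sum_map_sum, Multiset.sum_map_mul_left]
  simp [card_gw]

/-- real quaternion of an integral quaternion -/
def toR (x : ℍ[ℤ]) : ℍ[ℝ] := mkq x.re x.imI x.imJ x.imK

lemma toR_mul (x y : ℍ[ℤ]) : toR (x * y) = toR x * toR y := by
  ext <;> simp [toR]

lemma toR_norm_sq (x : ℍ[ℤ]) : ‖toR x‖ ^ 2 = nsq x := by
  rw [norm_sq_q]; simp [toR, nsq]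

lemma toR_norm_pos {x : ℍ[ℤ]} (hx : x ≠ 0) : 0 < ‖toR x‖ := by
  have h1 := toR_norm_sq x
  have h2 : (0 : ℝ) < nsq x := by exact_mod_cast nsq_pos hx
  exact lt_of_le_of_ne (norm_nonneg _) fun h => by rw [← h] at h1; linarith

/-- normalisation -/
noncomputable def nrm (x : ℍ[ℤ]) : SU :=
  if h : x = 0 then 1 else ⟨‖toR x‖⁻¹ • toR x, by
    rw [mem_sphere_zero_iff_norm, norm_smul, norm_inv, norm_norm,
      inv_mul_cancel₀ (toR_norm_pos h).ne']⟩

lemma nrm_val {x : ℍ[ℤ]} (hx : x ≠ 0) : (nrm x : ℍ[ℝ]) = ‖toR x‖⁻¹ • toR x := by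
  rw [nrm, dif_neg hx]

lemma nrm_mul {x y : ℍ[ℤ]} (hx : x ≠ 0) (hy : y ≠ 0) : nrm (x * y) = nrm x * nrm y := by
  ext1
  rw [Metric.unitSphere.coe_mul, nrm_val hx, nrm_val hy, nrm_val (mul_ne_zero hx hy), toR_mul,
    norm_mul, smul_mul_smul_comm, mul_inv]

lemma nrm_one : nrm 1 = 1 := by
  have := nrm_mul (x := 1) (y := 1) one_ne_zero one_ne_zero
  rw [mul_one] at this
  exact (mul_eq_left.1 this.symm)

lemma nrm_star {x : ℍ[ℤ]} (hx : x ≠ 0) : nrm (star x) = (nrm x)⁻¹ := by
  refine eq_inv_of_mul_eq_one_left ?_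
  ext1
  have h1 : toR (star x) = star (toR x) := by ext <;> simp [toR]
  have h2 := (toR_norm_pos hx).ne'
  rw [Metric.unitSphere.coe_mul, nrm_val hx, nrm_val (star_ne_zero.2 hx), h1, norm_star,
    smul_mul_smul_comm, Quaternion.star_mul_self, Quaternion.normSq_eq_norm_mul_self,
    ← Quaternion.coe_smul, smul_eq_mul]
  field_simp
  rfl

lemma ch_le_kk {x : ℍ[ℤ]} (hx : x ≠ 0) (N : ℕ) :
    ch N (nrm x : ℍ[ℝ]).re ^ 4 ≤ kk (((N : ℝ) + 1) ^ 4) x := by
  have h0 := toR_norm_pos hx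
  have h1 := toR_norm_sq x
  have hi : (0 : ℝ) ≤ imsq x := by unfold imsq; positivity
  have hn : (0 : ℝ) < nsq x := by exact_mod_cast nsq_pos hx
  have h2 : (√(imsq x / nsq x)) ^ 2 = imsq x / nsq x := Real.sq_sqrt (by positivity)
  have h3 : (nrm x : ℍ[ℝ]).re ^ 2 + (√(imsq x / nsq x)) ^ 2 = 1 := by
    rw [h2, nrm_val hx, Quaternion.re_smul, smul_eq_mul, mul_pow, inv_pow, h1]
    field_simp
    simp [toR, imsq, nsq]
    ring
  obtain ⟨h4, h5⟩ := ch_bounds h3 N
  have h6 : ∀ y : ℝ, y ^ 4 = |y| ^ 4 := fun y => (Even.pow_abs ⟨2, rfl⟩ y).symm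
  unfold kk
  split_ifs with h
  · rw [h6]; gcongr
  · have hi' : (0 : ℝ) < imsq x := lt_of_le_of_ne hi fun h' => h (by exact_mod_cast h'.symm)
    have h7 : (|ch N (nrm x : ℍ[ℝ]).re| * |√(imsq x / nsq x)|) ^ 4 ≤ 1 :=
      pow_le_one₀ (by positivity) h5
    rw [mul_pow, ← h6, ← h6, show (√(imsq x / nsq x)) ^ 4 = ((√(imsq x / nsq x)) ^ 2) ^ 2 by ring,
      h2, ← le_div_iff₀ (by positivity)] at h7
    refine h7.trans (le_of_eq ?_)
    field_simp

lemma c1_inj : Function.Injective (fun _ : Unit => (0 : Fin 2)) := fun _ _ _ => rfl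

theorem high_bound : ∃ S : Multiset SU, S.map (·⁻¹) = S ∧ 0 < S.card ∧ ∃ l0 : ℕ, ∀ l, l0 ≤ l →
    ∀ u : Hm Unit (2 * l), ‖AH S (TT (fun _ => 0) _ u)‖ ≤ 3 / 4 * S.card * ‖TT (fun _ => 0) _ u‖ := by
  obtain ⟨D, hD, hne, l0, h⟩ := exists_good_norm
  have h0 : ∀ x : ℍ[ℤ], ∀ m : ℕ, nsq x = D ^ m → x ≠ 0 := by
    rintro x m hx rfl
    have := pow_pos hD m
    rw [← hx] at this
    simp [nsq] at this
  have h0' : ∀ x ∈ Rn D, x ≠ 0 := fun x hx => h0 x 1 (by rw [mem_Rn.1 hx, pow_one])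
  set S : Multiset SU := (Rn D).val.map nrm with hS
  have hsym : S.map (·⁻¹) = S := by
    have e1 : (Rn D).val.map star = (Rn D).val := by
      have : (Rn D).image star = Rn D := by
        ext x
        simp only [Finset.mem_image, mem_Rn]
        exact ⟨by rintro ⟨y, hy, rfl⟩; rw [nsq_star, hy],
          fun hx => ⟨star x, by rw [nsq_star, hx], star_star x⟩⟩
      rw [← Finset.image_val_of_injOn star_injective.injOn, this]
    rw [hS]
    conv_rhs => rw [← e1]
    rw [Multiset.map_map, Multiset.map_map]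
    exact Multiset.map_congr rfl fun x hx => (nrm_star (h0' x hx)).symm
  have hgw : ∀ m, gw S m = (words (Rn D) m).map nrm := by
    intro m
    induction m with
    | zero => simp [gw, words, nrm_one]
    | succ m ih =>
      rw [gw, words, ih, hS, Multiset.bind_map, Multiset.map_bind]
      refine Multiset.bind_congr fun s hs => ?_
      rw [Multiset.map_map, Multiset.map_map]
      refine Multiset.map_congr rfl fun x hx => (nrm_mul (h0' s hs) (h0 x m ?_)).symm
      exact nsq_words (fun s hs => mem_Rn.1 hs) m x hx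
  have hc : S.card = (Rn D).card := by simp [hS]
  have hc0 : 0 < S.card := hc ▸ hne.card_pos
  have hc1 : (0 : ℝ) < S.card := by exact_mod_cast hc0
  refine ⟨S, hsym, hc0, l0, fun l hl u => ?_⟩
  rw [← TT_AU]
  refine norm_le_of_forall _ (TT_inj c1_inj _) _ (AU_symm _ _ hsym) (by positivity)
    (fun x hx => ?_) u
  rw [← div_le_iff₀ hc1]
  refine h l hl _ fun m => ?_
  rw [← hc, div_mul_cancel₀ _ hc1.ne']
  have h1 := ch_four ((gw S (2 * m)).map fun s : SU => (s : ℍ[ℝ]).re) (fun n => by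
    rw [← trace_AU_one]
    exact trace_nonneg _ (TT_inj c1_inj _) _ (AU_symm _ _ hsym) m) l
  rw [← trace_AU_one] at h1
  refine le_trans (mul_le_mul_of_nonneg_left (hx m) (by positivity)) (h1.trans ?_)
  rw [hgw, Multiset.map_map, Multiset.map_map]
  refine Multiset.sum_map_le_sum_map _ _ fun y hy => ?_
  have := ch_le_kk (h0 y _ (nsq_words (fun s hs => mem_Rn.1 hs) _ y hy)) (2 * l)
  push_cast at this
  exact this

end Pool.Agent.P.MP_465281_an
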