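import Pool.Agent.P.MP_465281_an.Gap1

/-!
A spectral gap for finitely many unit quaternions.
-/

namespace Pool.Agent.P.MP_465281_an

open scoped Classical Quaternion InnerProductSpace
open MvPolynomial MeasureTheory

attribute [local instance] msSU bsSU mG_haar mG_prob

lemma no_fixed {N : ℕ} (hN : 1 ≤ N) (u : Hm Unit N) (h : ∀ g : SU, rep Unit N (qm g) u = u) :
    u = 0 := by
  have h1 : ∀ g : SU, ev (fun _ => 0) u.1 g = ev (fun _ => 0) u.1 1 := by
    intro g
    have := ev_subs (fun _ : Unit => 0) u.1 g 1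
    rw [← rep_val, h g, mul_one] at this
    exact this.symm
  have hN' : (N : ℝ) ≠ 0 := by positivity
  let t : SU := ⟨mkq (Real.cos (Real.pi / N)) (Real.sin (Real.pi / N)) 0 0, by
    rw [mem_sphere_zero_iff_norm]
    refine (pow_eq_one_iff_of_nonneg (norm_nonneg _) two_ne_zero).1 ?_
    rw [norm_sq_q]; simp⟩
  have h2 := eval_smul_hom u.2 (Complex.exp ((Real.pi / N : ℝ) * Complex.I))
    fun q : Fin 2 × Unit => qm (1 : SU) q.1 0
  have h3 : Complex.exp ((Real.pi / N : ℝ) * Complex.I) ^ N = -1 := by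
    rw [← Complex.exp_nat_mul, ← Complex.exp_pi_mul_I]
    congr 1
    have : (N : ℂ) ≠ 0 := by exact_mod_cast hN'
    push_cast
    field_simp
  have h4 : (fun q : Fin 2 × Unit => Complex.exp ((Real.pi / N : ℝ) * Complex.I) *
      qm (1 : SU) q.1 0) = fun q => qm t q.1 0 := by
    ext ⟨i, j⟩
    rw [Complex.exp_mul_I, ← Complex.ofReal_cos, ← Complex.ofReal_sin]
    fin_cases i <;> simp [qm, qmat, t, mul_comm]
  rw [h3, h4, ← ev_apply (fun _ => 0), ← ev_apply (fun _ => 0), h1] at h2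
  have h5 : ev (fun _ => 0) u.1 1 = 0 := by linear_combination h2 / 2
  ext1
  refine eq_zero_of_sphere' c1_inj u.2 fun x hx => ?_
  exact (ev_apply (fun _ => 0) u.1 ⟨x, mem_sphere_zero_iff_norm.2 hx⟩).symm.trans ((h1 _).trans h5)

lemma norm_AH_lt {F : Multiset SU} (h1 : 1 ∈ F) {g : SU} (hg : g ∈ F) {φ : HH}
    (h : Lop g φ ≠ φ) : ‖AH F φ‖ < F.card * ‖φ‖ := by
  have hg1 : g ≠ 1 := by rintro rfl; exact h (Lop_one φ)
  obtain ⟨F1, rfl⟩ := Multiset.exists_cons_of_mem h1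
  obtain ⟨F2, rfl⟩ := Multiset.exists_cons_of_mem ((Multiset.mem_cons.1 hg).resolve_left hg1)
  rw [AH_cons, AH_cons, Lop_one, ← add_assoc, Multiset.card_cons, Multiset.card_cons]
  have h2 := norm_AH_le F2 φ
  have h3 := norm_add_le (φ + Lop g φ) (AH F2 φ)
  have h4 : ‖φ + Lop g φ‖ < 2 * ‖φ‖ := by
    have h5 := parallelogram_law_with_norm ℂ φ (Lop g φ)
    rw [LinearIsometry.norm_map] at h5
    have h6 : 0 < ‖φ - Lop g φ‖ := norm_pos_iff.2 (sub_ne_zero.2 h.symm)
    refine lt_of_pow_lt_pow_left₀ 2 (by positivity) ?_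
    nlinarith
  push_cast
  linarith

theorem all_bound : ∃ F : Multiset SU, F.map (·⁻¹) = F ∧ ∃ ρ : ℝ, 0 < ρ ∧ ρ < F.card ∧
    ∀ l, 1 ≤ l → ∀ u : Hm Unit (2 * l),
      ‖AH F (TT (fun _ => 0) _ u)‖ ≤ ρ * ‖TT (fun _ => 0) _ u‖ := by
  obtain ⟨S, hS, hS0, l0, hl0⟩ := high_bound
  have hfix : ∀ l : ℕ, ∃ s : Finset SU, ∀ u : Hm Unit (2 * (l + 1)),
      (∀ g ∈ s, rep Unit _ (qm g) u = u) → u = 0 := fun l =>
    exists_finset_fix (fun g : SU => rep Unit _ (qm g)) (no_fixed (by omega))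
  choose s hs using hfix
  set R : Multiset SU := ((Finset.range l0).biUnion s).val with hR
  set S' : Multiset SU := 1 ::ₘ (R + R.map (·⁻¹)) with hS'
  have hsym : (S + S').map (·⁻¹) = S + S' := by
    simp only [hS', Multiset.map_add, Multiset.map_cons, inv_one, hS, Multiset.map_map,
      Function.comp_def, inv_inv, Multiset.map_id']
    rw [add_comm R]
  have hS1 : (0 : ℝ) < S.card := by exact_mod_cast hS0
  have hS2 : (0 : ℝ) ≤ S'.card := by positivity
  have hcard : ((S + S').card : ℝ) = S.card + S'.card := by simp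
  have hlow : ∀ l, l ≤ l0 → ∃ ρ : ℝ, ρ < (S + S').card ∧ ∀ k, k < l → ∀ u : Hm Unit (2 * (k + 1)),
      ‖AH (S + S') (TT (fun _ => 0) _ u)‖ ≤ ρ * ‖TT (fun _ => 0) _ u‖ := by
    intro l
    induction l with
    | zero => exact fun _ => ⟨0, by rw [hcard]; linarith, by simp⟩
    | succ l ih =>
      intro hl
      obtain ⟨ρ, h1, h2⟩ := ih (by omega)
      obtain ⟨ρ', -, h3, h4⟩ := exists_norm_lt (TT (fun _ : Unit => 0) (2 * (l + 1)))
        (TT_inj c1_inj _) _ (AU_symm _ _ hsym) (r := (S + S').card) (by rw [hcard]; linarith) (by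
          intro u hu
          obtain ⟨g, hg, hgu⟩ : ∃ g ∈ s l, rep Unit _ (qm g) u ≠ u := by
            by_contra hh
            push Not at hh
            exact hu (hs l u hh)
          rw [TT_AU]
          refine norm_AH_lt (g := g) (by simp [hS']) ?_ ?_
          · have : g ∈ R := Finset.mem_biUnion.2 ⟨l, Finset.mem_range.2 hl, hg⟩
            simp [hS', this]
          · rw [← TT_rep]
            exact fun h => hgu (TT_inj c1_inj _ h))
      refine ⟨max ρ ρ', max_lt h1 h3, fun k hk u => ?_⟩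
      rcases Nat.lt_succ_iff_lt_or_eq.1 hk with hk | rfl
      · exact (h2 k hk u).trans (by gcongr; exact le_max_left _ _)
      · rw [← TT_AU]
        exact (h4 u).trans (by gcongr; exact le_max_right _ _)
  obtain ⟨ρ, h1, h2⟩ := hlow l0 le_rfl
  refine ⟨S + S', hsym, max ρ (3 / 4 * S.card + S'.card), lt_max_of_lt_right (by linarith),
    max_lt h1 (by rw [hcard]; linarith), fun l hl u => ?_⟩
  obtain ⟨k, rfl⟩ : ∃ k, l = k + 1 := ⟨l - 1, by omega⟩
  rcases lt_or_ge k l0 with hk | hk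
  · exact (h2 k hk u).trans (by gcongr; exact le_max_left _ _)
  · rw [AH_add]
    refine (norm_add_le _ _).trans ?_
    refine (add_le_add (hl0 _ (by omega) u) (norm_AH_le _ _)).trans ?_
    rw [← add_mul]
    gcongr
    exact le_max_right _ _

/-- the determinant -/
noncomputable def detP : Pol (Fin 2) := X (0, 0) * X (1, 1) - X (0, 1) * X (1, 0)

lemma detP_hom (k : ℕ) : (detP ^ k).IsHomogeneous (2 * k) :=
  (((isHomogeneous_X _ _).mul (isHomogeneous_X _ _)).sub
    ((isHomogeneous_X _ _).mul (isHomogeneous_X _ _))).pow k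

lemma ev_detP : ev id detP = 1 := by
  ext x
  have h1 := norm_sq_q x
  rw [SU.norm] at h1
  have h2 : ((x : ℍ[ℝ]).re : ℂ) ^ 2 + ((x : ℍ[ℝ]).imI : ℂ) ^ 2 + ((x : ℍ[ℝ]).imJ : ℂ) ^ 2 +
      ((x : ℍ[ℝ]).imK : ℂ) ^ 2 = 1 := by exact_mod_cast h1.symm.trans (one_pow 2)
  rw [ev_apply]
  simp [detP, qm, qmat]
  linear_combination h2 - (((x : ℍ[ℝ]).imI : ℂ) ^ 2 + ((x : ℍ[ℝ]).imK : ℂ) ^ 2) * Complex.I_mul_I

/-- the constant function -/
noncomputable def one : HH := tL 1

lemma Lop_one' (s : SU) : Lop s one = one := Lop_tL s _ _ fun _ => rfl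

lemma inner_one_one : ⟪one, one⟫_ℂ = 1 := by
  rw [one, ContinuousMap.inner_toLp]; simp

lemma AH_one (F : Multiset SU) : AH F one = (F.card : ℂ) • one := by
  induction F using Multiset.induction_on with
  | empty => simp [AH]
  | cons s F ih => rw [AH_cons, ih, Lop_one', Multiset.card_cons]; push_cast; module

lemma even_bound {F : Multiset SU} (hF : F.map (·⁻¹) = F) {ρ : ℝ} (hρ : 0 < ρ)
    (h : ∀ l, 1 ≤ l → ∀ u : Hm Unit (2 * l),
      ‖AH F (TT (fun _ => 0) _ u)‖ ≤ ρ * ‖TT (fun _ => 0) _ u‖) (N : ℕ) (u : Hm (Fin 2) (2 * N)) :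
    ‖AH F (TT id _ u) - (F.card : ℂ) • ⟪one, TT id _ u⟫_ℂ • one‖ ≤ ρ * ‖TT id _ u‖ := by
  have hC : ∀ k : ℕ, ∃ C : ℝ, ∀ m : ℕ,
      (LinearMap.trace ℂ _ (AU Unit (2 * (k + 1)) F ^ (2 * m))).re ≤ C * ρ ^ (2 * m) := fun k =>
    trace_le_of_norm _ (TT_inj c1_inj _) _ (AU_symm _ _ hF) fun u => by
      rw [TT_AU]; exact h _ (by omega) u
  choose C hC using hC
  refine norm_le_of_trace_one _ (TT_inj Function.injective_id _) (AU (Fin 2) (2 * N) F) (AH F)
    (TT_AU _ _ _) (fun φ ψ => by rw [inner_AH, hF]) inner_one_one (d := ⟨detP ^ N, detP_hom N⟩)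
    (by rw [TT_apply]; simp [ev_detP, one]) (AH_one F)
    (C := ∑ k ∈ Finset.range N, (2 * k + 3) * C k) hρ (fun m _ => ?_) u
  rw [trace_AU_two, Finset.sum_mul]
  refine add_le_add le_rfl (Finset.sum_le_sum fun k _ => ?_)
  rw [mul_assoc]
  gcongr
  exact hC k m

lemma even_part (p : Pol (Fin 2)) : ∃ (N : ℕ) (u : Hm (Fin 2) (2 * N)),
    ∀ x, ev id p x + ev id p (-1 * x) = 2 * ev id u.1 x := by
  induction p using MvPolynomial.induction_on' with
  | monomial d a =>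
    have h1 : ∀ x : SU, ev id (monomial d a) (-1 * x) =
        (-1) ^ d.degree * ev id (monomial d a) x := by
      intro x
      rw [ev_apply, ev_apply, ← eval_smul_hom (isHomogeneous_monomial a rfl)]
      congr 2
      ext ⟨i, j⟩
      fin_cases i <;> fin_cases j <;> simp [qm, qmat] <;> ring
    rcases Nat.even_or_odd' d.degree with ⟨k, hk | hk⟩
    · refine ⟨k, ⟨_, isHomogeneous_monomial a hk⟩, fun x => ?_⟩
      rw [h1, hk, pow_mul]; ring
    · refine ⟨0, 0, fun x => ?_⟩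
      rw [h1, hk, pow_succ, pow_mul]; simp
  | add p q hp hq =>
    obtain ⟨N, u, hu⟩ := hp
    obtain ⟨M, v, hv⟩ := hq
    refine ⟨N + M, ⟨u.1 * detP ^ M + detP ^ N * v.1, ?_⟩, fun x => ?_⟩
    · rw [mul_add]
      exact (IsHomogeneous.mul u.2 (detP_hom M)).add ((detP_hom N).mul v.2)
    · simp only [map_add, map_mul, map_pow, ev_detP, one_pow, mul_one, one_mul,
        ContinuousMap.add_apply]
      linear_combination hu x + hv x

lemma dense_ev : DenseRange (ev (κ := Fin 2) id) := by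
  let A : StarSubalgebra ℂ C(SU, ℂ) :=
    { (ev (κ := Fin 2) id).range with
      star_mem' := by
        rintro _ ⟨p, rfl⟩
        change star (ev id p) ∈ (ev (κ := Fin 2) id).range
        induction p using MvPolynomial.induction_on with
        | C a => exact ⟨C (star a), by ext; simp [ev]⟩
        | add p q h1 h2 => rw [map_add, star_add]; exact add_mem h1 h2
        | mul_X p q h =>
          rw [map_mul, star_mul]
          refine mul_mem ?_ h
          obtain ⟨i, j⟩ := q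
          fin_cases i <;> fin_cases j
          · exact ⟨X (1, 1), by ext; simp [ev, ent, qm, qmat, sub_eq_add_neg]⟩
          · exact ⟨-X (1, 0), by ext; simp [ev, ent, qm, qmat, add_comm]⟩
          · exact ⟨-X (0, 1), by ext; simp [ev, ent, qm, qmat, add_comm]⟩
          · exact ⟨X (0, 0), by ext; simp [ev, ent, qm, qmat]⟩ }
  have hA : A.SeparatesPoints := by
    intro x y hxy
    by_contra hh
    push Not at hh
    have key : ∀ q : Fin 2 × Fin 2, qm x q.1 q.2 = qm y q.1 q.2 := fun q => by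
      have := hh _ ⟨ev id (X q), ⟨X q, rfl⟩, rfl⟩
      simpa [ev, ent] using this
    have h1 := key (0, 0)
    have h2 := key (0, 1)
    simp [qm, qmat, Complex.ext_iff] at h1 h2
    exact hxy (Subtype.ext (Quaternion.ext _ _ h1.1 h1.2 h2.1 h2.2))
  have h := ContinuousMap.starSubalgebra_topologicalClosure_eq_top_of_separatesPoints A hA
  intro f
  have : f ∈ A.topologicalClosure := h ▸ StarSubalgebra.mem_top
  exact this

lemma normsq_L2 {X : Type*} [MeasurableSpace X] {μ : Measure X} (G : Lp ℂ 2 μ) {f : X → ℂ}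
    (h : G =ᵐ[μ] f) : ‖G‖ ^ 2 = ∫ x, ‖f x‖ ^ 2 ∂μ := by
  rw [← real_inner_self_eq_norm_sq, L2.inner_def]
  simp only [real_inner_self_eq_norm_sq]
  refine integral_congr_ae ?_
  filter_upwards [h] with x hx
  rw [hx]

theorem su_kazhdan : ∃ (F : Finset SU) (c : ℝ), 0 ≤ c ∧ ∀ φ : SU → ℂ, MemLp φ 2 mG →
    (∀ g, φ (-1 * g) = φ g) → ∀ h : SU, ∫ g, ‖φ (h * g) - φ g‖ ^ 2 ∂mG ≤
      c * ∑ s ∈ F, ∫ g, ‖φ (s * g) - φ g‖ ^ 2 ∂mG := by
  obtain ⟨F, hF, ρ, hρ0, hρ, hb⟩ := all_bound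
  set n : ℝ := (F.card : ℝ) with hn
  let E2 : HH → HH := fun ψ => (2 : ℂ)⁻¹ • (ψ + Lop (-1) ψ)
  have hE2 : Continuous E2 := by
    have := (Lop (-1)).continuous
    fun_prop
  have h1 : ∀ ψ, ‖AH F (E2 ψ) - (F.card : ℂ) • ⟪one, E2 ψ⟫_ℂ • one‖ ≤ ρ * ‖E2 ψ‖ := by
    intro ψ
    have hd : DenseRange (tL ∘ ev (κ := Fin 2) id) :=
      (ContinuousMap.toLp_denseRange ℂ mG ℂ (by norm_num)).comp dense_ev tL.continuous
    refine hd.induction_on ψ (isClosed_le (by fun_prop) (by fun_prop)) fun p => ?_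
    obtain ⟨N, u, hu⟩ := even_part p
    have : E2 ((tL ∘ ev (κ := Fin 2) id) p) = TT id _ u := by
      simp only [E2, Function.comp]
      rw [Lop_tL (-1) _ (ev id (subs (qm (-1 : SU)) p)) (ev_subs _ _ _), ← map_add, ← map_smul,
        TT_apply]
      congr 1
      ext x
      simp only [ContinuousMap.smul_apply, ContinuousMap.add_apply, ev_subs, hu, smul_eq_mul]
      ring
    rw [this]
    exact even_bound hF hρ0 hb N u
  refine ⟨F.toFinset, (2 * n / (n - ρ)) ^ 2, by positivity, fun φ hφ hev h => ?_⟩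
  set Φ : HH := hφ.toLp φ with hΦ
  have h2 : ∀ s : SU, Lop s Φ =ᵐ[mG] fun g => φ (s * g) := fun s => by
    filter_upwards [Lop_ae s Φ,
      (measurePreserving_mul_left mG s).quasiMeasurePreserving.ae hφ.coeFn_toLp] with x a b
    rw [a, b]
  have h3 : ∀ s : SU, ‖Lop s Φ - Φ‖ ^ 2 = ∫ g, ‖φ (s * g) - φ g‖ ^ 2 ∂mG := fun s =>
    normsq_L2 _ (by
      filter_upwards [Lp.coeFn_sub (Lop s Φ) Φ, h2 s, hφ.coeFn_toLp] with x a b c
      rw [a, Pi.sub_apply, b, c])
  have h4 : Lop (-1) Φ = Φ := by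
    ext1
    filter_upwards [h2 (-1), hφ.coeFn_toLp] with x a b
    rw [a, b, hev]
  set Ψ : HH := Φ - ⟪one, Φ⟫_ℂ • one with hΨ
  have h5 : ∀ s, Lop s Ψ - Ψ = Lop s Φ - Φ := fun s => by
    rw [hΨ, map_sub, map_smul, Lop_one']; abel
  have h6 : E2 Ψ = Ψ := by
    have := h5 (-1)
    rw [h4, sub_self, sub_eq_zero] at this
    simp only [E2, this]
    module
  have h7 := h1 Ψ
  have h8 : ⟪one, Ψ⟫_ℂ = 0 := by
    rw [hΨ, inner_sub_right, inner_smul_right, inner_one_one, mul_one, sub_self]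
  rw [h6, h8, zero_smul, smul_zero, sub_zero] at h7
  simp only [← h3]
  set K := ∑ s ∈ F.toFinset, ‖Lop s Φ - Φ‖ ^ 2 with hK
  have hK0 : 0 ≤ K := by positivity
  have h9 : ∀ F' : Multiset SU, (∀ s ∈ F', ‖Lop s Ψ - Ψ‖ ≤ √K) →
      ‖AH F' Ψ - (F'.card : ℂ) • Ψ‖ ≤ F'.card * √K := by
    intro F'
    induction F' using Multiset.induction_on with
    | empty => simp [AH]
    | cons s F' ih =>
      intro hh
      have a1 := ih fun t ht => hh t (Multiset.mem_cons_of_mem ht)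
      have a2 := hh s (Multiset.mem_cons_self _ _)
      have a3 : AH (s ::ₘ F') Ψ - ((s ::ₘ F').card : ℂ) • Ψ =
          (Lop s Ψ - Ψ) + (AH F' Ψ - (F'.card : ℂ) • Ψ) := by
        rw [AH_cons, Multiset.card_cons]; push_cast; module
      rw [a3, Multiset.card_cons]
      push_cast
      linarith [norm_add_le (Lop s Ψ - Ψ) (AH F' Ψ - (F'.card : ℂ) • Ψ)]
  have h10 := h9 F fun s hs => by
    rw [h5]
    exact Real.le_sqrt_of_sq_le (Finset.single_le_sum (f := fun s => ‖Lop s Φ - Φ‖ ^ 2)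
      (fun _ _ => by positivity) (Multiset.mem_toFinset.2 hs))
  have h11 : (n - ρ) * ‖Ψ‖ ≤ n * √K := by
    have a1 := norm_sub_norm_le ((F.card : ℂ) • Ψ) (AH F Ψ)
    rw [norm_sub_rev, norm_smul, Complex.norm_natCast] at a1
    linarith
  have h12 : ‖Lop h Φ - Φ‖ ≤ 2 * n / (n - ρ) * √K := by
    rw [← h5, div_mul_eq_mul_div, le_div_iff₀ (by linarith)]
    have a1 := norm_sub_le (Lop h Ψ) Ψ
    rw [LinearIsometry.norm_map] at a1
    nlinarith
  calc ‖Lop h Φ - Φ‖ ^ 2 ≤ (2 * n / (n - ρ) * √K) ^ 2 := by gcongr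
    _ = _ := by rw [mul_pow, Real.sq_sqrt hK0]

end Pool.Agent.P.MP_465281_an
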