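import Mathlib

/-!
The combinatorial core: bootstrap hull of a small open set by balls at shrinking scales.
-/

namespace Pool.Agent.P.MP_465281_an

open Set Metric MeasureTheory
open scoped ENNReal Classical

/-- at least a fifth of the indices satisfy `P` -/
def Many {ι : Type} [Fintype ι] (P : ι → Prop) : Prop :=
  Fintype.card ι ≤ 5 * (Finset.univ.filter P).card

lemma Many.mono {ι : Type} [Fintype ι] {P Q : ι → Prop} (h : Many P) (hPQ : ∀ i, P i → Q i) :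
    Many Q := by
  unfold Many at *
  refine h.trans (Nat.mul_le_mul_left _ (Finset.card_le_card ?_))
  intro i hi
  simp only [Finset.mem_filter, Finset.mem_univ, true_and] at hi ⊢
  exact hPQ i hi

variable {X : Type*} [MetricSpace X]

/-- radii of the stages -/
noncomputable def rad (T : ℕ) : ℝ := 1 / ((T : ℝ) + 1)

lemma rad_pos (T : ℕ) : 0 < rad T := by unfold rad; positivity

lemma rad_le_one (T : ℕ) : rad T ≤ 1 := by
  unfold rad
  rw [div_le_one (by positivity)]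
  have : (0 : ℝ) ≤ T := Nat.cast_nonneg T
  linarith

lemma rad_anti {S T : ℕ} (h : S ≤ T) : rad T ≤ rad S := by
  unfold rad
  apply one_div_le_one_div_of_le (by positivity)
  have : (S : ℝ) ≤ T := by exact_mod_cast h
  linarith

/-- union of the balls of a family -/
def bU (Z : Set (ℕ × X)) : Set X := ⋃ z ∈ Z, ball z.2 (rad z.1)

/-- union of the tripled balls of a family -/
def bU3 (Z : Set (ℕ × X)) : Set X := ⋃ z ∈ Z, ball z.2 (3 * rad z.1)

lemma isOpen_bU (Z : Set (ℕ × X)) : IsOpen (bU Z) :=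
  isOpen_biUnion fun _ _ => isOpen_ball

lemma isOpen_bU3 (Z : Set (ℕ × X)) : IsOpen (bU3 Z) :=
  isOpen_biUnion fun _ _ => isOpen_ball

lemma bU_mono {Z Z' : Set (ℕ × X)} (h : Z ⊆ Z') : bU Z ⊆ bU Z' :=
  biUnion_subset_biUnion_left h

lemma mem_bU {Z : Set (ℕ × X)} {y : X} : y ∈ bU Z ↔ ∃ z ∈ Z, y ∈ ball z.2 (rad z.1) := by
  simp [bU]

lemma mem_bU3 {Z : Set (ℕ × X)} {y : X} :
    y ∈ bU3 Z ↔ ∃ z ∈ Z, y ∈ ball z.2 (3 * rad z.1) := by
  simp [bU3]

lemma vitali_bU3 [MeasurableSpace X] [BorelSpace X] [SecondCountableTopology X]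
    (lam : Measure X) (C : ℝ≥0∞)
    (hD : ∀ x r, 0 < r → r ≤ 1 → lam (ball x (9 * r)) ≤ C * lam (ball x r))
    (Z : Set (ℕ × X)) : lam (bU3 Z) ≤ C * lam (bU Z) := by
  obtain ⟨u, huZ, hdisj, hcov⟩ :=
    Vitali.exists_disjoint_subfamily_covering_enlargement
      (fun z : ℕ × X => ball z.2 (rad z.1)) Z (fun z => rad z.1) 2 (by norm_num)
      (fun a _ => (rad_pos _).le) 1 (fun a _ => rad_le_one _)
      (fun a _ => nonempty_ball.2 (rad_pos _))
  have hcount : u.Countable :=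
    hdisj.countable_of_isOpen (fun _ _ => isOpen_ball) (fun a _ => nonempty_ball.2 (rad_pos _))
  have hsub : bU3 Z ⊆ ⋃ z ∈ u, ball z.2 (9 * rad z.1) := by
    intro y hy
    obtain ⟨z, hz, hyz⟩ := mem_bU3.1 hy
    obtain ⟨b, hb, ⟨w, hw1, hw2⟩, hr⟩ := hcov z hz
    refine mem_biUnion hb ?_
    simp only [mem_ball] at *
    have h1 := dist_triangle y z.2 b.2
    have h2 := dist_triangle z.2 w b.2
    rw [dist_comm z.2 w] at h2
    linarith
  calc lam (bU3 Z) ≤ lam (⋃ z ∈ u, ball z.2 (9 * rad z.1)) := measure_mono hsub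
    _ ≤ ∑' z : u, lam (ball z.1.2 (9 * rad z.1.1)) := measure_biUnion_le _ hcount _
    _ ≤ ∑' z : u, C * lam (ball z.1.2 (rad z.1.1)) :=
        ENNReal.tsum_le_tsum fun z => hD _ _ (rad_pos _) (rad_le_one _)
    _ = C * ∑' z : u, lam (ball z.1.2 (rad z.1.1)) := ENNReal.tsum_mul_left
    _ = C * lam (⋃ z ∈ u, ball z.2 (rad z.1)) := by
        rw [measure_biUnion hcount hdisj (fun _ _ => measurableSet_ball)]
    _ ≤ C * lam (bU Z) := by
        gcongr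
        exact bU_mono huZ

variable {ι : Type} [Fintype ι] (g : ι → X ≃ᵢ X)

/-- the ball at stage `T` about `x` is infected by the family `Z` -/
def Inf (Z : Set (ℕ × X)) (p : ℕ × X) : Prop :=
  Many fun i => ∃ z ∈ Z, z.1 ≤ p.1 ∧ (ball (g i p.2) (rad p.1) ∩ ball z.2 (rad z.1)).Nonempty

lemma Inf.mono {Z Z' : Set (ℕ × X)} (h : Z ⊆ Z') {p : ℕ × X} (hp : Inf g Z p) : Inf g Z' p :=
  Many.mono hp fun _ ⟨z, hz, h1, h2⟩ => ⟨z, h hz, h1, h2⟩

lemma Inf.many {Z : Set (ℕ × X)} {p : ℕ × X} (hp : Inf g Z p) {y : X}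
    (hy : y ∈ ball p.2 (rad p.1)) : Many fun i => g i y ∈ bU3 Z := by
  refine Many.mono hp ?_
  rintro i ⟨z, hz, h1, w, hw1, hw2⟩
  refine mem_bU3.2 ⟨z, hz, ?_⟩
  simp only [mem_ball] at *
  have h3 : dist (g i y) (g i p.2) = dist y p.2 := (g i).dist_eq _ _
  have h4 := dist_triangle (g i y) (g i p.2) z.2
  have h5 := dist_triangle (g i p.2) w z.2
  rw [dist_comm (g i p.2) w] at h5
  have h6 := rad_anti h1
  linarith

/-- the balls inside `W` -/
def Z0 (W : Set X) : Set (ℕ × X) := {p | ball p.2 (rad p.1) ⊆ W}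

/-- generations of the bootstrap process -/
def Zs (W : Set X) : ℕ → Set (ℕ × X)
  | 0 => Z0 W
  | k + 1 => Z0 W ∪ {p | Inf g (Zs W k) p}

lemma Zs_succ_mono (W : Set X) (k : ℕ) : Zs g W k ⊆ Zs g W (k + 1) := by
  induction k with
  | zero => exact subset_union_left
  | succ k ih =>
    rintro p (hp | hp)
    · exact Or.inl hp
    · exact Or.inr (Inf.mono g ih hp)

lemma Zs_mono (W : Set X) : Monotone (Zs g W) :=
  monotone_nat_of_le_succ (Zs_succ_mono g W)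

/-- the closed family -/
def Zinf (W : Set X) : Set (ℕ × X) := ⋃ k, Zs g W k

lemma Zinf_closed (W : Set X) {p : ℕ × X} (hp : Inf g (Zinf g W) p) : p ∈ Zinf g W := by
  have : ∀ i, ∃ k : ℕ,
      (∃ z ∈ Zinf g W, z.1 ≤ p.1 ∧ (ball (g i p.2) (rad p.1) ∩ ball z.2 (rad z.1)).Nonempty) →
      (∃ z ∈ Zs g W k, z.1 ≤ p.1 ∧ (ball (g i p.2) (rad p.1) ∩ ball z.2 (rad z.1)).Nonempty) := by
    intro i
    by_cases h : ∃ z ∈ Zinf g W, z.1 ≤ p.1 ∧
        (ball (g i p.2) (rad p.1) ∩ ball z.2 (rad z.1)).Nonempty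
    · obtain ⟨z, hz, h1, h2⟩ := h
      obtain ⟨k, hk⟩ := mem_iUnion.1 hz
      exact ⟨k, fun _ => ⟨z, hk, h1, h2⟩⟩
    · exact ⟨0, fun h' => absurd h' h⟩
  choose kk hkk using this
  refine mem_iUnion.2 ⟨Finset.univ.sup kk + 1, Or.inr ?_⟩
  refine Many.mono hp fun i hi => ?_
  obtain ⟨z, hz, h1, h2⟩ := hkk i hi
  exact ⟨z, Zs_mono g W (Finset.le_sup (f := kk) (Finset.mem_univ i)) hz, h1, h2⟩

lemma subset_bU_Zinf {W : Set X} (hW : IsOpen W) : W ⊆ bU (Zinf g W) := by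
  intro y hy
  obtain ⟨ε, hε, hb⟩ := Metric.isOpen_iff.1 hW y hy
  obtain ⟨T, hT⟩ := exists_nat_one_div_lt hε
  refine mem_bU.2 ⟨(T, y), mem_iUnion.2 ⟨0, ?_⟩, mem_ball_self (rad_pos _)⟩
  exact (ball_subset_ball hT.le).trans hb

/-- peeling of stage `T` -/
def Dk (W : Set X) (T : ℕ) : ℕ → Set (ℕ × X)
  | 0 => {p | p ∈ Zinf g W ∧ p.1 = T}
  | k + 1 => {p | p ∈ Dk W T k ∧ Inf g (Dk W T k) p}

lemma Dk_anti (W : Set X) (T : ℕ) : Antitone (Dk g W T) :=
  antitone_nat_of_succ_le fun _ _ hp => hp.1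

lemma Dk_sub (W : Set X) (T k : ℕ) {p : ℕ × X} (hp : p ∈ Dk g W T k) :
    p ∈ Zinf g W ∧ p.1 = T := Dk_anti g W T (Nat.zero_le k) hp

/-- the earlier stages -/
def Ear (W : Set X) (T : ℕ) : Set (ℕ × X) := {p | p ∈ Zinf g W ∧ p.1 < T}

/-- the chain of sets -/
def Ch (W : Set X) (l : ℕ × ℕ) : Set X := bU (Ear g W l.1) ∪ bU (Dk g W l.1 l.2)

lemma Ch_sub (W : Set X) (l : ℕ × ℕ) : Ch g W l ⊆ bU (Zinf g W) :=
  union_subset (bU_mono fun _ hp => hp.1) (bU_mono fun _ hp => (Dk_sub g W _ _ hp).1)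

lemma Ch_lt (W : Set X) {l l' : ℕ × ℕ} (h : l.1 < l'.1) : Ch g W l ⊆ Ch g W l' := by
  refine subset_trans (union_subset (bU_mono ?_) (bU_mono ?_)) subset_union_left
  · exact fun p hp => ⟨hp.1, hp.2.trans h⟩
  · intro p hp
    obtain ⟨h1, h2⟩ := Dk_sub g W _ _ hp
    exact ⟨h1, h2 ▸ h⟩

lemma Ch_total (W : Set X) (l l' : ℕ × ℕ) : Ch g W l ⊆ Ch g W l' ∨ Ch g W l' ⊆ Ch g W l := by
  rcases lt_trichotomy l.1 l'.1 with h | h | h
  · exact Or.inl (Ch_lt g W h)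
  · unfold Ch
    rw [h]
    rcases le_total l.2 l'.2 with h2 | h2
    · exact Or.inr (union_subset_union_right _ (bU_mono (Dk_anti g W _ h2)))
    · exact Or.inl (union_subset_union_right _ (bU_mono (Dk_anti g W _ h2)))
  · exact Or.inr (Ch_lt g W h)

lemma few_Ear [Nonempty ι] (W : Set X) (T : ℕ) {y : X} (hy : y ∉ bU (Ear g W T)) :
    ¬ Many fun i => g i y ∈ bU (Ear g W T) := by
  intro h
  rcases T with _ | T
  · have : Many fun _ : ι => False := by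
      refine h.mono fun i hi => ?_
      obtain ⟨z, hz, -⟩ := mem_bU.1 hi
      exact Nat.not_lt_zero _ hz.2
    unfold Many at this
    simp at this
  · apply hy
    refine mem_bU.2 ⟨(T, y), ⟨Zinf_closed g W ?_, Nat.lt_succ_self _⟩, mem_ball_self (rad_pos _)⟩
    refine h.mono fun i hi => ?_
    obtain ⟨z, hz, hz'⟩ := mem_bU.1 hi
    exact ⟨z, hz.1, Nat.lt_succ_iff.1 hz.2, g i y, mem_ball_self (rad_pos _), hz'⟩

lemma few_Dk (W : Set X) (T k : ℕ) {y : X} (hy : y ∈ bU (Dk g W T k))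
    (hy' : y ∉ bU (Dk g W T (k + 1))) : ¬ Many fun i => g i y ∈ bU (Dk g W T k) := by
  intro h
  obtain ⟨p, hp, hyp⟩ := mem_bU.1 hy
  apply hy'
  refine mem_bU.2 ⟨p, ⟨hp, ?_⟩, hyp⟩
  refine h.mono fun i hi => ?_
  obtain ⟨z, hz, hz'⟩ := mem_bU.1 hi
  refine ⟨z, hz, ?_, g i y, ?_, hz'⟩
  · rw [(Dk_sub g W _ _ hz).2, (Dk_sub g W _ _ hp).2]
  · simp only [mem_ball] at *
    rwa [(g i).dist_eq]

variable [MeasurableSpace X] [BorelSpace X] [SecondCountableTopology X]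
  (lam : Measure X) (C κ η : ℝ≥0∞)

omit [BorelSpace X] [SecondCountableTopology X] in
/-- small set expansion -/
def SSE : Prop :=
  ∀ B : Set X, MeasurableSet B → lam B ≤ η → lam {y | Many fun i => g i y ∈ B} ≤ κ * lam B

variable {lam C κ η}

lemma meas_inf (hD : ∀ x r, 0 < r → r ≤ 1 → lam (ball x (9 * r)) ≤ C * lam (ball x r))
    (hS : SSE g lam κ η) (hκ : 2 * (κ * C) ≤ 1) {Z : Set (ℕ × X)} (hZ : C * lam (bU Z) ≤ η) :
    2 * lam (bU {p | Inf g Z p}) ≤ lam (bU Z) := by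
  have h1 := vitali_bU3 lam C hD Z
  have h2 := hS (bU3 Z) (isOpen_bU3 Z).measurableSet (h1.trans hZ)
  have h3 : bU {p | Inf g Z p} ⊆ {y | Many fun i => g i y ∈ bU3 Z} := by
    intro y hy
    obtain ⟨p, hp, hyp⟩ := mem_bU.1 hy
    exact Inf.many g hp hyp
  calc 2 * lam (bU {p | Inf g Z p}) ≤ 2 * (κ * (C * lam (bU Z))) := by
        gcongr
        exact (measure_mono h3).trans (h2.trans (by gcongr))
    _ = 2 * (κ * C) * lam (bU Z) := by ring
    _ ≤ 1 * lam (bU Z) := by gcongr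
    _ = _ := one_mul _

lemma meas_Zs (hD : ∀ x r, 0 < r → r ≤ 1 → lam (ball x (9 * r)) ≤ C * lam (ball x r))
    (hS : SSE g lam κ η) (hκ : 2 * (κ * C) ≤ 1) {W : Set X} (hW : C * (2 * lam W) ≤ η) (k : ℕ) :
    lam (bU (Zs g W k)) ≤ 2 * lam W := by
  have h0 : bU (Z0 W) ⊆ W := by
    intro y hy
    obtain ⟨p, hp, hyp⟩ := mem_bU.1 hy
    exact hp hyp
  induction k with
  | zero =>
    calc lam (bU (Zs g W 0)) ≤ lam W := measure_mono h0
      _ = 1 * lam W := (one_mul _).symm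
      _ ≤ 2 * lam W := by gcongr; norm_num
  | succ k ih =>
    have h1 := meas_inf g hD hS hκ (Z := Zs g W k) (le_trans (by gcongr) hW)
    have h2 : lam (bU {p | Inf g (Zs g W k) p}) ≤ lam W := by
      have := h1.trans ih
      exact (ENNReal.mul_le_mul_iff_right (by norm_num) (by norm_num)).1 this
    have h3 : bU (Zs g W (k + 1)) ⊆ W ∪ bU {p | Inf g (Zs g W k) p} := by
      intro y hy
      obtain ⟨p, hp | hp, hyp⟩ := mem_bU.1 hy
      · exact Or.inl (hp hyp)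
      · exact Or.inr (mem_bU.2 ⟨p, hp, hyp⟩)
    calc lam (bU (Zs g W (k + 1))) ≤ lam W + lam (bU {p | Inf g (Zs g W k) p}) :=
          (measure_mono h3).trans (measure_union_le _ _)
      _ ≤ lam W + lam W := by gcongr
      _ = 2 * lam W := (two_mul _).symm

lemma meas_Zinf (hD : ∀ x r, 0 < r → r ≤ 1 → lam (ball x (9 * r)) ≤ C * lam (ball x r))
    (hS : SSE g lam κ η) (hκ : 2 * (κ * C) ≤ 1) {W : Set X} (hW : C * (2 * lam W) ≤ η) :
    lam (bU (Zinf g W)) ≤ 2 * lam W := by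
  have h1 : bU (Zinf g W) = ⋃ k, bU (Zs g W k) := by
    ext y
    simp only [mem_bU, Zinf, mem_iUnion]
    constructor
    · rintro ⟨z, ⟨k, hk⟩, h⟩
      exact ⟨k, z, hk, h⟩
    · rintro ⟨k, z, hk, h⟩
      exact ⟨z, ⟨k, hk⟩, h⟩
  have hm : Monotone fun k => bU (Zs g W k) := fun a b hab => bU_mono (Zs_mono g W hab)
  rw [h1, hm.measure_iUnion]
  exact iSup_le fun k => meas_Zs g hD hS hκ hW k

lemma meas_Dk (hD : ∀ x r, 0 < r → r ≤ 1 → lam (ball x (9 * r)) ≤ C * lam (ball x r))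
    (hS : SSE g lam κ η) (hκ : 2 * (κ * C) ≤ 1) {W : Set X} (hW : C * (2 * lam W) ≤ η)
    (T k : ℕ) : 2 ^ k * lam (bU (Dk g W T k)) ≤ 2 * lam W := by
  have h0 : ∀ k, lam (bU (Dk g W T k)) ≤ 2 * lam W := fun k =>
    (measure_mono (bU_mono fun _ hp => (Dk_sub g W _ _ hp).1)).trans (meas_Zinf g hD hS hκ hW)
  induction k with
  | zero => simpa using h0 0
  | succ k ih =>
    have h1 := meas_inf g hD hS hκ (Z := Dk g W T k) (le_trans (by gcongr; exact h0 k) hW)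
    have h2 : bU (Dk g W T (k + 1)) ⊆ bU {p | Inf g (Dk g W T k) p} :=
      bU_mono fun _ hp => hp.2
    calc 2 ^ (k + 1) * lam (bU (Dk g W T (k + 1)))
        = 2 ^ k * (2 * lam (bU (Dk g W T (k + 1)))) := by ring
      _ ≤ 2 ^ k * lam (bU (Dk g W T k)) := by
          gcongr
          exact le_trans (by gcongr) h1
      _ ≤ _ := ih

lemma Dk_eventually_empty
    (hD : ∀ x r, 0 < r → r ≤ 1 → lam (ball x (9 * r)) ≤ C * lam (ball x r))
    (hP : ∀ r, 0 < r → ∃ v : ℝ≥0∞, 0 < v ∧ ∀ x, v ≤ lam (ball x r))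
    (hS : SSE g lam κ η) (hκ : 2 * (κ * C) ≤ 1) {W : Set X} (hW : C * (2 * lam W) ≤ η)
    (hWf : lam W ≠ ∞) (T : ℕ) : ∃ k, bU (Dk g W T k) = ∅ := by
  by_contra hne
  push Not at hne
  obtain ⟨v, hv, hvx⟩ := hP (rad T) (rad_pos T)
  have h1 : ∀ k : ℕ, 2 ^ k * v ≤ 2 * lam W := by
    intro k
    refine le_trans ?_ (meas_Dk g hD hS hκ hW T k)
    gcongr
    obtain ⟨y, hy⟩ := hne k
    obtain ⟨p, hp, -⟩ := mem_bU.1 hy
    refine (hvx p.2).trans (measure_mono ?_)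
    intro w hw
    refine mem_bU.2 ⟨p, hp, ?_⟩
    rwa [(Dk_sub g W _ _ hp).2]
  have h2 : (2 * lam W) / v ≠ ∞ :=
    ENNReal.div_ne_top (ENNReal.mul_ne_top (by norm_num) hWf) hv.ne'
  obtain ⟨k, hk⟩ := ENNReal.exists_nat_gt h2
  have h3 : (k : ℝ≥0∞) ≤ 2 ^ k := by exact_mod_cast (Nat.lt_two_pow_self (n := k)).le
  have hvt : v ≠ ∞ := by
    intro hv'
    have := h1 0
    simp only [pow_zero, one_mul, hv', top_le_iff] at this
    exact ENNReal.mul_ne_top (by norm_num) hWf this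
  have h4 : (2 : ℝ≥0∞) ^ k ≤ (2 * lam W) / v := by
    rw [ENNReal.le_div_iff_mul_le (Or.inl hv.ne') (Or.inl hvt)]
    exact h1 k
  exact absurd (h3.trans h4) (not_le.2 hk)

/-- The hull lemma. -/
theorem exists_chain [Nonempty ι]
    (hD : ∀ x r, 0 < r → r ≤ 1 → lam (ball x (9 * r)) ≤ C * lam (ball x r))
    (hP : ∀ r, 0 < r → ∃ v : ℝ≥0∞, 0 < v ∧ ∀ x, v ≤ lam (ball x r))
    (hS : SSE g lam κ η) (hκ : 2 * (κ * C) ≤ 1) {W : Set X} (hWo : IsOpen W)
    (hW : C * (2 * lam W) ≤ η) (hWf : lam W ≠ ∞) :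
    ∃ U : ℕ × ℕ → Set X, (∀ l, MeasurableSet (U l)) ∧ (∀ l l', U l ⊆ U l' ∨ U l' ⊆ U l) ∧
      W ⊆ ⋃ l, U l ∧ lam (⋃ l, U l) ≤ 2 * lam W ∧
      ∀ y ∈ ⋃ l, U l, ∃ l, y ∈ U l ∧
        5 * (Finset.univ.filter fun i => g i y ∈ U l).card ≤ 2 * Fintype.card ι := by
  have key : ∀ y ∈ bU (Zinf g W), ∃ l, y ∈ Ch g W l ∧
      5 * (Finset.univ.filter fun i => g i y ∈ Ch g W l).card ≤ 2 * Fintype.card ι := by
    intro y hy
    have hex : ∃ T, y ∈ bU (Dk g W T 0) := by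
      obtain ⟨p, hp, hyp⟩ := mem_bU.1 hy
      exact ⟨p.1, mem_bU.2 ⟨p, ⟨hp, rfl⟩, hyp⟩⟩
    set T := Nat.find hex with hT
    have hT1 : y ∈ bU (Dk g W T 0) := Nat.find_spec hex
    have hT2 : y ∉ bU (Ear g W T) := by
      intro h
      obtain ⟨p, hp, hyp⟩ := mem_bU.1 h
      exact Nat.find_min hex hp.2 (mem_bU.2 ⟨p, ⟨hp.1, rfl⟩, hyp⟩)
    have hex2 : ∃ k, y ∉ bU (Dk g W T k) := by
      obtain ⟨k, hk⟩ := Dk_eventually_empty g hD hP hS hκ hW hWf T
      exact ⟨k, by rw [hk]; exact notMem_empty _⟩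
    have hk0 : Nat.find hex2 ≠ 0 := by
      intro h
      have := Nat.find_spec hex2
      rw [h] at this
      exact this hT1
    obtain ⟨k, hk⟩ := Nat.exists_eq_succ_of_ne_zero hk0
    have hk1 : y ∉ bU (Dk g W T (k + 1)) := by
      have := Nat.find_spec hex2
      rwa [hk] at this
    have hk2 : y ∈ bU (Dk g W T k) := by
      by_contra h
      exact Nat.find_min hex2 (by rw [hk]; exact Nat.lt_succ_self k) h
    refine ⟨(T, k), Or.inr hk2, ?_⟩
    have f1 := few_Ear g W T hT2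
    have f2 := few_Dk g W T k hk2 hk1
    unfold Many at f1 f2
    have h3 : (Finset.univ.filter fun i => g i y ∈ Ch g W (T, k)) ⊆
        (Finset.univ.filter fun i => g i y ∈ bU (Ear g W T)) ∪
        (Finset.univ.filter fun i => g i y ∈ bU (Dk g W T k)) := by
      intro i hi
      simp only [Finset.mem_filter, Finset.mem_univ, true_and, Finset.mem_union] at hi ⊢
      exact hi
    have h4 := (Finset.card_le_card h3).trans (Finset.card_union_le _ _)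
    omega
  have hU : (⋃ l, Ch g W l) ⊆ bU (Zinf g W) := iUnion_subset (Ch_sub g W)
  refine ⟨Ch g W, fun l => ((isOpen_bU _).union (isOpen_bU _)).measurableSet, Ch_total g W,
    ?_, (measure_mono hU).trans (meas_Zinf g hD hS hκ hW), fun y hy => key y (hU hy)⟩
  intro y hy
  obtain ⟨l, hl, -⟩ := key y (subset_bU_Zinf g hWo hy)
  exact mem_iUnion.2 ⟨l, hl⟩

end Pool.Agent.P.MP_465281_an
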