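import Pool.Agent.P.MP_465281_an.Words
import Pool.Agent.P.MP_465281_an.Cheb

/-!
Representations of two by two matrices on homogeneous polynomials and their characters.
-/

namespace Pool.Agent.P.MP_465281_an

open scoped Classical Quaternion
open MvPolynomial

/-- polynomials in the entries of a matrix with two rows -/
abbrev Pol (κ : Type) := MvPolynomial (Fin 2 × κ) ℂ

variable {κ : Type}

/-- linear substitution -/
noncomputable def subs (M : Matrix (Fin 2) (Fin 2) ℂ) : Pol κ →ₐ[ℂ] Pol κ :=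
  aeval fun p => ∑ j, C (M p.1 j) * X (j, p.2)

lemma subs_X (M : Matrix (Fin 2) (Fin 2) ℂ) (p : Fin 2 × κ) :
    subs M (X p) = ∑ j, C (M p.1 j) * X (j, p.2) := aeval_X _ _

lemma subs_C (M : Matrix (Fin 2) (Fin 2) ℂ) (a : ℂ) : subs M (C a : Pol κ) = C a := aeval_C _ _

lemma subs_mul (M N : Matrix (Fin 2) (Fin 2) ℂ) :
    (subs (M * N) : Pol κ →ₐ[ℂ] Pol κ) = (subs N).comp (subs M) := by
  refine algHom_ext fun p => ?_
  simp only [AlgHom.comp_apply, subs_X, Fin.sum_univ_two, map_add, map_mul, subs_C,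
    Matrix.mul_apply]
  ring

lemma subs_one : (subs 1 : Pol κ →ₐ[ℂ] Pol κ) = AlgHom.id ℂ _ := by
  refine algHom_ext fun ⟨i, k⟩ => ?_
  fin_cases i <;> simp [subs_X]

lemma eval_subs (M : Matrix (Fin 2) (Fin 2) ℂ) (y : Fin 2 × κ → ℂ) (p : Pol κ) :
    eval y (subs M p) = eval (fun q => ∑ j, M q.1 j * y (j, q.2)) p := by
  induction p using MvPolynomial.induction_on with
  | C a => simp
  | add p q h1 h2 => simp [h1, h2]
  | mul_X p q h => simp [h, subs_X]

/-- homogeneous polynomials -/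
abbrev Hm (κ : Type) (N : ℕ) := homogeneousSubmodule (Fin 2 × κ) ℂ N

instance [Finite κ] (N : ℕ) : FiniteDimensional ℂ (Hm κ N) :=
  Module.Finite.iff_fg.2 (homogeneousSubmodule_fg _ _ N)

lemma subs_hom (M : Matrix (Fin 2) (Fin 2) ℂ) {N : ℕ} {p : Pol κ} (hp : p.IsHomogeneous N) :
    (subs M p).IsHomogeneous N := by
  have := hp.aeval (n := 1) (fun p : Fin 2 × κ => ∑ j, C (M p.1 j) * X (j, p.2))
    fun p => IsHomogeneous.sum _ _ _ fun j _ => isHomogeneous_C_mul_X _ _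
  rwa [one_mul] at this

/-- the representation on homogeneous polynomials -/
noncomputable def rep (κ : Type) (N : ℕ) (M : Matrix (Fin 2) (Fin 2) ℂ) : Module.End ℂ (Hm κ N) :=
  (subs M).toLinearMap.restrict fun _ hp => subs_hom M hp

lemma rep_val (N : ℕ) (M : Matrix (Fin 2) (Fin 2) ℂ) (p : Hm κ N) :
    (rep κ N M p : Pol κ) = subs M p := rfl

lemma rep_mul (N : ℕ) (M M' : Matrix (Fin 2) (Fin 2) ℂ) :
    rep κ N (M * M') = rep κ N M' * rep κ N M := by
  ext1 p
  ext1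
  simp [rep_val, subs_mul]

lemma rep_one (N : ℕ) : rep κ N 1 = 1 := by
  ext1 p
  ext1
  simp [rep_val, subs_one]

lemma trace_rep_diag [Fintype κ] (N : ℕ) (d : Fin 2 → ℂ) :
    LinearMap.trace ℂ _ (rep κ N (Matrix.diagonal d)) =
      PowerSeries.coeff N (∏ p : Fin 2 × κ, PowerSeries.mk fun n => d p.1 ^ n) := by
  set s := Finset.finsuppAntidiag (Finset.univ : Finset (Fin 2 × κ)) N with hs
  have hmem : ∀ e : Fin 2 × κ →₀ ℕ, e ∈ s ↔ e.degree = N := by
    intro e
    rw [hs, Finset.mem_finsuppAntidiag, Finsupp.degree_eq_sum]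
    simp
  let v : s → Hm κ N := fun e => ⟨monomial e 1, isHomogeneous_monomial _ ((hmem _).1 e.2)⟩
  have hv : ∀ e, (v e : Pol κ) = monomial e 1 := fun _ => rfl
  have hli : LinearIndependent ℂ v := LinearIndependent.of_comp (Hm κ N).subtype
    (by
      have := (basisMonomials (Fin 2 × κ) ℂ).linearIndependent.comp
        (fun e : s => (e : Fin 2 × κ →₀ ℕ)) Subtype.val_injective
      simpa [Function.comp_def] using this)
  have hsp : ⊤ ≤ Submodule.span ℂ (Set.range v) := by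
    rintro p -
    have : p = ∑ e : s, coeff e p.1 • v e := by
      ext e
      simp only [hv, AddSubmonoidClass.coe_finsetSum, Submodule.coe_smul, coeff_sum, coeff_smul,
        coeff_monomial, smul_eq_mul, mul_ite, mul_one, mul_zero]
      by_cases he : e ∈ s
      · rw [Finset.sum_eq_single ⟨e, he⟩]
        · simp
        · intro b _ hb
          rw [if_neg fun h => hb (Subtype.ext h)]
        · simp
      · rw [IsHomogeneous.coeff_eq_zero p.2 fun h => he ((hmem _).2 h)]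
        exact (Finset.sum_eq_zero fun b _ => if_neg fun h : b.1 = e => he (h ▸ b.2)).symm
    rw [this]
    exact Submodule.sum_mem _ fun e _ => Submodule.smul_mem _ _ (Submodule.subset_span ⟨e, rfl⟩)
  let b := Module.Basis.mk hli hsp
  have hb : ∀ e, rep κ N (Matrix.diagonal d) (b e) = (∏ p, d p.1 ^ (e.1 p)) • b e := by
    intro e
    ext1
    have h1 : ∀ p : Fin 2 × κ, (∑ j, C (Matrix.diagonal d p.1 j) * X (j, p.2) : Pol κ) =
        C (d p.1) * X p := by
      rintro ⟨i, k⟩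
      fin_cases i <;> simp
    simp only [b, Module.Basis.mk_apply, rep_val, hv, Submodule.coe_smul, subs, h1]
    rw [aeval_monomial, monomial_eq, Finsupp.prod_fintype _ _ (by simp),
      Finsupp.prod_fintype _ _ (by simp)]
    simp [mul_pow, Finset.prod_mul_distrib, smul_eq_C_mul]
  rw [LinearMap.trace_eq_matrix_trace ℂ b, PowerSeries.coeff_prod, ← hs, ← Finset.sum_coe_sort s,
    Matrix.trace]
  refine Finset.sum_congr rfl fun e _ => ?_
  simp [LinearMap.toMatrix_apply, hb]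

/-- the complex matrix of a real quaternion -/
noncomputable def qm (q : ℍ[ℝ]) : Matrix (Fin 2) (Fin 2) ℂ := qmat Complex.ofRealHom Complex.I q

lemma qm_mul (x y : ℍ[ℝ]) : qm (x * y) = qm x * qm y := qmat_mul _ Complex.I_mul_I x y

lemma qm_one : qm 1 = 1 := by
  ext i j
  fin_cases i <;> fin_cases j <;> simp [qm, qmat]

lemma exists_conj (g : ℍ[ℝ]) : ∃ (u : ℍ[ℝ]) (b : ℝ), u ≠ 0 ∧
    b ^ 2 = g.imI ^ 2 + g.imJ ^ 2 + g.imK ^ 2 ∧ u * g = mkq g.re b 0 0 * u := by
  set b := √(g.imI ^ 2 + g.imJ ^ 2 + g.imK ^ 2) with hb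
  have h1 : b ^ 2 = g.imI ^ 2 + g.imJ ^ 2 + g.imK ^ 2 := Real.sq_sqrt (by positivity)
  by_cases h : mkq 0 (g.imI + b) g.imJ g.imK = 0
  · have e2 : g.imJ = 0 := congrArg (·.imJ) h
    have e3 : g.imK = 0 := congrArg (·.imK) h
    refine ⟨1, g.imI, one_ne_zero, by rw [e2, e3]; ring, ?_⟩
    ext <;> simp [e2, e3]
  · refine ⟨_, b, h, h1, ?_⟩
    ext <;> simp <;> linarith

lemma norm_sq_q (g : ℍ[ℝ]) : ‖g‖ ^ 2 = g.re ^ 2 + g.imI ^ 2 + g.imJ ^ 2 + g.imK ^ 2 := by
  rw [sq, ← Quaternion.normSq_eq_norm_mul_self, Quaternion.normSq_def']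

lemma trace_rep [Fintype κ] (N : ℕ) (g : ℍ[ℝ]) (hg : ‖g‖ = 1) :
    LinearMap.trace ℂ _ (rep κ N (qm g)) =
      PowerSeries.coeff N ((PowerSeries.mk fun n => (ch n g.re : ℂ)) ^ Fintype.card κ) := by
  obtain ⟨u, b, hu, hb, h⟩ := exists_conj g
  have h1 : g = u⁻¹ * (mkq g.re b 0 0 * u) := by rw [← h, inv_mul_cancel_left₀ hu]
  have h2 : qm (mkq g.re b 0 0) =
      Matrix.diagonal ![g.re + Complex.I * b, g.re - Complex.I * b] := by
    ext i j
    fin_cases i <;> fin_cases j <;> simp [qm, qmat]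
  have h3 : LinearMap.trace ℂ _ (rep κ N (qm g)) =
      LinearMap.trace ℂ _ (rep κ N (qm (mkq g.re b 0 0))) := by
    conv_lhs => rw [h1]
    rw [qm_mul, rep_mul, LinearMap.trace_mul_comm, ← rep_mul, ← qm_mul, mul_inv_cancel_right₀ hu]
  have h4 := norm_sq_q g
  rw [hg] at h4
  have h5 : (g.re : ℂ) ^ 2 + (b : ℂ) ^ 2 = 1 := by
    have : g.re ^ 2 + b ^ 2 = 1 := by linarith
    exact_mod_cast this
  rw [h3, h2, trace_rep_diag, Fintype.prod_prod_type_right]
  simp only [Fin.prod_univ_two, Finset.prod_const, Finset.card_univ]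
  congr 2
  ext n
  rw [PowerSeries.coeff_mul, PowerSeries.coeff_mk, ← hs_eq_ch (z := g.re + Complex.I * b)
    (w := g.re - Complex.I * b) (by linear_combination h5 - (b : ℂ) ^ 2 * Complex.I_mul_I)
    (by ring), hs]
  simp

lemma trace_rep_one (N : ℕ) (g : ℍ[ℝ]) (hg : ‖g‖ = 1) :
    (LinearMap.trace ℂ _ (rep Unit N (qm g))).re = ch N g.re := by
  rw [trace_rep N g hg]; simp

lemma trace_rep_two (N : ℕ) (g : ℍ[ℝ]) (hg : ‖g‖ = 1) :
    (LinearMap.trace ℂ _ (rep (Fin 2) (2 * N) (qm g))).re =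
      1 + ∑ k ∈ Finset.range N, (2 * k + 3) * ch (2 * (k + 1)) g.re := by
  rw [trace_rep _ g hg, ← ch_conv, Fintype.card_fin, sq, PowerSeries.coeff_mul, Complex.re_sum]
  simp

lemma eval_smul_hom {σ : Type} {N : ℕ} {p : MvPolynomial σ ℂ} (hp : p.IsHomogeneous N) (r : ℂ)
    (y : σ → ℂ) : eval (fun i => r * y i) p = r ^ N * eval y p := by
  rw [eval_eq, eval_eq, Finset.mul_sum]
  refine Finset.sum_congr rfl fun d hd => ?_
  simp only [mul_pow, Finset.prod_mul_distrib, Finset.prod_pow_eq_pow_sum]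
  rw [← hp.degree_eq_sum_deg_support hd]
  ring

lemma eq_zero_of_sphere {N : ℕ} {p : Pol (Fin 2)} (hp : p.IsHomogeneous N)
    (h : ∀ x : ℍ[ℝ], ‖x‖ = 1 → eval (fun q => qm x q.1 q.2) p = 0) : p = 0 := by
  let Y : ℍ[MvPolynomial (Fin 4) ℂ] := mkq (X 0) (X 1) (X 2) (X 3)
  let φ : Pol (Fin 2) →ₐ[ℂ] MvPolynomial (Fin 4) ℂ :=
    aeval fun q => qmat (RingHom.id _) (C Complex.I) Y q.1 q.2
  have hφ : ∀ (y : Fin 4 → ℂ) (p : Pol (Fin 2)), eval y (φ p) = eval (fun q =>
      qmat (RingHom.id _) Complex.I (mkq (y 0) (y 1) (y 2) (y 3)) q.1 q.2) p := by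
    intro y p
    induction p using MvPolynomial.induction_on with
    | C a => simp [φ]
    | add p q h1 h2 => simp [h1, h2]
    | mul_X p q h =>
      rw [map_mul, map_mul, map_mul, h]
      obtain ⟨i, j⟩ := q
      fin_cases i <;> fin_cases j <;> simp [φ, qmat, Y]
  have h1 : φ p = 0 := by
    refine funext_set (fun _ => Complex.ofReal '' Set.Ioi 0)
      (fun _ => (Set.Ioi_infinite _).image Complex.ofReal_injective.injOn) fun y hy => ?_
    choose a ha1 ha2 using fun i => hy i (Set.mem_univ i)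
    set x : ℍ[ℝ] := mkq (a 0) (a 1) (a 2) (a 3) with hx
    have hx0 : x ≠ 0 := fun h0 => (ha1 0).ne' (congrArg (·.re) h0)
    have hn : ‖x‖ ≠ 0 := norm_ne_zero_iff.2 hx0
    have hn' : (‖x‖ : ℂ) ≠ 0 := by exact_mod_cast hn
    have h2 := h (‖x‖⁻¹ • x) (by rw [norm_smul, norm_inv, norm_norm, inv_mul_cancel₀ hn])
    have h3 := eval_smul_hom hp (‖x‖ : ℂ) fun q => qm (‖x‖⁻¹ • x) q.1 q.2
    rw [h2, mul_zero] at h3
    rw [hφ, map_zero, ← h3]
    congr 2
    ext ⟨i, j⟩
    generalize ‖x‖ = r at hn'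
    fin_cases i <;> fin_cases j <;> simp [qm, qmat, hx, ← ha2] <;> field_simp
  refine MvPolynomial.funext fun w => ?_
  have h2 := hφ ![(w (0, 0) + w (1, 1)) / 2, -Complex.I * (w (0, 0) - w (1, 1)) / 2,
    (w (0, 1) - w (1, 0)) / 2, -Complex.I * (w (0, 1) + w (1, 0)) / 2] p
  rw [h1, map_zero] at h2
  rw [map_zero, h2]
  congr 2
  ext ⟨i, j⟩
  fin_cases i <;> fin_cases j <;> simp [qmat]
  · linear_combination ((w (0, 0) - w (1, 1)) / 2) * Complex.I_mul_I
  · linear_combination ((w (0, 1) + w (1, 0)) / 2) * Complex.I_mul_I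
  · linear_combination ((w (0, 1) + w (1, 0)) / 2) * Complex.I_mul_I
  · linear_combination (-(w (0, 0) - w (1, 1)) / 2) * Complex.I_mul_I

lemma eq_zero_of_sphere' {c : κ → Fin 2} (hc : Function.Injective c) {N : ℕ} {p : Pol κ}
    (hp : p.IsHomogeneous N)
    (h : ∀ x : ℍ[ℝ], ‖x‖ = 1 → eval (fun q => qm x q.1 (c q.2)) p = 0) : p = 0 := by
  have hi : Function.Injective (Prod.map id c : Fin 2 × κ → Fin 2 × Fin 2) :=
    Function.injective_id.prodMap hc
  apply rename_injective _ hi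
  rw [map_zero]
  refine eq_zero_of_sphere hp.rename_isHomogeneous fun x hx => ?_
  rw [eval_rename]
  exact h x hx

end Pool.Agent.P.MP_465281_an
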