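import Pool.Agent.P.MP_465281_an.Gap2

/-!
Rotations in the first three coordinates, reflections, bounded generation.
-/

namespace Pool.Agent.P.MP_465281_an

open scoped Classical Quaternion RealInnerProductSpace

/-- Euclidean space of dimension at least three -/
abbrev Es (m : ℕ) := EuclideanSpace ℝ (Fin (m + 3))

variable {m : ℕ}

lemma ext3 {x y : Es m} (h0 : x 0 = y 0) (h1 : x 1 = y 1) (h2 : x 2 = y 2)
    (h3 : ∀ i : Fin m, x i.succ.succ.succ = y i.succ.succ.succ) : x = y := by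
  ext i
  refine Fin.cases h0 (fun i => Fin.cases h1 (fun i => Fin.cases h2 h3 i) i) i

/-- the pure quaternion given by the first three coordinates -/
def pq (x : Es m) : ℍ[ℝ] := mkq 0 (x 0) (x 1) (x 2)

/-- rotation of the first three coordinates -/
noncomputable def rotF (g : ℍ[ℝ]) (x : Es m) : Es m := WithLp.toLp 2
  (Matrix.vecCons (g * pq x * star g).imI (Matrix.vecCons (g * pq x * star g).imJ
    (Matrix.vecCons (g * pq x * star g).imK fun i => x i.succ.succ.succ)))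

lemma rotF_0 (g : ℍ[ℝ]) (x : Es m) : rotF g x 0 = (g * pq x * star g).imI := rfl
lemma rotF_1 (g : ℍ[ℝ]) (x : Es m) : rotF g x 1 = (g * pq x * star g).imJ := rfl
lemma rotF_2 (g : ℍ[ℝ]) (x : Es m) : rotF g x 2 = (g * pq x * star g).imK := rfl
lemma rotF_3 (g : ℍ[ℝ]) (x : Es m) (i : Fin m) :
    rotF g x i.succ.succ.succ = x i.succ.succ.succ := rfl

lemma pq_rotF (g : ℍ[ℝ]) (x : Es m) : pq (rotF g x) = g * pq x * star g := by
  ext
  · simp [pq]; ring
  all_goals rfl

lemma rotF_mul (g h : ℍ[ℝ]) (x : Es m) : rotF (g * h) x = rotF g (rotF h x) := by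
  refine ext3 ?_ ?_ ?_ fun i => rfl <;>
    simp only [rotF_0, rotF_1, rotF_2, pq_rotF, star_mul, mul_assoc]

lemma rotF_neg (g : ℍ[ℝ]) (x : Es m) : rotF (-g) x = rotF g x := by
  refine ext3 ?_ ?_ ?_ fun i => rfl <;>
    simp only [rotF_0, rotF_1, rotF_2, star_neg, neg_mul, mul_neg, neg_neg]

lemma normsq3 (x : Es m) :
    ‖x‖ ^ 2 = x 0 ^ 2 + x 1 ^ 2 + x 2 ^ 2 + ∑ i : Fin m, x i.succ.succ.succ ^ 2 := by
  rw [EuclideanSpace.real_norm_sq_eq, Fin.sum_univ_succ, Fin.sum_univ_succ, Fin.sum_univ_succ]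
  simp only [← add_assoc]
  rfl

lemma continuous_rotF : Continuous fun p : ℍ[ℝ] × Es m => rotF p.1 p.2 := by
  have h1 := Quaternion.continuous_re
  have h2 := Quaternion.continuous_imI
  have h3 := Quaternion.continuous_imJ
  have h4 := Quaternion.continuous_imK
  refine (PiLp.continuous_toLp 2 _).comp (continuous_pi fun i => ?_)
  refine Fin.cases ?_ (fun i => Fin.cases ?_ (fun i => Fin.cases ?_ (fun i => ?_) i) i) i <;>
    simp [pq] <;> fun_prop

/-- rotation as a linear isometry -/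
noncomputable def rho (g : SU) : Es m ≃ₗᵢ[ℝ] Es m :=
  LinearIsometry.toLinearIsometryEquiv
    { toFun := rotF g
      map_add' := fun x y => by
        refine ext3 ?_ ?_ ?_ fun i => rfl <;> simp [rotF_0, rotF_1, rotF_2, pq] <;> ring
      map_smul' := fun c x => by
        refine ext3 ?_ ?_ ?_ fun i => rfl <;> simp [rotF_0, rotF_1, rotF_2, pq] <;> ring
      norm_map' := fun x => by
        have h1 := norm_sq_q g
        rw [SU.norm] at h1
        refine (pow_left_inj₀ (norm_nonneg _) (norm_nonneg _) two_ne_zero).1 ?_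
        rw [normsq3, normsq3]
        simp [rotF_0, rotF_1, rotF_2, rotF_3, pq]
        linear_combination (-(x 0 ^ 2 + x 1 ^ 2 + x 2 ^ 2) * (1 + (g : ℍ[ℝ]).re ^ 2 +
          (g : ℍ[ℝ]).imI ^ 2 + (g : ℍ[ℝ]).imJ ^ 2 + (g : ℍ[ℝ]).imK ^ 2)) * h1 } rfl

lemma rho_apply (g : SU) (x : Es m) : rho g x = rotF g x := rfl

/-- reflection in the hyperplane orthogonal to a vector -/
noncomputable def rf (v : Es m) : Es m ≃ₗᵢ[ℝ] Es m := (ℝ ∙ v)ᗮ.reflection

lemma rf_apply (v x : Es m) : rf v x = x - (2 * (⟪v, x⟫ / ‖v‖ ^ 2)) • v := by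
  rw [rf, Submodule.reflection_orthogonal_apply, Submodule.reflection_singleton_apply, neg_sub,
    two_smul, two_mul, add_smul]
  rfl

lemma rf_conj (k : Es m ≃ₗᵢ[ℝ] Es m) (v : Es m) : rf (k v) = k * rf v * k⁻¹ := by
  ext1 x
  simp [rf_apply, LinearIsometryEquiv.inner_map_eq_flip, LinearIsometryEquiv.inv_def]

/-- basis vectors -/
noncomputable def eb (i : Fin (m + 3)) : Es m := EuclideanSpace.single i 1

lemma rf_plane (a b : ℝ) : rf (a • eb 0 + b • eb 1 : Es m) = 1 ∨
    ∃ g : SU, rf (a • eb 0 + b • eb 1 : Es m) = rho g * rf (eb 0) := by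
  have h3 : ∀ i : Fin m, i.succ.succ.succ ≠ 1 := fun i h => by
    simpa using congrArg Fin.val h
  have h4 : (2 : Fin (m + 3)) ≠ 0 := Fin.succ_ne_zero (1 : Fin (m + 2))
  have h5 : (2 : Fin (m + 3)) ≠ 1 := fun h =>
    Fin.succ_ne_zero (0 : Fin (m + 1)) (Fin.succ_injective _ h)
  have hn : ‖(a • eb 0 + b • eb 1 : Es m)‖ ^ 2 = a ^ 2 + b ^ 2 := by
    rw [normsq3]; simp [eb, h3, h4, h5]
  by_cases h : a ^ 2 + b ^ 2 = 0
  · left
    ext1 x
    simp [rf_apply, hn, h]
  · right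
    set r := √(a ^ 2 + b ^ 2) with hr
    have h1 : r ^ 2 = a ^ 2 + b ^ 2 := Real.sq_sqrt (by positivity)
    have h2 : r ≠ 0 := fun h0 => h (by rw [← h1, h0]; ring)
    refine ⟨⟨mkq (a / r) 0 0 (b / r), ?_⟩, ?_⟩
    · rw [mem_sphere_zero_iff_norm]
      refine (pow_eq_one_iff_of_nonneg (norm_nonneg _) two_ne_zero).1 ?_
      rw [norm_sq_q]
      simp
      field_simp
      linarith
    · ext1 x
      rw [LinearIsometryEquiv.coe_mul, Function.comp_apply, rho_apply, rf_apply, hn.trans h1.symm]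
      refine ext3 ?_ ?_ ?_ fun i => ?_ <;>
        simp [rotF_0, rotF_1, rotF_2, rotF_3, pq, rf_apply, eb, inner_add_left, inner_smul_left,
          EuclideanSpace.inner_single_left, h3, h4, h5]
      · field_simp; linear_combination (x 0) * h1
      · field_simp; linear_combination (x 1) * h1
      · field_simp; linear_combination (x 2) * h1

/-- bounded generation of the orthogonal group -/
theorem bounded_gen (Good : ℝ → (Es m ≃ₗᵢ[ℝ] Es m) → Prop)
    (mono : ∀ a b g, a ≤ b → Good a g → Good b g) (one : Good 0 1)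
    (mul : ∀ a b g h, Good a g → Good b h → Good (2 * a + 2 * b) (g * h))
    (inv : ∀ a g, Good a g → Good a g⁻¹) {c : ℝ} (hc : 0 ≤ c) (h1 : ∀ g, Good c (rho g))
    (h2 : Good c (rf (eb 0))) (h3 : ∀ j, Good c (rf (eb 1 - eb j))) :
    ∃ C, 0 ≤ C ∧ ∀ g, Good C g := by
  have a1 : ∀ a b : ℝ, Good (4 * c) (rf (a • eb 0 + b • eb 1)) := by
    intro a b
    rcases rf_plane (m := m) a b with h | ⟨g, h⟩
    · rw [h]; exact mono _ _ _ (by linarith) one
    · rw [h]; exact mono _ _ _ (by linarith) (mul _ _ _ _ (h1 g) h2)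
  have a2 : ∀ j, j ≠ 0 → ∀ a b : ℝ, Good (22 * c) (rf (a • eb 0 + b • eb j)) := by
    intro j hj a b
    have e1 : rf (eb 1 - eb j) (eb 1) = eb j := Submodule.reflection_sub (by simp [eb])
    have e0 : rf (eb 1 - eb j) (eb 0) = eb 0 := by
      simp [rf_apply, eb, inner_sub_left, EuclideanSpace.inner_single_left, hj]
    have e2 : a • eb 0 + b • eb j = rf (eb 1 - eb j) (a • eb 0 + b • eb 1) := by
      rw [map_add, map_smul, map_smul, e0, e1]
    rw [e2, rf_conj]
    exact mono _ _ _ (by linarith) (mul _ _ _ _ (mul _ _ _ _ (h3 j) (a1 a b)) (inv _ _ (h3 j)))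
  have a3 : ∀ j : ℕ, ∃ C, 0 ≤ C ∧ ∀ v : Es m, (∀ i : Fin (m + 3), j < i.1 → v i = 0) →
      ∃ k, Good C k ∧ ∀ i, i ≠ 0 → k v i = 0 := by
    intro j
    induction j with
    | zero => exact ⟨0, le_rfl, fun v hv => ⟨1, one, fun i hi => hv i (Fin.pos_iff_ne_zero.2 hi)⟩⟩
    | succ j ih =>
      obtain ⟨C, hC, ih⟩ := ih
      refine ⟨2 * C + 2 * (22 * c), by positivity, fun v hv => ?_⟩
      by_cases hj : j + 1 < m + 3
      · set J : Fin (m + 3) := ⟨j + 1, hj⟩ with hJ
        have hJ0 : J ≠ 0 := by simp [hJ]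
        set u : Es m := v 0 • eb 0 + v J • eb J with hu
        have e1 : rf (u - ‖u‖ • eb 0) u = ‖u‖ • eb 0 :=
          Submodule.reflection_sub (by simp [eb, norm_smul])
        have e2 : u - ‖u‖ • eb 0 = (v 0 - ‖u‖) • eb 0 + v J • eb J := by
          generalize ‖u‖ = r
          rw [hu]; module
        have e3 : rf (u - ‖u‖ • eb 0) (v - u) = v - u := by
          rw [rf_apply, e2]
          simp [hu, eb, inner_add_left, inner_smul_left, EuclideanSpace.inner_single_left, hJ0,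
            hJ0.symm]
        have e4 : rf (u - ‖u‖ • eb 0) v = v - u + ‖u‖ • eb 0 := by
          conv_lhs => rw [← sub_add_cancel v u, map_add, e3, e1]
        obtain ⟨k, hk1, hk2⟩ := ih (rf (u - ‖u‖ • eb 0) v) (by
          intro i hi
          have hi0 : i ≠ 0 := by rintro rfl; simp at hi
          rw [e4]
          by_cases hiJ : i = J
          · simp [hu, eb, hiJ, hJ0]
          · have : v i = 0 := hv i (lt_of_le_of_ne hi fun h => hiJ (Fin.ext h.symm))
            simp [hu, eb, hiJ, hi0, this])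
        refine ⟨k * rf (u - ‖u‖ • eb 0), mul _ _ _ _ hk1 ?_, hk2⟩
        rw [e2]; exact a2 J hJ0 _ _
      · obtain ⟨k, hk1, hk2⟩ := ih v fun i hi => by omega
        exact ⟨k, mono _ _ _ (by linarith) hk1, hk2⟩
  obtain ⟨C, hC, a4⟩ := a3 (m + 3)
  have a5 : ∀ v, Good (2 * (2 * C + 2 * (4 * c)) + 2 * C) (rf v) := by
    intro v
    obtain ⟨k, hk1, hk2⟩ := a4 v fun i hi => by omega
    have e1 : k v = k v 0 • eb 0 + (0 : ℝ) • eb 1 := by
      ext i
      by_cases hi : i = 0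
      · simp [eb, hi]
      · simp [eb, hi, hk2 i hi]
    have e2 : rf v = k⁻¹ * rf (k v) * k := by rw [rf_conj]; group
    rw [e2, e1]
    exact mul _ _ _ _ (mul _ _ _ _ (inv _ _ hk1) (a1 _ _)) hk1
  have a6 : ∀ L : ℕ, ∃ C, 0 ≤ C ∧ ∀ l : List (Es m), l.length ≤ L → Good C (l.map rf).prod := by
    intro L
    induction L with
    | zero => exact ⟨0, le_rfl, fun l hl => by simpa [List.length_eq_zero_iff.1 (Nat.le_zero.1 hl)]⟩
    | succ L ih =>
      obtain ⟨C', hC', ih⟩ := ih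
      refine ⟨2 * (2 * (2 * C + 2 * (4 * c)) + 2 * C) + 2 * C', by positivity, fun l hl => ?_⟩
      rcases l with _ | ⟨v, l⟩
      · exact mono _ _ _ (by positivity) one
      · exact mul _ _ _ _ (a5 v) (ih l (by simpa using hl))
  obtain ⟨C', hC', a7⟩ := a6 (Module.finrank ℝ (Es m))
  refine ⟨C', hC', fun g => ?_⟩
  obtain ⟨l, hl1, hl2⟩ := g.reflections_generate_dim
  rw [hl2]
  exact a7 l hl1

end Pool.Agent.P.MP_465281_an
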