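import Pool.Agent.P.MP_465281_an.Sph1
import Pool.Agent.P.MP_465281_an.Family

/-!
The spectral gap on spheres and the uniqueness theorem.
-/

namespace Pool.Agent.P.MP_465281_an

open scoped Classical Quaternion RealInnerProductSpace ENNReal Pointwise
open MeasureTheory Set Metric Filter

/-- bounded measurable functions -/
def Bd {Y : Type*} [MeasurableSpace Y] (f : Y → ℂ) : Prop := Measurable f ∧ ∃ C, ∀ x, ‖f x‖ ≤ C

section
variable {Y Z : Type*} [MeasurableSpace Y] [MeasurableSpace Z]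

lemma Bd.comp {f : Y → ℂ} (hf : Bd f) {g : Z → Y} (hg : Measurable g) : Bd fun x => f (g x) :=
  ⟨hf.1.comp hg, hf.2.imp fun _ h _ => h _⟩

lemma Bd.sub {f g : Y → ℂ} (hf : Bd f) (hg : Bd g) : Bd fun x => f x - g x := by
  obtain ⟨C, hC⟩ := hf.2
  obtain ⟨D, hD⟩ := hg.2
  exact ⟨hf.1.sub hg.1, C + D, fun x => (norm_sub_le _ _).trans (add_le_add (hC x) (hD x))⟩

lemma Bd.const (c : ℂ) : Bd fun _ : Y => c := ⟨measurable_const, ‖c‖, fun _ => le_rfl⟩

lemma Bd.memLp {f : Y → ℂ} (hf : Bd f) (μ : Measure Y) [IsFiniteMeasure μ] (p : ℝ≥0∞) :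
    MemLp f p μ := by
  obtain ⟨C, hC⟩ := hf.2
  exact MemLp.of_bound hf.1.aestronglyMeasurable C (Eventually.of_forall hC)

lemma Bd.int {f : Y → ℂ} (hf : Bd f) (μ : Measure Y) [IsFiniteMeasure μ] : Integrable f μ :=
  memLp_one_iff_integrable.1 (hf.memLp μ 1)

lemma Bd.intsq {f : Y → ℂ} (hf : Bd f) (μ : Measure Y) [IsFiniteMeasure μ] :
    Integrable (fun x => ‖f x‖ ^ 2) μ :=
  (memLp_two_iff_integrable_sq_norm hf.1.aestronglyMeasurable).1 (hf.memLp μ 2)

lemma Bd.ind {A : Set Y} (hA : MeasurableSet A) : Bd (A.indicator (1 : Y → ℂ)) :=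
  ⟨measurable_one.indicator hA, 1, fun x => by by_cases hx : x ∈ A <;> simp [hx]⟩

lemma int_ind (μ : Measure Y) {A : Set Y} (hA : MeasurableSet A) :
    ∫ x, ‖A.indicator (1 : Y → ℂ) x‖ ^ 2 ∂μ = μ.real A := by
  rw [← integral_indicator_one hA]
  congr 1
  ext x; by_cases hx : x ∈ A <;> simp [hx]

end

/-- the unit sphere -/
abbrev Sp (m : ℕ) := sphere (0 : Es m) 1

variable {m : ℕ}

/-- the isometry of the sphere induced by an orthogonal map -/
noncomputable def sph (g : Es m ≃ₗᵢ[ℝ] Es m) : Sp m ≃ᵢ Sp m where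
  toFun x := ⟨g x, by simp⟩
  invFun x := ⟨g.symm x, by simp⟩
  left_inv x := by simp
  right_inv x := by simp
  isometry_toFun := Isometry.of_dist_eq fun x y => by simp [Subtype.dist_eq]

lemma sph_mul (g h : Es m ≃ₗᵢ[ℝ] Es m) (x : Sp m) : sph (g * h) x = sph g (sph h x) := rfl

lemma sph_one (x : Sp m) : sph 1 x = x := rfl

lemma sph_meas (g : Es m ≃ₗᵢ[ℝ] Es m) : Measurable (sph g) := (sph g).continuous.measurable

lemma sph_trans (x y : Sp m) : ∃ g, sph g x = y :=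
  ⟨rf (x - y), Subtype.ext (Submodule.reflection_sub (by simp))⟩

/-- normalised surface measure -/
noncomputable def lam (m : ℕ) : Measure (Sp m) :=
  ((volume : Measure (Es m)).toSphere univ)⁻¹ • (volume : Measure (Es m)).toSphere

lemma lam_prob : IsProbabilityMeasure (lam m) := by
  have : NeZero (volume : Measure (Es m)).toSphere := ⟨Measure.toSphere_ne_zero _⟩
  unfold lam
  infer_instance

attribute [local instance] msSU bsSU mG_haar mG_prob lam_prob

lemma lam_mp (g : Es m ≃ₗᵢ[ℝ] Es m) : MeasurePreserving (sph g) (lam m) (lam m) := by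
  refine MeasurePreserving.smul_measure ⟨sph_meas g, ?_⟩ _
  ext s hs
  rw [Measure.map_apply (sph_meas g) hs, Measure.toSphere_apply' _ hs,
    Measure.toSphere_apply' _ (sph_meas g hs),
    ← g.measurePreserving.measure_preimage_emb g.toHomeomorph.measurableEmbedding
      (Ioo (0 : ℝ) 1 • (Subtype.val '' s))]
  congr 2
  ext y
  simp only [Set.mem_smul, mem_preimage, mem_image]
  constructor
  · rintro ⟨t, ht, _, ⟨x, hx, rfl⟩, rfl⟩
    exact ⟨t, ht, _, ⟨_, hx, rfl⟩, (map_smul g t _).symm⟩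
  · rintro ⟨t, ht, _, ⟨x, hx, rfl⟩, h⟩
    refine ⟨t, ht, _, ⟨(sph g).symm x, by simpa using hx, rfl⟩, g.injective ?_⟩
    rw [← h, map_smul]
    congr 1
    exact g.apply_symm_apply _

lemma int_sph {ν : Measure (Sp m)} {g : Es m ≃ₗᵢ[ℝ] Es m} (h : MeasurePreserving (sph g) ν ν)
    {V : Type*} [NormedAddCommGroup V] [NormedSpace ℝ V] (u : Sp m → V) :
    ∫ x, u (sph g x) ∂ν = ∫ x, u x ∂ν :=
  h.integral_comp (sph g).toHomeomorph.measurableEmbedding u

lemma avg_fubini {Γ : Type*} [MeasurableSpace Γ] (η : Measure Γ) [IsProbabilityMeasure η]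
    (T : Γ → Es m ≃ₗᵢ[ℝ] Es m) (hT : Measurable fun p : Γ × Sp m => sph (T p.1) p.2)
    (ν : Measure (Sp m)) [IsFiniteMeasure ν] (hν : ∀ g, MeasurePreserving (sph g) ν ν)
    {f : Sp m → ℂ} (hf : Bd f) :
    Integrable (fun x => ∫ γ, ‖f (sph (T γ) x)‖ ^ 2 ∂η) ν ∧
      ∫ x, ‖f x‖ ^ 2 ∂ν = ∫ x, ∫ γ, ‖f (sph (T γ) x)‖ ^ 2 ∂η ∂ν := by
  have h1 := (hf.comp hT).intsq (η.prod ν)
  refine ⟨h1.integral_prod_right, ?_⟩
  rw [← integral_integral_swap (f := fun γ x => ‖f (sph (T γ) x)‖ ^ 2) h1]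
  simp only [int_sph (hν _) fun x => ‖f x‖ ^ 2]
  simp

/-- displacement -/
noncomputable def DD (g : Es m ≃ₗᵢ[ℝ] Es m) (f : Sp m → ℂ) : ℝ :=
  ∫ x, ‖f (sph g x) - f x‖ ^ 2 ∂lam m

lemma DD_nonneg (g : Es m ≃ₗᵢ[ℝ] Es m) (f : Sp m → ℂ) : 0 ≤ DD g f :=
  integral_nonneg fun _ => sq_nonneg _

lemma DD_inv (g : Es m ≃ₗᵢ[ℝ] Es m) (f : Sp m → ℂ) : DD g⁻¹ f = DD g f := by
  rw [DD, ← int_sph (lam_mp g), DD]
  simp only [← sph_mul, inv_mul_cancel, sph_one, norm_sub_rev]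

lemma DD_mul (g h : Es m ≃ₗᵢ[ℝ] Es m) {f : Sp m → ℂ} (hf : Bd f) :
    DD (g * h) f ≤ 2 * DD g f + 2 * DD h f := by
  have h1 := (((hf.comp (sph_meas g)).sub hf).comp (sph_meas h)).intsq (lam m)
  have h2 := ((hf.comp (sph_meas h)).sub hf).intsq (lam m)
  rw [DD, DD, ← int_sph (lam_mp h) fun x => ‖f (sph g x) - f x‖ ^ 2, DD, ← integral_const_mul,
    ← integral_const_mul, ← integral_add (h1.const_mul _) (h2.const_mul _)]
  refine integral_mono_of_nonneg (Eventually.of_forall fun x => sq_nonneg _)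
    ((h1.const_mul _).add (h2.const_mul _)) (Eventually.of_forall fun x => ?_)
  have h3 := norm_add_le (f (sph g (sph h x)) - f (sph h x)) (f (sph h x) - f x)
  rw [sub_add_sub_cancel] at h3
  have h4 := pow_le_pow_left₀ (norm_nonneg _) h3 2
  simp only [sph_mul]
  nlinarith [sq_nonneg (‖f (sph g (sph h x)) - f (sph h x)‖ - ‖f (sph h x) - f x‖)]

lemma rho_kazhdan : ∃ (F : Finset SU) (c : ℝ), 0 ≤ c ∧ ∀ f : Sp m → ℂ, Bd f → ∀ h : SU,
    DD (rho h) f ≤ c * ∑ s ∈ F, DD (rho s) f := by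
  obtain ⟨F, c, hc, h⟩ := su_kazhdan
  refine ⟨F, c, hc, fun f hf g => ?_⟩
  have hT : Continuous fun p : SU × Sp m => sph (rho p.1) p.2 :=
    Continuous.subtype_mk (continuous_rotF.comp
      (continuous_subtype_val.prodMap continuous_subtype_val)) _
  have h1 := fun s : SU => avg_fubini mG rho hT.measurable (lam m) lam_mp
    ((hf.comp (sph_meas (rho s))).sub hf)
  simp only [DD, fun s => (h1 s).2]
  rw [← integral_finsetSum _ fun s _ => (h1 s).1, ← integral_const_mul]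
  refine integral_mono (h1 g).1 ((integrable_finsetSum _ fun s _ => (h1 s).1).const_mul _)
    fun x => ?_
  have h2 : ∀ s t : SU, sph (rho s) (sph (rho t) x) = sph (rho (s * t)) x := fun s t =>
    Subtype.ext (rotF_mul _ _ _).symm
  simp only [h2]
  refine h (fun t => f (sph (rho t) x))
    ((hf.comp (hT.comp (Continuous.prodMk_left x)).measurable).memLp _ _) (fun t => ?_) g
  congr 1
  refine Subtype.ext ?_
  change rotF ((-1 * t : SU) : ℍ[ℝ]) (x : Es m) = rotF t x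
  rw [neg_one_mul, coe_neg_sphere, rotF_neg]

lemma all_kazhdan : ∃ (F : Finset (Es m ≃ₗᵢ[ℝ] Es m)) (c : ℝ), 1 ∈ F ∧ 0 ≤ c ∧
    ∀ f : Sp m → ℂ, Bd f → ∀ g, DD g f ≤ c * ∑ s ∈ F, DD s f := by
  obtain ⟨F, c, hc, h⟩ := rho_kazhdan (m := m)
  set F' : Finset (Es m ≃ₗᵢ[ℝ] Es m) := insert 1 (insert (rf (eb 0))
    (F.image rho ∪ Finset.univ.image fun j => rf (eb 1 - eb j))) with hF'
  have hK : ∀ f, 0 ≤ ∑ s ∈ F', DD s f := fun f => Finset.sum_nonneg fun s _ => DD_nonneg s f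
  have h1 : ∀ s ∈ F', ∀ f, DD s f ≤ ∑ s ∈ F', DD s f := fun s hs f =>
    Finset.single_le_sum (f := fun s => DD s f) (fun s _ => DD_nonneg s f) hs
  have h2 : ∀ s ∈ F', ∀ f, DD s f ≤ (c * F.card + 1) * ∑ s ∈ F', DD s f := fun s hs f =>
    (h1 s hs f).trans (le_mul_of_one_le_left (hK f) (le_add_of_nonneg_left (by positivity)))
  obtain ⟨C, hC, h3⟩ := bounded_gen (fun c g => ∀ f, Bd f → DD g f ≤ c * ∑ s ∈ F', DD s f)
    (fun a b g hab hg f hf => (hg f hf).trans (mul_le_mul_of_nonneg_right hab (hK f)))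
    (fun f _ => by simp [DD, sph_one])
    (fun a b g h hg hh f hf => (DD_mul g h hf).trans (by linarith [hg f hf, hh f hf]))
    (fun a g hg f hf => by rw [DD_inv]; exact hg f hf) (c := c * F.card + 1) (by positivity)
    (fun g f hf => (h f hf g).trans (by
      have := Finset.sum_le_card_nsmul F (fun s => DD (rho s) f) _ fun s hs =>
        h1 (rho s) (by simp only [hF', Finset.mem_insert, Finset.mem_union]
                       exact .inr (.inr (.inl (Finset.mem_image_of_mem _ hs)))) f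
      rw [nsmul_eq_mul] at this
      have := mul_le_mul_of_nonneg_left this hc
      linarith [hK f]))
    (fun f _ => h2 _ (by simp [hF']) f)
    (fun j f _ => h2 _ (by
      simp only [hF', Finset.mem_insert, Finset.mem_union]
      exact .inr (.inr (.inr (Finset.mem_image_of_mem _ (Finset.mem_univ j))))) f)
  exact ⟨F', C, by simp [hF'], hC, fun f hf g => h3 g f hf⟩

/-- the orthogonal group -/
noncomputable abbrev OO (m : ℕ) := unitary (Es m →L[ℝ] Es m)

lemma star_cont : ContinuousStar (Es m →L[ℝ] Es m) :=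
  ⟨(ContinuousLinearMap.adjoint : (Es m →L[ℝ] Es m) ≃ₗᵢ⋆[ℝ] (Es m →L[ℝ] Es m)).continuous⟩

attribute [local instance] star_cont

lemma OO_compact : CompactSpace (OO m) := by
  refine isCompact_iff_compactSpace.1 (Metric.isCompact_of_isClosed_isBounded isClosed_unitary ?_)
  refine (isBounded_closedBall (x := 0) (r := 1)).subset fun u hu => ?_
  rw [mem_closedBall_zero_iff]
  exact (CStarRing.norm_of_mem_unitary hu).le

lemma exists_unif : ∃ (Γ : Type) (_ : MeasurableSpace Γ) (η : Measure Γ)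
    (_ : IsProbabilityMeasure η) (T : Γ → Es m ≃ₗᵢ[ℝ] Es m),
    (Measurable fun p : Γ × Sp m => sph (T p.1) p.2) ∧ ∀ (u : Sp m → ℝ) (x y : Sp m),
      ∫ γ, u (sph (T γ) x) ∂η = ∫ γ, u (sph (T γ) y) ∂η := by
  let _ : MeasurableSpace (OO m) := borel _
  have : BorelSpace (OO m) := ⟨rfl⟩
  have := OO_compact (m := m)
  refine ⟨OO m, inferInstance, Measure.haarMeasure ⊤, ⟨Measure.haarMeasure_self⟩,
    fun γ => Unitary.linearIsometryEquiv γ⁻¹, Continuous.measurable ?_, fun u x y => ?_⟩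
  · refine Continuous.subtype_mk ?_ _
    change Continuous fun p : OO m × Sp m => ((p.1⁻¹ : OO m) : Es m →L[ℝ] Es m) p.2
    fun_prop
  · obtain ⟨k, rfl⟩ := sph_trans x y
    rw [← integral_mul_left_eq_self _ (Unitary.linearIsometryEquiv.symm k)⁻¹]
    simp only [mul_inv_rev, inv_inv, map_mul, MulEquiv.apply_symm_apply, sph_mul]

lemma unif {Γ : Type} [MeasurableSpace Γ] (η : Measure Γ) [IsProbabilityMeasure η]
    (T : Γ → Es m ≃ₗᵢ[ℝ] Es m) (hT : Measurable fun p : Γ × Sp m => sph (T p.1) p.2)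
    (hu : ∀ (u : Sp m → ℝ) (x y : Sp m), ∫ γ, u (sph (T γ) x) ∂η = ∫ γ, u (sph (T γ) y) ∂η)
    (ν : Measure (Sp m)) [IsProbabilityMeasure ν] (hν : ∀ g, MeasurePreserving (sph g) ν ν)
    {f : Sp m → ℂ} (hf : Bd f) (x : Sp m) :
    ∫ y, ‖f y‖ ^ 2 ∂ν = ∫ γ, ‖f (sph (T γ) x)‖ ^ 2 ∂η := by
  rw [(avg_fubini η T hT ν hν hf).2]
  simp only [fun y => hu (fun x => ‖f x‖ ^ 2) y x]
  simp

lemma inv_unique (ν : Measure (Sp m)) [IsProbabilityMeasure ν]
    (hν : ∀ g, MeasurePreserving (sph g) ν ν) {A : Set (Sp m)} (hA : MeasurableSet A) :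
    ν A = lam m A := by
  obtain ⟨Γ, _, η, _, T, hT, hu⟩ := exists_unif (m := m)
  have x : Sp m := ⟨eb 0, by simp [eb]⟩
  have h1 := unif η T hT hu ν hν (Bd.ind hA) x
  rw [← unif η T hT hu (lam m) lam_mp (Bd.ind hA) x, int_ind _ hA, int_ind _ hA] at h1
  exact (ENNReal.toReal_eq_toReal_iff' (measure_ne_top _ _) (measure_ne_top _ _)).1 h1

lemma var_le {f : Sp m → ℂ} (hf : Bd f) (h0 : ∫ x, f x ∂lam m = 0) {K : ℝ}
    (hK : ∀ g, DD g f ≤ K) : ∫ x, ‖f x‖ ^ 2 ∂lam m ≤ K := by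
  obtain ⟨Γ, _, η, _, T, hT, hu⟩ := exists_unif (m := m)
  have h1 := ((hf.comp hT).sub (hf.comp measurable_snd)).intsq (η.prod (lam m))
  have h2 : ∀ z : ℂ, ∫ x, ‖f x‖ ^ 2 ∂lam m ≤ ∫ x, ‖f x - z‖ ^ 2 ∂lam m := by
    intro z
    have a1 : Integrable (fun x => ⟪z, f x⟫) (lam m) := (hf.int _).const_inner z
    simp only [norm_sub_sq_real, real_inner_comm z]
    have a2 : Integrable (fun x => ‖f x‖ ^ 2 - 2 * ⟪z, f x⟫) (lam m) :=
      (hf.intsq _).sub (a1.const_mul _)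
    rw [integral_add a2 (integrable_const _),
      integral_sub (hf.intsq _) (a1.const_mul _), integral_const_mul, integral_inner (hf.int _), h0]
    simp
  calc ∫ x, ‖f x‖ ^ 2 ∂lam m = ∫ _y, ∫ x, ‖f x‖ ^ 2 ∂lam m ∂lam m := by simp
    _ ≤ ∫ y, ∫ γ, ‖f (sph (T γ) y) - f y‖ ^ 2 ∂η ∂lam m := by
        refine integral_mono (integrable_const _) h1.integral_prod_right fun y => ?_
        exact (h2 (f y)).trans (unif η T hT hu (lam m) lam_mp (hf.sub (Bd.const _)) y).le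
    _ = ∫ γ, DD (T γ) f ∂η :=
        (integral_integral_swap (f := fun γ y => ‖f (sph (T γ) y) - f y‖ ^ 2) h1).symm
    _ ≤ ∫ _γ, K ∂η := integral_mono h1.integral_prod_left (integrable_const _) fun γ => hK _
    _ = K := by simp

attribute [local instance] SymFam.fin SymFam.ne

/-- induced by an orthogonal map -/
def Ok (e : Sp m ≃ᵢ Sp m) : Prop := ∃ g, e = sph g

lemma bd_avg (F : SymFam (Sp m)) {f : Sp m → ℂ} (hf : Bd f) : Bd (F.avg f) := by
  obtain ⟨C, hC⟩ := hf.2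
  refine ⟨(Finset.measurable_sum _ fun i _ =>
    hf.1.comp (F.g i).continuous.measurable).const_mul _,
    ‖(Fintype.card F.ι : ℂ)⁻¹‖ * ∑ _i : F.ι, C, fun x => ?_⟩
  rw [SymFam.avg, norm_mul]
  gcongr
  exact (norm_sum_le _ _).trans (Finset.sum_le_sum fun i _ => hC _)

lemma int_avg (F : SymFam (Sp m)) (hF : ∀ i, Ok (F.g i)) {f : Sp m → ℂ} (hf : Bd f)
    (h0 : ∫ x, f x ∂lam m = 0) : ∫ x, F.avg f x ∂lam m = 0 := by
  simp only [SymFam.avg]
  rw [integral_const_mul, integral_finsetSum _ fun i _ =>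
    (hf.comp (F.g i).continuous.measurable).int _, Finset.sum_eq_zero, mul_zero]
  intro i _
  obtain ⟨g, hg⟩ := hF i
  rw [hg, int_sph (lam_mp g), h0]

lemma sphere_contract : ∃ F : SymFam (Sp m), (∀ i, Ok (F.g i)) ∧ ∃ a : ℝ, 0 ≤ a ∧ a < 1 ∧
    ∀ f : Sp m → ℂ, (Bd f ∧ ∫ x, f x ∂lam m = 0) →
      ∫ x, ‖F.avg f x‖ ^ 2 ∂lam m ≤ a * ∫ x, ‖f x‖ ^ 2 ∂lam m := by
  obtain ⟨F, c, h1F, hc, h⟩ := all_kazhdan (m := m)
  let i0 : F ⊕ F := Sum.inl ⟨1, h1F⟩
  let T : F ⊕ F → Es m ≃ₗᵢ[ℝ] Es m := Sum.elim (fun s => s) fun s => s⁻¹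
  let Fam : SymFam (Sp m) :=
    { ι := F ⊕ F
      fin := inferInstance
      ne := ⟨i0⟩
      g := fun i => sph (T i)
      σ := Equiv.sumComm _ _
      hσ := by rintro (s | s) <;> rfl }
  set M : ℝ := (Fintype.card (F ⊕ F) : ℝ) with hM
  have hM0 : 0 < M := by
    have : Nonempty (F ⊕ F) := ⟨i0⟩
    rw [hM]; exact_mod_cast Fintype.card_pos
  have hc0 : 0 < c + 1 := by linarith
  have hb : 0 < M⁻¹ * (2 + 2 * M)⁻¹ * (c + 1)⁻¹ := by positivity
  refine ⟨Fam, fun i => ⟨_, rfl⟩, max 0 (1 - M⁻¹ * (2 + 2 * M)⁻¹ * (c + 1)⁻¹), le_max_left _ _,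
    max_lt one_pos (by linarith), fun f ⟨hf, h0⟩ => ?_⟩
  have h1 : ∀ i, Integrable (fun x => ‖f (sph (T i) x)‖ ^ 2) (lam m) := fun i =>
    (hf.comp (sph_meas _)).intsq _
  have h2 : ∀ i, Integrable (fun x => ‖f (sph (T i) x) - f x‖ ^ 2) (lam m) := fun i =>
    ((hf.comp (sph_meas _)).sub hf).intsq _
  have h3 : Integrable (fun x => ∑ i, ‖f (sph (T i) x)‖ ^ 2) (lam m) :=
    integrable_finsetSum _ fun i _ => h1 i
  have h4 : Integrable (fun x => (2 + 2 * M)⁻¹ * ∑ i, ‖f (sph (T i) x) - f x‖ ^ 2) (lam m) :=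
    (integrable_finsetSum _ fun i _ => h2 i).const_mul _
  set N : ℝ := ∫ x, ‖f x‖ ^ 2 ∂lam m with hN
  have hN0 : 0 ≤ N := integral_nonneg fun x => sq_nonneg _
  have h6 : (c + 1)⁻¹ * N ≤ ∑ i, DD (T i) f := by
    rw [inv_mul_le_iff₀ hc0]
    refine (var_le hf h0 (h f hf)).trans ?_
    rw [Fintype.sum_sum_type, ← Finset.sum_coe_sort F]
    have a1 : 0 ≤ ∑ s : F, DD s f := Finset.sum_nonneg fun s _ => DD_nonneg _ f
    have a2 : 0 ≤ ∑ s : F, DD (T (Sum.inr s)) f := Finset.sum_nonneg fun s _ => DD_nonneg _ f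
    change _ ≤ (c + 1) * (∑ s : F, DD s f + _)
    nlinarith
  calc ∫ x, ‖Fam.avg f x‖ ^ 2 ∂lam m
      ≤ ∫ x, M⁻¹ * (∑ i, ‖f (sph (T i) x)‖ ^ 2 -
          (2 + 2 * M)⁻¹ * ∑ i, ‖f (sph (T i) x) - f x‖ ^ 2) ∂lam m := by
        refine integral_mono_of_nonneg (Eventually.of_forall fun x => sq_nonneg _)
          ((h3.sub h4).const_mul _) (Eventually.of_forall fun x => ?_)
        exact avg_convex (fun i => f (sph (T i) x)) i0
    _ = M⁻¹ * (M * N - (2 + 2 * M)⁻¹ * ∑ i, DD (T i) f) := by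
        rw [integral_const_mul, integral_sub h3 h4, integral_const_mul,
          integral_finsetSum _ fun i _ => h1 i, integral_finsetSum _ fun i _ => h2 i]
        simp only [int_sph (lam_mp _) fun x => ‖f x‖ ^ 2, Finset.sum_const, Finset.card_univ,
          nsmul_eq_mul, hM, hN, DD]
    _ ≤ M⁻¹ * (M * N - (2 + 2 * M)⁻¹ * ((c + 1)⁻¹ * N)) := by gcongr
    _ = (1 - M⁻¹ * (2 + 2 * M)⁻¹ * (c + 1)⁻¹) * N := by field_simp
    _ ≤ _ := by gcongr; exact le_max_right _ _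

lemma sphere_gap (a : ℝ) (ha : 0 < a) :
    ∃ F : SymFam (Sp m), (∀ i, Ok (F.g i)) ∧ ∀ B, MeasurableSet B →
      lam m B ≠ ∞ → Integrable (fun y => ‖F.avg (B.indicator 1) y‖ ^ 2) (lam m) ∧
      ∫ y, ‖F.avg (B.indicator 1) y‖ ^ 2 ∂lam m ≤ a * (lam m).real B + 2 * (lam m).real B ^ 2 := by
  obtain ⟨F0, hF0, a0, h0, h1, hc⟩ := sphere_contract (m := m)
  obtain ⟨F, hF, -, hen⟩ := power_up Ok
    (by rintro _ _ ⟨g, rfl⟩ ⟨h, rfl⟩; exact ⟨g * h, rfl⟩)
    (fun f => Bd f ∧ ∫ x, f x ∂lam m = 0) (fun f => ∫ x, ‖f x‖ ^ 2 ∂lam m)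
    (fun f => integral_nonneg fun x => sq_nonneg _) F0 hF0
    (fun f hf => ⟨bd_avg _ hf.1, int_avg _ hF0 hf.1 hf.2⟩) h0 h1 hc (ε := a / 4) (by positivity)
  refine ⟨F, hF, fun B hB _ => ⟨(bd_avg F (Bd.ind hB)).intsq _, ?_⟩⟩
  set b := (lam m).real B with hb
  have hb0 : 0 ≤ b := measureReal_nonneg
  have hb1 : b ≤ 1 := measureReal_le_one
  have hf : Bd fun x => B.indicator (1 : Sp m → ℂ) x - b := (Bd.ind hB).sub (Bd.const _)
  have h2 := hen _ ⟨hf, by
    rw [integral_sub ((Bd.ind hB).int _) (integrable_const _), Pi.one_def,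
      integral_indicator_const (1 : ℂ) hB]
    simp [hb]⟩
  have h3 : ∫ x, ‖B.indicator (1 : Sp m → ℂ) x - b‖ ^ 2 ∂lam m ≤ 2 * b := by
    calc _ ≤ ∫ x, (‖B.indicator (1 : Sp m → ℂ) x‖ ^ 2 + b) ∂lam m := by
          refine integral_mono (hf.intsq _) (((Bd.ind hB).intsq _).add (integrable_const _))
            fun x => ?_
          by_cases hx : x ∈ B
          · simp only [hx, indicator_of_mem, Pi.one_apply, norm_one]
            rw [← Complex.ofReal_one, ← Complex.ofReal_sub, Complex.norm_real, Real.norm_eq_abs,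
              sq_abs]
            nlinarith
          · simp [hx]; nlinarith
      _ = 2 * b := by
          rw [integral_add ((Bd.ind hB).intsq _) (integrable_const _), int_ind _ hB]
          simp [two_mul, hb]
  have h4 : ∀ y, F.avg (B.indicator 1) y =
      F.avg (fun x => B.indicator (1 : Sp m → ℂ) x - b) y + b := by
    intro y
    have : (Fintype.card F.ι : ℂ) ≠ 0 := by exact_mod_cast Fintype.card_ne_zero
    simp only [SymFam.avg, Finset.sum_sub_distrib, Finset.sum_const, Finset.card_univ,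
      nsmul_eq_mul]
    field_simp
    ring
  have h5 := (bd_avg F hf).intsq (lam m)
  calc _ ≤ ∫ y, (2 * ‖F.avg (fun x => B.indicator (1 : Sp m → ℂ) x - b) y‖ ^ 2 + 2 * b ^ 2)
        ∂lam m := by
        refine integral_mono_of_nonneg (Eventually.of_forall fun x => sq_nonneg _)
          ((h5.const_mul _).add (integrable_const _)) (Eventually.of_forall fun y => ?_)
        simp only [h4]
        generalize F.avg (fun x => B.indicator (1 : Sp m → ℂ) x - b) y = z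
        have a1 := pow_le_pow_left₀ (norm_nonneg _) (norm_add_le z b) 2
        rw [Complex.norm_real, Real.norm_eq_abs, abs_of_nonneg hb0] at a1
        nlinarith [sq_nonneg (‖z‖ - b)]
    _ ≤ _ := by
        rw [integral_add (h5.const_mul _) (integrable_const _), integral_const_mul]
        simp only [integral_const, probReal_univ, smul_eq_mul, one_mul]
        nlinarith

lemma lam_image (g : Es m ≃ₗᵢ[ℝ] Es m) (A : Set (Sp m)) : lam m (sph g '' A) = lam m A := by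
  rw [← (lam_mp g).measure_preimage_emb (sph g).toHomeomorph.measurableEmbedding,
    preimage_image_eq _ (sph g).injective]

lemma lam_ball (x y : Sp m) (r : ℝ) : lam m (ball x r) = lam m (ball y r) := by
  obtain ⟨g, rfl⟩ := sph_trans x y
  rw [← lam_image g, IsometryEquiv.image_ball]

lemma lam_doubling : ∃ N : ℕ, ∀ (x : Sp m) (r : ℝ), 0 < r →
    lam m (ball x (9 * r)) ≤ N * lam m (ball x r) := by
  obtain ⟨t, -, ht, hc⟩ := (isCompact_closedBall (0 : Es m) 9).finite_cover_balls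
    (e := 1 / 2) (by norm_num)
  refine ⟨ht.toFinset.card, fun x r hr => ?_⟩
  have h1 : ball x (9 * r) ⊆ ⋃ c ∈ ht.toFinset, {y : Sp m | ‖(y : Es m) - (x + r • c)‖ < r / 2} := by
    intro y hy
    have a1 : r⁻¹ • ((y : Es m) - x) ∈ closedBall (0 : Es m) 9 := by
      rw [mem_closedBall_zero_iff, norm_smul, norm_inv, Real.norm_of_nonneg hr.le,
        inv_mul_le_iff₀ hr, mul_comm, ← dist_eq_norm]
      exact le_of_lt hy
    obtain ⟨c, hc1, hc2⟩ := mem_iUnion₂.1 (hc a1)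
    refine mem_iUnion₂.2 ⟨c, by simpa using hc1, ?_⟩
    have a2 : (y : Es m) - (x + r • c) = r • (r⁻¹ • ((y : Es m) - x) - c) := by
      rw [smul_sub, smul_inv_smul₀ hr.ne']; abel
    rw [mem_ofPred_eq, a2, norm_smul, Real.norm_of_nonneg hr.le, ← dist_eq_norm]
    have := mul_lt_mul_of_pos_left (mem_ball.1 hc2) hr
    linarith
  refine (measure_mono h1).trans ((measure_biUnion_finset_le _ _).trans ?_)
  rw [← nsmul_eq_mul]
  refine Finset.sum_le_card_nsmul _ _ _ fun c _ => ?_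
  rcases {y : Sp m | ‖(y : Es m) - (x + r • c)‖ < r / 2}.eq_empty_or_nonempty with h | ⟨z, hz⟩
  · simp [h]
  · rw [lam_ball x z]
    refine measure_mono fun y hy => ?_
    have := dist_triangle_right (y : Es m) z (x + r • c)
    rw [dist_eq_norm (y : Es m) (x + _), dist_eq_norm (z : Es m) (x + _)] at this
    rw [mem_ofPred_eq] at hy hz
    rw [mem_ball, Subtype.dist_eq]
    linarith

theorem sphere_main {μ : Set (Sp m) → ℝ≥0∞} (h0 : μ ∅ = 0)
    (hadd : ∀ A B, MeasurableSet A → MeasurableSet B → Disjoint A B → μ (A ∪ B) = μ A + μ B)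
    (hinv : ∀ g A, MeasurableSet A → μ (sph g '' A) = μ A) (h1 : μ univ = 1)
    (A : Set (Sp m)) (hA : MeasurableSet A) : μ A = lam m A := by
  have h : FA μ := ⟨h0, fun A B hA hB => hadd A B hA.1 hB.1⟩
  have hadm : ∀ A : Set (Sp m), MeasurableSet A → Adm A := fun A hA =>
    ⟨hA, isBounded_of_compactSpace⟩
  have x0 : Sp m := ⟨eb 0, by simp [eb]⟩
  obtain ⟨N, hN⟩ := lam_doubling (m := m)
  have : (lam m).IsOpenPosMeasure := Measure.isOpenPosMeasure_smul _
    (ENNReal.inv_ne_zero.2 (measure_ne_top _ _))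
  obtain ⟨ν, hν⟩ := exists_measure_of_gap h (lam m) Ok
    (by rintro _ ⟨g, rfl⟩ A hA; exact hinv g A hA.1)
    (by rintro _ ⟨g, rfl⟩ A _; exact lam_image g A) (C := N) (ENNReal.natCast_ne_top N)
    (fun x r hr _ => hN x r hr)
    (fun r hr => ⟨lam m (ball x0 r), measure_ball_pos _ _ hr, fun x => (lam_ball x0 x r).le⟩)
    x0 (fun R => measure_ne_top _ _) 1 0 (fun R _ => by
      simpa [h1] using h.mono measurableSet_ball (hadm _ MeasurableSet.univ) (subset_univ _))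
    zero_le_two sphere_gap
  have : IsProbabilityMeasure ν := ⟨by rw [hν _ (hadm _ MeasurableSet.univ), h1]⟩
  rw [← hν _ (hadm _ hA)]
  refine inv_unique ν (fun g => ⟨sph_meas g, ?_⟩) hA
  ext s hs
  rw [Measure.map_apply (sph_meas g) hs, hν _ (hadm _ hs), hν _ (hadm _ (sph_meas g hs)),
    ← hinv g _ (sph_meas g hs), image_preimage_eq _ (sph g).surjective]

end Pool.Agent.P.MP_465281_an
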