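import Pool.Agent.P.MP_465281_an.Hull

/-!
Mass transport for finitely additive invariant set functions on bounded Borel sets.
-/

namespace Pool.Agent.P.MP_465281_an

open Set Metric MeasureTheory Bornology Filter Topology
open scoped ENNReal Classical

variable {X : Type*} [MetricSpace X] [MeasurableSpace X]

/-- bounded Borel sets -/
def Adm (A : Set X) : Prop := MeasurableSet A ∧ IsBounded A

lemma Adm.union {A B : Set X} (hA : Adm A) (hB : Adm B) : Adm (A ∪ B) :=
  ⟨hA.1.union hB.1, hA.2.union hB.2⟩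

lemma Adm.of_subset {A B : Set X} (hB : Adm B) (hA : MeasurableSet A) (h : A ⊆ B) : Adm A :=
  ⟨hA, hB.2.subset h⟩

lemma Adm.diff {A B : Set X} (hA : Adm A) (hB : MeasurableSet B) : Adm (A \ B) :=
  hA.of_subset (hA.1.diff hB) sdiff_subset

lemma Adm.inter {A B : Set X} (hA : Adm A) (hB : MeasurableSet B) : Adm (A ∩ B) :=
  hA.of_subset (hA.1.inter hB) inter_subset_left

lemma adm_empty : Adm (∅ : Set X) := ⟨MeasurableSet.empty, isBounded_empty⟩

lemma adm_biUnion {κ : Type*} (s : Finset κ) (f : κ → Set X) (hf : ∀ j ∈ s, Adm (f j)) :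
    Adm (⋃ j ∈ s, f j) :=
  ⟨Finset.measurableSet_biUnion s fun j hj => (hf j hj).1,
    (isBounded_biUnion_finset s).2 fun j hj => (hf j hj).2⟩

lemma adm_ball [OpensMeasurableSpace X] (x : X) (r : ℝ) : Adm (ball x r) :=
  ⟨measurableSet_ball, isBounded_ball⟩

lemma Adm.image [BorelSpace X] {A : Set X} (hA : Adm A) (g : X ≃ᵢ X) : Adm (g '' A) :=
  ⟨g.toHomeomorph.toMeasurableEquiv.measurableEmbedding.measurableSet_image.2 hA.1,
    g.isometry.lipschitz.isBounded_image hA.2⟩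

/-- finitely additive on bounded Borel sets -/
structure FA (μ : Set X → ℝ≥0∞) : Prop where
  empty : μ ∅ = 0
  add : ∀ A B, Adm A → Adm B → Disjoint A B → μ (A ∪ B) = μ A + μ B

variable {μ : Set X → ℝ≥0∞}

lemma FA.diff_add (h : FA μ) {A B : Set X} (hA : Adm A) (hB : Adm B) :
    μ (A ∪ B) = μ A + μ (B \ A) := by
  rw [← h.add A (B \ A) hA (hB.diff hA.1) disjoint_sdiff_right, union_sdiff_self]

lemma FA.mono (h : FA μ) {A B : Set X} (hA : MeasurableSet A) (hB : Adm B) (hAB : A ⊆ B) :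
    μ A ≤ μ B := by
  have := h.diff_add (hB.of_subset hA hAB) hB
  rw [union_eq_self_of_subset_left hAB] at this
  rw [this]
  exact le_self_add

lemma FA.union_le (h : FA μ) {A B : Set X} (hA : Adm A) (hB : Adm B) :
    μ (A ∪ B) ≤ μ A + μ B := by
  rw [h.diff_add hA hB]
  gcongr
  exact h.mono (hB.1.diff hA.1) hB sdiff_subset

lemma FA.biUnion_eq (h : FA μ) {κ : Type*} (s : Finset κ) (f : κ → Set X)
    (hf : ∀ j ∈ s, Adm (f j)) (hd : (s : Set κ).PairwiseDisjoint f) :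
    μ (⋃ j ∈ s, f j) = ∑ j ∈ s, μ (f j) := by
  induction s using Finset.induction_on with
  | empty => simpa using h.empty
  | insert a s ha ih =>
    rw [Finset.set_biUnion_insert, Finset.sum_insert ha,
      h.add _ _ (hf a (Finset.mem_insert_self _ _))
        (adm_biUnion s f fun j hj => hf j (Finset.mem_insert_of_mem hj)),
      ih (fun j hj => hf j (Finset.mem_insert_of_mem hj))
        (hd.subset (by simp))]
    simp only [disjoint_iUnion_right]
    intro j hj
    exact hd (by simp) (by simp [hj]) (fun e => ha (e ▸ hj))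

lemma FA.biUnion_le (h : FA μ) {κ : Type*} (s : Finset κ) (f : κ → Set X)
    (hf : ∀ j ∈ s, Adm (f j)) : μ (⋃ j ∈ s, f j) ≤ ∑ j ∈ s, μ (f j) := by
  induction s using Finset.induction_on with
  | empty => simpa using h.empty.le
  | insert a s ha ih =>
    rw [Finset.set_biUnion_insert, Finset.sum_insert ha]
    refine (h.union_le (hf a (Finset.mem_insert_self _ _))
        (adm_biUnion s f fun j hj => hf j (Finset.mem_insert_of_mem hj))).trans ?_
    gcongr
    exact ih fun j hj => hf j (Finset.mem_insert_of_mem hj)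

lemma FA.sum_le (h : FA μ) {ι : Type} [Fintype ι] {V : Set X} (hV : Adm V) (G : ι → Set X)
    (hG : ∀ i, MeasurableSet (G i)) (hGV : ∀ i, G i ⊆ V) (a b : ℕ)
    (hc : ∀ y ∈ V, a * (Finset.univ.filter fun i => y ∈ G i).card ≤ b) :
    a * ∑ i, μ (G i) ≤ b * μ V := by
  let At : Finset ι → Set X := fun J => {y | y ∈ V ∧ ∀ i, (y ∈ G i ↔ i ∈ J)}
  have hAt : ∀ J, Adm (At J) := by
    intro J
    refine hV.of_subset ?_ fun y hy => hy.1
    have : At J = V ∩ ⋂ i, {y | y ∈ G i ↔ i ∈ J} := by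
      ext y; simp [At]
    rw [this]
    refine hV.1.inter (MeasurableSet.iInter fun i => ?_)
    by_cases hi : i ∈ J
    · have : {y | y ∈ G i ↔ i ∈ J} = G i := by ext y; simp [hi]
      rw [this]; exact hG i
    · have : {y | y ∈ G i ↔ i ∈ J} = (G i)ᶜ := by ext y; simp [hi]
      rw [this]; exact (hG i).compl
  have hdis : ∀ s : Finset (Finset ι), (s : Set (Finset ι)).PairwiseDisjoint At := by
    intro s J _ J' _ hJ
    rw [Function.onFun, Set.disjoint_left]
    intro y hy hy'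
    apply hJ
    ext i
    rw [← hy.2 i, ← hy'.2 i]
  have hVe : V = ⋃ J ∈ (Finset.univ : Finset (Finset ι)), At J := by
    ext y
    simp only [Finset.mem_univ, iUnion_true, mem_iUnion]
    constructor
    · intro hy
      exact ⟨Finset.univ.filter fun i => y ∈ G i, hy, by simp⟩
    · rintro ⟨J, hJ⟩
      exact hJ.1
  have hGe : ∀ i, G i = ⋃ J ∈ (Finset.univ.filter fun J : Finset ι => i ∈ J), At J := by
    intro i
    ext y
    simp only [Finset.mem_filter, Finset.mem_univ, true_and, mem_iUnion, exists_prop]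
    constructor
    · intro hy
      exact ⟨Finset.univ.filter fun i => y ∈ G i, by simpa using hy, hGV i hy, by simp⟩
    · rintro ⟨J, hi, hJ⟩
      exact (hJ.2 i).2 hi
  have h1 : ∀ i, μ (G i) = ∑ J : Finset ι, if i ∈ J then μ (At J) else 0 := by
    intro i
    rw [hGe i, h.biUnion_eq _ _ (fun J _ => hAt J) (hdis _), Finset.sum_filter]
  have h2 : μ V = ∑ J : Finset ι, μ (At J) := by
    conv_lhs => rw [hVe]
    exact h.biUnion_eq _ _ (fun J _ => hAt J) (hdis _)
  simp_rw [h1]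
  rw [Finset.sum_comm, h2, Finset.mul_sum, Finset.mul_sum]
  refine Finset.sum_le_sum fun J _ => ?_
  rw [← Finset.sum_filter, Finset.sum_const, nsmul_eq_mul]
  have hJ : (Finset.univ.filter fun i => i ∈ J) = J := by ext i; simp
  rw [hJ]
  rcases (At J).eq_empty_or_nonempty with he | ⟨y, hy⟩
  · simp [he, h.empty]
  · have := hc y hy.1
    have hJ' : (Finset.univ.filter fun i => y ∈ G i) = J := by
      ext i; simp [hy.2 i]
    rw [hJ'] at this
    rw [← mul_assoc]
    gcongr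
    exact_mod_cast this

variable [BorelSpace X]

/-- The mass transport step. -/
lemma transport (h : FA μ) {ι : Type} [Fintype ι] [Nonempty ι] (g : ι → X ≃ᵢ X) (σ : ι ≃ ι)
    (hσ : ∀ i, g (σ i) = (g i).symm) (hinv : ∀ i A, Adm A → μ (g i '' A) = μ A)
    (U : ℕ × ℕ → Set X) (hUm : ∀ l, MeasurableSet (U l)) (hUt : ∀ l l', U l ⊆ U l' ∨ U l' ⊆ U l)
    (hU : ∀ y ∈ ⋃ l, U l, ∃ l, y ∈ U l ∧
        5 * (Finset.univ.filter fun i => g i y ∈ U l).card ≤ 2 * Fintype.card ι)
    {V : Set X} (hV : Adm V) (hVU : V ⊆ ⋃ l, U l) (hfin : μ V ≠ ∞) :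
    ∃ i, 6 * μ V ≤ 5 * μ (V ∪ g i '' V) := by
  let G : ι → Set X := fun i => {y | y ∈ V ∧ ∀ l, y ∈ U l → g i y ∈ U l}
  have hGV : ∀ i, G i ⊆ V := fun i y hy => hy.1
  have hGm : ∀ i, MeasurableSet (G i) := by
    intro i
    have : G i = V ∩ ⋂ l, ((U l)ᶜ ∪ g i ⁻¹' (U l)) := by
      ext y
      simp only [G, mem_ofPred_eq, mem_inter_iff, mem_iInter, mem_union, mem_compl_iff,
        mem_preimage, imp_iff_not_or]
    rw [this]
    exact hV.1.inter (MeasurableSet.iInter fun l =>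
      (hUm l).compl.union ((g i).continuous.measurable (hUm l)))
  have hsum : (5 : ℕ) * ∑ i, μ (G i) ≤ (2 * Fintype.card ι : ℕ) * μ V := by
    refine h.sum_le hV G hGm hGV 5 _ fun y hy => ?_
    obtain ⟨l, hl, hc⟩ := hU y (hVU hy)
    refine le_trans (Nat.mul_le_mul_left _ (Finset.card_le_card ?_)) hc
    intro i hi
    simp only [Finset.mem_filter, Finset.mem_univ, true_and] at hi ⊢
    exact hi.2 l hl
  have hstep : ∀ i, μ V ≤ μ (G i) + (μ (g i '' V \ V) + μ (G (σ i))) := by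
    intro i
    have hE : Adm (V \ G i) := hV.diff (hGm i)
    have h1 : μ V = μ (G i) + μ (V \ G i) := by
      rw [← h.diff_add (hV.of_subset (hGm i) (hGV i)) hV, union_eq_self_of_subset_left (hGV i)]
    have hA1 : Adm (g i '' V \ V) := (hV.image _).diff hV.1
    have hA2 : Adm (G (σ i)) := hV.of_subset (hGm _) (hGV _)
    have h2 : g i '' (V \ G i) ⊆ (g i '' V \ V) ∪ G (σ i) := by
      rintro _ ⟨y, ⟨hy, hyG⟩, rfl⟩
      by_cases hy' : g i y ∈ V
      · right
        refine ⟨hy', fun l' hl' => ?_⟩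
        rw [hσ, IsometryEquiv.symm_apply_apply]
        simp only [G, mem_ofPred_eq, not_and, not_forall] at hyG
        obtain ⟨l, hl1, hl2⟩ := hyG hy
        rcases hUt l l' with hh | hh
        · exact hh hl1
        · exact absurd (hh hl') hl2
      · exact Or.inl ⟨mem_image_of_mem _ hy, hy'⟩
    rw [h1, ← hinv i _ hE]
    gcongr
    exact (h.mono (hE.image _).1 (hA1.union hA2) h2).trans (h.union_le hA1 hA2)
  have hsum2 : ∑ _i : ι, μ V ≤ ∑ i, μ (G i) + (∑ i, μ (g i '' V \ V) + ∑ i, μ (G i)) := by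
    refine (Finset.sum_le_sum fun i _ => hstep i).trans (le_of_eq ?_)
    rw [Finset.sum_add_distrib, Finset.sum_add_distrib, Equiv.sum_comp σ fun i => μ (G i)]
  have hsum3 : ∑ _i : ι, μ V ≤ ∑ i, 5 * μ (g i '' V \ V) := by
    rw [← Finset.mul_sum]
    simp only [Finset.sum_const, Finset.card_univ, nsmul_eq_mul] at hsum2 ⊢
    push_cast at hsum
    have hf : 4 * ((Fintype.card ι : ℝ≥0∞) * μ V) ≠ ∞ :=
      ENNReal.mul_ne_top (by norm_num) (ENNReal.mul_ne_top (by simp) hfin)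
    refine (ENNReal.add_le_add_iff_left hf).1 ?_
    calc 4 * ((Fintype.card ι : ℝ≥0∞) * μ V) + (Fintype.card ι : ℝ≥0∞) * μ V
        = 5 * ((Fintype.card ι : ℝ≥0∞) * μ V) := by ring
      _ ≤ 5 * (∑ i, μ (G i) + (∑ i, μ (g i '' V \ V) + ∑ i, μ (G i))) := by gcongr
      _ = 2 * (5 * ∑ i, μ (G i)) + 5 * ∑ i, μ (g i '' V \ V) := by ring
      _ ≤ 2 * (2 * (Fintype.card ι : ℝ≥0∞) * μ V) + 5 * ∑ i, μ (g i '' V \ V) := by gcongr
      _ = _ := by ring
  obtain ⟨i, -, hi⟩ := ENNReal.exists_le_of_sum_le Finset.univ_nonempty hsum3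
  refine ⟨i, ?_⟩
  rw [h.diff_add hV (hV.image _)]
  calc 6 * μ V = 5 * μ V + μ V := by ring
    _ ≤ 5 * μ V + 5 * μ (g i '' V \ V) := by gcongr
    _ = _ := by ring

variable [SecondCountableTopology X]

/-- absolute continuity, quantitative form -/
lemma iterate_bound (h : FA μ) {ι : Type} [Fintype ι] [Nonempty ι] (g : ι → X ≃ᵢ X) (σ : ι ≃ ι)
    (hσ : ∀ i, g (σ i) = (g i).symm) (hinv : ∀ i A, Adm A → μ (g i '' A) = μ A)
    (lam : Measure X) [lam.OuterRegular] (hlam : ∀ i A, MeasurableSet A → lam (g i '' A) = lam A)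
    {C κ η : ℝ≥0∞}
    (hD : ∀ x r, 0 < r → r ≤ 1 → lam (ball x (9 * r)) ≤ C * lam (ball x r))
    (hP : ∀ r, 0 < r → ∃ v : ℝ≥0∞, 0 < v ∧ ∀ x, v ≤ lam (ball x r))
    (hS : SSE g lam κ η) (hκ : 2 * (κ * C) ≤ 1)
    (hfin : ∀ A, Adm A → μ A ≠ ∞) (x0 : X) (c : ℝ) (hc : ∀ i, dist (g i x0) x0 ≤ c)
    {δ : ℝ≥0∞} (hδt : δ ≠ ∞) (hδ : C * (2 * δ) ≤ η) (j : ℕ) :
    ∀ (R : ℝ) (A : Set X), MeasurableSet A → A ⊆ ball x0 R → 8 ^ j * lam A < δ →
      6 ^ j * μ A ≤ 5 ^ j * μ (ball x0 (R + j * c)) := by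
  have hc0 : 0 ≤ c := le_trans dist_nonneg (hc (Classical.arbitrary ι))
  induction j with
  | zero =>
    intro R A hA hAR _
    simpa using h.mono hA (adm_ball _ _) hAR
  | succ j ih =>
    intro R A hA hAR hAδ
    have h8 : (8 : ℝ≥0∞) ^ j * 4 ≠ 0 := by positivity
    have h8' : (8 : ℝ≥0∞) ^ j * 4 ≠ ∞ :=
      ENNReal.mul_ne_top (ENNReal.pow_ne_top (by norm_num)) (by norm_num)
    have h1 : lam A < δ / (8 ^ j * 4) := by
      rw [ENNReal.lt_div_iff_mul_lt (Or.inl h8) (Or.inl h8')]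
      refine lt_of_le_of_lt ?_ hAδ
      calc lam A * (8 ^ j * 4) = 8 ^ j * 4 * lam A := by ring
        _ ≤ 8 ^ j * 8 * lam A := by gcongr; norm_num
        _ = _ := by ring
    obtain ⟨W, hAW, hWo, hW⟩ := A.exists_isOpen_lt_of_lt _ h1
    rw [ENNReal.lt_div_iff_mul_lt (Or.inl h8) (Or.inl h8')] at hW
    have hWδ : lam W ≤ δ := by
      refine le_trans ?_ hW.le
      calc lam W = lam W * (1 * 1) := by ring
        _ ≤ lam W * (8 ^ j * 4) := by
          gcongr
          · exact one_le_pow₀ (by norm_num)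
          · norm_num
    have hWf : lam W ≠ ∞ := ne_top_of_le_ne_top hδt hWδ
    obtain ⟨U, hUm, hUt, hWU, hUl, hU⟩ :=
      exists_chain g hD hP hS hκ hWo (le_trans (by gcongr) hδ) hWf
    set V := (⋃ l, U l) ∩ ball x0 R with hVdef
    have hV : Adm V := (adm_ball x0 R).of_subset
      ((MeasurableSet.iUnion hUm).inter measurableSet_ball) inter_subset_right
    obtain ⟨i, hi⟩ := transport h g σ hσ hinv U hUm hUt hU hV inter_subset_left (hfin V hV)
    have hAV : A ⊆ V := subset_inter (hAW.trans hWU) hAR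
    have hB : V ∪ g i '' V ⊆ ball x0 (R + c) := by
      refine union_subset (inter_subset_right.trans (ball_subset_ball (by linarith))) ?_
      rintro _ ⟨y, hy, rfl⟩
      have hy2 : dist y x0 < R := hy.2
      have h3 := dist_triangle (g i y) (g i x0) x0
      rw [(g i).dist_eq] at h3
      have := hc i
      simp only [mem_ball]
      linarith
    have hVl : lam V ≤ 2 * lam W := (measure_mono inter_subset_left).trans hUl
    have hBl : 8 ^ j * lam (V ∪ g i '' V) < δ := by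
      refine lt_of_le_of_lt ?_ hW
      calc 8 ^ j * lam (V ∪ g i '' V) ≤ 8 ^ j * (lam V + lam (g i '' V)) := by
            gcongr; exact measure_union_le _ _
        _ = 8 ^ j * (lam V + lam V) := by rw [hlam i V hV.1]
        _ ≤ 8 ^ j * (2 * lam W + 2 * lam W) := by gcongr
        _ = _ := by ring
    have h5 := ih (R + c) _ (hV.union (hV.image _)).1 hB hBl
    have hR : R + c + j * c = R + (j + 1 : ℕ) * c := by push_cast; ring
    rw [hR] at h5
    calc 6 ^ (j + 1) * μ A ≤ 6 ^ (j + 1) * μ V := by gcongr; exact h.mono hA hV hAV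
      _ = 6 ^ j * (6 * μ V) := by ring
      _ ≤ 6 ^ j * (5 * μ (V ∪ g i '' V)) := by gcongr
      _ = 5 * (6 ^ j * μ (V ∪ g i '' V)) := by ring
      _ ≤ 5 * (5 ^ j * μ (ball x0 (R + (j + 1 : ℕ) * c))) := by gcongr
      _ = _ := by ring

/-- absolute continuity in epsilon-delta form -/
lemma abs_cont (h : FA μ) {ι : Type} [Fintype ι] [Nonempty ι] (g : ι → X ≃ᵢ X) (σ : ι ≃ ι)
    (hσ : ∀ i, g (σ i) = (g i).symm) (hinv : ∀ i A, Adm A → μ (g i '' A) = μ A)
    (lam : Measure X) [lam.OuterRegular] (hlam : ∀ i A, MeasurableSet A → lam (g i '' A) = lam A)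
    {C κ η : ℝ≥0∞} (hC : C ≠ ∞) (hη : η ≠ 0)
    (hD : ∀ x r, 0 < r → r ≤ 1 → lam (ball x (9 * r)) ≤ C * lam (ball x r))
    (hP : ∀ r, 0 < r → ∃ v : ℝ≥0∞, 0 < v ∧ ∀ x, v ≤ lam (ball x r))
    (hS : SSE g lam κ η) (hκ : 2 * (κ * C) ≤ 1) (x0 : X) (K : ℝ) (d : ℕ)
    (hgrow : ∀ R : ℝ, 0 ≤ R → μ (ball x0 R) ≤ ENNReal.ofReal (K * (R + 1) ^ d))
    (R : ℝ) {ε : ℝ≥0∞} (hε : ε ≠ 0) :
    ∃ δ : ℝ≥0∞, δ ≠ 0 ∧ ∀ A, MeasurableSet A → A ⊆ ball x0 R → lam A < δ → μ A ≤ ε := by
  wlog hR : 0 ≤ R generalizing R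
  · obtain ⟨δ, hδ, H⟩ := this 0 le_rfl
    exact ⟨δ, hδ, fun A hA hAR => H A hA (hAR.trans (ball_subset_ball (by linarith)))⟩
  have hfin : ∀ A, Adm A → μ A ≠ ∞ := by
    intro A hA
    obtain ⟨r, hr, hAr⟩ := hA.2.subset_ball_lt 0 x0
    exact ne_top_of_le_ne_top ENNReal.ofReal_ne_top
      ((h.mono hA.1 (adm_ball _ _) hAr).trans (hgrow r hr.le))
  obtain ⟨c, hc⟩ : ∃ c : ℝ, ∀ i, dist (g i x0) x0 ≤ c :=
    ⟨∑ i, dist (g i x0) x0, fun i =>
      Finset.single_le_sum (f := fun i => dist (g i x0) x0) (fun _ _ => dist_nonneg)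
        (Finset.mem_univ i)⟩
  have hc0 : 0 ≤ c := le_trans dist_nonneg (hc (Classical.arbitrary ι))
  obtain ⟨δ, hδ0, hδt, hδ⟩ : ∃ δ : ℝ≥0∞, δ ≠ 0 ∧ δ ≠ ∞ ∧ C * (2 * δ) ≤ η := by
    have h2C : C * 2 ≠ ∞ := ENNReal.mul_ne_top hC (by norm_num)
    obtain ⟨ε', hε', hlt⟩ := ENNReal.exists_nnreal_pos_mul_lt h2C hη
    refine ⟨ε', by exact_mod_cast hε'.ne', ENNReal.coe_ne_top, ?_⟩
    calc C * (2 * (ε' : ℝ≥0∞)) = ε' * (C * 2) := by ring
      _ ≤ η := hlt.le
  have hlim : Tendsto (fun j : ℕ => (5 / 6 : ℝ) ^ j * (|K| * (R + j * c + 1) ^ d)) atTop (𝓝 0) := by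
    have h1 : Tendsto (fun j : ℕ => ((j : ℝ) + 1) ^ d * (5 / 6 : ℝ) ^ j) atTop (𝓝 0) := by
      have h2 := (tendsto_pow_const_mul_const_pow_of_abs_lt_one d
        (r := (5 / 6 : ℝ)) (by rw [abs_of_pos] <;> norm_num))
      have h3 := (h2.comp (tendsto_add_atTop_nat 1)).mul_const (6 / 5 : ℝ)
      rw [zero_mul] at h3
      refine h3.congr fun j => ?_
      simp only [Function.comp]
      push_cast
      ring
    have h4 := h1.const_mul (|K| * (R + c + 1) ^ d)
    rw [mul_zero] at h4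
    refine squeeze_zero (fun j => by positivity) (fun j => ?_) h4
    have hj : (0 : ℝ) ≤ j := Nat.cast_nonneg j
    have h5 : R + j * c + 1 ≤ (R + c + 1) * (j + 1) := by nlinarith [mul_nonneg hR hj]
    calc (5 / 6 : ℝ) ^ j * (|K| * (R + j * c + 1) ^ d)
        ≤ (5 / 6 : ℝ) ^ j * (|K| * ((R + c + 1) * (j + 1)) ^ d) := by gcongr
      _ = _ := by rw [mul_pow]; ring
  have hlim2 := ENNReal.tendsto_ofReal hlim
  rw [ENNReal.ofReal_zero] at hlim2
  obtain ⟨j, hj⟩ := (hlim2.eventually (ge_mem_nhds (pos_iff_ne_zero.2 hε))).exists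
  have h8 : (8 : ℝ≥0∞) ^ j ≠ 0 := by positivity
  have h8' : (8 : ℝ≥0∞) ^ j ≠ ∞ := ENNReal.pow_ne_top (by norm_num)
  refine ⟨δ / 8 ^ j, ENNReal.div_ne_zero.2 ⟨hδ0, h8'⟩, fun A hA hAR hAδ => ?_⟩
  rw [ENNReal.lt_div_iff_mul_lt (Or.inl h8) (Or.inl h8'), mul_comm] at hAδ
  have h1 := iterate_bound h g σ hσ hinv lam hlam hD hP hS hκ hfin x0 c hc hδt hδ j R A hA hAR hAδ
  have hj0 : (0 : ℝ) ≤ R + j * c := by positivity
  have h2 := hgrow (R + j * c) hj0
  have h6 : (6 : ℝ≥0∞) ^ j ≠ 0 := by positivity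
  have h6' : (6 : ℝ≥0∞) ^ j ≠ ∞ := ENNReal.pow_ne_top (by norm_num)
  refine le_trans ?_ hj
  refine (ENNReal.mul_le_mul_iff_right h6 h6').1 (h1.trans ?_)
  calc 5 ^ j * μ (ball x0 (R + j * c))
      ≤ 5 ^ j * ENNReal.ofReal (|K| * (R + j * c + 1) ^ d) := by
        gcongr
        refine h2.trans (ENNReal.ofReal_le_ofReal ?_)
        gcongr
        exact le_abs_self K
    _ = ENNReal.ofReal (5 ^ j * (|K| * (R + j * c + 1) ^ d)) := by
        rw [ENNReal.ofReal_mul (p := 5 ^ j) (by positivity),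
          ENNReal.ofReal_pow (p := 5) (by norm_num)]
        norm_num
    _ = ENNReal.ofReal (6 ^ j * ((5 / 6 : ℝ) ^ j * (|K| * (R + j * c + 1) ^ d))) := by
        congr 1
        rw [← mul_assoc ((6 : ℝ) ^ j), ← mul_pow]
        norm_num
    _ = _ := by
        rw [ENNReal.ofReal_mul (p := 6 ^ j) (by positivity),
          ENNReal.ofReal_pow (p := 6) (by norm_num)]
        norm_num

omit [SecondCountableTopology X] in
/-- From absolute continuity to a countably additive measure. -/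
lemma exists_measure (h : FA μ) (lam : Measure X) (x0 : X)
    (hlf : ∀ R, lam (ball x0 R) ≠ ∞)
    (hac : ∀ (R : ℝ) (ε : ℝ≥0∞), ε ≠ 0 →
      ∃ δ : ℝ≥0∞, δ ≠ 0 ∧ ∀ A, MeasurableSet A → A ⊆ ball x0 R → lam A < δ → μ A ≤ ε) :
    ∃ ν : Measure X, ∀ A, Adm A → ν A = μ A := by
  have hca : ∀ (R : ℝ) (f : ℕ → Set X), (∀ i, MeasurableSet (f i)) → Pairwise (Function.onFun Disjoint f) →
      (∀ i, f i ⊆ ball x0 R) → μ (⋃ i, f i) = ∑' i, μ (f i) := by
    intro R f hf hd hR
    have hA : ∀ i, Adm (f i) := fun i => (adm_ball x0 R).of_subset (hf i) (hR i)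
    have hU : Adm (⋃ i, f i) :=
      (adm_ball x0 R).of_subset (MeasurableSet.iUnion hf) (iUnion_subset hR)
    have hfs : ∀ s : Finset ℕ, μ (⋃ i ∈ s, f i) = ∑ i ∈ s, μ (f i) := fun s =>
      h.biUnion_eq s f (fun i _ => hA i) (fun a _ b _ hab => hd hab)
    apply le_antisymm
    · refine ENNReal.le_of_forall_pos_le_add fun ε hε _ => ?_
      obtain ⟨δ, hδ, H⟩ := hac R ε (by exact_mod_cast hε.ne')
      have hs : ∑' i, lam (f i) ≠ ∞ := by
        rw [← measure_iUnion hd hf]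
        exact ne_top_of_le_ne_top (hlf R) (measure_mono (iUnion_subset hR))
      have ht := ENNReal.tendsto_sum_nat_add _ hs
      obtain ⟨N, hN⟩ := (ht.eventually (gt_mem_nhds (pos_iff_ne_zero.2 hδ))).exists
      have hT : Adm (⋃ k, f (k + N)) :=
        (adm_ball x0 R).of_subset (MeasurableSet.iUnion fun k => hf _)
          (iUnion_subset fun k => hR _)
      have hsub : (⋃ i, f i) ⊆ (⋃ i ∈ Finset.range N, f i) ∪ ⋃ k, f (k + N) := by
        intro y hy
        obtain ⟨i, hi⟩ := mem_iUnion.1 hy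
        by_cases hiN : i < N
        · exact Or.inl (mem_biUnion (by simpa using hiN) hi)
        · refine Or.inr (mem_iUnion.2 ⟨i - N, ?_⟩)
          rwa [Nat.sub_add_cancel (not_lt.1 hiN)]
      have hF : Adm (⋃ i ∈ Finset.range N, f i) := adm_biUnion _ _ fun i _ => hA i
      calc μ (⋃ i, f i) ≤ μ (⋃ i ∈ Finset.range N, f i) + μ (⋃ k, f (k + N)) :=
            (h.mono hU.1 (hF.union hT) hsub).trans (h.union_le hF hT)
        _ ≤ ∑' i, μ (f i) + ε := by
            gcongr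
            · rw [hfs]; exact ENNReal.sum_le_tsum _
            · exact H _ hT.1 (iUnion_subset fun k => hR _)
                ((measure_iUnion_le _).trans_lt hN)
    · rw [ENNReal.tsum_eq_iSup_sum]
      refine iSup_le fun s => ?_
      rw [← hfs]
      exact h.mono (adm_biUnion _ _ fun i _ => hA i).1 hU
        (iUnion₂_subset fun i _ => subset_iUnion _ _)
  let ann : ℕ → Set X := disjointed fun k : ℕ => ball x0 (k : ℝ)
  have hannm : ∀ k, MeasurableSet (ann k) :=
    MeasurableSet.disjointed fun _ => measurableSet_ball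
  have hanns : ∀ k, ann k ⊆ ball x0 (k : ℝ) := fun k => disjointed_subset _ k
  have hannd : Pairwise (Function.onFun Disjoint ann) := disjoint_disjointed _
  have hannU : (⋃ k, ann k) = univ := by
    rw [iUnion_disjointed]
    exact iUnion_ball_nat x0
  let m : ℕ → Measure X := fun k => Measure.ofMeasurable (fun A _ => μ (A ∩ ann k))
    (by simpa using h.empty) (by
      intro f hf hd
      rw [iUnion_inter]
      exact hca k (fun i => f i ∩ ann k) (fun i => (hf i).inter (hannm k))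
        (fun a b hab => (hd hab).mono inter_subset_left inter_subset_left)
        (fun i => inter_subset_right.trans (hanns k)))
  refine ⟨Measure.sum m, fun A hA => ?_⟩
  obtain ⟨r, -, hAr⟩ := hA.2.subset_ball_lt 0 x0
  rw [Measure.sum_apply _ hA.1]
  have : ∀ k, m k A = μ (A ∩ ann k) := fun k => Measure.ofMeasurable_apply _ hA.1
  simp_rw [this]
  rw [← hca r (fun k => A ∩ ann k) (fun k => hA.1.inter (hannm k))
    (fun a b hab => (hannd hab).mono inter_subset_right inter_subset_right)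
    (fun k => inter_subset_left.trans hAr), ← inter_iUnion, hannU, inter_univ]

end Pool.Agent.P.MP_465281_an
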