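import Pool.Agent.P.MP_465281_an.Count

/-!
Integral quaternions: many elements of norm about `p`, and the number of factorisations.
-/

namespace Pool.Agent.P.MP_465281_an

open scoped Classical Quaternion

lemma nsq_eq (x : ℍ[ℤ]) : nsq x = Quaternion.normSq x := by
  rw [Quaternion.normSq_def']; rfl

lemma nsq_mul (x y : ℍ[ℤ]) : nsq (x * y) = nsq x * nsq y := by
  simp only [nsq_eq, map_mul]

lemma nsq_star (x : ℍ[ℤ]) : nsq (star x) = nsq x := by simp [nsq]

lemma nsq_neg (x : ℍ[ℤ]) : nsq (-x) = nsq x := by simp [nsq]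

lemma nsq_smul (q : ℤ) (x : ℍ[ℤ]) : nsq (q • x) = q ^ 2 * nsq x := by
  simp [nsq]; ring

lemma imsq_smul (q : ℤ) (x : ℍ[ℤ]) : imsq (q • x) = q ^ 2 * imsq x := by
  simp [imsq]; ring

lemma nsq_nonneg (x : ℍ[ℤ]) : 0 ≤ nsq x := by unfold nsq; positivity

lemma nsq_pos {x : ℍ[ℤ]} (hx : x ≠ 0) : 0 < nsq x := by
  rw [nsq_eq]
  exact lt_of_le_of_ne Quaternion.normSq_nonneg (Quaternion.normSq_ne_zero.2 hx).symm

lemma star_mul_self' (x : ℍ[ℤ]) : star x * x = nsq x • (1 : ℍ[ℤ]) := by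
  rw [Quaternion.star_mul_self, nsq_eq, ← Quaternion.coe_mul_eq_smul, mul_one]

/-- a quaternion from its coordinates -/
def mkq {R : Type*} [Zero R] [One R] [Neg R] (a b c d : R) : ℍ[R] := ⟨a, b, c, d⟩

section
variable {R : Type*} [Zero R] [One R] [Neg R] (a b c d : R)
@[simp] lemma mkq_re : (mkq a b c d).re = a := rfl
@[simp] lemma mkq_imI : (mkq a b c d).imI = b := rfl
@[simp] lemma mkq_imJ : (mkq a b c d).imJ = c := rfl
@[simp] lemma mkq_imK : (mkq a b c d).imK = d := rfl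
end

/-- the box of integral quaternions -/
noncomputable def box (lo hi : ℤ) : Finset ℍ[ℤ] :=
  (Finset.Icc lo hi ×ˢ Finset.Icc lo hi ×ˢ Finset.Icc lo hi ×ˢ Finset.Icc lo hi).image
    fun z => mkq z.1 z.2.1 z.2.2.1 z.2.2.2

lemma mem_box {lo hi : ℤ} {x : ℍ[ℤ]} : x ∈ box lo hi ↔ (lo ≤ x.re ∧ x.re ≤ hi) ∧
    (lo ≤ x.imI ∧ x.imI ≤ hi) ∧ (lo ≤ x.imJ ∧ x.imJ ≤ hi) ∧ (lo ≤ x.imK ∧ x.imK ≤ hi) := by
  simp only [box, Finset.mem_image, Finset.mem_product, Finset.mem_Icc]
  constructor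
  · rintro ⟨z, hz, rfl⟩; exact hz
  · intro h; exact ⟨(x.re, x.imI, x.imJ, x.imK), h, rfl⟩

lemma card_box (lo hi : ℤ) : (box lo hi).card = (hi + 1 - lo).toNat ^ 4 := by
  rw [box, Finset.card_image_of_injective]
  · simp only [Finset.card_product, Int.card_Icc]; ring
  · intro z w h
    exact Prod.ext (congrArg (·.re) h) (Prod.ext (congrArg (·.imI) h)
      (Prod.ext (congrArg (·.imJ) h) (congrArg (·.imK) h)))

lemma mem_box_of_nsq {x : ℍ[ℤ]} {M : ℤ} (hM : 0 ≤ M) (h : nsq x ≤ M ^ 2) : x ∈ box (-M) M := by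
  unfold nsq at h
  have h1 := sq_nonneg x.re
  have h2 := sq_nonneg x.imI
  have h3 := sq_nonneg x.imJ
  have h4 := sq_nonneg x.imK
  exact mem_box.2 ⟨abs_le_of_sq_le_sq' (by linarith) hM, abs_le_of_sq_le_sq' (by linarith) hM,
    abs_le_of_sq_le_sq' (by linarith) hM, abs_le_of_sq_le_sq' (by linarith) hM⟩

/-- integral quaternions of norm `n` -/
noncomputable def Rn (n : ℤ) : Finset ℍ[ℤ] := (box (-(n + 1)) (n + 1)).filter fun x => nsq x = n

lemma mem_Rn {n : ℤ} {x : ℍ[ℤ]} : x ∈ Rn n ↔ nsq x = n := by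
  rw [Rn, Finset.mem_filter]
  refine ⟨fun h => h.2, fun h => ⟨?_, h⟩⟩
  have := nsq_nonneg x
  exact mem_box_of_nsq (by linarith) (by nlinarith)

/-- divisibility by an integer -/
def Dv (q : ℤ) (x : ℍ[ℤ]) : Prop := ∃ y : ℍ[ℤ], x = q • y

/-- the matrix of a quaternion -/
def qmat {A R : Type*} [CommRing A] [CommRing R] (f : A →+* R) (ι : R) (q : ℍ[A]) :
    Matrix (Fin 2) (Fin 2) R :=
  !![f q.re + ι * f q.imI, f q.imJ + ι * f q.imK; -f q.imJ + ι * f q.imK, f q.re - ι * f q.imI]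

lemma qmat_mul {A R : Type*} [CommRing A] [CommRing R] (f : A →+* R) {ι : R} (hι : ι * ι = -1)
    (x y : ℍ[A]) : qmat f ι (x * y) = qmat f ι x * qmat f ι y := by
  ext i j
  fin_cases i <;> fin_cases j <;> simp [qmat, Matrix.mul_apply, Fin.sum_univ_two]
  · linear_combination (-(f x.imI * f y.imI) - f x.imK * f y.imK) * hι
  · linear_combination (-(f x.imI * f y.imK) + f x.imK * f y.imI) * hι
  · linear_combination (-(f x.imK * f y.imI) + f x.imI * f y.imK) * hι
  · linear_combination (-(f x.imI * f y.imI) - f x.imK * f y.imK) * hι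

section modp

variable {p : ℕ} [Fact p.Prime] {ι : ZMod p}

lemma qmat_eq_zero (hp : p ≠ 2) (hι : ι * ι = -1) (x : ℍ[ℤ]) :
    qmat (Int.castRingHom (ZMod p)) ι x = 0 ↔ Dv p x := by
  constructor
  · intro h
    have h00 := congrFun (congrFun h 0) 0
    have h01 := congrFun (congrFun h 0) 1
    have h10 := congrFun (congrFun h 1) 0
    have h11 := congrFun (congrFun h 1) 1
    simp [qmat] at h00 h01 h10 h11
    have h2 : (2 : ZMod p) ≠ 0 := by
      intro h2
      have := (ZMod.natCast_eq_zero_iff 2 p).1 (by exact_mod_cast h2)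
      exact hp ((Nat.prime_dvd_prime_iff_eq Fact.out Nat.prime_two).1 this)
    have a1 : (x.re : ZMod p) = 0 :=
      (mul_eq_zero.1 (by linear_combination h00 + h11 : (2 : ZMod p) * x.re = 0)).resolve_left h2
    have a2 : (x.imI : ZMod p) = 0 :=
      (mul_eq_zero.1 (by linear_combination -ι * h00 + ι * h11 + 2 * (x.imI : ZMod p) * hι :
        (2 : ZMod p) * x.imI = 0)).resolve_left h2
    have a3 : (x.imJ : ZMod p) = 0 :=
      (mul_eq_zero.1 (by linear_combination h01 - h10 : (2 : ZMod p) * x.imJ = 0)).resolve_left h2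
    have a4 : (x.imK : ZMod p) = 0 :=
      (mul_eq_zero.1 (by linear_combination -ι * h01 - ι * h10 + 2 * (x.imK : ZMod p) * hι :
        (2 : ZMod p) * x.imK = 0)).resolve_left h2
    rw [ZMod.intCast_zmod_eq_zero_iff_dvd] at a1 a2 a3 a4
    obtain ⟨b1, e1⟩ := a1
    obtain ⟨b2, e2⟩ := a2
    obtain ⟨b3, e3⟩ := a3
    obtain ⟨b4, e4⟩ := a4
    exact ⟨mkq b1 b2 b3 b4, by ext <;> simp [*]⟩
  · rintro ⟨y, rfl⟩
    ext i j
    fin_cases i <;> fin_cases j <;> simp [qmat]

lemma dv_star_mul (hp : p ≠ 2) (hι : ι * ι = -1) {s t x : ℍ[ℤ]} (hs : Dv p (star s * x))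
    (ht : Dv p (star t * x)) (hx : ¬ Dv p x) : Dv p (star t * s) := by
  rw [← qmat_eq_zero hp hι] at hs ht hx ⊢
  rw [qmat_mul _ hι] at hs ht ⊢
  obtain ⟨j, hj⟩ : ∃ j, qmat (Int.castRingHom (ZMod p)) ι x 0 j ≠ 0 ∨
      qmat (Int.castRingHom (ZMod p)) ι x 1 j ≠ 0 := by
    by_contra hh
    push Not at hh
    apply hx
    ext i j
    fin_cases i
    · exact (hh j).1
    · exact (hh j).2
  have s0 := congrFun (congrFun hs 0) j
  have s1 := congrFun (congrFun hs 1) j
  have t0 := congrFun (congrFun ht 0) j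
  have t1 := congrFun (congrFun ht 1) j
  simp only [Matrix.mul_apply, Fin.sum_univ_two, Matrix.zero_apply] at s0 s1 t0 t1
  generalize qmat (Int.castRingHom (ZMod p)) ι x 0 j = v0 at *
  generalize qmat (Int.castRingHom (ZMod p)) ι x 1 j = v1 at *
  have key : ∀ E : ZMod p, v0 * E = 0 → v1 * E = 0 → E = 0 := fun E h0 h1 =>
    hj.elim (fun h => (mul_eq_zero.1 h0).resolve_left h) fun h => (mul_eq_zero.1 h1).resolve_left h
  simp [qmat] at s0 s1 t0 t1
  ext i k
  fin_cases i <;> fin_cases k <;> simp [qmat, Matrix.mul_apply, Fin.sum_univ_two] <;> apply key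
  · linear_combination ((s.re : ZMod p) + ι * s.imI) * t0 + ((t.imJ : ZMod p) + ι * t.imK) * s1
  · linear_combination (-(s.imJ : ZMod p) + ι * s.imK) * t0 + ((t.re : ZMod p) - ι * t.imI) * s1
  · linear_combination ((s.imJ : ZMod p) + ι * s.imK) * t0 - ((t.imJ : ZMod p) + ι * t.imK) * s0
  · linear_combination ((s.re : ZMod p) - ι * s.imI) * t0 - ((t.re : ZMod p) - ι * t.imI) * s0
  · linear_combination ((s.re : ZMod p) + ι * s.imI) * t1 - ((t.re : ZMod p) + ι * t.imI) * s1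
  · linear_combination (-(s.imJ : ZMod p) + ι * s.imK) * t1 + ((t.imJ : ZMod p) - ι * t.imK) * s1
  · linear_combination ((s.imJ : ZMod p) + ι * s.imK) * t1 + ((t.re : ZMod p) + ι * t.imI) * s0
  · linear_combination ((s.re : ZMod p) - ι * s.imI) * t1 - ((t.imJ : ZMod p) - ι * t.imK) * s0

lemma exists_small (hι : ι * ι = -1) (l : ZMod p) : ∃ y : ℍ[ℤ], 0 < nsq y ∧ nsq y < 4 * p ∧
    (p : ℤ) ∣ nsq y ∧
    qmat (Int.castRingHom (ZMod p)) ι y 0 0 + l * qmat (Int.castRingHom (ZMod p)) ι y 0 1 = 0 ∧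
    qmat (Int.castRingHom (ZMod p)) ι y 1 0 + l * qmat (Int.castRingHom (ZMod p)) ι y 1 1 = 0 := by
  have hp : p.Prime := Fact.out
  set M := Nat.sqrt p with hM
  have h1 : p < (M + 1) ^ 2 := Nat.lt_succ_sqrt' p
  have h2 : M ^ 2 < p := by
    refine lt_of_le_of_ne (Nat.sqrt_le' p) fun h => ?_
    exact hp.prime.not_isSquare ⟨M, by rw [← h, sq]⟩
  let F : ℍ[ℤ] → ZMod p × ZMod p := fun y =>
    (qmat (Int.castRingHom (ZMod p)) ι y 0 0 + l * qmat (Int.castRingHom (ZMod p)) ι y 0 1,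
    qmat (Int.castRingHom (ZMod p)) ι y 1 0 + l * qmat (Int.castRingHom (ZMod p)) ι y 1 1)
  obtain ⟨x, hx, y, hy, hxy, hF⟩ := Finset.exists_ne_map_eq_of_card_lt_of_maps_to
    (s := box 0 M) (t := Finset.univ) (f := F) (by
      rw [card_box, Finset.card_univ, Fintype.card_prod, ZMod.card]
      have : ((M : ℤ) + 1 - 0).toNat = M + 1 := by omega
      rw [this]
      calc p * p < (M + 1) ^ 2 * (M + 1) ^ 2 := Nat.mul_self_lt_mul_self h1
        _ = _ := by ring) (fun _ _ => Finset.mem_univ _)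
  simp only [F, Prod.mk.injEq] at hF
  obtain ⟨f1, f2⟩ := hF
  have g1 : qmat (Int.castRingHom (ZMod p)) ι (x - y) 0 0 +
      l * qmat (Int.castRingHom (ZMod p)) ι (x - y) 0 1 = 0 := by
    simp [qmat] at f1 ⊢
    linear_combination f1
  have g2 : qmat (Int.castRingHom (ZMod p)) ι (x - y) 1 0 +
      l * qmat (Int.castRingHom (ZMod p)) ι (x - y) 1 1 = 0 := by
    simp [qmat] at f2 ⊢
    linear_combination f2
  refine ⟨x - y, nsq_pos (sub_ne_zero.2 hxy), ?_, ?_, g1, g2⟩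
  · rw [mem_box] at hx hy
    have h3 : (M : ℤ) ^ 2 < p := by exact_mod_cast h2
    have e : ∀ a b : ℤ, 0 ≤ a ∧ a ≤ M → 0 ≤ b ∧ b ≤ M → (a - b) ^ 2 ≤ (M : ℤ) ^ 2 :=
      fun a b ha hb => sq_le_sq' (by linarith [ha.1, hb.2]) (by linarith [ha.2, hb.1])
    have e1 := e _ _ hx.1 hy.1
    have e2 := e _ _ hx.2.1 hy.2.1
    have e3 := e _ _ hx.2.2.1 hy.2.2.1
    have e4 := e _ _ hx.2.2.2 hy.2.2.2
    simp only [nsq, Quaternion.re_sub, Quaternion.imI_sub, Quaternion.imJ_sub, Quaternion.imK_sub]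
    linarith
  · rw [← ZMod.intCast_zmod_eq_zero_iff_dvd]
    generalize x - y = z at g1 g2
    simp [qmat] at g1 g2
    simp only [nsq]
    push_cast
    linear_combination ((z.re : ZMod p) - ι * z.imI) * g1 - ((z.imJ : ZMod p) + ι * z.imK) * g2
      + ((z.imI : ZMod p) ^ 2 + (z.imK : ZMod p) ^ 2) * hι

lemma exists_many (hp5 : 5 ≤ p) (hι : ι * ι = -1) :
    ∃ e : ℕ, 1 ≤ e ∧ e ≤ 3 ∧ p ≤ 3 * (Rn (e * p)).card := by
  choose y h1 h2 h3 h4 h5 using exists_small hι
  have hinj : Function.Injective y := by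
    intro l l' h
    by_contra hne
    have a1 := h4 l
    have a2 := h4 l'
    have a3 := h5 l
    have a4 := h5 l'
    rw [← h] at a2 a4
    have hne' : l - l' ≠ 0 := sub_ne_zero.2 hne
    have b1 : qmat (Int.castRingHom (ZMod p)) ι (y l) 0 1 = 0 :=
      (mul_eq_zero.1 (by linear_combination a1 - a2)).resolve_left hne'
    have b2 : qmat (Int.castRingHom (ZMod p)) ι (y l) 1 1 = 0 :=
      (mul_eq_zero.1 (by linear_combination a3 - a4)).resolve_left hne'
    rw [b1] at a1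
    rw [b2] at a3
    have h0 : qmat (Int.castRingHom (ZMod p)) ι (y l) = 0 := by
      ext i j
      fin_cases i <;> fin_cases j
      · simpa using a1
      · simpa using b1
      · simpa using a3
      · simpa using b2
    obtain ⟨z, hz⟩ := (qmat_eq_zero (by omega) hι _).1 h0
    have c1 := h1 l
    have c2 := h2 l
    rw [hz, nsq_smul] at c1 c2
    have hp' : (5 : ℤ) ≤ p := by exact_mod_cast hp5
    have : 0 < nsq z := by
      by_contra hh
      have : nsq z = 0 := le_antisymm (not_lt.1 hh) (nsq_nonneg z)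
      rw [this] at c1; simp at c1
    nlinarith
  have hcard := Finset.card_le_card_of_injOn (s := Finset.univ)
    (t := Rn ((1 : ℕ) * p) ∪ (Rn ((2 : ℕ) * p) ∪ Rn ((3 : ℕ) * p))) y (by
      intro l _
      obtain ⟨c, hc⟩ := h3 l
      have c1 := h1 l
      have c2 := h2 l
      have hp' : (5 : ℤ) ≤ p := by exact_mod_cast hp5
      have c3 : 0 < c := by
        rw [hc] at c1; exact pos_of_mul_pos_right c1 (by linarith)
      have c4 : c < 4 := by
        rw [hc] at c2; nlinarith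
      simp only [Finset.coe_union, Set.mem_union, Finset.mem_coe, mem_Rn, hc]
      interval_cases c <;> simp [mul_comm]) hinj.injOn
  rw [Finset.card_univ, ZMod.card] at hcard
  have u1 := Finset.card_union_le (Rn ((1 : ℕ) * p)) (Rn ((2 : ℕ) * p) ∪ Rn ((3 : ℕ) * p))
  have u2 := Finset.card_union_le (Rn ((2 : ℕ) * p)) (Rn ((3 : ℕ) * p))
  by_contra hh
  push Not at hh
  have k1 := hh 1 (by norm_num) (by norm_num)
  have k2 := hh 2 (by norm_num) (by norm_num)
  have k3 := hh 3 (by norm_num) (by norm_num)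
  omega

end modp

/-- products of words of length `m` -/
noncomputable def words (S : Finset ℍ[ℤ]) : ℕ → Multiset ℍ[ℤ]
  | 0 => {1}
  | m + 1 => S.val.bind fun s => (words S m).map (s * ·)

lemma nsq_words {S : Finset ℍ[ℤ]} {D : ℤ} (hS : ∀ s ∈ S, nsq s = D) (m : ℕ) :
    ∀ y ∈ words S m, nsq y = D ^ m := by
  induction m with
  | zero => intro y hy; simp only [words, Multiset.mem_singleton] at hy; simp [hy, nsq]
  | succ m ih =>
    intro y hy
    simp only [words, Multiset.mem_bind, Multiset.mem_map] at hy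
    obtain ⟨s, hs, z, hz, rfl⟩ := hy
    rw [nsq_mul, hS s hs, ih z hz, pow_succ']

lemma few_divisors {p : ℕ} [Fact p.Prime] {ι : ZMod p} (hp : p ≠ 2) (hι : ι * ι = -1) {e : ℕ}
    (he1 : 1 ≤ e) (he : e ≤ 3) {x : ℍ[ℤ]} {a : ℕ} (hx : ¬ Dv ((p : ℤ) ^ (a + 1)) x) :
    ((Rn (e * p)).filter fun s => ∃ y, x = s * y ∧ Dv ((p : ℤ) ^ a) y).card ≤ 2401 := by
  have hp0 : (p : ℤ) ≠ 0 := by exact_mod_cast (Fact.out : p.Prime).ne_zero
  rcases ((Rn (e * p)).filter fun s => ∃ y, x = s * y ∧ Dv ((p : ℤ) ^ a) y).eq_empty_or_nonempty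
    with he | ⟨t, ht⟩
  · rw [he]; simp
  obtain ⟨ht1, y0, hy0, y1, rfl⟩ := Finset.mem_filter.1 ht
  rw [mem_Rn] at ht1
  have ht0 : star t ≠ 0 := by
    intro h
    have h1 := nsq_star t
    rw [h, ht1] at h1
    have : (e : ℤ) * p ≠ 0 := mul_ne_zero (by omega) hp0
    exact this (by rw [← h1]; simp [nsq])
  have hx' : ¬ Dv p (t * y1) := by
    rintro ⟨z, hz⟩
    apply hx
    refine ⟨z, ?_⟩
    rw [hy0, mul_smul_comm, hz, smul_smul, pow_succ]
  have hd : ∀ s y : ℍ[ℤ], nsq s = e * p → Dv p (star s * (s * y)) := by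
    intro s y hs
    refine ⟨(e : ℤ) • y, ?_⟩
    rw [← mul_assoc, star_mul_self', hs, smul_mul_assoc, one_mul, smul_smul, mul_comm]
  rw [← Finset.card_image_of_injective _ (mul_right_injective₀ ht0)]
  have hb : (box (-3) 3).card = 2401 := by rw [card_box]; rfl
  refine le_trans (Finset.card_le_card (t := (box (-3) 3).image fun z => (p : ℤ) • z) ?_)
    (Finset.card_image_le.trans hb.le)
  intro w hw
  obtain ⟨s, hs, rfl⟩ := Finset.mem_image.1 hw
  obtain ⟨hs1, y, hy, y', rfl⟩ := Finset.mem_filter.1 hs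
  rw [mem_Rn] at hs1
  have hxx : s * y' = t * y1 := by
    have h1 := hy.symm.trans hy0
    rw [mul_smul_comm, mul_smul_comm] at h1
    exact smul_right_injective _ (pow_ne_zero a hp0) h1
  obtain ⟨z, hz⟩ := dv_star_mul hp hι (hxx ▸ hd s y' hs1) (hd t y1 ht1) hx'
  refine Finset.mem_image.2 ⟨z, mem_box_of_nsq (by norm_num) ?_, hz.symm⟩
  have h2 := congrArg nsq hz
  rw [nsq_mul, nsq_star, ht1, hs1, nsq_smul] at h2
  have h3 : nsq z = e ^ 2 := by
    apply mul_left_cancel₀ (pow_ne_zero 2 hp0)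
    linarith
  rw [h3]
  have : (e : ℤ) ≤ 3 := by exact_mod_cast he
  have : (0 : ℤ) ≤ e := by positivity
  nlinarith

lemma count_words {p : ℕ} [Fact p.Prime] {ι : ZMod p} (hp : p ≠ 2) (hι : ι * ι = -1) {e : ℕ}
    (he1 : 1 ≤ e) (he : e ≤ 3) (hne : 1 ≤ (Rn (e * p)).card) (m : ℕ) :
    ∀ (x : ℍ[ℤ]) (a : ℕ), ¬ Dv ((p : ℤ) ^ (a + 1)) x →
      (words (Rn (e * p)) m).count x ≤ 2402 ^ m * (Rn (e * p)).card ^ a := by
  have hp0 : (p : ℤ) ≠ 0 := by exact_mod_cast (Fact.out : p.Prime).ne_zero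
  set S := Rn (e * p) with hS
  induction m with
  | zero =>
    intro x a _
    simp only [words, pow_zero, one_mul]
    exact (Multiset.count_le_card _ _).trans (Nat.one_le_pow _ _ hne)
  | succ m ih =>
    intro x a hx
    have hterm : ∀ s ∈ S, ((words S m).map (s * ·)).count x ≤
        (if ∃ y, x = s * y ∧ Dv ((p : ℤ) ^ a) y then 2402 ^ m * S.card ^ a else 0) +
        (if a = 0 then 0 else 2402 ^ m * S.card ^ (a - 1)) := by
      intro s hs
      by_cases hy : ∃ y, x = s * y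
      · obtain ⟨y, rfl⟩ := hy
        have hs0 : s ≠ 0 := by
          rintro rfl
          rw [hS, mem_Rn] at hs
          have : (e : ℤ) * p ≠ 0 := mul_ne_zero (by omega) hp0
          exact this (by rw [← hs]; simp [nsq])
        rw [Multiset.count_map_eq_count' _ _ (mul_right_injective₀ hs0)]
        by_cases hd : Dv ((p : ℤ) ^ a) y
        · rw [if_pos ⟨y, rfl, hd⟩]
          refine le_add_right (ih y a ?_)
          rintro ⟨z, rfl⟩
          exact hx ⟨s * z, by rw [mul_smul_comm]⟩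
        · rcases a with _ | a
          · exact absurd ⟨y, by simp⟩ hd
          · simp only [Nat.succ_ne_zero, if_false, Nat.add_sub_cancel]
            exact le_add_left (ih y a hd)
      · rw [Multiset.count_eq_zero.2]
        · exact Nat.zero_le _
        · intro h
          obtain ⟨y, -, rfl⟩ := Multiset.mem_map.1 h
          exact hy ⟨y, rfl⟩
    rw [words, Multiset.count_bind]
    refine (Finset.sum_le_sum hterm).trans ?_
    rw [Finset.sum_add_distrib, ← Finset.sum_filter, Finset.sum_const, Finset.sum_const,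
      smul_eq_mul, smul_eq_mul]
    have h1 := few_divisors hp hι he1 he hx
    have h2 : S.card * (if a = 0 then 0 else 2402 ^ m * S.card ^ (a - 1)) ≤
        2402 ^ m * S.card ^ a := by
      rcases a with _ | a
      · simp
      · simp only [Nat.succ_ne_zero, if_false, Nat.add_sub_cancel]
        exact le_of_eq (by ring)
    calc _ ≤ 2401 * (2402 ^ m * S.card ^ a) + 2402 ^ m * S.card ^ a := by gcongr
      _ = _ := by ring

end Pool.Agent.P.MP_465281_an
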